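import Mathlib

/-!
# Extreme eigenvalues of Hermitian matrices via the quadratic form
-/

set_option autoImplicit false

open Matrix Finset

namespace Pool.Agent.R1.Herm

variable {𝕜 : Type*} [RCLike 𝕜] {n : Type*} [Fintype n] [DecidableEq n]

/-- the smallest eigenvalue of a Hermitian matrix (the infimum of the set of its real
eigenvalues) -/
noncomputable def lamMin (A : Matrix n n 𝕜) : ℝ :=
  sInf {μ : ℝ | Module.End.HasEigenvalue (Matrix.toLin' A) (μ : 𝕜)}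

/-- the largest eigenvalue of a Hermitian matrix (the supremum of the set of its real
eigenvalues) -/
noncomputable def lamMax (A : Matrix n n 𝕜) : ℝ :=
  sSup {μ : ℝ | Module.End.HasEigenvalue (Matrix.toLin' A) (μ : 𝕜)}

lemma star_dot_self (x : n → 𝕜) : star x ⬝ᵥ x = ((∑ i, ‖x i‖ ^ 2 : ℝ) : 𝕜) := by
  simp only [dotProduct, Pi.star_apply, RCLike.star_def]
  rw [RCLike.ofReal_sum]
  refine Finset.sum_congr rfl fun i _ => ?_
  rw [RCLike.conj_mul, RCLike.ofReal_pow]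

lemma sum_sq_pos (x : n → 𝕜) (hx : x ≠ 0) : 0 < ∑ i, ‖x i‖ ^ 2 := by
  obtain ⟨i, hi⟩ : ∃ i, x i ≠ 0 := by
    by_contra h
    push Not at h
    exact hx (funext h)
  exact Finset.sum_pos' (fun _ _ => by positivity) ⟨i, Finset.mem_univ _, by positivity⟩

lemma quad_eq (A : Matrix n n 𝕜) (hA : A.IsHermitian) (x : n → 𝕜) :
    star x ⬝ᵥ A *ᵥ x = ((∑ i, hA.eigenvalues i *
      ‖inner 𝕜 (hA.eigenvectorBasis i) (WithLp.toLp 2 x)‖ ^ 2 : ℝ) : 𝕜) := by
  have h1 : star x ⬝ᵥ A *ᵥ x = inner 𝕜 (WithLp.toLp 2 x) (WithLp.toLp 2 (A *ᵥ x)) := by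
    rw [EuclideanSpace.inner_eq_star_dotProduct, dotProduct_comm]
  rw [h1, ← OrthonormalBasis.sum_inner_mul_inner hA.eigenvectorBasis]
  rw [RCLike.ofReal_sum]
  refine Finset.sum_congr rfl fun i _ => ?_
  have h2 : inner 𝕜 (hA.eigenvectorBasis i) (WithLp.toLp 2 (A *ᵥ x)) =
      (hA.eigenvalues i : 𝕜) * inner 𝕜 (hA.eigenvectorBasis i) (WithLp.toLp 2 x) := by
    rw [EuclideanSpace.inner_eq_star_dotProduct, EuclideanSpace.inner_eq_star_dotProduct]
    have h3 := hA.mulVec_eigenvectorBasis i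
    have h4 : (A *ᵥ x) ⬝ᵥ star (hA.eigenvectorBasis i).ofLp =
        x ⬝ᵥ star (A *ᵥ (hA.eigenvectorBasis i).ofLp) := by
      rw [star_mulVec, hA.eq, dotProduct_comm, dotProduct_mulVec, dotProduct_comm]
    change (A *ᵥ x) ⬝ᵥ star (hA.eigenvectorBasis i).ofLp = _ * (x ⬝ᵥ star _)
    rw [h4, h3, star_smul, dotProduct_smul]
    simp [RCLike.real_smul_eq_coe_mul]
  rw [h2, ← inner_conj_symm (WithLp.toLp 2 x)]
  rw [RCLike.ofReal_mul, RCLike.ofReal_pow, ← RCLike.conj_mul]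
  ring

lemma norm_eq (A : Matrix n n 𝕜) (hA : A.IsHermitian) (x : n → 𝕜) :
    ∑ i, ‖inner 𝕜 (hA.eigenvectorBasis i) (WithLp.toLp 2 x)‖ ^ 2 = ∑ i, ‖x i‖ ^ 2 := by
  rw [OrthonormalBasis.sum_sq_norm_inner_right, EuclideanSpace.norm_sq_eq]

lemma eig (A : Matrix n n 𝕜) (hA : A.IsHermitian) (i : n) :
    Module.End.HasEigenvalue (Matrix.toLin' A) (hA.eigenvalues i : 𝕜) := by
  apply Module.End.hasEigenvalue_of_hasEigenvector (x := (hA.eigenvectorBasis i).ofLp)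
  rw [Module.End.hasEigenvector_iff, Module.End.mem_eigenspace_iff]
  constructor
  · rw [Matrix.toLin'_apply, hA.mulVec_eigenvectorBasis i]
    ext j
    simp [RCLike.real_smul_eq_coe_mul]
  · intro h
    have h1 := hA.eigenvectorBasis.orthonormal.1 i
    have h2 : hA.eigenvectorBasis i = 0 := by
      ext j
      exact congrFun h j
    rw [h2, norm_zero] at h1
    exact zero_ne_one h1

/-- the quadratic form at an eigenvector -/
lemma quad_of_eigen (A : Matrix n n 𝕜) {μ : ℝ}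
    (h : Module.End.HasEigenvalue (Matrix.toLin' A) (μ : 𝕜)) :
    ∃ x : n → 𝕜, x ≠ 0 ∧ A *ᵥ x = (μ : 𝕜) • x ∧
      RCLike.re (star x ⬝ᵥ A *ᵥ x) = μ * ∑ i, ‖x i‖ ^ 2 := by
  obtain ⟨x, hx⟩ := h.exists_hasEigenvector
  rw [Module.End.hasEigenvector_iff, Module.End.mem_eigenspace_iff, Matrix.toLin'_apply] at hx
  refine ⟨x, hx.2, hx.1, ?_⟩
  rw [hx.1, dotProduct_smul, star_dot_self, smul_eq_mul, ← RCLike.ofReal_mul, RCLike.ofReal_re]

/-- a lower bound of the quadratic form is a lower bound of the smallest eigenvalue -/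
theorem le_lamMin [Nonempty n] (A : Matrix n n 𝕜) (hA : A.IsHermitian) (c : ℝ)
    (h : ∀ x : n → 𝕜, c * ∑ i, ‖x i‖ ^ 2 ≤ RCLike.re (star x ⬝ᵥ A *ᵥ x)) : c ≤ lamMin A := by
  obtain ⟨i⟩ := ‹Nonempty n›
  refine le_csInf ⟨_, eig A hA i⟩ ?_
  intro μ hμ
  obtain ⟨x, hx, -, hq⟩ := quad_of_eigen A hμ
  have h1 := h x
  rw [hq] at h1
  exact le_of_mul_le_mul_right h1 (sum_sq_pos x hx)

lemma bddBelow (A : Matrix n n 𝕜) (hA : A.IsHermitian) :
    BddBelow {μ : ℝ | Module.End.HasEigenvalue (Matrix.toLin' A) (μ : 𝕜)} := by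
  refine ⟨-∑ i, |hA.eigenvalues i|, ?_⟩
  intro μ hμ
  obtain ⟨x, hx, -, hq⟩ := quad_of_eigen A hμ
  have h1 := congrArg RCLike.re (quad_eq A hA x)
  rw [RCLike.ofReal_re, hq] at h1
  have h2 : -(∑ i, |hA.eigenvalues i|) * ∑ i, ‖x i‖ ^ 2 ≤ ∑ i, hA.eigenvalues i *
      ‖inner 𝕜 (hA.eigenvectorBasis i) (WithLp.toLp 2 x)‖ ^ 2 := by
    rw [← norm_eq A hA x, Finset.mul_sum]
    refine Finset.sum_le_sum fun i _ => ?_
    refine mul_le_mul_of_nonneg_right ?_ (by positivity)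
    have h3 : |hA.eigenvalues i| ≤ ∑ i, |hA.eigenvalues i| :=
      Finset.single_le_sum (f := fun i => |hA.eigenvalues i|) (fun _ _ => abs_nonneg _)
        (Finset.mem_univ i)
    have h4 := neg_abs_le (hA.eigenvalues i)
    linarith
  rw [← h1] at h2
  exact le_of_mul_le_mul_right h2 (sum_sq_pos x hx)

/-- the smallest eigenvalue is attained -/
theorem lamMin_mem [Nonempty n] (A : Matrix n n 𝕜) (hA : A.IsHermitian) :
    Module.End.HasEigenvalue (Matrix.toLin' A) ((lamMin A : ℝ) : 𝕜) := by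
  obtain ⟨i, -, hi⟩ := Finset.exists_min_image Finset.univ hA.eigenvalues Finset.univ_nonempty
  have h1 : lamMin A = hA.eigenvalues i := by
    refine le_antisymm (csInf_le (bddBelow A hA) (eig A hA i)) ?_
    refine le_lamMin A hA _ fun x => ?_
    rw [quad_eq A hA x, RCLike.ofReal_re, ← norm_eq A hA x, Finset.mul_sum]
    exact Finset.sum_le_sum fun j _ =>
      mul_le_mul_of_nonneg_right (hi j (Finset.mem_univ _)) (by positivity)
  rw [h1]
  exact eig A hA i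

/-- the quadratic form is bounded below by the smallest eigenvalue -/
theorem lamMin_le [Nonempty n] (A : Matrix n n 𝕜) (hA : A.IsHermitian) (x : n → 𝕜) :
    lamMin A * ∑ i, ‖x i‖ ^ 2 ≤ RCLike.re (star x ⬝ᵥ A *ᵥ x) := by
  rw [quad_eq A hA x, RCLike.ofReal_re, ← norm_eq A hA x, Finset.mul_sum]
  exact Finset.sum_le_sum fun j _ =>
    mul_le_mul_of_nonneg_right (csInf_le (bddBelow A hA) (eig A hA j)) (by positivity)

/-- a test vector bounds the smallest eigenvalue from above -/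
theorem lamMin_le_of [Nonempty n] (A : Matrix n n 𝕜) (hA : A.IsHermitian) (x : n → 𝕜)
    (hx : x ≠ 0) (b : ℝ) (h : RCLike.re (star x ⬝ᵥ A *ᵥ x) ≤ b * ∑ i, ‖x i‖ ^ 2) :
    lamMin A ≤ b :=
  le_of_mul_le_mul_right ((lamMin_le A hA x).trans h) (sum_sq_pos x hx)

/-- a characterisation of the smallest eigenvalue -/
theorem le_lamMin_iff [Nonempty n] (A : Matrix n n 𝕜) (hA : A.IsHermitian) (c : ℝ) :
    c ≤ lamMin A ↔ ∀ x : n → 𝕜, c * ∑ i, ‖x i‖ ^ 2 ≤ RCLike.re (star x ⬝ᵥ A *ᵥ x) :=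
  ⟨fun h x => (mul_le_mul_of_nonneg_right h (by positivity)).trans (lamMin_le A hA x),
    le_lamMin A hA c⟩

lemma hasEigenvalue_neg (A : Matrix n n 𝕜) (μ : ℝ) :
    Module.End.HasEigenvalue (Matrix.toLin' (-A)) (μ : 𝕜) ↔
      Module.End.HasEigenvalue (Matrix.toLin' A) ((-μ : ℝ) : 𝕜) := by
  have key : ∀ (B : Matrix n n 𝕜) (ν : ℝ), Module.End.HasEigenvalue (Matrix.toLin' B) (ν : 𝕜) →
      Module.End.HasEigenvalue (Matrix.toLin' (-B)) ((-ν : ℝ) : 𝕜) := by
    intro B ν h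
    obtain ⟨x, hx⟩ := h.exists_hasEigenvector
    apply Module.End.hasEigenvalue_of_hasEigenvector (x := x)
    rw [Module.End.hasEigenvector_iff, Module.End.mem_eigenspace_iff, Matrix.toLin'_apply] at hx ⊢
    refine ⟨?_, hx.2⟩
    rw [neg_mulVec, hx.1]
    simp
  constructor
  · intro h
    have := key _ _ h
    rwa [neg_neg] at this
  · intro h
    have := key _ _ h
    rwa [neg_neg] at this

theorem lamMax_eq_neg (A : Matrix n n 𝕜) : lamMax A = -lamMin (-A) := by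
  unfold lamMax lamMin
  rw [← Real.sSup_neg]
  congr 1
  ext μ
  rw [Set.mem_neg]
  change Module.End.HasEigenvalue (Matrix.toLin' A) (μ : 𝕜) ↔
    Module.End.HasEigenvalue (Matrix.toLin' (-A)) ((-μ : ℝ) : 𝕜)
  rw [hasEigenvalue_neg A, neg_neg]

/-- the quadratic form is bounded above by the largest eigenvalue -/
theorem le_lamMax [Nonempty n] (A : Matrix n n 𝕜) (hA : A.IsHermitian) (x : n → 𝕜) :
    RCLike.re (star x ⬝ᵥ A *ᵥ x) ≤ lamMax A * ∑ i, ‖x i‖ ^ 2 := by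
  have h := lamMin_le (-A) hA.neg x
  rw [neg_mulVec, dotProduct_neg, map_neg] at h
  rw [lamMax_eq_neg]
  linarith

/-- an upper bound of the quadratic form is an upper bound of the largest eigenvalue -/
theorem lamMax_le [Nonempty n] (A : Matrix n n 𝕜) (hA : A.IsHermitian) (c : ℝ)
    (h : ∀ x : n → 𝕜, RCLike.re (star x ⬝ᵥ A *ᵥ x) ≤ c * ∑ i, ‖x i‖ ^ 2) : lamMax A ≤ c := by
  rw [lamMax_eq_neg]
  have : -c ≤ lamMin (-A) := by
    refine le_lamMin (-A) hA.neg _ fun x => ?_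
    rw [neg_mulVec, dotProduct_neg, map_neg]
    have := h x
    linarith
  linarith

end Pool.Agent.R1.Herm
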