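import Mathlib
import Pool.Agent.R1.Herm

/-!
# Energy of a graph and traces against orthogonal matrices
-/

set_option autoImplicit false

open Matrix Finset

namespace Pool.Agent.R1.Energy

section matrices

variable {n : Type*} [Fintype n] [DecidableEq n]

lemma dot_orth (X : Matrix n n ℝ) (hX : Xᵀ * X = 1) (u : n → ℝ) :
    (X *ᵥ u) ⬝ᵥ (X *ᵥ u) = u ⬝ᵥ u := by
  rw [dotProduct_mulVec, vecMul_mulVec, ← dotProduct_mulVec, hX, one_mulVec]

lemma abs_quad_le (X : Matrix n n ℝ) (hX : Xᵀ * X = 1) (u : n → ℝ) :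
    |u ⬝ᵥ (X *ᵥ u)| ≤ u ⬝ᵥ u := by
  have h0 : 0 ≤ u ⬝ᵥ u := by
    simp only [dotProduct]
    exact Finset.sum_nonneg fun i _ => mul_self_nonneg _
  have h1 : (u ⬝ᵥ (X *ᵥ u)) ^ 2 ≤ (u ⬝ᵥ u) * ((X *ᵥ u) ⬝ᵥ (X *ᵥ u)) := by
    have := Finset.sum_mul_sq_le_sq_mul_sq Finset.univ u (X *ᵥ u)
    simp only [dotProduct]
    simpa only [pow_two] using this
  rw [dot_orth X hX, ← pow_two] at h1
  exact abs_le_of_sq_le_sq h1 h0

/-- trace of `A * X` for an orthogonal matrix `X` -/
theorem trace_mul_le (A : Matrix n n ℝ) (hA : A.IsHermitian) (X : Matrix n n ℝ)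
    (hX : Xᵀ * X = 1) : (A * X).trace ≤ ∑ i, |hA.eigenvalues i| := by
  set U : Matrix n n ℝ := (hA.eigenvectorUnitary : Matrix n n ℝ) with hU
  have hUU : star U * U = 1 := Unitary.coe_star_mul_self hA.eigenvectorUnitary
  have hsp : A = U * diagonal hA.eigenvalues * star U := by
    have := hA.spectral_theorem
    rw [Unitary.conjStarAlgAut_apply] at this
    simpa using this
  have h1 : (A * X).trace = ∑ i, hA.eigenvalues i * (star U * X * U) i i := by
    conv_lhs => rw [hsp]
    rw [Matrix.mul_assoc, Matrix.mul_assoc, Matrix.trace_mul_comm, Matrix.mul_assoc,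
      Matrix.mul_assoc, Matrix.trace]
    refine Finset.sum_congr rfl fun i _ => ?_
    rw [Matrix.diag_apply, Matrix.diagonal_mul]
  rw [h1]
  refine Finset.sum_le_sum fun i _ => ?_
  have h2 : (star U * X * U) i i = (fun j => U j i) ⬝ᵥ (X *ᵥ (fun j => U j i)) := by
    rw [Matrix.mul_assoc, Matrix.mul_apply]
    simp only [dotProduct, mulVec]
    refine Finset.sum_congr rfl fun j _ => ?_
    rw [Matrix.star_apply, star_trivial, Matrix.mul_apply]
  have h3 : (fun j => U j i) ⬝ᵥ (fun j => U j i) = 1 := by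
    have := congrFun (congrFun hUU i) i
    rw [Matrix.mul_apply, Matrix.one_apply_eq] at this
    simp only [dotProduct]
    rw [← this]
    refine Finset.sum_congr rfl fun j _ => ?_
    rw [Matrix.star_apply, star_trivial]
  have h4 := abs_quad_le X hX (fun j => U j i)
  rw [h3] at h4
  rw [h2]
  calc hA.eigenvalues i * ((fun j => U j i) ⬝ᵥ (X *ᵥ (fun j => U j i)))
      ≤ |hA.eigenvalues i * ((fun j => U j i) ⬝ᵥ (X *ᵥ (fun j => U j i)))| := le_abs_self _
    _ = |hA.eigenvalues i| * |((fun j => U j i) ⬝ᵥ (X *ᵥ (fun j => U j i)))| := abs_mul _ _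
    _ ≤ |hA.eigenvalues i| * 1 := mul_le_mul_of_nonneg_left h4 (abs_nonneg _)
    _ = |hA.eigenvalues i| := mul_one _

/-- the sign matrix attains the bound -/
theorem exists_sign (A : Matrix n n ℝ) (hA : A.IsHermitian) :
    ∃ X : Matrix n n ℝ, Xᵀ * X = 1 ∧ Xᵀ = X ∧ (A * X).trace = ∑ i, |hA.eigenvalues i| := by
  set U : Matrix n n ℝ := (hA.eigenvectorUnitary : Matrix n n ℝ) with hU
  have hUU : star U * U = 1 := Unitary.coe_star_mul_self hA.eigenvectorUnitary
  have hUU' : U * star U = 1 := Unitary.coe_mul_star_self hA.eigenvectorUnitary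
  have hsp : A = U * diagonal hA.eigenvalues * star U := by
    have := hA.spectral_theorem
    rw [Unitary.conjStarAlgAut_apply] at this
    simpa using this
  have hst : star U = Uᵀ := by
    rw [Matrix.star_eq_conjTranspose, Matrix.conjTranspose_eq_transpose_of_trivial]
  let s : n → ℝ := fun i => if 0 ≤ hA.eigenvalues i then 1 else -1
  have hs : ∀ i, s i * s i = 1 := by
    intro i
    simp only [s]
    split_ifs <;> norm_num
  have hs2 : ∀ i, hA.eigenvalues i * s i = |hA.eigenvalues i| := by
    intro i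
    simp only [s]
    split_ifs with h
    · rw [mul_one, abs_of_nonneg h]
    · rw [abs_of_neg (not_le.1 h)]; ring
  have hT : (U * diagonal s * star U)ᵀ = U * diagonal s * star U := by
    rw [hst, Matrix.transpose_mul, Matrix.transpose_mul, Matrix.transpose_transpose,
      Matrix.diagonal_transpose, Matrix.mul_assoc]
  refine ⟨U * diagonal s * star U, ?_, hT, ?_⟩
  · rw [hT]
    calc U * diagonal s * star U * (U * diagonal s * star U)
        = U * (diagonal s * (star U * U) * diagonal s) * star U := by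
          simp only [Matrix.mul_assoc]
      _ = U * star U := by
          rw [hUU, Matrix.mul_one, Matrix.diagonal_mul_diagonal]
          simp only [hs]
          rw [Matrix.diagonal_one, Matrix.mul_one]
      _ = 1 := hUU'
  · conv_lhs => rw [hsp]
    have : U * diagonal hA.eigenvalues * star U * (U * diagonal s * star U) =
        U * (diagonal hA.eigenvalues * (star U * U) * diagonal s) * star U := by
      simp only [Matrix.mul_assoc]
    rw [this, hUU, Matrix.mul_one, Matrix.diagonal_mul_diagonal, Matrix.trace_mul_comm,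
      ← Matrix.mul_assoc, hUU, Matrix.one_mul, Matrix.trace]
    refine Finset.sum_congr rfl fun i _ => ?_
    rw [Matrix.diag_apply, Matrix.diagonal_apply_eq, hs2]

end matrices

variable {V : Type*} [Fintype V] [DecidableEq V]

lemma herm (G : SimpleGraph V) [DecidableRel G.Adj] : (G.adjMatrix ℝ).IsHermitian := by
  unfold Matrix.IsHermitian
  rw [Matrix.conjTranspose_eq_transpose_of_trivial]
  exact G.isSymm_adjMatrix

open Classical in
/-- The energy of a finite graph: the sum of the absolute values of the eigenvalues of its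
adjacency matrix, counted with multiplicity. -/
noncomputable def energy {V : Type*} [Fintype V] (G : SimpleGraph V) : ℝ :=
  ∑ i, |(herm G).eigenvalues i|

lemma energy_aux (G : SimpleGraph V) (d1 d1' : DecidableEq V) (d2 d2' : DecidableRel G.Adj) :
    ∑ i, |(@Matrix.IsHermitian.eigenvalues ℝ _ V _ (@SimpleGraph.adjMatrix ℝ V G d2 _ _) d1
      (@herm V _ d1 G d2)) i| =
    ∑ i, |(@Matrix.IsHermitian.eigenvalues ℝ _ V _ (@SimpleGraph.adjMatrix ℝ V G d2' _ _) d1'
      (@herm V _ d1' G d2')) i| := by
  obtain rfl : d1 = d1' := Subsingleton.elim _ _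
  obtain rfl : d2 = d2' := Subsingleton.elim _ _
  rfl

lemma energy_eq (G : SimpleGraph V) [DecidableRel G.Adj] :
    energy G = ∑ i, |(herm G).eigenvalues i| := by
  unfold energy
  exact energy_aux G _ _ _ _

end Pool.Agent.R1.Energy
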