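import Mathlib
import Pool.Agent.R1.Energy

/-!
# Certificates for the energy of small graphs
-/

set_option autoImplicit false

open Matrix Finset

namespace Pool.Agent.R1.Cert

/-- entry of a matrix given by rows -/
def ent (L : List (List ℤ)) (i j : ℕ) : ℤ := (L.getD i []).getD j 0

/-- sum over `i < n` -/
def sm : ℕ → (ℕ → ℤ) → ℤ
  | 0, _ => 0
  | (n + 1), f => sm n f + f n

lemma sm_eq (n : ℕ) (f : ℕ → ℤ) : sm n f = ∑ i : Fin n, f i := by
  induction n with
  | zero => rfl
  | succ n ih => rw [Fin.sum_univ_castSucc, sm, ih]; rfl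

/-- the entry `(i, j)` of `c² M - C Cᵀ` -/
def rem (n : ℕ) (M C : List (List ℤ)) (c2 : ℤ) (i j : ℕ) : ℤ :=
  c2 * ent M i j - sm n (fun k => ent C i k * ent C j k)

/-- all `i < n` satisfy `p` -/
def allLt : ℕ → (ℕ → Bool) → Bool
  | 0, _ => true
  | (n + 1), p => allLt n p && p n

lemma allLt_iff (n : ℕ) (p : ℕ → Bool) : allLt n p = true ↔ ∀ i < n, p i = true := by
  induction n with
  | zero => simp [allLt]
  | succ n ih =>
    rw [allLt, Bool.and_eq_true, ih]
    constructor
    · rintro ⟨h1, h2⟩ i hi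
      rcases Nat.lt_succ_iff_lt_or_eq.1 hi with h | rfl
      · exact h1 i h
      · exact h2
    · intro h
      exact ⟨fun i hi => h i (Nat.lt_succ_of_lt hi), h n (Nat.lt_succ_self n)⟩

/-- the certificate check: `c² M - C Cᵀ` is diagonally dominant and `M` is symmetric -/
def check (n : ℕ) (M C : List (List ℤ)) (c2 : ℤ) : Bool :=
  allLt n (fun i => decide (sm n (fun j => |rem n M C c2 i j|) ≤ 2 * rem n M C c2 i i) &&
    allLt n (fun j => decide (ent M i j = ent M j i)))

lemma rem_symm (n : ℕ) (M C : List (List ℤ)) (c2 : ℤ) (i j : ℕ) (h : ent M i j = ent M j i) :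
    rem n M C c2 i j = rem n M C c2 j i := by
  unfold rem
  rw [h]
  congr 2
  funext k
  ring

/-- a diagonally dominant symmetric matrix is positive semidefinite -/
lemma dd (n : ℕ) (R : Fin n → Fin n → ℝ) (hs : ∀ i j, R i j = R j i)
    (h : ∀ i, ∑ j, |R i j| ≤ 2 * R i i) (x : Fin n → ℝ) :
    0 ≤ ∑ i, ∑ j, x i * R i j * x j := by
  have h1 : ∀ i j, i ≠ j → -(|R i j| * (x i ^ 2 + x j ^ 2) / 2) ≤ x i * R i j * x j := by
    intro i j _
    have h2 : |x i * x j| ≤ (x i ^ 2 + x j ^ 2) / 2 := by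
      rw [abs_le]
      constructor <;> nlinarith [sq_nonneg (x i + x j), sq_nonneg (x i - x j)]
    have h3 : |x i * R i j * x j| ≤ |R i j| * ((x i ^ 2 + x j ^ 2) / 2) := by
      rw [show x i * R i j * x j = R i j * (x i * x j) by ring, abs_mul]
      exact mul_le_mul_of_nonneg_left h2 (abs_nonneg _)
    have := neg_abs_le (x i * R i j * x j)
    linarith
  have h4 : ∀ i j, (if i = j then 2 * R i i * x i ^ 2 else 0) -
      |R i j| * (x i ^ 2 + x j ^ 2) / 2 ≤ x i * R i j * x j := by
    intro i j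
    by_cases hij : i = j
    · subst hij
      rw [if_pos rfl]
      have h5 : 0 ≤ R i i := by
        have := h i
        have h6 : 0 ≤ ∑ j, |R i j| := Finset.sum_nonneg fun j _ => abs_nonneg _
        linarith
      rw [abs_of_nonneg h5]
      nlinarith
    · rw [if_neg hij]
      have := h1 i j hij
      linarith
  have h5 : ∑ i, ∑ j, ((if i = j then 2 * R i i * x i ^ 2 else 0) -
      |R i j| * (x i ^ 2 + x j ^ 2) / 2) = ∑ i, (2 * R i i - ∑ j, |R i j|) * x i ^ 2 := by
    have h6 : ∑ i, ∑ j, |R i j| * x j ^ 2 = ∑ i, ∑ j, |R i j| * x i ^ 2 := by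
      rw [Finset.sum_comm]
      refine Finset.sum_congr rfl fun i _ => Finset.sum_congr rfl fun j _ => ?_
      rw [hs]
    have h7 : ∑ i, ∑ j, |R i j| * (x i ^ 2 + x j ^ 2) / 2 = ∑ i, ∑ j, |R i j| * x i ^ 2 := by
      have : ∀ i j, |R i j| * (x i ^ 2 + x j ^ 2) / 2 =
          |R i j| * x i ^ 2 / 2 + |R i j| * x j ^ 2 / 2 := fun i j => by ring
      simp only [this, Finset.sum_add_distrib, ← Finset.sum_div]
      rw [h6]
      ring
    simp only [Finset.sum_sub_distrib]
    rw [h7]
    rw [← Finset.sum_sub_distrib]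
    refine Finset.sum_congr rfl fun i _ => ?_
    rw [Finset.sum_ite_eq, if_pos (Finset.mem_univ _), ← Finset.sum_mul]
    ring
  calc (0 : ℝ) ≤ ∑ i, (2 * R i i - ∑ j, |R i j|) * x i ^ 2 :=
        Finset.sum_nonneg fun i _ => mul_nonneg (by linarith [h i]) (sq_nonneg _)
    _ = _ := h5.symm
    _ ≤ _ := Finset.sum_le_sum fun i _ => Finset.sum_le_sum fun j _ => h4 i j

/-- soundness of the certificate -/
theorem check_sound (n : ℕ) (M C : List (List ℤ)) (c2 : ℤ) (hc : 0 < c2)
    (h : check n M C c2 = true) (x : Fin n → ℝ) :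
    0 ≤ ∑ i : Fin n, ∑ j : Fin n, x i * (ent M i j : ℝ) * x j := by
  rw [check, allLt_iff] at h
  have hsym : ∀ i j : Fin n, ent M i j = ent M j i := by
    intro i j
    have h1 := h i i.2
    rw [Bool.and_eq_true, allLt_iff] at h1
    exact of_decide_eq_true (h1.2 j j.2)
  have hdom : ∀ i : Fin n, ∑ j : Fin n, |rem n M C c2 i j| ≤ 2 * rem n M C c2 i i := by
    intro i
    have h1 := h i i.2
    rw [Bool.and_eq_true] at h1
    have h2 := of_decide_eq_true h1.1
    rwa [sm_eq] at h2
  have hdd := dd n (fun i j => (rem n M C c2 i j : ℝ)) (fun i j => by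
    rw [rem_symm n M C c2 i j (hsym i j)]) (fun i => by exact_mod_cast hdom i) x
  have hrem : ∀ i j : Fin n, (rem n M C c2 i j : ℝ) =
      c2 * (ent M i j : ℝ) - ∑ k : Fin n, (ent C i k : ℝ) * (ent C j k : ℝ) := by
    intro i j
    unfold rem
    rw [sm_eq]
    push_cast
    rfl
  have h3 : ∑ i : Fin n, ∑ j : Fin n, x i * (rem n M C c2 i j : ℝ) * x j =
      c2 * ∑ i : Fin n, ∑ j : Fin n, x i * (ent M i j : ℝ) * x j -
      ∑ k : Fin n, (∑ i : Fin n, (ent C i k : ℝ) * x i) ^ 2 := by
    have h4 : ∑ k : Fin n, (∑ i : Fin n, (ent C i k : ℝ) * x i) ^ 2 =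
        ∑ i : Fin n, ∑ j : Fin n, x i * (∑ k : Fin n, (ent C i k : ℝ) * (ent C j k : ℝ)) * x j := by
      have h5 : ∀ k : Fin n, (∑ i : Fin n, (ent C i k : ℝ) * x i) ^ 2 =
          ∑ i : Fin n, ∑ j : Fin n, x i * ((ent C i k : ℝ) * (ent C j k : ℝ)) * x j := by
        intro k
        rw [pow_two, Finset.sum_mul_sum]
        exact Finset.sum_congr rfl fun i _ => Finset.sum_congr rfl fun j _ => by ring
      rw [Finset.sum_congr rfl fun k _ => h5 k, Finset.sum_comm]
      refine Finset.sum_congr rfl fun i _ => ?_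
      rw [Finset.sum_comm]
      refine Finset.sum_congr rfl fun j _ => ?_
      rw [Finset.mul_sum, Finset.sum_mul]
    rw [h4, Finset.mul_sum, ← Finset.sum_sub_distrib]
    refine Finset.sum_congr rfl fun i _ => ?_
    rw [Finset.mul_sum, ← Finset.sum_sub_distrib]
    refine Finset.sum_congr rfl fun j _ => ?_
    rw [hrem]
    ring
  rw [h3] at hdd
  have h6 : 0 ≤ ∑ k : Fin n, (∑ i : Fin n, (ent C i k : ℝ) * x i) ^ 2 :=
    Finset.sum_nonneg fun k _ => sq_nonneg _
  have h7 : (0 : ℝ) < c2 := by exact_mod_cast hc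
  by_contra hcon
  push Not at hcon
  nlinarith

/-! ### Bounds of the energy -/

section
variable {n : Type*} [Fintype n] [DecidableEq n]

/-- the sum of the absolute values of the eigenvalues is at least `tr (A S)` for every `S` with
`-1 ≤ S ≤ 1` -/
theorem lower (A : Matrix n n ℝ) (hA : A.IsHermitian) (S : Matrix n n ℝ)
    (h1 : ∀ x : n → ℝ, 0 ≤ ∑ i, ∑ j, x i * ((if i = j then 1 else 0) - S i j) * x j)
    (h2 : ∀ x : n → ℝ, 0 ≤ ∑ i, ∑ j, x i * ((if i = j then 1 else 0) + S i j) * x j) :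
    ∑ i, ∑ j, A i j * S j i ≤ ∑ i, |hA.eigenvalues i| := by
  have hq : ∀ x : n → ℝ, |x ⬝ᵥ (S *ᵥ x)| ≤ x ⬝ᵥ x := by
    intro x
    have e0 : x ⬝ᵥ (S *ᵥ x) = ∑ i, ∑ j, x i * S i j * x j := by
      simp only [dotProduct, mulVec, Finset.mul_sum]
      exact Finset.sum_congr rfl fun i _ => Finset.sum_congr rfl fun j _ => by ring
    have e1 : ∑ i, ∑ j, x i * ((if i = j then 1 else 0) - S i j) * x j =
        x ⬝ᵥ x - x ⬝ᵥ (S *ᵥ x) := by
      rw [e0, dotProduct, ← Finset.sum_sub_distrib]
      refine Finset.sum_congr rfl fun i _ => ?_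
      have : ∀ j, x i * ((if i = j then 1 else 0) - S i j) * x j =
          (if i = j then x i * x j else 0) - x i * S i j * x j := by
        intro j; split_ifs <;> ring
      simp only [this, Finset.sum_sub_distrib, Finset.sum_ite_eq, Finset.mem_univ, if_true]
    have e2 : ∑ i, ∑ j, x i * ((if i = j then 1 else 0) + S i j) * x j =
        x ⬝ᵥ x + x ⬝ᵥ (S *ᵥ x) := by
      rw [e0, dotProduct, ← Finset.sum_add_distrib]
      refine Finset.sum_congr rfl fun i _ => ?_
      have : ∀ j, x i * ((if i = j then 1 else 0) + S i j) * x j =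
          (if i = j then x i * x j else 0) + x i * S i j * x j := by
        intro j; split_ifs <;> ring
      simp only [this, Finset.sum_add_distrib, Finset.sum_ite_eq, Finset.mem_univ, if_true]
    have g1 := h1 x
    have g2 := h2 x
    rw [e1] at g1
    rw [e2] at g2
    rw [abs_le]
    constructor <;> linarith
  have htr : ∑ i, ∑ j, A i j * S j i = (A * S).trace := by
    simp only [Matrix.trace, Matrix.diag_apply, Matrix.mul_apply]
  rw [htr]
  set U : Matrix n n ℝ := (hA.eigenvectorUnitary : Matrix n n ℝ) with hU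
  have hUU : star U * U = 1 := Unitary.coe_star_mul_self hA.eigenvectorUnitary
  have hsp : A = U * diagonal hA.eigenvalues * star U := by
    have := hA.spectral_theorem
    rw [Unitary.conjStarAlgAut_apply] at this
    simpa using this
  have h3 : (A * S).trace = ∑ i, hA.eigenvalues i * (star U * S * U) i i := by
    conv_lhs => rw [hsp]
    rw [Matrix.mul_assoc, Matrix.mul_assoc, Matrix.trace_mul_comm, Matrix.mul_assoc,
      Matrix.mul_assoc, Matrix.trace]
    refine Finset.sum_congr rfl fun i _ => ?_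
    rw [Matrix.diag_apply, Matrix.diagonal_mul]
  rw [h3]
  refine Finset.sum_le_sum fun i _ => ?_
  have h4 : (star U * S * U) i i = (fun j => U j i) ⬝ᵥ (S *ᵥ (fun j => U j i)) := by
    rw [Matrix.mul_assoc, Matrix.mul_apply]
    simp only [dotProduct, mulVec]
    refine Finset.sum_congr rfl fun j _ => ?_
    rw [Matrix.star_apply, star_trivial, Matrix.mul_apply]
  have h5 : (fun j => U j i) ⬝ᵥ (fun j => U j i) = 1 := by
    have := congrFun (congrFun hUU i) i
    rw [Matrix.mul_apply, Matrix.one_apply_eq] at this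
    simp only [dotProduct]
    rw [← this]
    refine Finset.sum_congr rfl fun j _ => ?_
    rw [Matrix.star_apply, star_trivial]
  have h6 := hq (fun j => U j i)
  rw [h5] at h6
  rw [h4]
  calc hA.eigenvalues i * ((fun j => U j i) ⬝ᵥ (S *ᵥ (fun j => U j i)))
      ≤ |hA.eigenvalues i * ((fun j => U j i) ⬝ᵥ (S *ᵥ (fun j => U j i)))| := le_abs_self _
    _ = |hA.eigenvalues i| * |((fun j => U j i) ⬝ᵥ (S *ᵥ (fun j => U j i)))| := abs_mul _ _
    _ ≤ |hA.eigenvalues i| * 1 := mul_le_mul_of_nonneg_left h6 (abs_nonneg _)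
    _ = |hA.eigenvalues i| := mul_one _

/-- if `-P ≤ A ≤ P` then the sum of the absolute values of the eigenvalues of `A` is at most
`tr P` -/
theorem upper (A : Matrix n n ℝ) (hA : A.IsHermitian) (P : Matrix n n ℝ)
    (h1 : ∀ x : n → ℝ, 0 ≤ ∑ i, ∑ j, x i * (P i j - A i j) * x j)
    (h2 : ∀ x : n → ℝ, 0 ≤ ∑ i, ∑ j, x i * (P i j + A i j) * x j) :
    ∑ i, |hA.eigenvalues i| ≤ ∑ i, P i i := by
  have hq : ∀ x : n → ℝ, |x ⬝ᵥ (A *ᵥ x)| ≤ x ⬝ᵥ (P *ᵥ x) := by
    intro x
    have e0 : ∀ B : Matrix n n ℝ, x ⬝ᵥ (B *ᵥ x) = ∑ i, ∑ j, x i * B i j * x j := by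
      intro B
      simp only [dotProduct, mulVec, Finset.mul_sum]
      exact Finset.sum_congr rfl fun i _ => Finset.sum_congr rfl fun j _ => by ring
    have g1 := h1 x
    have g2 := h2 x
    have e1 : ∑ i, ∑ j, x i * (P i j - A i j) * x j = x ⬝ᵥ (P *ᵥ x) - x ⬝ᵥ (A *ᵥ x) := by
      rw [e0, e0]
      simp only [mul_sub, sub_mul, Finset.sum_sub_distrib]
    have e2 : ∑ i, ∑ j, x i * (P i j + A i j) * x j = x ⬝ᵥ (P *ᵥ x) + x ⬝ᵥ (A *ᵥ x) := by
      rw [e0, e0]
      simp only [mul_add, add_mul, Finset.sum_add_distrib]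
    rw [e1] at g1
    rw [e2] at g2
    rw [abs_le]
    constructor <;> linarith
  set U : Matrix n n ℝ := (hA.eigenvectorUnitary : Matrix n n ℝ) with hU
  have hUU : star U * U = 1 := Unitary.coe_star_mul_self hA.eigenvectorUnitary
  have hUU' : U * star U = 1 := Unitary.coe_mul_star_self hA.eigenvectorUnitary
  have hcol : ∀ (B : Matrix n n ℝ) (i : n), (star U * B * U) i i =
      (fun j => U j i) ⬝ᵥ (B *ᵥ (fun j => U j i)) := by
    intro B i
    rw [Matrix.mul_assoc, Matrix.mul_apply]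
    simp only [dotProduct, mulVec]
    refine Finset.sum_congr rfl fun j _ => ?_
    rw [Matrix.star_apply, star_trivial, Matrix.mul_apply]
  have hsp : A = U * diagonal hA.eigenvalues * star U := by
    have := hA.spectral_theorem
    rw [Unitary.conjStarAlgAut_apply] at this
    simpa using this
  have hdiag : ∀ i, (star U * A * U) i i = hA.eigenvalues i := by
    intro i
    have : star U * A * U = diagonal hA.eigenvalues := by
      conv_lhs => rw [hsp]
      calc star U * (U * diagonal hA.eigenvalues * star U) * U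
          = (star U * U) * diagonal hA.eigenvalues * (star U * U) := by
            simp only [Matrix.mul_assoc]
        _ = diagonal hA.eigenvalues := by rw [hUU, Matrix.one_mul, Matrix.mul_one]
    rw [this, Matrix.diagonal_apply_eq]
  have htr : ∑ i, P i i = ∑ i, (star U * P * U) i i := by
    change P.trace = (star U * P * U).trace
    rw [Matrix.trace_mul_comm, ← Matrix.mul_assoc, hUU', Matrix.one_mul]
  rw [htr]
  refine Finset.sum_le_sum fun i _ => ?_
  rw [← hdiag i, hcol, hcol]
  exact hq _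

end

end Pool.Agent.R1.Cert
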