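import Mathlib
import Pool.Agent.R1.Herm

/-!
# Magnetic Laplacians and the magneto-spectral height of a finite graph
-/

set_option autoImplicit false

open Matrix Finset

namespace Pool.Agent.R1.Mag

/-- `σ` is a magnetic potential on `G`: for adjacent `x`, `y` the number `σ x y` is unimodular, and
`σ y x = (σ x y)⁻¹`. (The values at other pairs are irrelevant.) -/
def IsPotential {V : Type*} (G : SimpleGraph V) (σ : V → V → ℂ) : Prop :=
  ∀ x y, G.Adj x y → ‖σ x y‖ = 1 ∧ σ y x = (σ x y)⁻¹

open Classical in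
/-- The matrix of the magnetic Laplacian `(Δ^σ f)(x) = ∑_{y ~ x} (f x - σ x y f y)`. -/
noncomputable def magLap {V : Type*} [Fintype V] (G : SimpleGraph V) (σ : V → V → ℂ) :
    Matrix V V ℂ :=
  fun x y => if x = y then (G.degree x : ℂ) else if G.Adj x y then -σ x y else 0

open Classical in
/-- The smallest eigenvalue `λ_1^σ(G)` of the magnetic Laplacian. -/
noncomputable def lam1 {V : Type*} [Fintype V] (G : SimpleGraph V) (σ : V → V → ℂ) : ℝ :=
  sInf {μ : ℝ | Module.End.HasEigenvalue (Matrix.toLin' (magLap G σ)) (μ : ℂ)}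

/-- The magneto-spectral height `ν(G) = sup_σ λ_1^σ(G)`. -/
noncomputable def nu {V : Type*} [Fintype V] (G : SimpleGraph V) : ℝ :=
  sSup {l : ℝ | ∃ σ : V → V → ℂ, IsPotential G σ ∧ l = lam1 G σ}

open Classical in
/-- the energy form of the magnetic Laplacian -/
noncomputable def Q {V : Type*} [Fintype V] (G : SimpleGraph V) (σ : V → V → ℂ) (f : V → ℂ) : ℝ :=
  (∑ x, ∑ y, if G.Adj x y then ‖f x - σ x y * f y‖ ^ 2 else 0) / 2

variable {V : Type*} [Fintype V]

lemma lam1_eq (G : SimpleGraph V) (σ : V → V → ℂ) [DecidableEq V] :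
    lam1 G σ = Pool.Agent.R1.Herm.lamMin (magLap G σ) := by
  unfold lam1 Pool.Agent.R1.Herm.lamMin
  have : (fun a b => Classical.propDecidable (a = b)) = (inferInstance : DecidableEq V) :=
    Subsingleton.elim _ _
  rw [this]
  rfl

lemma conj_of {G : SimpleGraph V} {σ : V → V → ℂ} (h : IsPotential G σ) {x y : V}
    (hxy : G.Adj x y) : σ y x = star (σ x y) := by
  rw [(h x y hxy).2, Complex.inv_def, Complex.normSq_eq_norm_sq, (h x y hxy).1]
  simp

lemma herm (G : SimpleGraph V) (σ : V → V → ℂ) (h : IsPotential G σ) :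
    (magLap G σ).IsHermitian := by
  classical
  ext x y
  rw [Matrix.conjTranspose_apply]
  unfold magLap
  by_cases hxy : x = y
  · subst hxy
    simp
  · have hyx : ¬ y = x := fun h => hxy h.symm
    rw [if_neg hxy, if_neg hyx]
    by_cases ha : G.Adj x y
    · rw [if_pos ha, if_pos ha.symm, conj_of h ha, star_neg, star_star]
    · rw [if_neg ha, if_neg (fun h => ha h.symm), star_zero]

/-- the quadratic form of the magnetic Laplacian is the energy form -/
lemma quad (G : SimpleGraph V) (σ : V → V → ℂ) (h : IsPotential G σ) (f : V → ℂ) :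
    RCLike.re (star f ⬝ᵥ magLap G σ *ᵥ f) = Q G σ f := by
  classical
  have h1 : ∀ x, (magLap G σ *ᵥ f) x = ∑ y, (if G.Adj x y then (f x - σ x y * f y) else 0) := by
    intro x
    have h2 : ∀ y, magLap G σ x y * f y = (if y = x then (G.degree x : ℂ) * f x else 0) +
        (if G.Adj x y then - (σ x y * f y) else 0) := by
      intro y
      unfold magLap
      by_cases hxy : x = y
      · subst hxy
        simp
      · have hyx : ¬ y = x := fun h => hxy h.symm
        rw [if_neg hxy, if_neg hyx]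
        by_cases ha : G.Adj x y
        · rw [if_pos ha, if_pos ha]; ring
        · rw [if_neg ha, if_neg ha]; ring
    rw [mulVec, dotProduct, Finset.sum_congr rfl (fun y _ => h2 y), Finset.sum_add_distrib,
      Finset.sum_ite_eq' Finset.univ, if_pos (Finset.mem_univ _)]
    have h3 : (G.degree x : ℂ) * f x = ∑ y, (if G.Adj x y then f x else 0) := by
      rw [← Finset.sum_filter, Finset.sum_const, nsmul_eq_mul]
      congr 2
      rw [← SimpleGraph.card_neighborFinset_eq_degree]
      congr 1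
      ext u; simp
    rw [h3, ← Finset.sum_add_distrib]
    refine Finset.sum_congr rfl fun y _ => ?_
    split_ifs <;> ring
  have h4 : RCLike.re (star f ⬝ᵥ magLap G σ *ᵥ f) =
      ∑ x, ∑ y, (if G.Adj x y then (star (f x) * (f x - σ x y * f y)).re else 0) := by
    simp only [dotProduct, Pi.star_apply, h1]
    rw [map_sum]
    refine Finset.sum_congr rfl fun x _ => ?_
    rw [Finset.mul_sum, map_sum]
    refine Finset.sum_congr rfl fun y _ => ?_
    split_ifs
    · rfl
    · simp
  have h5 : ∑ x, ∑ y, (if G.Adj x y then (star (f x) * (f x - σ x y * f y)).re else 0) =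
      ∑ x, ∑ y, (if G.Adj x y then (star (σ x y * f y) * (σ x y * f y - f x)).re else 0) := by
    rw [Finset.sum_comm]
    refine Finset.sum_congr rfl fun x _ => Finset.sum_congr rfl fun y _ => ?_
    by_cases ha : G.Adj x y
    · rw [if_pos ha.symm, if_pos ha]
      congr 1
      have h6 : star (σ x y) * σ x y = 1 := by
        rw [← conj_of h ha, (h x y ha).2]
        have : σ x y ≠ 0 := by
          intro h0
          have := (h x y ha).1
          rw [h0, norm_zero] at this
          exact zero_ne_one this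
        exact inv_mul_cancel₀ this
      rw [conj_of h ha, star_mul']
      linear_combination (star (f y) * f y) * (-h6)
    · rw [if_neg (fun h => ha h.symm), if_neg ha]
  have h7 : 2 * RCLike.re (star f ⬝ᵥ magLap G σ *ᵥ f) = 2 * Q G σ f := by
    have h8 : 2 * RCLike.re (star f ⬝ᵥ magLap G σ *ᵥ f) =
        ∑ x, ∑ y, (if G.Adj x y then (star (f x) * (f x - σ x y * f y)).re else 0) +
        ∑ x, ∑ y, (if G.Adj x y then (star (σ x y * f y) * (σ x y * f y - f x)).re else 0) := by
      rw [← h5, h4]; ring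
    rw [h8, Q, mul_div_cancel₀ _ (two_ne_zero), ← Finset.sum_add_distrib]
    refine Finset.sum_congr rfl fun x _ => ?_
    rw [← Finset.sum_add_distrib]
    refine Finset.sum_congr rfl fun y _ => ?_
    split_ifs
    · rw [← Complex.normSq_eq_norm_sq, ← Complex.add_re]
      have h9 : star (f x) * (f x - σ x y * f y) + star (σ x y * f y) * (σ x y * f y - f x) =
          star (f x - σ x y * f y) * (f x - σ x y * f y) := by
        rw [star_sub]; ring
      rw [h9]
      change ((starRingEnd ℂ) (f x - σ x y * f y) * (f x - σ x y * f y)).re = _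
      rw [← Complex.normSq_eq_conj_mul_self, Complex.ofReal_re]
    · simp
  linarith

lemma Q_nonneg (G : SimpleGraph V) (σ : V → V → ℂ) (f : V → ℂ) : 0 ≤ Q G σ f := by
  unfold Q
  refine div_nonneg (Finset.sum_nonneg fun x _ => Finset.sum_nonneg fun y _ => ?_) (by norm_num)
  split_ifs
  · positivity
  · exact le_rfl

/-- characterisation of lower bounds of `λ_1^σ` -/
lemma le_lam1_iff [Nonempty V] (G : SimpleGraph V) (σ : V → V → ℂ) (h : IsPotential G σ) (c : ℝ) :
    c ≤ lam1 G σ ↔ ∀ f : V → ℂ, c * ∑ x, ‖f x‖ ^ 2 ≤ Q G σ f := by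
  classical
  rw [lam1_eq, Pool.Agent.R1.Herm.le_lamMin_iff _ (herm G σ h)]
  refine forall_congr' fun f => ?_
  rw [quad G σ h f]

/-- a test function bounds `λ_1^σ` from above -/
lemma lam1_le [Nonempty V] (G : SimpleGraph V) (σ : V → V → ℂ) (h : IsPotential G σ) (b : ℝ)
    (f : V → ℂ) (hf : f ≠ 0) (hb : Q G σ f ≤ b * ∑ x, ‖f x‖ ^ 2) : lam1 G σ ≤ b := by
  classical
  have h1 := (le_lam1_iff G σ h _).1 le_rfl f
  exact le_of_mul_le_mul_right (h1.trans hb) (Pool.Agent.R1.Herm.sum_sq_pos f hf)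

/-- the trivial potential -/
lemma isPotential_one (G : SimpleGraph V) : IsPotential G (fun _ _ => 1) := by
  intro x y _
  simp

lemma bddAbove [Nonempty V] (G : SimpleGraph V) :
    BddAbove {l : ℝ | ∃ σ : V → V → ℂ, IsPotential G σ ∧ l = lam1 G σ} := by
  classical
  refine ⟨Fintype.card V * Fintype.card V, ?_⟩
  rintro l ⟨σ, hσ, rfl⟩
  obtain ⟨v⟩ := ‹Nonempty V›
  have hne : (fun _ => (1 : ℂ) : V → ℂ) ≠ 0 := fun h => one_ne_zero (congrFun h v)
  have : Nonempty V := ⟨v⟩
  have hc : (1 : ℝ) ≤ Fintype.card V := by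
    have : 0 < Fintype.card V := Fintype.card_pos
    exact_mod_cast this
  refine lam1_le G σ hσ _ (fun _ => 1) hne ?_
  have h1 : ∑ x : V, ‖(1 : ℂ)‖ ^ 2 = Fintype.card V := by simp
  rw [h1]
  unfold Q
  have h2 : ∑ x : V, ∑ y : V, (if G.Adj x y then ‖(1 : ℂ) - σ x y * 1‖ ^ 2 else 0) ≤
      ∑ x : V, ∑ y : V, (4 : ℝ) := by
    refine Finset.sum_le_sum fun x _ => Finset.sum_le_sum fun y _ => ?_
    split_ifs with ha
    · have h3 : ‖(1 : ℂ) - σ x y * 1‖ ≤ 2 := by
        refine (norm_sub_le _ _).trans ?_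
        rw [mul_one, norm_one, (hσ x y ha).1]
        norm_num
      nlinarith [norm_nonneg ((1 : ℂ) - σ x y * 1)]
    · norm_num
  simp only [Finset.sum_const, Finset.card_univ, nsmul_eq_mul] at h2
  by_cases hc2 : (2 : ℝ) ≤ Fintype.card V
  · nlinarith
  · have hc3 : Fintype.card V = 1 := by
      have h5 : Fintype.card V < 2 := by
        by_contra hcon
        push Not at hcon
        exact hc2 (by exact_mod_cast hcon)
      have : 0 < Fintype.card V := Fintype.card_pos
      omega
    have : Subsingleton V := Fintype.card_le_one_iff_subsingleton.1 hc3.le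
    have h6 : ∑ x : V, ∑ y : V, (if G.Adj x y then ‖(1 : ℂ) - σ x y * 1‖ ^ 2 else 0) = 0 := by
      refine Finset.sum_eq_zero fun x _ => Finset.sum_eq_zero fun y _ => ?_
      rw [if_neg]
      intro ha
      exact ha.ne (Subsingleton.elim _ _)
    rw [h6, hc3]
    norm_num

/-- a potential bounds `ν` from below -/
lemma le_nu [Nonempty V] (G : SimpleGraph V) (σ : V → V → ℂ) (h : IsPotential G σ) (c : ℝ)
    (hc : ∀ f : V → ℂ, c * ∑ x, ‖f x‖ ^ 2 ≤ Q G σ f) : c ≤ nu G :=
  ((le_lam1_iff G σ h c).2 hc).trans (le_csSup (bddAbove G) ⟨σ, h, rfl⟩)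

/-- test functions for all potentials bound `ν` from above -/
lemma nu_le [Nonempty V] (G : SimpleGraph V) (b : ℝ)
    (hb : ∀ σ, IsPotential G σ → ∃ f : V → ℂ, f ≠ 0 ∧ Q G σ f ≤ b * ∑ x, ‖f x‖ ^ 2) :
    nu G ≤ b := by
  refine csSup_le ⟨_, _, isPotential_one G, rfl⟩ ?_
  rintro l ⟨σ, hσ, rfl⟩
  obtain ⟨f, hf, hq⟩ := hb σ hσ
  exact lam1_le G σ hσ b f hf hq

end Pool.Agent.R1.Mag
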