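import Mathlib

/-!
# Averages of characteristic polynomials of sums of rank one matrices are real rooted
-/

set_option autoImplicit false
set_option linter.unusedSectionVars false

open Matrix Finset Polynomial

namespace Pool.Agent.R1.Stable

variable {V : Type*} [Fintype V] [DecidableEq V]

/-- the complex rank one matrix `v vᵀ` of a real vector -/
def rkc (v : V → ℝ) : Matrix V V ℂ := fun i j => (v i : ℂ) * (v j : ℂ)

/-- the averaged determinant -/
noncomputable def F : List (ℝ × (V → ℝ) × (V → ℝ)) → Matrix V V ℂ → ℂ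
  | [], Z => Z.det
  | (t, a, b) :: l, Z => (1 - (t : ℂ)) * F l (Z - rkc a) + (t : ℂ) * F l (Z - rkc b)

/-- the half plane of matrices with positive imaginary part -/
def Hp (Z : Matrix V V ℂ) : Prop := ∀ x : V → ℂ, x ≠ 0 → 0 < (star x ⬝ᵥ Z *ᵥ x).im

omit [DecidableEq V] in
lemma quad_rkc (v : V → ℝ) (x : V → ℂ) :
    star x ⬝ᵥ rkc v *ᵥ x = ((‖∑ j, (v j : ℂ) * x j‖ ^ 2 : ℝ) : ℂ) := by
  have h1 : rkc v *ᵥ x = fun i => (v i : ℂ) * ∑ j, (v j : ℂ) * x j := by
    funext i
    simp only [mulVec, dotProduct, rkc]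
    rw [Finset.mul_sum]
    exact Finset.sum_congr rfl fun j _ => by ring
  rw [h1]
  simp only [dotProduct, Pi.star_apply]
  have h2 : ∀ i, star (x i) * ((v i : ℂ) * ∑ j, (v j : ℂ) * x j) =
      star ((v i : ℂ) * x i) * ∑ j, (v j : ℂ) * x j := by
    intro i
    simp only [RCLike.star_def, map_mul, Complex.conj_ofReal]
    ring
  rw [Finset.sum_congr rfl fun i _ => h2 i, ← Finset.sum_mul, ← star_sum]
  rw [RCLike.star_def, RCLike.conj_mul]
  norm_cast

lemma Hp_sub {Z : Matrix V V ℂ} (hZ : Hp Z) (c : ℂ) (hc : c.im ≤ 0) (v : V → ℝ) :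
    Hp (Z - c • rkc v) := by
  intro x hx
  have h1 := hZ x hx
  rw [Matrix.sub_mulVec, dotProduct_sub, Matrix.smul_mulVec, dotProduct_smul, quad_rkc,
    Complex.sub_im, smul_eq_mul, Complex.mul_im, Complex.ofReal_im, Complex.ofReal_re, mul_zero,
    zero_add]
  have h2 : c.im * ‖∑ j, (v j : ℂ) * x j‖ ^ 2 ≤ 0 := mul_nonpos_of_nonpos_of_nonneg hc (by positivity)
  linarith

lemma Hp_sub_one {Z : Matrix V V ℂ} (hZ : Hp Z) (v : V → ℝ) : Hp (Z - rkc v) := by
  have := Hp_sub hZ 1 (by simp) v
  rwa [one_smul] at this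

lemma Hp_det {Z : Matrix V V ℂ} (hZ : Hp Z) : Z.det ≠ 0 := by
  intro h
  obtain ⟨x, hx, hx2⟩ := Matrix.exists_mulVec_eq_zero_iff.2 h
  have := hZ x hx
  rw [hx2, dotProduct_zero] at this
  simp at this

/-- `F` is affine along real rank one directions -/
lemma F_affine (l : List (ℝ × (V → ℝ) × (V → ℝ))) (v : V → ℝ) :
    ∀ Z : Matrix V V ℂ, Hp Z → ∃ H : ℂ, ∀ c : ℂ, F l (Z - c • rkc v) = F l Z - c * H := by
  induction l with
  | nil =>
    intro Z hZ
    have hu : IsUnit Z.det := (Hp_det hZ).isUnit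
    refine ⟨Z.det * ((fun i => (v i : ℂ)) ⬝ᵥ (Z⁻¹ *ᵥ fun i => (v i : ℂ))), fun c => ?_⟩
    have h1 : Z - c • rkc v = Z + Matrix.replicateCol Unit (fun i => -c * (v i : ℂ)) *
        Matrix.replicateRow Unit (fun i => (v i : ℂ)) := by
      ext i j
      simp [Matrix.mul_apply, rkc]
      ring
    simp only [F]
    rw [h1, Matrix.det_add_replicateCol_mul_replicateRow hu, Matrix.det_unique (n := Unit)]
    have h2 : (Matrix.replicateRow Unit (fun i => (v i : ℂ)) * Z⁻¹ *
        Matrix.replicateCol Unit (fun i => -c * (v i : ℂ))) default default =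
        -c * ((fun i => (v i : ℂ)) ⬝ᵥ (Z⁻¹ *ᵥ fun i => (v i : ℂ))) := by
      rw [Matrix.mul_assoc, Matrix.mul_apply]
      simp only [Matrix.replicateRow_apply, Matrix.mul_apply, Matrix.replicateCol_apply,
        dotProduct, mulVec]
      rw [Finset.mul_sum]
      refine Finset.sum_congr rfl fun i _ => ?_
      rw [Finset.mul_sum, Finset.mul_sum, Finset.mul_sum]
      exact Finset.sum_congr rfl fun j _ => by ring
    rw [Matrix.add_apply, h2, Matrix.one_apply_eq]
    ring
  | cons p l ih =>
    obtain ⟨t, a, b⟩ := p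
    intro Z hZ
    obtain ⟨H1, h1⟩ := ih _ (Hp_sub_one hZ a)
    obtain ⟨H2, h2⟩ := ih _ (Hp_sub_one hZ b)
    refine ⟨(1 - (t : ℂ)) * H1 + (t : ℂ) * H2, fun c => ?_⟩
    simp only [F]
    rw [sub_right_comm, h1 c, sub_right_comm, h2 c]
    ring

/-- all weights lie in `[0, 1]` -/
def Wt (l : List (ℝ × (V → ℝ) × (V → ℝ))) : Prop := ∀ p ∈ l, 0 ≤ p.1 ∧ p.1 ≤ 1

/-- `F` has no zeros in the upper half plane -/
lemma F_ne_zero (l : List (ℝ × (V → ℝ) × (V → ℝ))) (hl : Wt l) :
    ∀ Z : Matrix V V ℂ, Hp Z → F l Z ≠ 0 := by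
  induction l with
  | nil =>
    intro Z hZ
    exact Hp_det hZ
  | cons p l ih =>
    obtain ⟨t, a, b⟩ := p
    have hl2 : Wt l := fun q hq => hl q (List.mem_cons_of_mem _ hq)
    have ht := hl (t, a, b) List.mem_cons_self
    simp only at ht
    intro Z hZ h0
    have hF := ih hl2 Z hZ
    have key : ∀ v : V → ℝ, ∃ H : ℂ, F l (Z - rkc v) = F l Z - H ∧ (H = 0 ∨ (H / F l Z).im < 0) := by
      intro v
      obtain ⟨H, hH⟩ := F_affine l v Z hZ
      refine ⟨H, by have := hH 1; rwa [one_smul, one_mul] at this, ?_⟩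
      by_cases hH0 : H = 0
      · exact Or.inl hH0
      · right
        by_contra hcon
        push Not at hcon
        have hq : H / F l Z ≠ 0 := div_ne_zero hH0 hF
        have hc : (F l Z / H).im ≤ 0 := by
          have : F l Z / H = (H / F l Z)⁻¹ := by rw [inv_div]
          rw [this, Complex.inv_im]
          exact div_nonpos_of_nonpos_of_nonneg (by linarith) (Complex.normSq_nonneg _)
        have h3 := ih hl2 _ (Hp_sub hZ (F l Z / H) hc v)
        rw [hH] at h3
        apply h3
        field_simp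
        ring
    obtain ⟨Ha, ha, ha2⟩ := key a
    obtain ⟨Hb, hb, hb2⟩ := key b
    simp only [F] at h0
    rw [ha, hb] at h0
    have h5 : (1 - (t : ℂ)) * (Ha / F l Z) + (t : ℂ) * (Hb / F l Z) = 1 := by
      field_simp
      linear_combination -h0
    have h6 := congrArg Complex.im h5
    have h7 := congrArg Complex.re h5
    have e1 : ((1 - (t : ℂ)) * (Ha / F l Z)) = (((1 - t : ℝ) : ℂ) * (Ha / F l Z)) := by
      push_cast; ring
    rw [e1] at h6 h7
    simp only [Complex.add_im, Complex.add_re, Complex.re_ofReal_mul, Complex.im_ofReal_mul,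
      Complex.one_im, Complex.one_re] at h6 h7
    rcases ha2 with ha2 | ha2 <;> rcases hb2 with hb2 | hb2
    · rw [ha2, hb2] at h7
      simp at h7
    · rw [ha2] at h6 h7
      simp only [zero_div, Complex.zero_im, Complex.zero_re, mul_zero, zero_add] at h6 h7
      rcases mul_eq_zero.1 h6 with h | h
      · rw [h] at h7
        simp at h7
      · exact hb2.ne h
    · rw [hb2] at h6 h7
      simp only [zero_div, Complex.zero_im, Complex.zero_re, mul_zero, add_zero] at h6 h7
      rcases mul_eq_zero.1 h6 with h | h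
      · rw [h] at h7
        simp at h7
      · exact ha2.ne h
    · have g1 : (1 - t) * (Ha / F l Z).im ≤ 0 :=
        mul_nonpos_of_nonneg_of_nonpos (by linarith [ht.2]) ha2.le
      have g2 : t * (Hb / F l Z).im ≤ 0 := mul_nonpos_of_nonneg_of_nonpos ht.1 hb2.le
      have g3 : (1 - t) * (Ha / F l Z).im = 0 := by linarith
      have g4 : t * (Hb / F l Z).im = 0 := by linarith
      rcases mul_eq_zero.1 g3 with h | h
      · rcases mul_eq_zero.1 g4 with h' | h'
        · linarith
        · exact hb2.ne h'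
      · exact ha2.ne h

/-- the real rank one matrix `v vᵀ` -/
def rk (v : V → ℝ) : Matrix V V ℝ := fun i j => v i * v j

/-- the averaged characteristic polynomial -/
noncomputable def PF : List (ℝ × (V → ℝ) × (V → ℝ)) → Matrix V V ℝ → ℝ[X]
  | [], M => M.charpoly
  | (t, a, b) :: l, M => C (1 - t) * PF l (M + rk a) + C t * PF l (M + rk b)

lemma PF_natDegree (l : List (ℝ × (V → ℝ) × (V → ℝ))) :
    ∀ M : Matrix V V ℝ, (PF l M).natDegree ≤ Fintype.card V := by
  induction l with
  | nil => intro M; exact (Matrix.charpoly_natDegree_eq_dim M).le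
  | cons p l ih =>
    obtain ⟨t, a, b⟩ := p
    intro M
    refine (natDegree_add_le _ _).trans (max_le ?_ ?_)
    · exact (natDegree_C_mul_le _ _).trans (ih _)
    · exact (natDegree_C_mul_le _ _).trans (ih _)

lemma PF_coeff (l : List (ℝ × (V → ℝ) × (V → ℝ))) :
    ∀ M : Matrix V V ℝ, (PF l M).coeff (Fintype.card V) = 1 := by
  induction l with
  | nil =>
    intro M
    have h1 := Matrix.charpoly_monic M
    rw [Polynomial.Monic, Polynomial.leadingCoeff, Matrix.charpoly_natDegree_eq_dim] at h1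
    exact h1
  | cons p l ih =>
    obtain ⟨t, a, b⟩ := p
    intro M
    simp only [PF, coeff_add, coeff_C_mul, ih]
    ring

lemma PF_monic (l : List (ℝ × (V → ℝ) × (V → ℝ))) (M : Matrix V V ℝ) : (PF l M).Monic :=
  monic_of_natDegree_le_of_coeff_eq_one _ (PF_natDegree l M) (PF_coeff l M)

lemma PF_natDegree_eq (l : List (ℝ × (V → ℝ) × (V → ℝ))) (M : Matrix V V ℝ) :
    (PF l M).natDegree = Fintype.card V :=
  natDegree_eq_of_le_of_coeff_ne_zero (PF_natDegree l M) (by rw [PF_coeff]; exact one_ne_zero)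

lemma PF_aeval (l : List (ℝ × (V → ℝ) × (V → ℝ))) (z : ℂ) :
    ∀ M : Matrix V V ℝ, aeval z (PF l M) = F l (Matrix.scalar V z - M.map (fun r => (r : ℂ))) := by
  induction l with
  | nil =>
    intro M
    simp only [PF, F]
    have h1 : aeval z M.charpoly = (M.map (fun r => (r : ℂ))).charpoly.eval z := by
      have h2 : (M.map (fun r => (r : ℂ))) = M.map (algebraMap ℝ ℂ) := rfl
      rw [h2, Matrix.charpoly_map, Polynomial.eval_map_algebraMap]
    rw [h1, Matrix.eval_charpoly]
  | cons p l ih =>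
    obtain ⟨t, a, b⟩ := p
    intro M
    simp only [PF, F, map_add, map_mul, aeval_C, ih]
    have h1 : ∀ v : V → ℝ, Matrix.scalar V z - (M + rk v).map (fun r => (r : ℂ)) =
        Matrix.scalar V z - M.map (fun r => (r : ℂ)) - rkc v := by
      intro v
      ext i j
      simp [rk, rkc]
      ring
    rw [h1, h1]
    simp

/-- real rootedness -/
def RR (p : ℝ[X]) : Prop := ∀ z : ℂ, aeval z p = 0 → z.im = 0

lemma PF_RR (l : List (ℝ × (V → ℝ) × (V → ℝ))) (hl : Wt l) (M : Matrix V V ℝ)
    (hM : M.IsSymm) : RR (PF l M) := by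
  have hup : ∀ z : ℂ, 0 < z.im → aeval z (PF l M) ≠ 0 := by
    intro z hz
    rw [PF_aeval]
    refine F_ne_zero l hl _ ?_
    intro x hx
    rw [Matrix.sub_mulVec, dotProduct_sub, Complex.sub_im]
    have h1 : (star x ⬝ᵥ (Matrix.scalar V z) *ᵥ x).im = z.im * ∑ i, ‖x i‖ ^ 2 := by
      have h2 : (Matrix.scalar V z) *ᵥ x = z • x := by
        funext i
        simp [Matrix.scalar_apply, Matrix.mulVec_diagonal]
      rw [h2, dotProduct_smul, smul_eq_mul]
      have h3 : star x ⬝ᵥ x = ((∑ i, ‖x i‖ ^ 2 : ℝ) : ℂ) := by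
        simp only [dotProduct, Pi.star_apply, RCLike.star_def]
        rw [Complex.ofReal_sum]
        refine Finset.sum_congr rfl fun i _ => ?_
        rw [RCLike.conj_mul]
        norm_cast
      rw [h3, Complex.mul_im, Complex.ofReal_im, Complex.ofReal_re, mul_zero, zero_add]
    have h4 : (star x ⬝ᵥ M.map (fun r => (r : ℂ)) *ᵥ x).im = 0 := by
      have h5 : (starRingEnd ℂ) (star x ⬝ᵥ M.map (fun r => (r : ℂ)) *ᵥ x) =
          star x ⬝ᵥ M.map (fun r => (r : ℂ)) *ᵥ x := by
        simp only [dotProduct, mulVec, Pi.star_apply, map_sum, map_mul, RCLike.star_def,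
          Complex.conj_conj, Matrix.map_apply, Complex.conj_ofReal, Finset.mul_sum]
        rw [Finset.sum_comm]
        refine Finset.sum_congr rfl fun i _ => Finset.sum_congr rfl fun j _ => ?_
        have : M j i = M i j := by
          have := congrFun (congrFun hM i) j
          rwa [Matrix.transpose_apply] at this
        rw [this]
        ring
      exact Complex.conj_eq_iff_im.1 h5
    rw [h1, h4, sub_zero]
    obtain ⟨i, hi⟩ : ∃ i, x i ≠ 0 := by
      by_contra h
      push Not at h
      exact hx (funext h)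
    exact mul_pos hz (Finset.sum_pos' (fun _ _ => by positivity) ⟨i, Finset.mem_univ _, by positivity⟩)
  intro z hz
  rcases lt_trichotomy z.im 0 with h | h | h
  · exfalso
    refine hup ((starRingEnd ℂ) z) (by rw [Complex.conj_im]; linarith) ?_
    rw [Polynomial.aeval_conj, hz, map_zero]
  · exact h
  · exact absurd hz (hup z h)

/-! ### A coefficient criterion for the absence of small roots -/

/-- `p` has no real root `≤ y` -/
def NR (y : ℝ) (p : ℝ[X]) : Prop := ∀ r ≤ y, p.eval r ≠ 0

/-- `(-1)^n p(y - u)` -/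
noncomputable def T (y : ℝ) (n : ℕ) (p : ℝ[X]) : ℝ[X] := C ((-1) ^ n) * p.comp (C y - X)

lemma T_lin (y : ℝ) (n : ℕ) (p q : ℝ[X]) (a b : ℝ) (k : ℕ) :
    (T y n (C a * p + C b * q)).coeff k = a * (T y n p).coeff k + b * (T y n q).coeff k := by
  unfold T
  rw [add_comp, mul_comp, mul_comp, C_comp, C_comp, coeff_C_mul, coeff_add, coeff_C_mul,
    coeff_C_mul, coeff_C_mul, coeff_C_mul]
  ring

lemma T_zero (y : ℝ) (n : ℕ) (p : ℝ[X]) : (T y n p).coeff 0 = (-1) ^ n * p.eval y := by
  rw [coeff_zero_eq_eval_zero, T, eval_mul, eval_C, eval_comp]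
  simp

lemma T_natDegree (y : ℝ) (n : ℕ) (p : ℝ[X]) (hp : p.natDegree ≤ n) : (T y n p).natDegree ≤ n := by
  refine (natDegree_C_mul_le _ _).trans ?_
  refine (natDegree_comp_le).trans ?_
  have : (C y - X : ℝ[X]).natDegree ≤ 1 := by
    refine (natDegree_sub_le _ _).trans ?_
    simp
  calc p.natDegree * (C y - X : ℝ[X]).natDegree ≤ n * 1 := Nat.mul_le_mul hp this
    _ = n := mul_one n

lemma exists_roots (p : ℝ[X]) (hp : p.Monic) (hr : RR p) :
    ∃ m : Multiset ℝ, p = (m.map (fun r => X - C r)).prod := by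
  have hs : (p.map (algebraMap ℝ ℂ)).Splits := IsAlgClosed.splits _
  have h1 := hs.eq_prod_roots_of_monic (hp.map _)
  refine ⟨((p.map (algebraMap ℝ ℂ)).roots.map Complex.re), ?_⟩
  apply Polynomial.map_injective (algebraMap ℝ ℂ) (algebraMap ℝ ℂ).injective
  conv_lhs => rw [h1]
  rw [Polynomial.map_multiset_prod, Multiset.map_map, Multiset.map_map]
  congr 1
  refine Multiset.map_congr rfl fun z hz => ?_
  have hz2 : z.im = 0 := by
    apply hr
    have := (Polynomial.mem_roots'.1 hz).2
    rwa [Polynomial.IsRoot.def, Polynomial.eval_map_algebraMap] at this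
  simp only [Function.comp_apply, Polynomial.map_sub, map_X, map_C]
  congr 2
  apply Complex.ext
  · simp
  · simp [hz2]

lemma coeff_pos (m : Multiset ℝ) (hm : ∀ s ∈ m, 0 < s) :
    (∀ k ≤ Multiset.card m, 0 < ((m.map (fun s => X + C s)).prod).coeff k) ∧
      ∀ k, 0 ≤ ((m.map (fun s => X + C s)).prod).coeff k := by
  induction m using Multiset.induction_on with
  | empty =>
    simp only [Multiset.map_zero, Multiset.prod_zero, Multiset.card_zero]
    constructor
    · intro k hk
      rw [Nat.le_zero.1 hk]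
      simp
    · intro k
      rw [coeff_one]
      split_ifs <;> norm_num
  | cons s m ih =>
    have hs : 0 < s := hm s (Multiset.mem_cons_self _ _)
    obtain ⟨ih1, ih2⟩ := ih fun t ht => hm t (Multiset.mem_cons_of_mem ht)
    rw [Multiset.map_cons, Multiset.prod_cons, Multiset.card_cons]
    constructor
    · intro k hk
      rw [add_mul, coeff_add, coeff_C_mul]
      rcases k with _ | k
      · rw [coeff_X_mul_zero, zero_add]
        exact mul_pos hs (ih1 0 (Nat.zero_le _))
      · rw [coeff_X_mul]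
        have := ih1 k (by omega)
        have := ih2 (k + 1)
        positivity
    · intro k
      rw [add_mul, coeff_add, coeff_C_mul]
      have h2 := ih2 k
      rcases k with _ | k
      · rw [coeff_X_mul_zero, zero_add]
        positivity
      · rw [coeff_X_mul]
        have := ih2 k
        positivity

lemma T_pos (y : ℝ) (n : ℕ) (p : ℝ[X]) (hp : p.Monic) (hn : p.natDegree = n) (hr : RR p)
    (h : NR y p) : ∀ k ≤ n, 0 < (T y n p).coeff k := by
  obtain ⟨m, hm⟩ := exists_roots p hp hr
  have hcard : Multiset.card m = n := by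
    rw [← hn, hm]
    exact (natDegree_multiset_prod_X_sub_C_eq_card m).symm
  have hpos : ∀ r ∈ m, 0 < r - y := by
    intro r hr
    by_contra hcon
    push Not at hcon
    apply h r (by linarith)
    rw [hm, eval_multiset_prod, Multiset.map_map]
    apply Multiset.prod_eq_zero
    rw [Multiset.mem_map]
    exact ⟨r, hr, by simp⟩
  have hT : T y n p = ((m.map (fun r => r - y)).map (fun s => X + C s)).prod := by
    rw [T, hm, ← hcard, Polynomial.multiset_prod_comp, Multiset.map_map, Multiset.map_map]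
    clear hm hcard hpos
    induction m using Multiset.induction_on with
    | empty => simp
    | cons r m ih =>
      simp only [Function.comp_def] at ih
      simp only [Multiset.map_cons, Multiset.prod_cons, Multiset.card_cons, Function.comp_def]
      rw [← ih, pow_succ, sub_comp, X_comp, C_comp, C_mul, C_neg, C_1, C_sub]
      ring
  intro k hk
  rw [hT]
  refine (coeff_pos _ ?_).1 k (by rw [Multiset.card_map, hcard]; exact hk)
  intro s hs
  rw [Multiset.mem_map] at hs
  obtain ⟨r, hr, rfl⟩ := hs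
  exact hpos r hr

lemma NR_of_T (y : ℝ) (n : ℕ) (p : ℝ[X]) (h0 : 0 < (T y n p).coeff 0)
    (h : ∀ k, 0 ≤ (T y n p).coeff k) : NR y p := by
  intro r hr h1
  have h2 : (T y n p).eval (y - r) = 0 := by
    rw [T, eval_mul, eval_comp, eval_sub, eval_C, eval_X, eval_C, sub_sub_cancel, h1, mul_zero]
  rw [eval_eq_sum_range, Finset.sum_range_succ', pow_zero, mul_one] at h2
  have h3 : 0 ≤ ∑ i ∈ Finset.range (T y n p).natDegree,
      (T y n p).coeff (i + 1) * (y - r) ^ (i + 1) :=
    Finset.sum_nonneg fun i _ => mul_nonneg (h _) (pow_nonneg (by linarith) _)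
  linarith

lemma key_step (y : ℝ) (n : ℕ) (g0 g1 : ℝ[X]) (h0 : g0.natDegree ≤ n) (h0' : g0.coeff n = 1)
    (h1 : g1.natDegree ≤ n) (h1' : g1.coeff n = 1)
    (hr : ∀ t : ℝ, 0 ≤ t → t ≤ 1 → RR (C (1 - t) * g0 + C t * g1))
    (hy : NR y g1) (hy0 : 0 < (T y n g0).coeff 0) : NR y g0 := by
  by_contra hcon
  have hm : ∀ t : ℝ, (C (1 - t) * g0 + C t * g1).Monic ∧
      (C (1 - t) * g0 + C t * g1).natDegree = n := by
    intro t
    have hd : (C (1 - t) * g0 + C t * g1).natDegree ≤ n :=
      (natDegree_add_le _ _).trans (max_le ((natDegree_C_mul_le _ _).trans h0)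
        ((natDegree_C_mul_le _ _).trans h1))
    have hc : (C (1 - t) * g0 + C t * g1).coeff n = 1 := by
      rw [coeff_add, coeff_C_mul, coeff_C_mul, h0', h1']
      ring
    exact ⟨monic_of_natDegree_le_of_coeff_eq_one _ hd hc,
      natDegree_eq_of_le_of_coeff_ne_zero hd (by rw [hc]; exact one_ne_zero)⟩
  have hb : ∀ k ≤ n, 0 < (T y n g1).coeff k := by
    have e : C (1 - (1 : ℝ)) * g0 + C (1 : ℝ) * g1 = g1 := by simp
    have h2 := hm 1
    have h3 := hr 1 zero_le_one le_rfl
    rw [e] at h2 h3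
    exact T_pos y n g1 h2.1 h2.2 h3 hy
  obtain ⟨k0, hk0⟩ : ∃ k, (T y n g0).coeff k < 0 := by
    by_contra hno
    push Not at hno
    exact hcon (NR_of_T y n g0 hy0 hno)
  have hk0n : k0 ≤ n := by
    by_contra hgt
    push Not at hgt
    have := coeff_eq_zero_of_natDegree_lt (lt_of_le_of_lt (T_natDegree y n g0 h0) hgt)
    rw [this] at hk0
    exact lt_irrefl _ hk0
  let K := (Finset.range (n + 1)).filter (fun k => (T y n g0).coeff k < 0)
  have hK : K.Nonempty := ⟨k0, by simp only [K, Finset.mem_filter, Finset.mem_range]; exact ⟨by omega, hk0⟩⟩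
  obtain ⟨ks, hks, hmax⟩ := Finset.exists_max_image K
    (fun k => -(T y n g0).coeff k / ((T y n g1).coeff k - (T y n g0).coeff k)) hK
  simp only [K, Finset.mem_filter, Finset.mem_range] at hks hmax
  obtain ⟨t, ht⟩ : ∃ t, t = -(T y n g0).coeff ks / ((T y n g1).coeff ks - (T y n g0).coeff ks) :=
    ⟨_, rfl⟩
  rw [← ht] at hmax
  have hbk := hb ks (by omega)
  have hden : 0 < (T y n g1).coeff ks - (T y n g0).coeff ks := by linarith [hks.2]
  have ht0 : 0 < t := by
    rw [ht]
    exact div_pos (by linarith [hks.2]) hden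
  have ht1 : t < 1 := by
    rw [ht, div_lt_one hden]
    linarith
  have hlin : ∀ k, (T y n (C (1 - t) * g0 + C t * g1)).coeff k =
      (1 - t) * (T y n g0).coeff k + t * (T y n g1).coeff k := fun k => T_lin _ _ _ _ _ _ _
  have hnn : ∀ k, 0 ≤ (T y n (C (1 - t) * g0 + C t * g1)).coeff k := by
    intro k
    rw [hlin]
    by_cases hkn : k ≤ n
    · have hbk' := hb k hkn
      by_cases hak : (T y n g0).coeff k < 0
      · have h4 := hmax k ⟨by omega, hak⟩
        have hden' : 0 < (T y n g1).coeff k - (T y n g0).coeff k := by linarith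
        rw [div_le_iff₀ hden'] at h4
        linarith
      · push Not at hak
        have : 0 < 1 - t := by linarith
        positivity
    · push Not at hkn
      rw [coeff_eq_zero_of_natDegree_lt (lt_of_le_of_lt (T_natDegree y n g0 h0) hkn),
        coeff_eq_zero_of_natDegree_lt (lt_of_le_of_lt (T_natDegree y n g1 h1) hkn)]
      simp
  have h00 : 0 < (T y n (C (1 - t) * g0 + C t * g1)).coeff 0 := by
    rw [hlin]
    have := hb 0 (Nat.zero_le _)
    have : 0 < 1 - t := by linarith
    positivity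
  have hNR := NR_of_T y n _ h00 hnn
  have hfin := T_pos y n _ (hm t).1 (hm t).2 (hr t ht0.le ht1.le) hNR ks (by omega)
  rw [hlin] at hfin
  have : (1 - t) * (T y n g0).coeff ks + t * (T y n g1).coeff ks = 0 := by
    rw [ht]
    field_simp
    ring
  rw [this] at hfin
  exact lt_irrefl _ hfin

/-- if the midpoint of a segment of real rooted polynomials has no root `≤ y`, so does one of the
end points -/
lemma choose_side (y : ℝ) (n : ℕ) (f0 f1 : ℝ[X]) (h0 : f0.natDegree ≤ n) (h0' : f0.coeff n = 1)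
    (h1 : f1.natDegree ≤ n) (h1' : f1.coeff n = 1)
    (hr : ∀ t : ℝ, 0 ≤ t → t ≤ 1 → RR (C (1 - t) * f0 + C t * f1))
    (hy : NR y (C (1 - 1 / 2) * f0 + C (1 / 2) * f1)) : NR y f0 ∨ NR y f1 := by
  have hd : (C (1 - 1 / 2 : ℝ) * f0 + C (1 / 2 : ℝ) * f1).natDegree ≤ n :=
    (natDegree_add_le _ _).trans (max_le ((natDegree_C_mul_le _ _).trans h0)
      ((natDegree_C_mul_le _ _).trans h1))
  have hc : (C (1 - 1 / 2 : ℝ) * f0 + C (1 / 2 : ℝ) * f1).coeff n = 1 := by
    rw [coeff_add, coeff_C_mul, coeff_C_mul, h0', h1']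
    ring
  have h2 := T_pos y n _ (monic_of_natDegree_le_of_coeff_eq_one _ hd hc)
    (natDegree_eq_of_le_of_coeff_ne_zero hd (by rw [hc]; exact one_ne_zero))
    (hr _ (by norm_num) (by norm_num)) hy 0 (Nat.zero_le _)
  rw [T_lin] at h2
  rcases lt_or_ge 0 ((T y n f0).coeff 0) with h3 | h3
  · left
    refine key_step y n f0 _ h0 h0' hd hc ?_ hy h3
    intro t ht0 ht1
    have e : C (1 - t) * f0 + C t * (C (1 - 1 / 2) * f0 + C (1 / 2) * f1) =
        C (1 - t / 2) * f0 + C (t / 2) * f1 := by
      have e1 : (1 - t / 2 : ℝ) = (1 - t) + t * (1 - 1 / 2) := by ring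
      have e2 : (t / 2 : ℝ) = t * (1 / 2) := by ring
      rw [e1, e2, C_add, C_mul, C_mul]
      ring
    rw [e]
    exact hr _ (by linarith) (by linarith)
  · right
    refine key_step y n f1 _ h1 h1' hd hc ?_ hy (by linarith)
    intro t ht0 ht1
    have e : C (1 - t) * f1 + C t * (C (1 - 1 / 2) * f0 + C (1 / 2) * f1) =
        C (1 - (1 - t / 2)) * f0 + C (1 - t / 2) * f1 := by
      have e1 : (1 - t / 2 : ℝ) = (1 - t) + t * (1 / 2) := by ring
      have e2 : (1 - (1 - t / 2) : ℝ) = t * (1 - 1 / 2) := by ring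
      rw [e2, e1, C_add, C_mul, C_mul]
      ring
    rw [e]
    exact hr _ (by linarith) (by linarith)

/-! ### Choosing the signs -/

variable {ι : Type*} [DecidableEq ι]

/-- the vector selected by a sign -/
def sel (a b : ι → V → ℝ) (s : ι → ℤˣ) (e : ι) : V → ℝ := if s e = 1 then a e else b e

/-- the sum of the selected rank one matrices -/
def SM (a b : ι → V → ℝ) (L : List ι) (s : ι → ℤˣ) : Matrix V V ℝ :=
  (L.map (fun e => rk (sel a b s e))).sum

lemma isSymm_rk (v : V → ℝ) : (rk v).IsSymm := by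
  ext i j
  simp [rk, mul_comm]

lemma SM_congr (a b : ι → V → ℝ) (L : List ι) (s s' : ι → ℤˣ) (h : ∀ e ∈ L, s e = s' e) :
    SM a b L s = SM a b L s' := by
  unfold SM
  congr 1
  refine List.map_congr_left fun e he => ?_
  rw [sel, sel, h e he]

theorem exists_signs (a b : ι → V → ℝ) (y : ℝ) (L : List ι) (hL : L.Nodup) :
    ∀ M : Matrix V V ℝ, M.IsSymm → NR y (PF (L.map (fun e => ((1 / 2 : ℝ), a e, b e))) M) →
      ∃ s : ι → ℤˣ, NR y (M + SM a b L s).charpoly := by
  induction L with
  | nil =>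
    intro M _ h
    exact ⟨1, by simpa [SM, PF] using h⟩
  | cons e L ih =>
    intro M hM h
    rw [List.nodup_cons] at hL
    have hw : ∀ t : ℝ, 0 ≤ t → t ≤ 1 →
        Wt ((t, a e, b e) :: L.map (fun e => ((1 / 2 : ℝ), a e, b e))) := by
      intro t ht0 ht1 p hp
      rw [List.mem_cons] at hp
      rcases hp with rfl | hp
      · exact ⟨ht0, ht1⟩
      · rw [List.mem_map] at hp
        obtain ⟨e', _, rfl⟩ := hp
        constructor <;> norm_num
    have hside := choose_side y (Fintype.card V)
      (PF (L.map (fun e => ((1 / 2 : ℝ), a e, b e))) (M + rk (a e)))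
      (PF (L.map (fun e => ((1 / 2 : ℝ), a e, b e))) (M + rk (b e)))
      (PF_natDegree _ _) (PF_coeff _ _) (PF_natDegree _ _) (PF_coeff _ _)
      (fun t ht0 ht1 => PF_RR _ (hw t ht0 ht1) M hM) (by simpa [PF] using h)
    rcases hside with h1 | h1
    · obtain ⟨s, hs⟩ := ih hL.2 _ (hM.add (isSymm_rk _)) h1
      refine ⟨Function.update s e 1, ?_⟩
      have e1 : SM a b (e :: L) (Function.update s e 1) = rk (a e) + SM a b L s := by
        rw [← SM_congr a b L (Function.update s e 1) s fun e' he' => ?_]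
        · simp [SM, sel]
        · rw [Function.update_of_ne]
          rintro rfl
          exact hL.1 he'
      rw [e1, ← add_assoc]
      exact hs
    · obtain ⟨s, hs⟩ := ih hL.2 _ (hM.add (isSymm_rk _)) h1
      refine ⟨Function.update s e (-1), ?_⟩
      have e1 : SM a b (e :: L) (Function.update s e (-1)) = rk (b e) + SM a b L s := by
        rw [← SM_congr a b L (Function.update s e (-1)) s fun e' he' => ?_]
        · simp [SM, sel]
        · rw [Function.update_of_ne]
          rintro rfl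
          exact hL.1 he'
      rw [e1, ← add_assoc]
      exact hs

/-- flipping one sign -/
def flip (e : ι) (s : ι → ℤˣ) : ι → ℤˣ := Function.update s e (-s e)

lemma flip_flip (e : ι) (s : ι → ℤˣ) : flip e (flip e s) = s := by
  funext e'
  unfold flip
  by_cases h : e' = e
  · subst h; simp
  · simp [Function.update_of_ne h]

lemma flip_self (e : ι) (s : ι → ℤˣ) : flip e s e = - s e := by simp [flip]

lemma flip_ne (e : ι) (s : ι → ℤˣ) (e' : ι) (h : e' ≠ e) : flip e s e' = s e' := by
  simp [flip, Function.update_of_ne h]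

lemma sum_flip [Fintype ι] {R : Type*} [AddCommMonoid R] (e : ι) (g : (ι → ℤˣ) → R) :
    ∑ s, g (flip e s) = ∑ s, g s :=
  Fintype.sum_equiv ⟨flip e, flip e, flip_flip e, flip_flip e⟩ _ _ fun _ => rfl

theorem sum_signs [Fintype ι] (a b : ι → V → ℝ) (y : ℝ) (L : List ι) (hL : L.Nodup) :
    ∀ M : Matrix V V ℝ, ∑ s : ι → ℤˣ, (M + SM a b L s).charpoly.eval y =
      Fintype.card (ι → ℤˣ) * (PF (L.map (fun e => ((1 / 2 : ℝ), a e, b e))) M).eval y := by
  induction L with
  | nil =>
    intro M
    simp [SM, PF]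
  | cons e L ih =>
    intro M
    rw [List.nodup_cons] at hL
    have h1 : ∀ s : ι → ℤˣ, (M + SM a b (e :: L) s).charpoly.eval y +
        (M + SM a b (e :: L) (flip e s)).charpoly.eval y =
        (M + rk (a e) + SM a b L s).charpoly.eval y +
        (M + rk (b e) + SM a b L s).charpoly.eval y := by
      intro s
      have h2 : SM a b L (flip e s) = SM a b L s := by
        refine SM_congr _ _ _ _ _ fun e' he' => flip_ne _ _ _ ?_
        rintro rfl
        exact hL.1 he'
      have h3 : ∀ s' : ι → ℤˣ, SM a b (e :: L) s' = rk (sel a b s' e) + SM a b L s' := by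
        intro s'
        simp [SM]
      rw [h3, h3, h2]
      rcases Int.units_eq_one_or (s e) with h | h
      · have e1 : sel a b s e = a e := by rw [sel, if_pos h]
        have e2 : sel a b (flip e s) e = b e := by
          rw [sel, flip_self, h, if_neg (by decide)]
        rw [e1, e2, add_assoc, add_assoc]
      · have e1 : sel a b s e = b e := by rw [sel, h, if_neg (by decide)]
        have e2 : sel a b (flip e s) e = a e := by
          rw [sel, flip_self, h, neg_neg, if_pos rfl]
        rw [e1, e2, add_assoc, add_assoc, add_comm]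
    have h4 : 2 * ∑ s : ι → ℤˣ, (M + SM a b (e :: L) s).charpoly.eval y =
        ∑ s : ι → ℤˣ, ((M + rk (a e) + SM a b L s).charpoly.eval y +
        (M + rk (b e) + SM a b L s).charpoly.eval y) := by
      rw [← Finset.sum_congr rfl fun s _ => h1 s, Finset.sum_add_distrib,
        sum_flip e (fun s => (M + SM a b (e :: L) s).charpoly.eval y)]
      ring
    rw [Finset.sum_add_distrib, ih hL.2, ih hL.2] at h4
    have h5 : (PF ((e :: L).map (fun e => ((1 / 2 : ℝ), a e, b e))) M).eval y =
        (1 / 2) * (PF (L.map (fun e => ((1 / 2 : ℝ), a e, b e))) (M + rk (a e))).eval y +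
        (1 / 2) * (PF (L.map (fun e => ((1 / 2 : ℝ), a e, b e))) (M + rk (b e))).eval y := by
      simp only [List.map_cons, PF, eval_add, eval_mul, eval_C]
      ring
    rw [h5]
    linarith

/-- Main consequence: if the sum over all signs of the characteristic polynomials does not vanish
on `(-∞, y]`, some choice of signs has no eigenvalue `≤ y`. -/
theorem exists_signs_of_sum [Fintype ι] (a b : ι → V → ℝ) (y : ℝ) (L : List ι) (hL : L.Nodup)
    (h : ∀ r ≤ y, ∑ s : ι → ℤˣ, (SM a b L s).charpoly.eval r ≠ 0) :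
    ∃ s : ι → ℤˣ, NR y (SM a b L s).charpoly := by
  obtain ⟨s, hs⟩ := exists_signs a b y L hL 0 (Matrix.transpose_zero) (fun r hr h0 => by
    have h1 := sum_signs a b r L hL 0
    rw [h0, mul_zero] at h1
    simp only [zero_add] at h1
    exact h r hr h1)
  exact ⟨s, by rwa [zero_add] at hs⟩

end Pool.Agent.R1.Stable
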