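import Mathlib
import Pool.Agent.R1.Stable

/-!
# Sums of determinants over all signings of a graph
-/

set_option autoImplicit false
set_option linter.unusedSectionVars false

open Matrix Finset

namespace Pool.Agent.R1.Match

open Pool.Agent.R1.Stable (flip flip_flip flip_self flip_ne sum_flip)

variable {V : Type*} [Fintype V] [DecidableEq V]

/-- sign of a pair as a real number -/
def sg (s : Sym2 V → ℤˣ) (x y : V) : ℝ := ((s s(x, y) : ℤ) : ℝ)

lemma sg_comm (s : Sym2 V → ℤˣ) (x y : V) : sg s x y = sg s y x := by
  unfold sg; rw [Sym2.eq_swap]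

lemma sg_sq (s : Sym2 V → ℤˣ) (x y : V) : sg s x y * sg s x y = 1 := by
  unfold sg
  rcases Int.units_eq_one_or (s s(x, y)) with h | h <;> rw [h] <;> norm_num

lemma sg_flip (s : Sym2 V → ℤˣ) (x y : V) : sg (flip s(x, y) s) x y = - sg s x y := by
  unfold sg
  rw [flip_self]
  simp

lemma sg_flip_ne (s : Sym2 V → ℤˣ) (x y : V) (e : Sym2 V) (h : s(x, y) ≠ e) :
    sg (flip e s) x y = sg s x y := by
  unfold sg
  rw [flip_ne _ _ _ h]

variable (G : SimpleGraph V) [DecidableRel G.Adj]

/-- the signed matrix restricted to `W` (and the identity outside) -/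
def MM (z : V → ℝ) (s : Sym2 V → ℤˣ) (W : Finset V) : Matrix V V ℝ := fun i j =>
  if i = j then (if i ∈ W then z i else 1)
  else if i ∈ W ∧ j ∈ W ∧ G.Adj i j then - sg s i j else 0

/-- the sum over all signings of the determinants -/
noncomputable def P (z : V → ℝ) (W : Finset V) : ℝ := ∑ s : Sym2 V → ℤˣ, (MM G z s W).det

/-! ### Determinants of matrices with a unit row or column -/

lemma adj_row (A : Matrix V V ℝ) (i j : V) :
    A.adjugate i j = (A.updateRow j (Pi.single i 1)).det := Matrix.adjugate_apply A i j

lemma adj_col (A : Matrix V V ℝ) (i j : V) :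
    A.adjugate j i = (A.updateCol j (Pi.single i 1)).det := by
  have h1 : A.adjugate j i = Aᵀ.adjugate i j := by
    rw [← Matrix.adjugate_transpose, Matrix.transpose_apply]
  rw [h1, Matrix.adjugate_apply, Matrix.updateRow_transpose, Matrix.det_transpose]

/-- if row `v` is the unit vector `e_u`, column `u` may be replaced by `e_v` -/
lemma det_unit_row (A : Matrix V V ℝ) (u v : V) (h : A v = Pi.single u 1) :
    A.det = (A.updateCol u (Pi.single v 1)).det := by
  rw [Matrix.det_eq_sum_mul_adjugate_col A u, Finset.sum_eq_single v]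
  · rw [h, Pi.single_eq_same, one_mul, adj_col]
  · intro i _ hi
    rw [adj_col]
    have : (A.updateCol u (Pi.single i 1)).det = 0 := by
      apply Matrix.det_eq_zero_of_row_eq_zero v
      intro j
      by_cases hj : j = u
      · subst hj
        rw [Matrix.updateCol_self, Pi.single_eq_of_ne (Ne.symm hi)]
      · rw [Matrix.updateCol_ne hj, h, Pi.single_eq_of_ne hj]
    rw [this, mul_zero]
  · intro h; exact absurd (Finset.mem_univ _) h

/-- if column `v` is the unit vector `e_u`, row `u` may be replaced by `e_v` -/
lemma det_unit_col (A : Matrix V V ℝ) (u v : V) (h : ∀ i, A i v = (Pi.single u 1 : V → ℝ) i) :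
    A.det = (A.updateRow u (Pi.single v 1)).det := by
  rw [← Matrix.det_transpose A, det_unit_row Aᵀ u v (by ext i; exact h i),
    Matrix.updateCol_transpose, Matrix.det_transpose]

/-- the diagonal term -/
lemma det_diag (z : V → ℝ) (s : Sym2 V → ℤˣ) (W : Finset V) (v : V) :
    ((MM G z s W).updateRow v (Pi.single v 1)).det = (MM G z s (W.erase v)).det := by
  rw [det_unit_row _ v v (by ext j; rw [Matrix.updateRow_self])]
  congr 1
  ext i j
  by_cases hj : j = v
  · subst hj
    rw [Matrix.updateCol_self]
    unfold MM
    by_cases hi : i = j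
    · subst hi; simp
    · rw [Pi.single_eq_of_ne hi]; simp [hi]
  · rw [Matrix.updateCol_ne hj]
    by_cases hi : i = v
    · subst hi
      rw [Matrix.updateRow_self]
      unfold MM
      rw [Pi.single_eq_of_ne hj]
      simp [Ne.symm hj]
    · rw [Matrix.updateRow_ne hi]
      unfold MM
      simp [hi, hj]

/-- the off-diagonal minor -/
lemma det_off (z : V → ℝ) (s : Sym2 V → ℤˣ) (W : Finset V) (u v : V) (huv : u ≠ v) :
    (((MM G z s W).updateRow v (Pi.single u 1)).updateCol v (Pi.single u 1)).det =
      - (MM G z s ((W.erase v).erase u)).det := by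
  have hvu : v ≠ u := huv.symm
  rw [det_unit_col _ u v (by intro i; rw [Matrix.updateCol_self])]
  rw [det_unit_row _ u v (by
    ext j
    rw [Matrix.updateRow_ne hvu]
    by_cases hj : j = v
    · subst hj
      rw [Matrix.updateCol_self, Pi.single_eq_of_ne hvu]
    · rw [Matrix.updateCol_ne hj, Matrix.updateRow_self])]
  have h1 : (MM G z s ((W.erase v).erase u)).det =
      - ((MM G z s ((W.erase v).erase u)).submatrix (Equiv.swap u v) id).det := by
    rw [Matrix.det_permute, Equiv.Perm.sign_swap huv]
    simp
  rw [h1, neg_neg]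
  congr 1
  ext i j
  rw [Matrix.submatrix_apply, id]
  by_cases hi : i = u
  · subst hi
    rw [Equiv.swap_apply_left]
    by_cases hj : j = i
    · subst hj
      rw [Matrix.updateCol_self]
      unfold MM
      simp [huv, hvu]
    · rw [Matrix.updateCol_ne hj, Matrix.updateRow_self]
      unfold MM
      by_cases hj2 : j = v
      · subst hj2
        simp
      · simp [hj2, Ne.symm hj2]
  · by_cases hi2 : i = v
    · subst hi2
      rw [Equiv.swap_apply_right]
      by_cases hj : j = u
      · subst hj
        rw [Matrix.updateCol_self]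
        unfold MM
        simp
      · rw [Matrix.updateCol_ne hj, Matrix.updateRow_ne hi]
        by_cases hj2 : j = i
        · subst hj2
          rw [Matrix.updateCol_self]
          unfold MM
          simp [huv, hvu]
        · rw [Matrix.updateCol_ne hj2, Matrix.updateRow_self]
          unfold MM
          simp [hj, Ne.symm hj]
    · rw [Equiv.swap_apply_of_ne_of_ne hi hi2]
      by_cases hj : j = u
      · subst hj
        rw [Matrix.updateCol_self]
        unfold MM
        simp [hi, hi2]
      · rw [Matrix.updateCol_ne hj, Matrix.updateRow_ne hi]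
        by_cases hj2 : j = v
        · subst hj2
          rw [Matrix.updateCol_self]
          unfold MM
          simp [hi, hi2]
        · rw [Matrix.updateCol_ne hj2, Matrix.updateRow_ne hi2]
          unfold MM
          simp [hi, hi2, hj, hj2]

/-- flipping an edge does not change matrices that do not involve it -/
lemma MM_flip (z : V → ℝ) (s : Sym2 V → ℤˣ) (W : Finset V) (u v i j : V)
    (h : s(i, j) ≠ s(u, v)) : MM G z (flip s(u, v) s) W i j = MM G z s W i j := by
  unfold MM
  rw [sg_flip_ne _ _ _ _ h]

/-- averaging kills the mixed terms -/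
lemma sum_off (z : V → ℝ) (W : Finset V) (u v : V) (hu : u ∈ W) (hv : v ∈ W) (h : G.Adj v u) :
    ∑ s : Sym2 V → ℤˣ, MM G z s W v u * (MM G z s W).adjugate u v =
      - P G z ((W.erase v).erase u) := by
  have hvu : v ≠ u := h.ne
  have h1 : ∀ s : Sym2 V → ℤˣ, MM G z s W v u * (MM G z s W).adjugate u v =
      ∑ i, MM G z s W v u * (((MM G z s W).updateRow v (Pi.single u 1)) i v *
        (((MM G z s W).updateRow v (Pi.single u 1)).updateCol v (Pi.single i 1)).det) := by
    intro s
    rw [← Finset.mul_sum, adj_row,
      Matrix.det_eq_sum_mul_adjugate_col ((MM G z s W).updateRow v (Pi.single u 1)) v]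
    congr 1
    refine Finset.sum_congr rfl fun i _ => ?_
    rw [adj_col]
  have hMvu : ∀ s : Sym2 V → ℤˣ, MM G z s W v u = - sg s v u := by
    intro s
    unfold MM
    rw [if_neg hvu, if_pos ⟨hv, hu, h⟩]
  rw [Finset.sum_congr rfl fun s _ => h1 s, Finset.sum_comm, Finset.sum_eq_single u]
  · rw [P, ← Finset.sum_neg_distrib]
    refine Finset.sum_congr rfl fun s _ => ?_
    rw [det_off G z s W u v hvu.symm, Matrix.updateRow_ne hvu.symm, hMvu]
    have : MM G z s W u v = - sg s v u := by
      unfold MM
      rw [if_neg hvu.symm, if_pos ⟨hu, hv, h.symm⟩, sg_comm]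
    rw [this]
    linear_combination (-(MM G z s ((W.erase v).erase u)).det) * sg_sq s v u
  · intro i _ hi
    by_cases hiv : i = v
    · subst hiv
      refine Finset.sum_eq_zero fun s _ => ?_
      rw [Matrix.updateRow_self, Pi.single_eq_of_ne hvu]
      ring
    · have h2 : ∀ s : Sym2 V → ℤˣ,
          MM G z (flip s(v, u) s) W v u *
            (((MM G z (flip s(v, u) s) W).updateRow v (Pi.single u 1)) i v *
            (((MM G z (flip s(v, u) s) W).updateRow v (Pi.single u 1)).updateCol v
              (Pi.single i 1)).det) =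
          - (MM G z s W v u * (((MM G z s W).updateRow v (Pi.single u 1)) i v *
            (((MM G z s W).updateRow v (Pi.single u 1)).updateCol v (Pi.single i 1)).det)) := by
        intro s
        have h3 : MM G z (flip s(v, u) s) W v u = - MM G z s W v u := by
          rw [hMvu, hMvu, sg_flip]
        have h4 : ((MM G z (flip s(v, u) s) W).updateRow v (Pi.single u 1)) i v =
            ((MM G z s W).updateRow v (Pi.single u 1)) i v := by
          rw [Matrix.updateRow_ne hiv, Matrix.updateRow_ne hiv]
          apply MM_flip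
          rw [Ne, Sym2.eq_iff]
          rintro (⟨e1, _⟩ | ⟨e1, _⟩)
          · exact hiv e1
          · exact hi e1
        have h5 : (((MM G z (flip s(v, u) s) W).updateRow v (Pi.single u 1)).updateCol v
              (Pi.single i 1)) =
            (((MM G z s W).updateRow v (Pi.single u 1)).updateCol v (Pi.single i 1)) := by
          ext a b
          by_cases hb : b = v
          · subst hb
            rw [Matrix.updateCol_self, Matrix.updateCol_self]
          · rw [Matrix.updateCol_ne hb, Matrix.updateCol_ne hb]
            by_cases ha : a = v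
            · subst ha
              rw [Matrix.updateRow_self, Matrix.updateRow_self]
            · rw [Matrix.updateRow_ne ha, Matrix.updateRow_ne ha]
              apply MM_flip
              rw [Ne, Sym2.eq_iff]
              rintro (⟨e1, _⟩ | ⟨_, e1⟩)
              · exact ha e1
              · exact hb e1
        rw [h3, h4, h5]
        ring
      have h6 := sum_flip s(v, u) (fun s => MM G z s W v u *
        (((MM G z s W).updateRow v (Pi.single u 1)) i v *
        (((MM G z s W).updateRow v (Pi.single u 1)).updateCol v (Pi.single i 1)).det))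
      simp only [h2] at h6
      rw [Finset.sum_neg_distrib] at h6
      linarith
  · intro h; exact absurd (Finset.mem_univ _) h

theorem recur (z : V → ℝ) (W : Finset V) (v : V) (hv : v ∈ W) :
    P G z W = z v * P G z (W.erase v) -
      ∑ u ∈ (W.erase v).filter (fun u => G.Adj v u), P G z ((W.erase v).erase u) := by
  have h1 : P G z W = ∑ j, ∑ s : Sym2 V → ℤˣ, MM G z s W v j * (MM G z s W).adjugate j v := by
    rw [P, Finset.sum_comm]
    exact Finset.sum_congr rfl fun s _ => Matrix.det_eq_sum_mul_adjugate_row _ v
  rw [h1, ← Finset.add_sum_erase _ _ (Finset.mem_univ v)]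
  have h2 : ∑ s : Sym2 V → ℤˣ, MM G z s W v v * (MM G z s W).adjugate v v =
      z v * P G z (W.erase v) := by
    rw [P, Finset.mul_sum]
    refine Finset.sum_congr rfl fun s _ => ?_
    rw [adj_row, det_diag]
    congr 1
    unfold MM
    rw [if_pos rfl, if_pos hv]
  have h3 : ∑ j ∈ Finset.univ.erase v, ∑ s : Sym2 V → ℤˣ, MM G z s W v j *
      (MM G z s W).adjugate j v =
      ∑ u ∈ (W.erase v).filter (fun u => G.Adj v u), -P G z ((W.erase v).erase u) := by
    symm
    apply Finset.sum_subset_zero_on_sdiff
    · intro u hu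
      rw [Finset.mem_filter, Finset.mem_erase] at hu
      rw [Finset.mem_erase]
      exact ⟨hu.1.1, Finset.mem_univ _⟩
    · intro j hj
      rw [Finset.mem_sdiff, Finset.mem_erase, Finset.mem_filter, Finset.mem_erase] at hj
      refine Finset.sum_eq_zero fun s _ => ?_
      have : MM G z s W v j = 0 := by
        unfold MM
        rw [if_neg (Ne.symm hj.1.1), if_neg]
        rintro ⟨_, h5, h6⟩
        exact hj.2 ⟨⟨hj.1.1, h5⟩, h6⟩
      rw [this, zero_mul]
    · intro u hu
      rw [Finset.mem_filter, Finset.mem_erase] at hu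
      exact (sum_off G z W u v hu.1.2 hv hu.2).symm
  rw [h2, h3, Finset.sum_neg_distrib]
  ring

/-! ### Positivity -/

lemma P_empty (z : V → ℝ) : 0 < P G z ∅ := by
  unfold P
  have : ∀ s : Sym2 V → ℤˣ, MM G z s ∅ = 1 := by
    intro s
    ext i j
    unfold MM
    by_cases h : i = j
    · subst h; simp
    · simp [h]
  simp only [this, Matrix.det_one]
  simp

/-- The positivity criterion. -/
theorem P_pos (z : V → ℝ) (r : ℕ → V → V → ℝ) (n : ℕ)
    (hr : ∀ k u v, G.Adj u v → 0 < r k u v)
    (h1 : ∀ k u v, k + 1 ≤ n → G.Adj u v →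
      r (k + 1) u v ≤ z u - ∑ w ∈ (G.neighborFinset u).erase v, (r k w u)⁻¹)
    (h2 : ∀ k u, k + 1 ≤ n → 0 < z u - ∑ w ∈ G.neighborFinset u, (r k w u)⁻¹) :
    ∀ k ≤ n, ∀ W : Finset V, W.card = k → 0 < P G z W ∧
      ∀ u ∈ W, ∀ v ∉ W, G.Adj u v → r k u v * P G z (W.erase u) ≤ P G z W := by
  intro k
  induction k with
  | zero =>
    intro _ W hW
    rw [Finset.card_eq_zero] at hW
    subst hW
    exact ⟨P_empty G z, fun u hu => absurd hu (Finset.notMem_empty u)⟩
  | succ k ih =>
    intro hk W hW
    have key : ∀ u ∈ W, ∀ S : Finset V, (∀ w ∈ W, w ≠ u → G.Adj u w → w ∈ S) →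
        (∀ w ∈ S, G.Adj u w) →
        (z u - ∑ w ∈ S, (r k w u)⁻¹) * P G z (W.erase u) ≤ P G z W := by
      intro u hu S hS hS2
      have hc : (W.erase u).card = k := by rw [Finset.card_erase_of_mem hu, hW]; rfl
      obtain ⟨ih1, ih2⟩ := ih (by omega) (W.erase u) hc
      rw [recur G z W u hu]
      have h3 : ∑ w ∈ (W.erase u).filter (fun w => G.Adj u w), P G z ((W.erase u).erase w) ≤
          ∑ w ∈ (W.erase u).filter (fun w => G.Adj u w), (r k w u)⁻¹ * P G z (W.erase u) := by
        refine Finset.sum_le_sum fun w hw => ?_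
        rw [Finset.mem_filter] at hw
        have h4 := ih2 w hw.1 u (Finset.notMem_erase u W) hw.2.symm
        have h5 := hr k w u hw.2.symm
        rw [inv_mul_eq_div, le_div_iff₀ h5]
        linarith
      have h6 : ∑ w ∈ (W.erase u).filter (fun w => G.Adj u w), (r k w u)⁻¹ * P G z (W.erase u) ≤
          ∑ w ∈ S, (r k w u)⁻¹ * P G z (W.erase u) := by
        refine Finset.sum_le_sum_of_subset_of_nonneg ?_ ?_
        · intro w hw
          rw [Finset.mem_filter, Finset.mem_erase] at hw
          exact hS w hw.1.2 hw.1.1 hw.2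
        · intro w hw _
          have := hr k w u (hS2 w hw).symm
          positivity
      rw [← Finset.sum_mul, ← Finset.sum_mul] at h6
      rw [← Finset.sum_mul] at h3
      rw [sub_mul]
      linarith
    have hpos : ∀ u ∈ W, 0 < P G z (W.erase u) := by
      intro u hu
      have hc : (W.erase u).card = k := by rw [Finset.card_erase_of_mem hu, hW]; rfl
      exact (ih (by omega) (W.erase u) hc).1
    constructor
    · obtain ⟨u, hu⟩ : W.Nonempty := by
        rw [← Finset.card_pos, hW]
        exact Nat.succ_pos k
      have h3 := key u hu (G.neighborFinset u) (fun w _ _ h => by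
        rw [SimpleGraph.mem_neighborFinset]; exact h) (fun w h => by
        rwa [SimpleGraph.mem_neighborFinset] at h)
      exact lt_of_lt_of_le (mul_pos (h2 k u hk) (hpos u hu)) h3
    · intro u hu v hv huv
      have h3 := key u hu ((G.neighborFinset u).erase v) (fun w hw _ h => by
        rw [Finset.mem_erase, SimpleGraph.mem_neighborFinset]
        exact ⟨fun e => hv (e ▸ hw), h⟩) (fun w h => by
        rw [Finset.mem_erase, SimpleGraph.mem_neighborFinset] at h
        exact h.2)
      exact (mul_le_mul_of_nonneg_right (h1 k u v hk huv) (hpos u hu).le).trans h3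

end Pool.Agent.R1.Match
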