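import Mathlib
import Pool.Agent.R1.Mag
import Pool.Agent.R1.Match

/-!
# Lower bounds for the magneto-spectral height via signings
-/

set_option autoImplicit false
set_option linter.unusedSectionVars false

open Matrix Finset

namespace Pool.Agent.R1.Height

open Pool.Agent.R1.Stable Pool.Agent.R1.Match Pool.Agent.R1.Mag

variable {V : Type*} [Fintype V] [DecidableEq V]

/-- the vector `e_x - e_y` of an edge -/
noncomputable def va (e : Sym2 V) : V → ℝ := fun i =>
  (if i = (Quot.out e).1 then 1 else 0) - (if i = (Quot.out e).2 then 1 else 0)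

/-- the vector `e_x + e_y` of an edge -/
noncomputable def vb (e : Sym2 V) : V → ℝ := fun i =>
  (if i = (Quot.out e).1 then 1 else 0) + (if i = (Quot.out e).2 then 1 else 0)

lemma rk_sel (s : Sym2 V → ℤˣ) (e : Sym2 V) (he : ¬ e.IsDiag) (i j : V) :
    rk (sel va vb s e) i j = if i = j then (if i ∈ e then 1 else 0)
      else if e = s(i, j) then - ((s e : ℤ) : ℝ) else 0 := by
  have h1 : s((Quot.out e).1, (Quot.out e).2) = e := Quot.out_eq e
  obtain ⟨x, hx⟩ : ∃ x, x = (Quot.out e).1 := ⟨_, rfl⟩
  obtain ⟨y, hy⟩ : ∃ y, y = (Quot.out e).2 := ⟨_, rfl⟩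
  have hsel : ∀ k, sel va vb s e k = (if k = x then 1 else 0) -
      ((s e : ℤ) : ℝ) * (if k = y then 1 else 0) := by
    intro k
    unfold sel va vb
    rw [← hx, ← hy]
    rcases Int.units_eq_one_or (s e) with h | h
    · rw [if_pos h, h]; simp
    · rw [if_neg (by rw [h]; decide), h]
      push_cast
      ring
  have hsq : ((s e : ℤ) : ℝ) * ((s e : ℤ) : ℝ) = 1 := by
    rcases Int.units_eq_one_or (s e) with h | h <;> rw [h] <;> norm_num
  rw [rk, hsel, hsel]
  rw [← hx, ← hy] at h1
  have hxy : x ≠ y := by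
    rintro rfl
    apply he
    rw [← h1]
    exact rfl
  obtain ⟨c, hc⟩ : ∃ c, c = ((s e : ℤ) : ℝ) := ⟨_, rfl⟩
  rw [← hc] at hsq ⊢
  clear hsel hc
  rw [← h1]
  by_cases hij : i = j
  · subst hij
    rw [if_pos rfl]
    by_cases h2 : i = x
    · subst h2
      simp [hxy]
    · by_cases h3 : i = y
      · subst h3
        simp [h2, hsq]
      · simp [h2, h3]
  · rw [if_neg hij]
    simp only [Sym2.eq_iff]
    by_cases h2 : i = x
    · subst h2
      by_cases h3 : j = y
      · subst h3
        simp [hij, Ne.symm hij]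
      · have h4 : ¬ j = i := fun e => hij e.symm
        have h5 : ¬ y = j := fun e => h3 e.symm
        have h6 : ¬ i = j := hij
        simp [h4, h5, h6, h3, hxy]
    · by_cases h3 : i = y
      · subst h3
        by_cases h4 : j = x
        · subst h4
          have h5 : ¬ j = i := fun e => hij e.symm
          simp [hij, h5]
        · simp [h2, Ne.symm h2, h4, Ne.symm h4, Ne.symm hij]
      · simp [h2, h3, Ne.symm h2, Ne.symm h3]

variable (G : SimpleGraph V) [DecidableRel G.Adj]

lemma MM_self (z : V → ℝ) (s : Sym2 V → ℤˣ) (i : V) : MM G z s Finset.univ i i = z i := by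
  unfold MM
  simp

lemma MM_ne (z : V → ℝ) (s : Sym2 V → ℤˣ) (i j : V) (h : i ≠ j) :
    MM G z s Finset.univ i j = if G.Adj i j then - sg s i j else 0 := by
  unfold MM
  simp [h]

lemma list_sum_apply (L : List (Matrix V V ℝ)) (i j : V) :
    L.sum i j = (L.map (fun A => A i j)).sum := by
  induction L with
  | nil => rfl
  | cons A L ih => rw [List.sum_cons, List.map_cons, List.sum_cons, ← ih]; rfl

lemma SM_eq (s : Sym2 V → ℤˣ) :
    SM va vb G.edgeFinset.toList s = MM G (fun v => (G.degree v : ℝ)) s Finset.univ := by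
  ext i j
  rw [SM, list_sum_apply, List.map_map, Finset.sum_map_toList]
  have h1 : ∀ e ∈ G.edgeFinset, ((fun A : Matrix V V ℝ => A i j) ∘ fun e => rk (sel va vb s e)) e =
      if i = j then (if i ∈ e then 1 else 0)
      else if e = s(i, j) then - ((s e : ℤ) : ℝ) else 0 := by
    intro e he
    rw [Function.comp_apply]
    apply rk_sel
    rw [SimpleGraph.mem_edgeFinset] at he
    exact G.not_isDiag_of_mem_edgeSet he
  rw [Finset.sum_congr rfl h1]
  unfold MM
  by_cases hij : i = j
  · subst hij
    simp only [if_true, Finset.mem_univ]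
    rw [Finset.sum_boole, ← SimpleGraph.incidenceFinset_eq_filter,
      SimpleGraph.card_incidenceFinset_eq_degree]
  · simp only [if_neg hij, Finset.mem_univ, true_and]
    rw [Finset.sum_ite_eq']
    simp only [SimpleGraph.mem_edgeFinset, SimpleGraph.mem_edgeSet]
    rfl

lemma eval_charpoly_MM (s : Sym2 V → ℤˣ) (r : ℝ) :
    (MM G (fun v => (G.degree v : ℝ)) s Finset.univ).charpoly.eval r =
      (-1) ^ Fintype.card V * (MM G (fun v => (G.degree v : ℝ) - r) s Finset.univ).det := by
  rw [Matrix.eval_charpoly, ← Matrix.det_neg]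
  congr 1
  ext i j
  rw [Matrix.sub_apply, Matrix.neg_apply, Matrix.scalar_apply]
  by_cases hij : i = j
  · subst hij
    rw [MM_self, MM_self, Matrix.diagonal_apply_eq]
    ring
  · rw [MM_ne _ _ _ _ _ hij, MM_ne _ _ _ _ _ hij, Matrix.diagonal_apply_ne _ hij]
    ring

/-- If the signed sum is positive for all `r ≤ y`, some signing has smallest eigenvalue `> y`. -/
theorem exists_signing (y : ℝ)
    (h : ∀ r ≤ y, 0 < P G (fun v => (G.degree v : ℝ) - r) Finset.univ) :
    ∃ s : Sym2 V → ℤˣ, NR y (MM G (fun v => (G.degree v : ℝ)) s Finset.univ).charpoly := by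
  obtain ⟨s, hs⟩ := exists_signs_of_sum (va (V := V)) vb y G.edgeFinset.toList
    (Finset.nodup_toList _) (fun r hr h0 => by
      simp only [SM_eq, eval_charpoly_MM, ← Finset.mul_sum] at h0
      have h1 : P G (fun v => (G.degree v : ℝ) - r) Finset.univ = 0 := by
        rcases mul_eq_zero.1 h0 with h2 | h2
        · exact absurd h2 (pow_ne_zero _ (by norm_num))
        · exact h2
      have := h r hr
      rw [h1] at this
      exact lt_irrefl _ this)
  exact ⟨s, by rwa [SM_eq] at hs⟩

end Pool.Agent.R1.Height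

namespace Pool.Agent.R1.Height

open Pool.Agent.R1.Stable Pool.Agent.R1.Match Pool.Agent.R1.Mag

variable {V : Type*} [Fintype V]

open Classical in
/-- Lower bound for `ν` from the positivity of the signed sums. -/
theorem lt_nu [Nonempty V] (G : SimpleGraph V) (y : ℝ)
    (h : ∀ r ≤ y, 0 < P G (fun v => (G.degree v : ℝ) - r) Finset.univ) : y < nu G := by
  obtain ⟨s, hs⟩ := exists_signing G y h
  let σ : V → V → ℂ := fun x y => ((s s(x, y) : ℤ) : ℂ)
  have hσ : IsPotential G σ := by
    intro x y _
    simp only [σ]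
    rw [Sym2.eq_swap]
    rcases Int.units_eq_one_or (s s(y, x)) with h | h <;> rw [h] <;> norm_num
  have hmat : magLap G σ = (MM G (fun v => (G.degree v : ℝ)) s Finset.univ).map
      (algebraMap ℝ ℂ) := by
    ext i j
    rw [Matrix.map_apply]
    unfold magLap
    by_cases hij : i = j
    · subst hij
      rw [MM_self]
      simp
    · rw [if_neg hij, MM_ne _ _ _ _ _ hij]
      by_cases ha : G.Adj i j
      · simp [ha, σ, sg]
      · simp [ha]
  have hl : y < lam1 G σ := by
    rw [lam1_eq]
    have h1 := Pool.Agent.R1.Herm.lamMin_mem (magLap G σ) (herm G σ hσ)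
    by_contra hcon
    push Not at hcon
    apply hs _ hcon
    have h2 : (Polynomial.aeval ((Pool.Agent.R1.Herm.lamMin (magLap G σ) : ℝ) : ℂ))
        (MM G (fun v => (G.degree v : ℝ)) s Finset.univ).charpoly = 0 := by
      rw [← Polynomial.eval_map_algebraMap, ← Matrix.charpoly_map, ← hmat]
      have h3 := (Module.End.hasEigenvalue_iff_isRoot_charpoly _ _).1 h1
      rw [Matrix.charpoly_toLin'] at h3
      exact h3
    rw [← Complex.coe_algebraMap, Polynomial.aeval_algebraMap_apply,
      ] at h2
    have h4 := (algebraMap ℝ ℂ).injective (h2.trans (map_zero (algebraMap ℝ ℂ)).symm)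
    simpa using h4
  exact lt_of_lt_of_le hl (le_csSup (bddAbove G) ⟨σ, hσ, rfl⟩)

end Pool.Agent.R1.Height
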