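import Mathlib
import Pool.Agent.R1.Height

/-!
# The Ramanujan type lower bound for the magneto-spectral height at minimum degree `d`
-/

set_option autoImplicit false

open Matrix Finset

namespace Pool.Agent.R1.DegBound

open Pool.Agent.R1.Match Pool.Agent.R1.Mag Pool.Agent.R1.Height

open Classical in
theorem degBound {V : Type*} [Fintype V] [Nonempty V] (G : SimpleGraph V) (d : ℕ) (hd : 3 ≤ d)
    (hdeg : ∀ v, d ≤ G.degree v) : (d : ℝ) - 2 * √((d : ℝ) - 1) < nu G := by
  have hd' : (3 : ℝ) ≤ d := by exact_mod_cast hd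
  obtain ⟨q, hq⟩ : ∃ q, q = √((d : ℝ) - 1) := ⟨_, rfl⟩
  rw [← hq]
  have hq2 : q * q = d - 1 := by
    rw [hq]
    exact Real.mul_self_sqrt (by linarith)
  have hq0 : 0 ≤ q := by rw [hq]; exact Real.sqrt_nonneg _
  have hq1 : 1 < q := by nlinarith
  have hi : q * q⁻¹ = 1 := mul_inv_cancel₀ (by linarith)
  have hi0 : 0 < q⁻¹ := inv_pos.2 (by linarith)
  have hi1 : q⁻¹ < 1 := inv_lt_one_of_one_lt₀ hq1
  apply lt_nu
  intro r hr
  have hmain := P_pos G (fun v => (G.degree v : ℝ) - r) (fun _ _ _ => q) (Fintype.card V)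
    (fun _ _ _ _ => by linarith) ?_ ?_ (Fintype.card V) le_rfl Finset.univ Finset.card_univ
  · exact hmain.1
  · intro k u v _ huv
    have hD : (d : ℝ) ≤ G.degree u := by exact_mod_cast hdeg u
    rw [Finset.sum_const, Finset.card_erase_of_mem (by rw [SimpleGraph.mem_neighborFinset]; exact huv),
      SimpleGraph.card_neighborFinset_eq_degree, nsmul_eq_mul]
    have h1 : 1 ≤ G.degree u := le_trans (by omega) (hdeg u)
    rw [Nat.cast_sub h1, Nat.cast_one]
    have h2 : ((G.degree u : ℝ) - 1) * q⁻¹ = ((G.degree u : ℝ) - d) * q⁻¹ + q := by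
      have : q = q * q * q⁻¹ := by rw [mul_assoc, hi, mul_one]
      rw [hq2] at this
      nlinarith
    rw [h2]
    nlinarith
  · intro k u _
    have hD : (d : ℝ) ≤ G.degree u := by exact_mod_cast hdeg u
    rw [Finset.sum_const, SimpleGraph.card_neighborFinset_eq_degree, nsmul_eq_mul]
    have h2 : (G.degree u : ℝ) * q⁻¹ = ((G.degree u : ℝ) - d) * q⁻¹ + q + q⁻¹ := by
      have : q = q * q * q⁻¹ := by rw [mul_assoc, hi, mul_one]
      rw [hq2] at this
      nlinarith
    rw [h2]
    nlinarith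

end Pool.Agent.R1.DegBound
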