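import Mathlib
import Pool.Agent.R1.Herm

/-!
# The spectral gap of a graph and test functions
-/

set_option autoImplicit false

open Matrix Finset

namespace Pool.Agent.R1.Gap

open Classical in
/-- The combinatorial Laplacian `(Δ f)(x) = ∑_{y ~ x} (f x - f y)`. -/
noncomputable def lapl {V : Type*} [Fintype V] (G : SimpleGraph V) (f : V → ℝ) (x : V) : ℝ :=
  ∑ y, if G.Adj x y then f x - f y else 0

/-- The spectral gap `λ_2(G)`: the smallest eigenvalue of the Laplacian with an eigenfunction
orthogonal to the constants. -/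
noncomputable def lam2 {V : Type*} [Fintype V] (G : SimpleGraph V) : ℝ :=
  sInf {μ : ℝ | ∃ f : V → ℝ, f ≠ 0 ∧ ∑ x, f x = 0 ∧ ∀ x, lapl G f x = μ * f x}

open Classical in
/-- the Dirichlet energy -/
noncomputable def E {V : Type*} [Fintype V] (G : SimpleGraph V) (f : V → ℝ) : ℝ :=
  (∑ x, ∑ y, if G.Adj x y then (f x - f y) ^ 2 else 0) / 2

variable {V : Type*} [Fintype V] (G : SimpleGraph V)

lemma E_nonneg (f : V → ℝ) : 0 ≤ E G f := by
  unfold E
  refine div_nonneg (Finset.sum_nonneg fun x _ => Finset.sum_nonneg fun y _ => ?_) (by norm_num)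
  split_ifs
  · positivity
  · exact le_rfl

lemma sum_lapl (f : V → ℝ) : ∑ x, lapl G f x = 0 := by
  classical
  have h : ∑ x, lapl G f x = - ∑ x, lapl G f x := by
    unfold lapl
    conv_lhs => rw [Finset.sum_comm]
    rw [← Finset.sum_neg_distrib]
    refine Finset.sum_congr rfl fun x _ => ?_
    rw [← Finset.sum_neg_distrib]
    refine Finset.sum_congr rfl fun y _ => ?_
    by_cases h : G.Adj x y
    · rw [if_pos h, if_pos h.symm]; ring
    · rw [if_neg h, if_neg (fun h' => h h'.symm)]; ring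
  linarith

lemma quad (f : V → ℝ) : ∑ x, f x * lapl G f x = E G f := by
  classical
  have h1 : ∑ x, f x * lapl G f x = ∑ x, ∑ y, if G.Adj x y then f x * (f x - f y) else 0 := by
    refine Finset.sum_congr rfl fun x _ => ?_
    rw [lapl, Finset.mul_sum]
    refine Finset.sum_congr rfl fun y _ => ?_
    split_ifs <;> ring
  have h2 : ∑ x, f x * lapl G f x = ∑ x, ∑ y, if G.Adj x y then f y * (f y - f x) else 0 := by
    rw [h1, Finset.sum_comm]
    refine Finset.sum_congr rfl fun x _ => Finset.sum_congr rfl fun y _ => ?_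
    by_cases h : G.Adj x y
    · rw [if_pos h, if_pos h.symm]
    · rw [if_neg h, if_neg (fun h' => h h'.symm)]
  have h3 : 2 * ∑ x, f x * lapl G f x = 2 * E G f := by
    rw [two_mul]
    nth_rewrite 1 [h1]
    rw [h2, E, mul_div_cancel₀ _ (two_ne_zero), ← Finset.sum_add_distrib]
    refine Finset.sum_congr rfl fun x _ => ?_
    rw [← Finset.sum_add_distrib]
    refine Finset.sum_congr rfl fun y _ => ?_
    split_ifs <;> ring
  linarith

lemma bddBelow : BddBelow {μ : ℝ | ∃ f : V → ℝ, f ≠ 0 ∧ ∑ x, f x = 0 ∧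
    ∀ x, lapl G f x = μ * f x} := by
  classical
  refine ⟨0, ?_⟩
  rintro μ ⟨f, hf, -, h⟩
  have h1 := quad G f
  have h2 : ∑ x, f x * lapl G f x = μ * ∑ x, f x ^ 2 := by
    rw [Finset.mul_sum]
    refine Finset.sum_congr rfl fun x _ => ?_
    rw [h x]; ring
  have h3 : 0 < ∑ x, f x ^ 2 := by
    have := Pool.Agent.R1.Herm.sum_sq_pos f hf
    simpa using this
  have h4 := E_nonneg G f
  rw [← h1, h2] at h4
  by_contra hcon
  push Not at hcon
  nlinarith

/-- test functions orthogonal to the constants bound `λ_2` from above -/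
theorem lam2_le (b : ℝ) (f : V → ℝ) (hf : f ≠ 0) (hs : ∑ x, f x = 0)
    (hb : E G f ≤ b * ∑ x, f x ^ 2) : lam2 G ≤ b := by
  classical
  obtain ⟨v, -⟩ : ∃ v, f v ≠ 0 := by
    by_contra h
    push Not at h
    exact hf (funext h)
  have : Nonempty V := ⟨v⟩
  obtain ⟨c, hc⟩ : ∃ c : ℝ, c = |b| + 1 := ⟨_, rfl⟩
  let A : Matrix V V ℝ := Matrix.of fun x y =>
    (if x = y then ∑ z, (if G.Adj x z then (1 : ℝ) else 0) else 0) -
      (if G.Adj x y then 1 else 0) + c
  have hA : ∀ g : V → ℝ, ∀ x, (A *ᵥ g) x = lapl G g x + c * ∑ y, g y := by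
    intro g x
    simp only [A, mulVec, dotProduct, Matrix.of_apply]
    rw [lapl, Finset.mul_sum]
    have h1 : ∀ y, ((if x = y then ∑ z, (if G.Adj x z then (1 : ℝ) else 0) else 0) -
        (if G.Adj x y then 1 else 0) + c) * g y =
        (if x = y then (∑ z, (if G.Adj x z then (1 : ℝ) else 0)) * g x else 0) -
        (if G.Adj x y then g y else 0) + c * g y := by
      intro y
      by_cases h : x = y
      · subst h; simp; ring
      · rw [if_neg h, if_neg h]
        split_ifs <;> ring
    rw [Finset.sum_congr rfl fun y _ => h1 y, Finset.sum_add_distrib, Finset.sum_sub_distrib,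
      Finset.sum_ite_eq Finset.univ x, if_pos (Finset.mem_univ _), Finset.sum_mul,
      ← Finset.sum_sub_distrib]
    congr 1
    refine Finset.sum_congr rfl fun y _ => ?_
    split_ifs <;> ring
  have hsym : A.IsHermitian := by
    ext x y
    simp only [A, Matrix.conjTranspose_apply, Matrix.of_apply, star_trivial]
    by_cases h : x = y
    · subst h; rfl
    · rw [if_neg h, if_neg (fun h' => h h'.symm)]
      by_cases ha : G.Adj x y
      · rw [if_pos ha, if_pos ha.symm]
      · rw [if_neg ha, if_neg (fun h' => ha h'.symm)]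
  have hle : Pool.Agent.R1.Herm.lamMin A ≤ b := by
    refine Pool.Agent.R1.Herm.lamMin_le_of A hsym f hf b ?_
    have h1 : RCLike.re (star f ⬝ᵥ A *ᵥ f) = E G f := by
      simp only [dotProduct, hA, hs, mul_zero, add_zero, Pi.star_apply, star_trivial]
      exact quad G f
    rw [h1]
    simpa using hb
  have hmem := Pool.Agent.R1.Herm.lamMin_mem A hsym
  obtain ⟨g, hg, hg2, -⟩ := Pool.Agent.R1.Herm.quad_of_eigen A hmem
  obtain ⟨μ, hμ⟩ : ∃ μ, μ = Pool.Agent.R1.Herm.lamMin A := ⟨_, rfl⟩
  rw [← hμ] at hle hg2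
  have hg3 : ∀ x, lapl G g x + c * ∑ y, g y = μ * g x := by
    intro x
    rw [← hA, hg2]
    simp
  have hsum := Finset.sum_congr rfl fun x (_ : x ∈ Finset.univ) => hg3 x
  rw [Finset.sum_add_distrib, sum_lapl, zero_add, Finset.sum_const, ← Finset.mul_sum,
    nsmul_eq_mul] at hsum
  have hcard : (1 : ℝ) ≤ (Finset.univ : Finset V).card := by
    have : 0 < (Finset.univ : Finset V).card := Finset.card_pos.2 Finset.univ_nonempty
    exact_mod_cast this
  have hg0 : ∑ y, g y = 0 := by
    by_contra hne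
    have h1 : ((Finset.univ : Finset V).card : ℝ) * c = μ := by
      apply mul_right_cancel₀ hne
      linarith
    have h2 : b < c := by
      rw [hc]
      linarith [le_abs_self b]
    have h3 : 0 < c := by
      rw [hc]
      positivity
    nlinarith
  refine (csInf_le (bddBelow G) ⟨g, hg, hg0, fun x => ?_⟩).trans hle
  have := hg3 x
  rwa [hg0, mul_zero, add_zero] at this

/-- arbitrary test functions bound `λ_2` from above -/
theorem lam2_le_of [Nonempty V] (b : ℝ) (h : V → ℝ)
    (hpos : 0 < ∑ x, h x ^ 2 - (∑ x, h x) ^ 2 / Fintype.card V)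
    (hb : E G h ≤ b * (∑ x, h x ^ 2 - (∑ x, h x) ^ 2 / Fintype.card V)) : lam2 G ≤ b := by
  classical
  have hn : (Fintype.card V : ℝ) ≠ 0 := by
    have : 0 < Fintype.card V := Fintype.card_pos
    positivity
  obtain ⟨m, hm⟩ : ∃ m : ℝ, m = (∑ x, h x) / Fintype.card V := ⟨_, rfl⟩
  have hm2 : (Fintype.card V : ℝ) * m = ∑ x, h x := by
    rw [hm]; field_simp
  have h1 : ∑ x, (h x - m) ^ 2 = ∑ x, h x ^ 2 - (∑ x, h x) ^ 2 / Fintype.card V := by
    have e1 : ∀ x, (h x - m) ^ 2 = h x ^ 2 - 2 * m * h x + m ^ 2 := fun x => by ring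
    rw [Finset.sum_congr rfl fun x _ => e1 x, Finset.sum_add_distrib, Finset.sum_sub_distrib,
      ← Finset.mul_sum, Finset.sum_const, Finset.card_univ, nsmul_eq_mul, ← hm2]
    field_simp
    ring
  have h2 : ∑ x, (h x - m) = 0 := by
    rw [Finset.sum_sub_distrib, Finset.sum_const, Finset.card_univ, nsmul_eq_mul, hm2, sub_self]
  have h3 : E G (fun x => h x - m) = E G h := by
    unfold E
    congr 1
    refine Finset.sum_congr rfl fun x _ => Finset.sum_congr rfl fun y _ => ?_
    rw [sub_sub_sub_cancel_right]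
  refine lam2_le G b (fun x => h x - m) ?_ h2 (by rw [h1, h3]; exact hb)
  intro h0
  rw [← h1] at hpos
  have : ∑ x, (h x - m) ^ 2 = 0 := by
    refine Finset.sum_eq_zero fun x _ => ?_
    have := congrFun h0 x
    simp only [Pi.zero_apply] at this
    rw [this]
    norm_num
  rw [this] at hpos
  exact lt_irrefl _ hpos

end Pool.Agent.R1.Gap
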