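import Mathlib
import Pool.Agent.R1.Gap

/-!
# Diameter-maximal regular graphs
-/

set_option autoImplicit false

open Finset

namespace Pool.Agent.R1.DiamMax

open Pool.Agent.R1.Gap

/-- The integer `K` with `D = 2K` (`D` even) or `D = 2K - 1` (`D` odd). -/
def KK (D : ℕ) : ℕ := (D + 1) / 2

/-- The positive roots of the equation defining `θ(d, D)`: for even `D` the equation is
`tan (K θ) = - d / (d - 2) tan θ`; for odd `D` it is
`tan (K θ) = - (2 √(d-1) cos θ + d) sin θ / (√(d-1) (d - 2 cos² θ) + (d - 2) cos θ)`.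
Both sides are required to be defined. -/
def roots (d D : ℕ) : Set ℝ :=
  if Even D then
    {θ : ℝ | 0 < θ ∧ Real.cos (KK D * θ) ≠ 0 ∧ Real.cos θ ≠ 0 ∧
      Real.tan (KK D * θ) = -((d : ℝ) / ((d : ℝ) - 2)) * Real.tan θ}
  else
    {θ : ℝ | 0 < θ ∧ Real.cos (KK D * θ) ≠ 0 ∧
      √((d : ℝ) - 1) * ((d : ℝ) - 2 * Real.cos θ ^ 2) + ((d : ℝ) - 2) * Real.cos θ ≠ 0 ∧
      Real.tan (KK D * θ) = -((2 * √((d : ℝ) - 1) * Real.cos θ + (d : ℝ)) * Real.sin θ /
        (√((d : ℝ) - 1) * ((d : ℝ) - 2 * Real.cos θ ^ 2) + ((d : ℝ) - 2) * Real.cos θ))}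

/-- `θ(d, D)`, the smallest positive root. -/
noncomputable def theta (d D : ℕ) : ℝ := sInf (roots d D)

/-- `B(d, D) = d - 2 √(d-1) cos θ(d, D)`. -/
noncomputable def B (d D : ℕ) : ℝ := (d : ℝ) - 2 * √((d : ℝ) - 1) * Real.cos (theta d D)

/-- `G` is a diameter-maximal `d`-regular graph of diameter `D`: it is connected and `d`-regular,
has diameter `D`, and its algebraic connectivity (the smallest eigenvalue of the Laplacian with an
eigenfunction orthogonal to the constants, see `lam2`) equals `B(d, D)`. -/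
def DiameterMaximal {V : Type*} [Fintype V] (G : SimpleGraph V) (d D : ℕ) : Prop :=
  G.Connected ∧ (∀ v, (G.neighborSet v).ncard = d) ∧ G.diam = D ∧ lam2 G = B d D

lemma sInf_eq_of_least {s : Set ℝ} {a : ℝ} (h : IsLeast s a) : sInf s = a := h.csInf_eq

/-- `θ(4, 5)` -/
lemma isLeast_45 : IsLeast (roots 4 5) (Real.arccos ((1 + √13) / (4 * √3))) := by
  have h5 : ¬ Even 5 := by decide
  have hK : KK 5 = 3 := rfl
  obtain ⟨t, ht⟩ : ∃ t, t = √(3 : ℝ) := ⟨_, rfl⟩
  have ht2 : t * t = 3 := by rw [ht]; exact Real.mul_self_sqrt (by norm_num)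
  have ht0 : 0 < t := by rw [ht]; positivity
  obtain ⟨u, hu⟩ : ∃ u, u = √(13 : ℝ) := ⟨_, rfl⟩
  have hu2 : u * u = 13 := by rw [hu]; exact Real.mul_self_sqrt (by norm_num)
  have hu0 : 0 < u := by rw [hu]; positivity
  have hu36 : 3.6 < u := by nlinarith
  have hu37 : u < 3.7 := by nlinarith
  have ht17 : 1.7 < t := by nlinarith
  have ht18 : t < 1.8 := by nlinarith
  rw [← ht, ← hu]
  obtain ⟨c, hc⟩ : ∃ c, c = (1 + u) / (4 * t) := ⟨_, rfl⟩
  rw [← hc]
  have hct : 4 * t * c = 1 + u := by rw [hc]; field_simp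
  have hc0 : 0 < c := by rw [hc]; positivity
  have hc1 : c < 1 := by
    rw [hc, div_lt_one (by positivity)]
    linarith
  have hcos : Real.cos (Real.arccos c) = c := Real.cos_arccos (by linarith) hc1.le
  have hd : √(((4 : ℕ) : ℝ) - 1) = t := by rw [ht]; norm_num
  have hpos : 0 < Real.arccos c := Real.arccos_pos.2 hc1
  -- the polynomial identity behind the equation
  have hkey : ∀ θ : ℝ, Real.sin (3 * θ) * (t * (4 - 2 * Real.cos θ ^ 2) + 2 * Real.cos θ) +
      (2 * t * Real.cos θ + 4) * Real.sin θ * Real.cos (3 * θ) =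
      Real.sin θ * (24 * Real.cos θ ^ 3 + 12 * t * Real.cos θ ^ 2 - 14 * Real.cos θ - 4 * t) := by
    intro θ
    have h1 : Real.sin θ ^ 3 = Real.sin θ * (1 - Real.cos θ ^ 2) := by
      rw [← Real.sin_sq]; ring
    rw [Real.sin_three_mul, Real.cos_three_mul, h1]
    ring
  have hfac : ∀ x : ℝ, 2 * t * x = 2 * t * x → t * (24 * x ^ 3 + 12 * t * x ^ 2 - 14 * x - 4 * t) =
      (2 * t * x + 4) * ((2 * t * x) ^ 2 - 2 * t * x - 3) := by
    intro x _
    have e1 : (2 * t * x + 4) * ((2 * t * x) ^ 2 - 2 * t * x - 3) =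
        8 * (t * t) * t * x ^ 3 + 12 * (t * t) * x ^ 2 - 14 * t * x - 12 := by ring
    rw [e1]
    have e2 : t * (24 * x ^ 3 + 12 * t * x ^ 2 - 14 * x - 4 * t) =
        24 * t * x ^ 3 + 12 * (t * t) * x ^ 2 - 14 * t * x - 4 * (t * t) := by ring
    rw [e2, ht2]
    ring
  have hroot : (2 * t * c) ^ 2 - 2 * t * c - 3 = 0 := by
    have : 2 * t * c = (1 + u) / 2 := by linarith
    rw [this]
    nlinarith
  constructor
  · rw [roots, if_neg h5]
    refine ⟨hpos, ?_, ?_, ?_⟩
    · rw [hK]
      push_cast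
      rw [Real.cos_three_mul, hcos]
      intro h0
      have h1 : c * (4 * c ^ 2 - 3) = 0 := by linarith
      rcases mul_eq_zero.1 h1 with h2 | h2
      · linarith
      · have h3 : (4 * t * c) ^ 2 = (1 + u) ^ 2 := by rw [hct]
        nlinarith
    · rw [hd, hcos]
      push_cast
      have : 0 < t * (4 - 2 * c ^ 2) + (4 - 2) * c := by
        have : c ^ 2 < 1 := by nlinarith
        have : 0 < t * (4 - 2 * c ^ 2) := by
          apply mul_pos ht0
          linarith
        linarith
      exact this.ne'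
    · rw [hK, hd]
      push_cast
      have hden : 0 < t * (4 - 2 * c ^ 2) + (4 - 2) * c := by
        have : c ^ 2 < 1 := by nlinarith
        have : 0 < t * (4 - 2 * c ^ 2) := by
          apply mul_pos ht0
          linarith
        linarith
      have hc3 : Real.cos (3 * Real.arccos c) ≠ 0 := by
        rw [Real.cos_three_mul, hcos]
        intro h0
        have h1 : c * (4 * c ^ 2 - 3) = 0 := by linarith
        rcases mul_eq_zero.1 h1 with h2 | h2
        · linarith
        · have h3 : (4 * t * c) ^ 2 = (1 + u) ^ 2 := by rw [hct]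
          nlinarith
      have h1 := hkey (Real.arccos c)
      have h2 : 24 * c ^ 3 + 12 * t * c ^ 2 - 14 * c - 4 * t = 0 := by
        have := hfac c rfl
        rw [hroot, mul_zero] at this
        rcases mul_eq_zero.1 this with h | h
        · linarith
        · exact h
      rw [hcos, h2, mul_zero] at h1
      rw [Real.tan_eq_sin_div_cos, hcos, ← neg_div, div_eq_div_iff hc3 hden.ne']
      linarith
  · intro θ hθ
    rw [roots, if_neg h5, hK, hd] at hθ
    obtain ⟨h0, h1, h2, h3⟩ := hθ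
    push_cast at h1 h2 h3
    by_contra hlt
    push Not at hlt
    have hpi : θ < Real.pi := lt_of_lt_of_le hlt (Real.arccos_le_pi c)
    have hsin : 0 < Real.sin θ := Real.sin_pos_of_pos_of_lt_pi h0 hpi
    have hcc : c < Real.cos θ := by
      rw [← hcos]
      exact Real.cos_lt_cos_of_nonneg_of_le_pi h0.le (Real.arccos_le_pi c) hlt
    rw [Real.tan_eq_sin_div_cos, ← neg_div, div_eq_div_iff h1 h2] at h3
    have h4 := hkey θ
    have h5' : Real.sin (3 * θ) * (t * (4 - 2 * Real.cos θ ^ 2) + 2 * Real.cos θ) +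
      (2 * t * Real.cos θ + 4) * Real.sin θ * Real.cos (3 * θ) = 0 := by
      linarith
    rw [h5'] at h4
    have h6 : 24 * Real.cos θ ^ 3 + 12 * t * Real.cos θ ^ 2 - 14 * Real.cos θ - 4 * t = 0 := by
      rcases mul_eq_zero.1 h4.symm with h | h
      · exact absurd h hsin.ne'
      · exact h
    have h7 := hfac (Real.cos θ) rfl
    rw [h6, mul_zero] at h7
    have h8 : 2 * t * c < 2 * t * Real.cos θ := by
      have : 0 < 2 * t := by positivity
      exact mul_lt_mul_of_pos_left hcc this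
    have h9 : 0 < 2 * t * c := by positivity
    have h10 : 2 * t * c = (1 + u) / 2 := by linarith
    rcases mul_eq_zero.1 h7.symm with h | h
    · linarith
    · nlinarith

lemma B_45 : B 4 5 = (7 - √13) / 2 := by
  rw [B, theta, sInf_eq_of_least isLeast_45, Real.cos_arccos]
  · have hd : √(((4 : ℕ) : ℝ) - 1) = √3 := by norm_num
    rw [hd]
    have : √(3 : ℝ) ≠ 0 := by positivity
    push_cast
    field_simp
    ring
  · have : 0 < (1 + √13) / (4 * √3) := by positivity
    linarith
  · rw [div_le_one (by positivity)]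
    have h1 : √(13 : ℝ) ≤ 4 := by
      rw [Real.sqrt_le_left (by norm_num)]
      norm_num
    have h2 : (5 / 4 : ℝ) ≤ √3 := by
      apply Real.le_sqrt_of_sq_le
      norm_num
    linarith

/-- `θ(5, 4)` -/
lemma isLeast_54 : IsLeast (roots 5 4) (Real.arccos (√5 / 4)) := by
  have h4 : Even 4 := by decide
  have hK : KK 4 = 2 := rfl
  obtain ⟨u, hu⟩ : ∃ u, u = √(5 : ℝ) := ⟨_, rfl⟩
  have hu2 : u * u = 5 := by rw [hu]; exact Real.mul_self_sqrt (by norm_num)
  have hu0 : 0 < u := by rw [hu]; positivity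
  have hu3 : u < 3 := by nlinarith
  rw [← hu]
  have hc1 : u / 4 < 1 := by linarith
  have hcos : Real.cos (Real.arccos (u / 4)) = u / 4 := Real.cos_arccos (by linarith) hc1.le
  have hpos : 0 < Real.arccos (u / 4) := Real.arccos_pos.2 hc1
  have hpi2 : Real.arccos (u / 4) < Real.pi / 2 := Real.arccos_lt_pi_div_two.2 (by linarith)
  have hkey : ∀ θ : ℝ, Real.sin (2 * θ) * (3 * Real.cos θ) + 5 * Real.sin θ * Real.cos (2 * θ) =
      Real.sin θ * (16 * Real.cos θ ^ 2 - 5) := by
    intro θ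
    rw [Real.sin_two_mul, Real.cos_two_mul]
    ring
  constructor
  · rw [roots, if_pos h4]
    have hc2 : Real.cos (2 * Real.arccos (u / 4)) ≠ 0 := by
      rw [Real.cos_two_mul, hcos]
      nlinarith
    have hc0 : Real.cos (Real.arccos (u / 4)) ≠ 0 := by
      rw [hcos]
      positivity
    refine ⟨hpos, ?_, hc0, ?_⟩
    · rw [hK]
      push_cast
      exact hc2
    · rw [hK]
      push_cast
      have h1 := hkey (Real.arccos (u / 4))
      have h2 : 16 * Real.cos (Real.arccos (u / 4)) ^ 2 - 5 = 0 := by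
        rw [hcos]
        nlinarith
      rw [h2, mul_zero] at h1
      rw [Real.tan_eq_sin_div_cos, Real.tan_eq_sin_div_cos]
      have h3 : -((5 : ℝ) / (5 - 2)) * (Real.sin (Real.arccos (u / 4)) /
          Real.cos (Real.arccos (u / 4))) = (-5 * Real.sin (Real.arccos (u / 4))) /
          (3 * Real.cos (Real.arccos (u / 4))) := by
        rw [show (-((5 : ℝ) / (5 - 2))) = (-5) / 3 by norm_num, div_mul_div_comm]
      rw [h3, div_eq_div_iff hc2 (by positivity)]
      linarith
  · intro θ hθ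
    rw [roots, if_pos h4, hK] at hθ
    obtain ⟨h0, h1, h2, h3⟩ := hθ
    push_cast at h1 h3
    by_contra hlt
    push Not at hlt
    have hpi : θ < Real.pi := lt_of_lt_of_le hlt (Real.arccos_le_pi _)
    have hsin : 0 < Real.sin θ := Real.sin_pos_of_pos_of_lt_pi h0 hpi
    have hcc : u / 4 < Real.cos θ := by
      rw [← hcos]
      exact Real.cos_lt_cos_of_nonneg_of_le_pi h0.le (Real.arccos_le_pi _) hlt
    rw [Real.tan_eq_sin_div_cos, Real.tan_eq_sin_div_cos] at h3
    have h5 : Real.sin (2 * θ) * (3 * Real.cos θ) + 5 * Real.sin θ * Real.cos (2 * θ) = 0 := by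
      have h6 : Real.sin (2 * θ) = -(5 / 3) * (Real.sin θ / Real.cos θ) * Real.cos (2 * θ) := by
        rw [div_eq_iff h1] at h3
        rw [h3]
        norm_num
      rw [h6]
      field_simp
      ring
    rw [hkey] at h5
    rcases mul_eq_zero.1 h5 with h | h
    · exact hsin.ne' h
    · nlinarith

lemma B_54 : B 5 4 = 5 - √5 := by
  have h5 : √(5 : ℝ) ≤ 4 := by
    rw [Real.sqrt_le_left (by norm_num)]
    norm_num
  have h50 : 0 ≤ √(5 : ℝ) := Real.sqrt_nonneg _
  rw [B, theta, sInf_eq_of_least isLeast_54, Real.cos_arccos (by linarith) (by linarith)]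
  have hd : √(((5 : ℕ) : ℝ) - 1) = 2 := by
    rw [show (((5 : ℕ) : ℝ) - 1) = 2 ^ 2 by norm_num]
    exact Real.sqrt_sq (by norm_num)
  rw [hd]
  push_cast
  ring

end Pool.Agent.R1.DiamMax
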