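import Pool.Agent.R1.GMTwo

/-!
# Switching the even-intersection Johnson graphs on `2k` points
-/

set_option autoImplicit false

open Finset Matrix

namespace Pool.Agent.R1.EvenJohnson

open Pool.Agent.R1.GMTwo

/-- the `k`-subsets of `2k` points -/
abbrev V (k : ℕ) := {A : Finset (Fin (2 * k)) // A.card = k}

variable {k : ℕ}

/-- the characteristic vector over the two element field -/
def chi (A : Finset (Fin (2 * k))) : Fin (2 * k) → ZMod 2 := fun i => if i ∈ A then 1 else 0

lemma chi_inj {A B : Finset (Fin (2 * k))} (h : chi A = chi B) : A = B := by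
  ext i
  have := congrFun h i
  simp only [chi] at this
  by_cases h1 : i ∈ A <;> by_cases h2 : i ∈ B <;> simp_all

lemma chi_compl (A : Finset (Fin (2 * k))) : chi Aᶜ = chi A + 1 := by
  funext i
  simp only [chi, Pi.add_apply, Pi.one_apply, mem_compl]
  by_cases h : i ∈ A
  · simp only [h, not_true, if_false, if_true]; decide
  · simp [h]

lemma dot_chi (A B : Finset (Fin (2 * k))) : chi A ⬝ᵥ chi B = ((A ∩ B).card : ZMod 2) := by
  simp only [dotProduct, chi, mul_ite, mul_one, mul_zero]
  rw [← Finset.sum_filter, ← Finset.sum_filter, Finset.sum_const, nsmul_eq_mul, mul_one,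
    Finset.filter_filter]
  congr 2
  ext i
  simp [and_comm]

lemma dot_one (A : Finset (Fin (2 * k))) : chi A ⬝ᵥ 1 = (A.card : ZMod 2) := by
  have : (1 : Fin (2 * k) → ZMod 2) = chi univ := by
    funext i; simp [chi]
  rw [this, dot_chi, inter_univ]

/-- the complementary subset -/
def cpl (A : V k) : V k := ⟨A.1ᶜ, by
  rw [card_compl, Fintype.card_fin, A.2]; omega⟩

lemma cpl_cpl (A : V k) : cpl (cpl A) = A := Subtype.ext (compl_compl _)

lemma chi_cpl (A : V k) : chi (cpl A).1 = chi A.1 + 1 := chi_compl _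

/-- the parity of the intersection -/
def b (A B : V k) : ZMod 2 := chi A.1 ⬝ᵥ chi B.1

lemma b_comm (A B : V k) : b A B = b B A := dotProduct_comm _ _

/-- the graph in which distinct, non complementary `A`, `B` are adjacent iff `F A B = 0` -/
def gr (F : V k → V k → ZMod 2) (hF : ∀ A B, F A B = F B A) : SimpleGraph (V k) where
  Adj A B := A ≠ B ∧ B ≠ cpl A ∧ F A B = 0
  symm := ⟨fun A B h => ⟨h.1.symm, fun h' => h.2.1 (by rw [h', cpl_cpl]), by rw [hF, h.2.2]⟩⟩
  loopless := ⟨fun A h => h.1 rfl⟩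

/-- four special points and the two halves of the other points -/
structure Setup (k : ℕ) where
  P : Bool → Fin (2 * k)
  R : Bool → Fin (2 * k)
  X : Bool → Finset (Fin (2 * k))
  hk : 4 ≤ k
  hP : P true ≠ P false
  hR : R true ≠ R false
  hPR : ∀ a b, P a ≠ R b
  hX : ∀ r, (X r).card = k - 2
  hPX : ∀ r a, P a ∉ X r
  hRX : ∀ r a, R a ∉ X r
  hXX : ∀ r i, i ∈ X r → i ∉ X (!r)
  hcov : ∀ i, (∃ a, i = P a) ∨ (∃ a, i = R a) ∨ ∃ r, i ∈ X r

namespace Setup

variable (S : Setup k)

/-- the eight switched vertices -/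
def c (r : Bool) (u : Bool × Bool) : V k := ⟨insert (S.P u.1) (insert (S.R u.2) (S.X r)), by
  have hk := S.hk
  rw [card_insert_of_notMem, card_insert_of_notMem (S.hRX r u.2), S.hX]
  · omega
  · simp only [mem_insert, not_or]
    exact ⟨S.hPR _ _, S.hPX _ _⟩⟩

lemma mem_c (r : Bool) (u : Bool × Bool) (i : Fin (2 * k)) :
    i ∈ (S.c r u).1 ↔ i = S.P u.1 ∨ i = S.R u.2 ∨ i ∈ S.X r := by
  simp [c]

lemma P_inj {a a' : Bool} (h : S.P a = S.P a') : a = a' := by
  have := S.hP
  cases a <;> cases a' <;> simp_all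

lemma R_inj {a a' : Bool} (h : S.R a = S.R a') : a = a' := by
  have := S.hR
  cases a <;> cases a' <;> simp_all

lemma X_inj {r r' : Bool} {i : Fin (2 * k)} (h : i ∈ S.X r) (h' : i ∈ S.X r') : r = r' := by
  by_contra hr
  have : r' = !r := by cases r <;> cases r' <;> simp_all
  subst this
  exact S.hXX r i h h'

/-- `i ∈ X r` as an equivalence for the other half -/
lemma mem_X_not {r : Bool} {i : Fin (2 * k)} (hP : ∀ a, i ≠ S.P a) (hR : ∀ a, i ≠ S.R a) :
    i ∈ S.X (!r) ↔ i ∉ S.X r := by
  constructor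
  · intro h h'
    exact S.hXX r i h' h
  · intro h
    rcases S.hcov i with ⟨a, ha⟩ | ⟨a, ha⟩ | ⟨r', hr'⟩
    · exact absurd ha (hP a)
    · exact absurd ha (hR a)
    · by_cases hrr : r' = r
      · subst hrr; exact absurd hr' h
      · have : r' = !r := by cases r <;> cases r' <;> simp_all
        rwa [this] at hr'

lemma cpl_c (r : Bool) (u : Bool × Bool) : cpl (S.c r u) = S.c (!r) (!u.1, !u.2) := by
  apply Subtype.ext
  ext i
  have h1 : i ∈ (cpl (S.c r u)).1 ↔ i ∉ (S.c r u).1 := mem_compl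
  rw [h1, mem_c, mem_c]
  by_cases hP : ∃ a, i = S.P a
  · obtain ⟨a, rfl⟩ := hP
    have h2 : ∀ r, S.P a ∉ S.X r := fun r => S.hPX r a
    have h3 : ∀ a', S.P a ≠ S.R a' := fun a' => S.hPR a a'
    have h4 : ∀ a', S.P a = S.P a' ↔ a = a' := fun a' => ⟨S.P_inj, fun h => by rw [h]⟩
    simp only [h2, h3, h4, or_false]
    cases a <;> cases h : u.1 <;> simp
  · by_cases hR : ∃ a, i = S.R a
    · obtain ⟨a, rfl⟩ := hR
      have h2 : ∀ r, S.R a ∉ S.X r := fun r => S.hRX r a
      have h3 : ∀ a', S.R a ≠ S.P a' := fun a' => (S.hPR a' a).symm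
      have h4 : ∀ a', S.R a = S.R a' ↔ a = a' := fun a' => ⟨S.R_inj, fun h => by rw [h]⟩
      simp only [h2, h3, h4, or_false, false_or]
      cases a <;> cases h : u.2 <;> simp
    · push Not at hP hR
      simp only [hP, hR, false_or]
      exact (S.mem_X_not hP hR).symm

lemma c_inj : Function.Injective fun p : Bool × (Bool × Bool) => S.c p.1 p.2 := by
  rintro ⟨r, a, a'⟩ ⟨r', e, e'⟩ h
  simp only at h
  have h1 : ∀ i, i ∈ (S.c r (a, a')).1 ↔ i ∈ (S.c r' (e, e')).1 := fun i => by rw [h]
  simp only [mem_c] at h1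
  have hP : a = e := by
    rcases (h1 (S.P a)).1 (Or.inl rfl) with h2 | h2 | h2
    · exact S.P_inj h2
    · exact absurd h2 (S.hPR _ _)
    · exact absurd h2 (S.hPX _ _)
  have hR : a' = e' := by
    rcases (h1 (S.R a')).1 (Or.inr (Or.inl rfl)) with h2 | h2 | h2
    · exact absurd h2.symm (S.hPR _ _)
    · exact S.R_inj h2
    · exact absurd h2 (S.hRX _ _)
  obtain ⟨i, hi⟩ : (S.X r).Nonempty := by
    rw [← card_pos, S.hX]
    have := S.hk
    omega
  have hr : r = r' := by
    rcases (h1 i).1 (Or.inr (Or.inr hi)) with h2 | h2 | h2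
    · rw [h2] at hi; exact absurd hi (S.hPX _ _)
    · rw [h2] at hi; exact absurd hi (S.hRX _ _)
    · exact S.X_inj hi h2
  rw [hP, hR, hr]

/-- the difference of the two coordinates `R` -/
def al (B : V k) : ZMod 2 := chi B.1 (S.R true) + chi B.1 (S.R false)

/-- the difference of the two coordinates `P` -/
def be (B : V k) : ZMod 2 := chi B.1 (S.P true) + chi B.1 (S.P false)

/-- the disjunction of `al` and `be` -/
def t0 (B : V k) : ZMod 2 := S.al B + S.be B + S.al B * S.be B

lemma chi_insert {A : Finset (Fin (2 * k))} {i : Fin (2 * k)} (h : i ∉ A) :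
    chi (insert i A) = chi A + Pi.single i 1 := by
  funext j
  simp only [chi, mem_insert, Pi.add_apply]
  by_cases hj : j = i
  · subst hj; simp [h]
  · simp [hj]

lemma chi_c (r : Bool) (u : Bool × Bool) :
    chi (S.c r u).1 = chi (S.X r) + Pi.single (S.R u.2) 1 + Pi.single (S.P u.1) 1 := by
  have h1 : (S.c r u).1 = insert (S.P u.1) (insert (S.R u.2) (S.X r)) := rfl
  rw [h1, chi_insert, chi_insert (S.hRX r u.2)]
  simp only [mem_insert, not_or]
  exact ⟨S.hPR _ _, S.hPX _ _⟩

lemma dbl (x : ZMod 2) : x + x = 0 := by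
  revert x; decide

lemma b_c (r : Bool) (u : Bool × Bool) (B : V k) :
    b (S.c r u) B = b (S.c r (true, true)) B + (if u.1 then 0 else S.be B) +
      (if u.2 then 0 else S.al B) := by
  obtain ⟨u1, u2⟩ := u
  cases u1 <;> cases u2 <;>
  · simp only [b, chi_c, add_dotProduct, single_dotProduct, one_mul, be, al, if_true,
      Bool.false_eq_true, if_false]
    generalize chi (S.X r) ⬝ᵥ chi B.1 = x
    generalize chi B.1 (S.R true) = y1
    generalize chi B.1 (S.R false) = y2
    generalize chi B.1 (S.P true) = z1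
    generalize chi B.1 (S.P false) = z2
    revert x y1 y2 z1 z2
    decide

lemma chi_X_P (r a : Bool) : chi (S.X r) (S.P a) = 0 := by simp [chi, S.hPX r a]

lemma chi_X_R (r a : Bool) : chi (S.X r) (S.R a) = 0 := by simp [chi, S.hRX r a]

lemma chi_c_P (r : Bool) (u : Bool × Bool) (a : Bool) :
    chi (S.c r u).1 (S.P a) = if u.1 = a then 1 else 0 := by
  have h : S.P a ∈ (S.c r u).1 ↔ u.1 = a := by
    rw [mem_c]
    constructor
    · rintro (h | h | h)
      · exact (S.P_inj h).symm
      · exact absurd h (S.hPR _ _)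
      · exact absurd h (S.hPX _ _)
    · intro h; exact Or.inl (by rw [h])
  simp [chi, h]

lemma chi_c_R (r : Bool) (u : Bool × Bool) (a : Bool) :
    chi (S.c r u).1 (S.R a) = if u.2 = a then 1 else 0 := by
  have h : S.R a ∈ (S.c r u).1 ↔ u.2 = a := by
    rw [mem_c]
    constructor
    · rintro (h | h | h)
      · exact absurd h.symm (S.hPR _ _)
      · exact (S.R_inj h).symm
      · exact absurd h (S.hRX _ _)
    · intro h; exact Or.inr (Or.inl (by rw [h]))
  simp [chi, h]

lemma dot_X (r r' : Bool) : chi (S.X r) ⬝ᵥ chi (S.X r') =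
    if r = r' then ((k - 2 : ℕ) : ZMod 2) else 0 := by
  rw [dot_chi]
  by_cases h : r = r'
  · subst h; rw [inter_self, S.hX, if_pos rfl]
  · rw [if_neg h]
    have : S.X r ∩ S.X r' = ∅ := by
      rw [← disjoint_iff_inter_eq_empty, disjoint_left]
      intro i hi hi'
      exact h (S.X_inj hi hi')
    rw [this, card_empty, Nat.cast_zero]

lemma b_cc (r r' : Bool) (u u' : Bool × Bool) :
    b (S.c r u) (S.c r' u') = (if r = r' then ((k - 2 : ℕ) : ZMod 2) else 0) +
      (if u.2 = u'.2 then 1 else 0) + (if u.1 = u'.1 then 1 else 0) := by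
  rw [b, chi_c, add_dotProduct, add_dotProduct, single_dotProduct, single_dotProduct, one_mul,
    one_mul, chi_c_P, chi_c_R, chi_c, dotProduct_add, dotProduct_add, dotProduct_single,
    dotProduct_single, chi_X_P, chi_X_R, dot_X]
  simp only [mul_one, add_zero, eq_comm]

/-- the vertex is one of the eight switched ones -/
abbrev D (A : V k) : Prop := InD S.c A

open Classical in
/-- indicator of the switched vertices -/
noncomputable def d (A : V k) : ZMod 2 := if S.D A then 1 else 0

open Classical in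
/-- indicator of the vertices with exactly two neighbours in each cell -/
noncomputable def t (A : V k) : ZMod 2 := if S.D A then 0 else S.t0 A

/-- the form of the switched graph -/
noncomputable def F (A B : V k) : ZMod 2 := b A B + (S.d A * S.t B + S.t A * S.d B)

lemma F_comm (A B : V k) : S.F A B = S.F B A := by
  rw [F, F, b_comm]; ring

lemma D_c (r : Bool) (u : Bool × Bool) : S.D (S.c r u) := ⟨r, u, rfl⟩

lemma D_cpl {A : V k} (h : S.D A) : S.D (cpl A) := by
  obtain ⟨r, u, rfl⟩ := h
  rw [cpl_c]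
  exact S.D_c _ _

lemma D_cpl_iff (A : V k) : S.D (cpl A) ↔ S.D A :=
  ⟨fun h => by have := S.D_cpl h; rwa [cpl_cpl] at this, S.D_cpl⟩

open Classical in
/-- the two graphs are cospectral -/
theorem cospectral : ((gr S.F S.F_comm).adjMatrix ℝ).charpoly =
    ((gr (b (k := k)) (b_comm (k := k))).adjMatrix ℝ).charpoly := by
  apply charpoly_eq S.c_inj
  · intro A B
    simp [SimpleGraph.adj_comm]
  · intro A B
    simp [SimpleGraph.adj_comm]
  · intro A B hA hB
    have h : S.F A B = b A B := by simp [F, d, hA, hB]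
    have h' : (gr S.F S.F_comm).Adj A B ↔ (gr (b (k := k)) (b_comm (k := k))).Adj A B := by
      change (_ ∧ _ ∧ S.F A B = 0) ↔ (_ ∧ _ ∧ b A B = 0)
      rw [h]
    simp only [SimpleGraph.adjMatrix_apply, h']
  · intro r u B hB
    have h1 : ∀ u1, S.c r u1 ≠ B := fun u1 h => hB ⟨r, u1, h.symm⟩
    have h2 : ∀ u1, B ≠ cpl (S.c r u1) := fun u1 h => hB (by rw [h, cpl_c]; exact S.D_c _ _)
    have h3 : ∀ u1, (gr (b (k := k)) (b_comm (k := k))).Adj (S.c r u1) B ↔
        b (S.c r u1) B = 0 := fun u1 =>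
      ⟨fun h => h.2.2, fun h => ⟨h1 _, h2 _, h⟩⟩
    have h4 : (gr S.F S.F_comm).Adj (S.c r u) B ↔ S.F (S.c r u) B = 0 :=
      ⟨fun h => h.2.2, fun h => ⟨h1 _, h2 _, h⟩⟩
    have h5 : S.F (S.c r u) B = b (S.c r u) B + S.t0 B := by
      simp [F, d, t, hB, S.D_c r u]
    obtain ⟨x, hx⟩ : ∃ x, b (S.c r (true, true)) B = x := ⟨_, rfl⟩
    have h6 : ∀ u1, b (S.c r u1) B = x + (if u1.1 then 0 else S.be B) +
        (if u1.2 then 0 else S.al B) := fun u1 => by rw [S.b_c r u1 B, hx]
    simp only [SimpleGraph.adjMatrix_apply, h3, h4, h5, h6, t0]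
    generalize S.al B = y
    generalize S.be B = z
    obtain ⟨u1, u2⟩ := u
    clear h1 h2 h3 h4 h5 h6 hx hB
    have e0 : ∀ x : ZMod 2, x = 0 ∨ x = 1 := by decide
    have e1 : (1 + 1 : ZMod 2) = 0 := by decide
    rcases e0 x with rfl | rfl <;> rcases e0 y with rfl | rfl <;> rcases e0 z with rfl | rfl <;>
    cases u1 <;> cases u2 <;>
    simp only [q, Fintype.sum_prod_type, Fintype.sum_bool] <;> simp [e1] <;> norm_num
  · intro r u r' u'
    set G : SimpleGraph (V k) := gr (b (k := k)) (b_comm (k := k)) with hG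
    have h0 : ∀ v v', (gr S.F S.F_comm).Adj (S.c r v) (S.c r' v') ↔
        G.Adj (S.c r v) (S.c r' v') := by
      intro v v'
      have h : S.F (S.c r v) (S.c r' v') = b (S.c r v) (S.c r' v') := by
        simp [F, t, S.D_c]
      change (_ ∧ _ ∧ S.F _ _ = 0) ↔ (_ ∧ _ ∧ b _ _ = 0)
      rw [h]
    obtain ⟨m, hm⟩ : ∃ m : Bool → Bool → Prop, ∀ v v', G.Adj (S.c r v) (S.c r' v') ↔
        m (xor v.1 v'.1) (xor v.2 v'.2) := by
      refine ⟨fun x y => ¬ (r = r' ∧ x = false ∧ y = false) ∧
        ¬ (r ≠ r' ∧ x = true ∧ y = true) ∧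
        (if r = r' then ((k - 2 : ℕ) : ZMod 2) else 0) + (if y = false then 1 else 0) +
        (if x = false then 1 else 0) = 0, fun v v' => ?_⟩
      obtain ⟨v1, v2⟩ := v
      obtain ⟨w1, w2⟩ := v'
      have e1 : S.c r (v1, v2) ≠ S.c r' (w1, w2) ↔
          ¬ (r = r' ∧ (xor v1 w1) = false ∧ (xor v2 w2) = false) := by
        refine not_congr ?_
        constructor
        · intro h
          have := S.c_inj (a₁ := (r, (v1, v2))) (a₂ := (r', (w1, w2))) h
          simp only [Prod.mk.injEq] at this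
          obtain ⟨a1, a2, a3⟩ := this
          subst a2 a3
          simp [a1]
        · rintro ⟨a1, a2, a3⟩
          subst a1
          have a4 : v1 = w1 := by revert a2; cases v1 <;> cases w1 <;> simp
          have a5 : v2 = w2 := by revert a3; cases v2 <;> cases w2 <;> simp
          rw [a4, a5]
      have e2 : S.c r' (w1, w2) ≠ cpl (S.c r (v1, v2)) ↔
          ¬ (r ≠ r' ∧ (xor v1 w1) = true ∧ (xor v2 w2) = true) := by
        refine not_congr ?_
        rw [S.cpl_c]
        constructor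
        · intro h
          have := S.c_inj (a₁ := (r', (w1, w2))) (a₂ := (!r, (!v1, !v2))) h
          simp only [Prod.mk.injEq] at this
          obtain ⟨a1, a2, a3⟩ := this
          subst a1 a2 a3
          cases r <;> cases v1 <;> cases v2 <;> simp
        · rintro ⟨a1, a2, a3⟩
          have a0 : r' = !r := by revert a1; cases r <;> cases r' <;> simp
          have a4 : w1 = !v1 := by revert a2; cases v1 <;> cases w1 <;> simp
          have a5 : w2 = !v2 := by revert a3; cases v2 <;> cases w2 <;> simp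
          rw [a0, a4, a5]
      change (_ ∧ _ ∧ b _ _ = 0) ↔ _
      rw [e1, e2, S.b_cc]
      have e3 : ((xor v1 w1) = false) = (v1 = w1) := by cases v1 <;> cases w1 <;> simp
      have e4 : ((xor v2 w2) = false) = (v2 = w2) := by cases v2 <;> cases w2 <;> simp
      simp only [e3, e4]
    simp only [SimpleGraph.adjMatrix_apply, h0, hm]
    clear hm h0
    obtain ⟨n, hn⟩ : ∃ n : Bool → Bool → ℝ, ∀ x y, (if m x y then (1 : ℝ) else 0) = n x y :=
      ⟨_, fun _ _ => rfl⟩
    simp only [hn]
    clear hn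
    obtain ⟨u1, u2⟩ := u
    obtain ⟨w1, w2⟩ := u'
    cases u1 <;> cases u2 <;> cases w1 <;> cases w2 <;>
    simp only [q, Fintype.sum_prod_type, Fintype.sum_bool] <;> simp <;> ring

end Setup

end Pool.Agent.R1.EvenJohnson
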