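import Pool.Agent.R1.EvenJohnsonIso

/-!
# The counting statement for eight points
-/

set_option autoImplicit false

open Finset Matrix

namespace Pool.Agent.R1.EvenJohnson

/-- the four special points and the two halves for `k = 4` -/
def S4 : Setup 4 where
  P a := if a then 0 else 3
  R a := if a then 1 else 2
  X r := if r then {4, 5} else {6, 7}
  hk := le_refl _
  hP := by decide
  hR := by decide
  hPR := by decide
  hX := by decide
  hPX := by decide
  hRX := by decide
  hXX := by decide
  hcov := by decide

set_option maxRecDepth 100000 in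
lemma count4 : ∀ s : Fin (2 * 4) → ZMod 2,
    15 ≤ ((powersetCard 4 (univ : Finset (Fin (2 * 4)))).filter
      (fun A => s ⬝ᵥ chi A + S4.tf A = 1)).card := by
  decide +kernel

/-- the value one of the quadratic form outside small sets, for `k = 4` -/
lemma count1_four (s : Fin (2 * 4) → ZMod 2) (Ex : Finset (V 4)) (hE : Ex.card ≤ 14) :
    ∃ v, v ∉ Ex ∧ s ⬝ᵥ chi v.1 + S4.t0 v = 1 := by
  by_contra hcon
  have h := count4 s
  have h2 : ((powersetCard 4 (univ : Finset (Fin (2 * 4)))).filter
      (fun A => s ⬝ᵥ chi A + S4.tf A = 1)) ⊆ Ex.image Subtype.val := by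
    intro A hA
    rw [mem_filter, mem_powersetCard] at hA
    rw [mem_image]
    exact ⟨⟨A, hA.1.2⟩, by_contra fun hn => hcon ⟨_, hn, hA.2⟩, rfl⟩
  have h3 := (card_le_card h2).trans card_image_le
  omega

end Pool.Agent.R1.EvenJohnson
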