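import Pool.Agent.R1.EvenJohnson

/-!
# The switched graph is not isomorphic to the original one
-/

set_option autoImplicit false

open Finset Matrix

namespace Pool.Agent.R1.EvenJohnson

/-! ### An invariant property -/

section Inv

variable {W W' : Type*}

open Classical in
/-- indicator of adjacency -/
noncomputable def ind (G : SimpleGraph W) (a v : W) : ZMod 2 := if G.Adj a v then 1 else 0

/-- outside `a`, `c` the sum of the adjacency indicators is constant `κ` -/
def Anti (G : SimpleGraph W) (κ : ZMod 2) (a c : W) : Prop :=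
  ∀ v, v ≠ a → v ≠ c → ind G a v + ind G c v = κ

/-- any two vertices can be completed to a quadruple with vanishing sum of indicators -/
def Quad (G : SimpleGraph W) (κ : ZMod 2) : Prop :=
  ∀ x y, x ≠ y → ∃ z w, z ≠ w ∧ z ≠ x ∧ z ≠ y ∧ w ≠ x ∧ w ≠ y ∧
    ¬ Anti G κ z x ∧ ¬ Anti G κ z y ∧ ¬ Anti G κ w x ∧ ¬ Anti G κ w y ∧
    ∀ v, v ≠ x → v ≠ y → v ≠ z → v ≠ w → ¬ Anti G κ v x → ¬ Anti G κ v y → ¬ Anti G κ v z →
      ¬ Anti G κ v w → ind G x v + ind G y v + (ind G z v + ind G w v) = 0

variable {G : SimpleGraph W} {H : SimpleGraph W'}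

lemma ind_iso (e : G ≃g H) (a v : W) : ind H (e a) (e v) = ind G a v := by
  classical
  unfold ind
  by_cases h : G.Adj a v
  · rw [if_pos h, if_pos ((SimpleGraph.Iso.map_adj_iff e).2 h)]
  · rw [if_neg h, if_neg (fun h' => h ((SimpleGraph.Iso.map_adj_iff e).1 h'))]

lemma anti_iso (e : G ≃g H) (κ : ZMod 2) (a c : W) : Anti H κ (e a) (e c) ↔ Anti G κ a c := by
  constructor
  · intro h v h1 h2
    rw [← ind_iso e, ← ind_iso e]
    exact h (e v) (fun h' => h1 (e.injective h')) (fun h' => h2 (e.injective h'))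
  · intro h v h1 h2
    obtain ⟨v', rfl⟩ := e.surjective v
    rw [ind_iso e, ind_iso e]
    exact h v' (fun h' => h1 (by rw [h'])) (fun h' => h2 (by rw [h']))

lemma quad_iso (e : G ≃g H) {κ : ZMod 2} (h : Quad G κ) : Quad H κ := by
  intro x y hxy
  obtain ⟨x, rfl⟩ := e.surjective x
  obtain ⟨y, rfl⟩ := e.surjective y
  obtain ⟨z, w, h1, h2, h3, h4, h5, h6, h7, h8, h9, h10⟩ := h x y (fun h' => hxy (by rw [h']))
  have hne : ∀ {a c : W}, a ≠ c → e a ≠ e c := fun hac h' => hac (e.injective h')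
  refine ⟨e z, e w, hne h1, hne h2, hne h3, hne h4, hne h5, ?_, ?_, ?_, ?_, ?_⟩
  · rwa [anti_iso e]
  · rwa [anti_iso e]
  · rwa [anti_iso e]
  · rwa [anti_iso e]
  · intro v
    obtain ⟨v, rfl⟩ := e.surjective v
    have hne' : ∀ {a c : W}, e a ≠ e c → a ≠ c := fun hac h' => hac (by rw [h'])
    intro a1 a2 a3 a4 a5 a6 a7 a8
    rw [anti_iso e] at a5 a6 a7 a8
    rw [ind_iso e, ind_iso e, ind_iso e, ind_iso e]
    exact h10 v (hne' a1) (hne' a2) (hne' a3) (hne' a4) a5 a6 a7 a8

end Inv

variable {k : ℕ}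

/-! ### Counting -/

lemma dot_chi' (s : Fin (2 * k) → ZMod 2) (A : Finset (Fin (2 * k))) :
    s ⬝ᵥ chi A = ∑ i ∈ A, s i := by
  simp only [dotProduct, chi, mul_ite, mul_one, mul_zero]
  rw [← Finset.sum_filter]
  congr 1
  ext i
  simp

lemma exists_notMem (W : Finset (Fin (2 * k))) (m : ℕ) (g : V k → Prop) (Ex : Finset (V k))
    (hE : Ex.card < (2 * k - W.card).choose m)
    (h : ∀ t : Finset (Fin (2 * k)), Disjoint t W → t.card = m →
      ∃ v : V k, v.1 \ W = t ∧ g v) : ∃ v, v ∉ Ex ∧ g v := by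
  by_contra hcon
  have h1 : powersetCard m Wᶜ ⊆ Ex.image (fun v => v.1 \ W) := by
    intro t ht
    rw [mem_powersetCard] at ht
    have hd : Disjoint t W := by
      rw [disjoint_left]
      intro i hi hi'
      exact (mem_compl.1 (ht.1 hi)) hi'
    obtain ⟨v, hv, hg⟩ := h t hd ht.2
    rw [mem_image]
    exact ⟨v, by_contra fun hn => hcon ⟨v, hn, hg⟩, hv⟩
  have h2 := card_le_card h1
  rw [card_powersetCard, card_compl, Fintype.card_fin] at h2
  exact absurd (h2.trans card_image_le) (not_le.2 hE)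

lemma centralBinom_ge (n : ℕ) (hn : 3 ≤ n) : 20 ≤ (2 * n).choose n := by
  induction n, hn using Nat.le_induction with
  | base => decide
  | succ n hn ih =>
    have h := Nat.succ_mul_centralBinom_succ n
    rw [Nat.centralBinom_eq_two_mul_choose, Nat.centralBinom_eq_two_mul_choose] at h
    have h2 : (n + 1) * 20 ≤ (n + 1) * (2 * (n + 1)).choose (n + 1) := by
      rw [h]
      nlinarith
    exact Nat.le_of_mul_le_mul_left h2 (Nat.succ_pos n)

lemma zmod_ne {x : ZMod 2} (h : x ≠ 0) : x = 1 := by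
  revert x; decide

lemma zmod_ne' {x : ZMod 2} (h : x ≠ 1) : x = 0 := by
  revert x; decide

/-- a nonconstant linear form takes the value one outside small sets -/
lemma count0 (hk : 4 ≤ k) (s : Fin (2 * k) → ZMod 2) (h0 : s ≠ 0) (h1 : s ≠ 1)
    (Ex : Finset (V k)) (hE : Ex.card ≤ 14) : ∃ v, v ∉ Ex ∧ s ⬝ᵥ chi v.1 = 1 := by
  obtain ⟨i, hi⟩ : ∃ i, s i = 1 := by
    by_contra hcon
    push Not at hcon
    exact h0 (funext fun i => zmod_ne' (hcon i))
  obtain ⟨j, hj⟩ : ∃ j, s j = 0 := by
    by_contra hcon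
    push Not at hcon
    exact h1 (funext fun i => zmod_ne (hcon i))
  have hij : i ≠ j := by
    rintro rfl
    rw [hi] at hj
    exact one_ne_zero hj
  have hc : ({i, j} : Finset (Fin (2 * k))).card = 2 := card_pair hij
  apply exists_notMem {i, j} (k - 1) _ Ex
  · rw [hc]
    have h2 : 2 * k - 2 = 2 * (k - 1) := by omega
    rw [h2]
    have := centralBinom_ge (k - 1) (by omega)
    omega
  · intro t ht htc
    have hti : i ∉ t := fun h => (disjoint_left.1 ht h) (by simp)
    have htj : j ∉ t := fun h => (disjoint_left.1 ht h) (by simp)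
    by_cases hs : s ⬝ᵥ chi t = 0
    · refine ⟨⟨insert i t, by rw [card_insert_of_notMem hti, htc]; omega⟩, ?_, ?_⟩
      · ext l
        simp only [mem_sdiff, mem_insert, mem_singleton, not_or]
        constructor
        · rintro ⟨h2 | h2, h3, h4⟩
          · exact absurd h2 h3
          · exact h2
        · intro h2
          exact ⟨Or.inr h2, fun h => hti (h ▸ h2), fun h => htj (h ▸ h2)⟩
      · rw [dot_chi', sum_insert hti, ← dot_chi', hs, hi, add_zero]
    · refine ⟨⟨insert j t, by rw [card_insert_of_notMem htj, htc]; omega⟩, ?_, ?_⟩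
      · ext l
        simp only [mem_sdiff, mem_insert, mem_singleton, not_or]
        constructor
        · rintro ⟨h2 | h2, h3, h4⟩
          · exact absurd h2 h4
          · exact h2
        · intro h2
          exact ⟨Or.inr h2, fun h => hti (h ▸ h2), fun h => htj (h ▸ h2)⟩
      · rw [dot_chi', sum_insert htj, ← dot_chi', zmod_ne hs, hj, zero_add]

namespace Setup

variable (S : Setup k)

/-- the quantity `t0` for a set -/
def tf (A : Finset (Fin (2 * k))) : ZMod 2 :=
  (chi A (S.R true) + chi A (S.R false)) + (chi A (S.P true) + chi A (S.P false)) +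
    (chi A (S.R true) + chi A (S.R false)) * (chi A (S.P true) + chi A (S.P false))

lemma t0_eq (B : V k) : S.t0 B = S.tf B.1 := rfl

lemma quad_or : ∀ σ sa sb sp sq α β : ZMod 2,
    (σ + sb + sa + (α + β + α * β) = 1) ∨
    (σ + sb + sp + (α + (1 + β) + α * (1 + β)) = 1) ∨
    (σ + sq + sa + ((1 + α) + β + (1 + α) * β) = 1) ∨
    (σ + sq + sp + ((1 + α) + (1 + β) + (1 + α) * (1 + β)) = 1) := by
  decide

/-- the value one of the quadratic form outside small sets, for `k ≥ 5` -/
lemma count1 (hk : 5 ≤ k) (s : Fin (2 * k) → ZMod 2)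
    (Ex : Finset (V k)) (hE : Ex.card ≤ 14) : ∃ v, v ∉ Ex ∧ s ⬝ᵥ chi v.1 + S.t0 v = 1 := by
  obtain ⟨a, b, ha, hb, hab⟩ : ∃ a b, a ∈ S.X true ∧ b ∈ S.X true ∧ a ≠ b := by
    have h : 1 < (S.X true).card := by rw [S.hX]; omega
    obtain ⟨a, ha, b, hb, hab⟩ := one_lt_card.1 h
    exact ⟨a, b, ha, hb, hab⟩
  have hap : ∀ x, a ≠ S.P x := fun x h => S.hPX true x (h ▸ ha)
  have hbp : ∀ x, b ≠ S.P x := fun x h => S.hPX true x (h ▸ hb)
  have haq : ∀ x, a ≠ S.R x := fun x h => S.hRX true x (h ▸ ha)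
  have hbq : ∀ x, b ≠ S.R x := fun x h => S.hRX true x (h ▸ hb)
  have hpq : ∀ x y, S.P x ≠ S.R y := S.hPR
  have hpp := S.hP
  have hqq := S.hR
  generalize hp0 : S.P true = p at *
  generalize hp1 : S.P false = p' at *
  generalize hq0 : S.R true = q at *
  generalize hq1 : S.R false = q' at *
  have hpa : a ≠ p := by rw [← hp0]; exact hap _
  have hpa' : a ≠ p' := by rw [← hp1]; exact hap _
  have hpb : b ≠ p := by rw [← hp0]; exact hbp _
  have hpb' : b ≠ p' := by rw [← hp1]; exact hbp _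
  have hqa : a ≠ q := by rw [← hq0]; exact haq _
  have hqa' : a ≠ q' := by rw [← hq1]; exact haq _
  have hqb : b ≠ q := by rw [← hq0]; exact hbq _
  have hqb' : b ≠ q' := by rw [← hq1]; exact hbq _
  have h1 : p ≠ q := by rw [← hp0, ← hq0]; exact hpq _ _
  have h2 : p ≠ q' := by rw [← hp0, ← hq1]; exact hpq _ _
  have h3 : p' ≠ q := by rw [← hp1, ← hq0]; exact hpq _ _
  have h4 : p' ≠ q' := by rw [← hp1, ← hq1]; exact hpq _ _
  have hcard : ({p, q, a, b} : Finset (Fin (2 * k))).card = 4 := by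
    rw [card_insert_of_notMem, card_insert_of_notMem, card_pair hab]
    · simp only [mem_insert, mem_singleton, not_or]
      exact ⟨hqa.symm, hqb.symm⟩
    · simp only [mem_insert, mem_singleton, not_or]
      exact ⟨h1, hpa.symm, hpb.symm⟩
  apply exists_notMem {p, q, a, b} (k - 2) _ Ex
  · rw [hcard]
    have h2 : 2 * k - 4 = 2 * (k - 2) := by omega
    rw [h2]
    have := centralBinom_ge (k - 2) (by omega)
    omega
  · intro t ht htc
    have htp : p ∉ t := fun h => (disjoint_left.1 ht h) (by simp)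
    have htq : q ∉ t := fun h => (disjoint_left.1 ht h) (by simp)
    have hta : a ∉ t := fun h => (disjoint_left.1 ht h) (by simp)
    have htb : b ∉ t := fun h => (disjoint_left.1 ht h) (by simp)
    have key : ∀ x y : Fin (2 * k), x ∈ ({p, q, a, b} : Finset (Fin (2 * k))) →
        y ∈ ({p, q, a, b} : Finset (Fin (2 * k))) → x ≠ y →
        s ⬝ᵥ chi (insert x (insert y t)) + S.tf (insert x (insert y t)) = 1 →
        ∃ v : V k, v.1 \ {p, q, a, b} = t ∧ s ⬝ᵥ chi v.1 + S.t0 v = 1 := by
      intro x y hx hy hxy hs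
      have hxt : x ∉ t := fun h => (disjoint_left.1 ht h) hx
      have hyt : y ∉ t := fun h => (disjoint_left.1 ht h) hy
      have hxt' : x ∉ insert y t := by
        simp only [mem_insert, not_or]; exact ⟨hxy, hxt⟩
      refine ⟨⟨insert x (insert y t), ?_⟩, ?_, ?_⟩
      · rw [card_insert_of_notMem hxt', card_insert_of_notMem hyt, htc]
        omega
      · change insert x (insert y t) \ _ = t
        rw [insert_sdiff_of_mem _ hx, insert_sdiff_of_mem _ hy, Finset.sdiff_eq_self_iff_disjoint]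
        exact ht
      · exact hs
    have hsum : ∀ x y, x ≠ y → x ∉ t → y ∉ t → s ⬝ᵥ chi (insert x (insert y t)) =
        s ⬝ᵥ chi t + s y + s x := by
      intro x y hxy hx hy
      have hxt' : x ∉ insert y t := by
        simp only [mem_insert, not_or]; exact ⟨hxy, hx⟩
      rw [dot_chi', sum_insert hxt', sum_insert hy, ← dot_chi']
      ring
    have hv : ∀ x y l, chi (insert x (insert y t)) l =
        if l = x ∨ l = y ∨ l ∈ t then 1 else 0 := by
      intro x y l
      simp only [chi, mem_insert]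
    obtain ⟨α, hα⟩ : ∃ α, (if q' ∈ t then (1 : ZMod 2) else 0) = α := ⟨_, rfl⟩
    obtain ⟨β, hβ⟩ : ∃ β, (if p' ∈ t then (1 : ZMod 2) else 0) = β := ⟨_, rfl⟩
    rcases quad_or (s ⬝ᵥ chi t) (s a) (s b) (s p) (s q) α β with h | h | h | h
    · apply key a b (by simp) (by simp) hab
      rw [hsum a b hab hta htb, tf, hp0, hp1, hq0, hq1, ← h, hv, hv, hv, hv]
      simp only [hqa.symm, hqb.symm, htq, hqa'.symm, hqb'.symm, hpa.symm, hpb.symm, htp,
        hpa'.symm, hpb'.symm, or_false, false_or, if_false, hα, hβ, zero_add]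
    · apply key p b (by simp) (by simp) hpb.symm
      rw [hsum p b hpb.symm htp htb, tf, hp0, hp1, hq0, hq1, ← h, hv, hv, hv, hv]
      simp only [h1.symm, h2.symm, hpp.symm, hqb.symm, htq, hqb'.symm, hpb.symm, htp, true_or,
        if_true,
        hpb'.symm, or_false, false_or, if_false, hα, hβ, zero_add]
    · apply key a q (by simp) (by simp) hqa
      rw [hsum a q hqa hta htq, tf, hp0, hp1, hq0, hq1, ← h, hv, hv, hv, hv]
      simp only [h1, h3, hqq.symm, hqa.symm, htq, hqa'.symm, hpa.symm, htp, true_or, or_true,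
        if_true,
        hpa'.symm, or_false, false_or, if_false, hα, hβ, zero_add]
    · apply key p q (by simp) (by simp) h1
      rw [hsum p q h1 htp htq, tf, hp0, hp1, hq0, hq1, ← h, hv, hv, hv, hv]
      simp only [h1, h3, h1.symm, h2.symm, hpp.symm, hqq.symm, htq, htp, true_or, or_true,
        if_true, or_false, false_or, if_false, hα, hβ, zero_add]

end Setup

end Pool.Agent.R1.EvenJohnson
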