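import Pool.Agent.R1.EvenJohnsonIso

/-!
# The switched graph is not isomorphic to the original one: the main argument
-/

set_option autoImplicit false

open Finset Matrix

namespace Pool.Agent.R1.EvenJohnson

variable {k : ℕ}

lemma two_zmod (x : ZMod 2) : x + x = 0 := by revert x; decide

section General

variable {F : V k → V k → ZMod 2} {hF : ∀ A B, F A B = F B A}

lemma ind_gr {A v : V k} (h1 : v ≠ A) (h2 : v ≠ cpl A) : ind (gr F hF) A v = 1 + F A v := by
  classical
  unfold ind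
  by_cases h : F A v = 0
  · rw [if_pos (show (gr F hF).Adj A v from ⟨h1.symm, h2, h⟩), h, add_zero]
  · rw [if_neg (fun h' : (gr F hF).Adj A v => h h'.2.2), zmod_ne h]
    decide

lemma cpl_inj {A B : V k} (h : cpl A = cpl B) : A = B := by
  rw [← cpl_cpl A, h, cpl_cpl]

lemma anti_cpl (hc : ∀ A B, F (cpl A) B = F A B + (k : ZMod 2)) (A : V k) :
    Anti (gr F hF) (k : ZMod 2) A (cpl A) := by
  intro v h1 h2
  rw [ind_gr h1 h2, ind_gr h2 (by rwa [cpl_cpl]), hc]
  have e : ∀ x y : ZMod 2, 1 + x + (1 + (x + y)) = y := by decide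
  exact e _ _

lemma anti_cpl' (hc : ∀ A B, F (cpl A) B = F A B + (k : ZMod 2)) (A : V k) :
    Anti (gr F hF) (k : ZMod 2) (cpl A) A := by
  intro v h1 h2
  rw [add_comm]
  exact anti_cpl hc A v h2 h1

end General

lemma b_cpl (A B : V k) : b (cpl A) B = b A B + (k : ZMod 2) := by
  rw [b, chi_cpl, add_dotProduct, b, dotProduct_comm 1, dot_one, B.2]

lemma chi_ne {A B : V k} (h : A ≠ B) : chi A.1 ≠ chi B.1 := fun h' => h (Subtype.ext (chi_inj h'))

lemma sum_ne_one {A B : V k} (h : A ≠ B) : chi A.1 + chi B.1 + 1 ≠ 1 := by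
  intro h'
  apply chi_ne h
  funext i
  have := congrFun h' i
  simp only [Pi.add_apply, Pi.one_apply] at this
  revert this
  generalize chi A.1 i = x
  generalize chi B.1 i = y
  revert x y
  decide

lemma sum_ne_zero {A B : V k} (h : A ≠ cpl B) : chi A.1 + chi B.1 + 1 ≠ 0 := by
  intro h'
  apply chi_ne h
  rw [chi_cpl]
  funext i
  have := congrFun h' i
  simp only [Pi.add_apply, Pi.one_apply, Pi.zero_apply] at this ⊢
  revert this
  generalize chi A.1 i = x
  generalize chi B.1 i = y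
  revert x y
  decide

lemma form_sum (A B v : V k) :
    (chi A.1 + chi B.1 + 1) ⬝ᵥ chi v.1 = b A v + b B v + (k : ZMod 2) := by
  rw [add_dotProduct, add_dotProduct, dotProduct_comm 1, dot_one, v.2]; rfl

/-- complementary pairs are recognized in the original graph -/
lemma not_anti (hk : 4 ≤ k) {A B : V k} (h1 : A ≠ B) (h2 : A ≠ cpl B) :
    ¬ Anti (gr (b (k := k)) b_comm) (k : ZMod 2) A B := by
  intro h
  obtain ⟨v, hv, hs⟩ := count0 hk _ (sum_ne_zero h2) (sum_ne_one h1) {A, B, cpl A, cpl B}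
    ((card_le_four).trans (by norm_num))
  simp only [mem_insert, mem_singleton, not_or] at hv
  obtain ⟨v1, v2, v3, v4⟩ := hv
  have h3 := h v v1 v2
  rw [ind_gr v1 v3, ind_gr v2 v4] at h3
  rw [form_sum] at hs
  revert h3 hs
  generalize b A v = x
  generalize b B v = y
  generalize (k : ZMod 2) = z
  revert x y z
  decide

/-! ### The original graph has the invariant property -/

/-- interchange two points -/
def swp (i j : Fin (2 * k)) (A : V k) : V k :=
  ⟨A.1.map (Equiv.swap i j).toEmbedding, by rw [card_map, A.2]⟩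

lemma mem_swp {i j l : Fin (2 * k)} {A : V k} : l ∈ (swp i j A).1 ↔ Equiv.swap i j l ∈ A.1 := by
  simp only [swp, mem_map, Equiv.coe_toEmbedding]
  constructor
  · rintro ⟨a, ha, rfl⟩
    rwa [Equiv.swap_apply_self]
  · intro h
    exact ⟨_, h, Equiv.swap_apply_self _ _ _⟩

lemma chi_swp {i j l : Fin (2 * k)} {A : V k} : chi (swp i j A).1 l = chi A.1 (Equiv.swap i j l) := by
  simp only [chi, mem_swp]

lemma exists_swap (hk : 4 ≤ k) {x y : V k} (hxy : x ≠ y) (hc : y ≠ cpl x) :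
    ∃ a c l1 l2 : Fin (2 * k), (l1 ≠ a ∧ l1 ≠ c) ∧ (l2 ≠ a ∧ l2 ≠ c) ∧
      (a ∈ x.1 ↔ c ∉ x.1) ∧ (a ∈ y.1 ↔ c ∉ y.1) ∧ ¬ (l1 ∈ x.1 ↔ l1 ∈ y.1) ∧
      (l2 ∈ x.1 ↔ l2 ∈ y.1) := by
  have e1 := card_inter_add_card_sdiff x.1 y.1
  have e2 := card_inter_add_card_sdiff y.1 x.1
  rw [inter_comm] at e2
  rw [x.2] at e1
  rw [y.2] at e2
  have e3 : (x.1 \ y.1).Nonempty := by
    rw [sdiff_nonempty]
    intro h
    exact hxy (Subtype.ext (eq_of_subset_of_card_le h (by rw [x.2, y.2])))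
  have e4 : (x.1 ∩ y.1).Nonempty := by
    rw [nonempty_iff_ne_empty]
    intro h
    apply hc
    apply Subtype.ext
    apply eq_of_subset_of_card_le
    · intro i hi
      change i ∈ (x.1)ᶜ
      rw [mem_compl]
      intro hi'
      have : i ∈ x.1 ∩ y.1 := mem_inter.2 ⟨hi', hi⟩
      rw [h] at this
      exact absurd this (notMem_empty i)
    · rw [(cpl x).2, y.2]
  have e3' := card_pos.2 e3
  have e4' := card_pos.2 e4
  by_cases hm : 1 < (x.1 \ y.1).card
  · obtain ⟨a, ha, l1, hl1, hal⟩ := one_lt_card.1 hm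
    obtain ⟨c, hcc⟩ : (y.1 \ x.1).Nonempty := by rw [← card_pos]; omega
    obtain ⟨l2, hl2⟩ := e4
    rw [mem_sdiff] at ha hl1 hcc
    rw [mem_inter] at hl2
    refine ⟨a, c, l1, l2, ⟨hal.symm, fun h => hcc.2 (h ▸ hl1.1)⟩,
      ⟨fun h => ha.2 (h ▸ hl2.2), fun h => hcc.2 (h ▸ hl2.1)⟩, ?_, ?_, ?_, ?_⟩
    · simp [ha.1, hcc.2]
    · simp [ha.2, hcc.1]
    · simp [hl1.1, hl1.2]
    · simp [hl2.1, hl2.2]
  · have hm1 : 1 < (x.1 ∩ y.1).card := by omega
    obtain ⟨a, ha, l2, hl2, hal⟩ := one_lt_card.1 hm1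
    obtain ⟨l1, hl1⟩ := e3
    obtain ⟨c, hcc⟩ : ((x.1 ∪ y.1)ᶜ).Nonempty := by
      rw [← card_pos, card_compl, Fintype.card_fin]
      have := card_union_add_card_inter x.1 y.1
      rw [x.2, y.2] at this
      omega
    rw [mem_compl, mem_union, not_or] at hcc
    rw [mem_sdiff] at hl1
    rw [mem_inter] at hl2 ha
    refine ⟨a, c, l1, l2, ⟨fun h => hl1.2 (h ▸ ha.2), fun h => hcc.1 (h ▸ hl1.1)⟩,
      ⟨hal.symm, fun h => hcc.1 (h ▸ hl2.1)⟩, ?_, ?_, ?_, ?_⟩
    · simp [ha.1, hcc.1]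
    · simp [ha.2, hcc.2]
    · simp [hl1.1, hl1.2]
    · simp [hl2.1, hl2.2]

lemma exists_third (hk : 4 ≤ k) (x : V k) : ∃ z : V k, z ≠ x ∧ z ≠ cpl x := by
  obtain ⟨v, hv, -⟩ := count0 hk (Pi.single (⟨0, by omega⟩ : Fin (2 * k)) 1)
    (by
      intro h
      have := congrFun h ⟨0, by omega⟩
      rw [Pi.single_eq_same] at this
      exact one_ne_zero this)
    (by
      intro h
      have := congrFun h ⟨1, by omega⟩
      rw [Pi.single_eq_of_ne (by intro h'; exact absurd (Fin.mk.inj h') one_ne_zero)] at this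
      exact zero_ne_one this) {x, cpl x} (card_le_two.trans (by norm_num))
  simp only [mem_insert, mem_singleton, not_or] at hv
  exact ⟨v, hv⟩

/-- a switch at two points separated by both sets -/
lemma swp_facts (hk : 4 ≤ k) {x y : V k} {a c l1 l2 : Fin (2 * k)} (h1 : l1 ≠ a ∧ l1 ≠ c)
    (h2 : l2 ≠ a ∧ l2 ≠ c) (hx : a ∈ x.1 ↔ c ∉ x.1)
    (hl1 : ¬ (l1 ∈ x.1 ↔ l1 ∈ y.1)) (hl2 : l2 ∈ x.1 ↔ l2 ∈ y.1) :
    swp a c x ≠ x ∧ swp a c x ≠ cpl x ∧ swp a c x ≠ y ∧ swp a c x ≠ cpl y := by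
  refine ⟨?_, ?_, ?_, ?_⟩
  · intro h
    have h3 : a ∈ (swp a c x).1 ↔ a ∈ x.1 := by rw [h]
    rw [mem_swp, Equiv.swap_apply_left] at h3
    tauto
  · intro h
    obtain ⟨l, hl⟩ : ∃ l : Fin (2 * k), l ∉ ({a, c} : Finset (Fin (2 * k))) := by
      by_contra hcon
      push Not at hcon
      have h3 : (univ : Finset (Fin (2 * k))) ⊆ {a, c} := fun i _ => hcon i
      have h4 := (card_le_card h3).trans card_le_two
      rw [card_univ, Fintype.card_fin] at h4
      omega
    simp only [mem_insert, mem_singleton, not_or] at hl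
    have h3 : l ∈ (swp a c x).1 ↔ l ∈ (cpl x).1 := by rw [h]
    have h4 : l ∈ (cpl x).1 ↔ l ∉ x.1 := mem_compl
    rw [mem_swp, Equiv.swap_apply_of_ne_of_ne hl.1 hl.2, h4] at h3
    tauto
  · intro h
    have h3 : l1 ∈ (swp a c x).1 ↔ l1 ∈ y.1 := by rw [h]
    rw [mem_swp, Equiv.swap_apply_of_ne_of_ne h1.1 h1.2] at h3
    exact hl1 h3
  · intro h
    have h3 : l2 ∈ (swp a c x).1 ↔ l2 ∈ (cpl y).1 := by rw [h]
    have h4 : l2 ∈ (cpl y).1 ↔ l2 ∉ y.1 := mem_compl
    rw [mem_swp, Equiv.swap_apply_of_ne_of_ne h2.1 h2.2, h4] at h3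
    tauto

lemma chi_sep {A : Finset (Fin (2 * k))} {a c : Fin (2 * k)} (h : a ∈ A ↔ c ∉ A) :
    chi A a = chi A c + 1 := by
  by_cases g : a ∈ A
  · have g' : c ∉ A := h.1 g
    simp [chi, g, g']
  · have g' : c ∈ A := by
      by_contra g'
      exact g (h.2 g')
    simp only [chi, if_neg g, if_pos g']
    decide

theorem quad_orig (hk : 4 ≤ k) : Quad (gr (b (k := k)) b_comm) (k : ZMod 2) := by
  intro x y hxy
  by_cases hc : y = cpl x
  · subst hc
    obtain ⟨z, hz1, hz2⟩ := exists_third hk x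
    have hz3 : cpl z ≠ x := fun h => hz2 (by rw [← h, cpl_cpl])
    have hz4 : cpl z ≠ cpl x := fun h => hz1 (cpl_inj h)
    have hzz : z ≠ cpl z := by
      intro h
      have h0 : (⟨0, by omega⟩ : Fin (2 * k)) ∈ (cpl z).1 ↔ ⟨0, by omega⟩ ∉ z.1 := mem_compl
      rw [← h] at h0
      tauto
    refine ⟨z, cpl z, hzz, hz1, hz2, hz3, hz4, not_anti hk hz1 hz2, ?_, not_anti hk hz3 hz4, ?_, ?_⟩
    · exact not_anti hk hz2 (by rwa [cpl_cpl])
    · exact not_anti hk hz4 (by rwa [cpl_cpl])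
    · intro v a1 a2 a3 a4 _ _ _ _
      rw [anti_cpl b_cpl x v a1 a2, anti_cpl b_cpl z v a3 a4, two_zmod]
  · obtain ⟨a, c, l1, l2, h1, h2, h3, h4, h5, h6⟩ := exists_swap hk hxy hc
    obtain ⟨z1, z2, z3, z4⟩ := swp_facts hk h1 h2 h3 h5 h6
    obtain ⟨w1, w2, w3, w4⟩ := swp_facts hk (y := x) h1 h2 h4 (fun h => h5 h.symm) h6.symm
    have hzw : swp a c x ≠ swp a c y := by
      intro h
      have h7 : l1 ∈ (swp a c x).1 ↔ l1 ∈ (swp a c y).1 := by rw [h]
      rw [mem_swp, mem_swp, Equiv.swap_apply_of_ne_of_ne h1.1 h1.2] at h7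
      exact h5 h7
    refine ⟨swp a c x, swp a c y, hzw, z1, z3, w3, w1, not_anti hk z1 z2, not_anti hk z3 z4,
      not_anti hk w3 w4, not_anti hk w1 w2, ?_⟩
    intro v a1 a2 a3 a4 a5 a6 a7 a8
    have a5' : v ≠ cpl x := fun h => a5 (by rw [h]; exact anti_cpl' b_cpl x)
    have a6' : v ≠ cpl y := fun h => a6 (by rw [h]; exact anti_cpl' b_cpl y)
    have a7' : v ≠ cpl (swp a c x) := fun h => a7 (by rw [h]; exact anti_cpl' b_cpl _)
    have a8' : v ≠ cpl (swp a c y) := fun h => a8 (by rw [h]; exact anti_cpl' b_cpl _)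
    rw [ind_gr a1 a5', ind_gr a2 a6', ind_gr a3 a7', ind_gr a4 a8']
    have hsum : chi (swp a c x).1 + chi (swp a c y).1 = chi x.1 + chi y.1 := by
      funext l
      rw [Pi.add_apply, Pi.add_apply, chi_swp, chi_swp]
      have key : chi x.1 a + chi y.1 a = chi x.1 c + chi y.1 c := by
        rw [chi_sep h3, chi_sep h4]
        have e : ∀ p q : ZMod 2, p + 1 + (q + 1) = p + q := by decide
        exact e _ _
      by_cases g1 : l = a
      · subst g1
        rw [Equiv.swap_apply_left, key]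
      · by_cases g2 : l = c
        · subst g2
          rw [Equiv.swap_apply_right, key]
        · rw [Equiv.swap_apply_of_ne_of_ne g1 g2]
    have hb : b (swp a c x) v + b (swp a c y) v = b x v + b y v := by
      simp only [b]
      rw [← add_dotProduct, hsum, add_dotProduct]
    have e : ∀ p q r s : ZMod 2, r + s = p + q → 1 + p + (1 + q) + (1 + r + (1 + s)) = 0 := by
      decide
    exact e _ _ _ _ hb

/-! ### The switched graph does not have it -/

namespace Setup

variable (S : Setup k)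

open Classical in
/-- the switched vertices -/
noncomputable def DS : Finset (V k) := univ.image fun p : Bool × (Bool × Bool) => S.c p.1 p.2

lemma DS_card : S.DS.card ≤ 8 := by
  classical
  unfold DS
  refine card_image_le.trans ?_
  decide

lemma mem_DS {A : V k} : A ∈ S.DS ↔ S.D A := by
  classical
  simp only [DS, mem_image, mem_univ, true_and, D, GMTwo.InD]
  constructor
  · rintro ⟨⟨r, u⟩, h⟩; exact ⟨r, u, h.symm⟩
  · rintro ⟨r, u, h⟩; exact ⟨(r, u), h.symm⟩

lemma t0_cpl (A : V k) : S.t0 (cpl A) = S.t0 A := by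
  have e : ∀ x y : ZMod 2, (x + 1) + (y + 1) = x + y := by decide
  have h1 : S.al (cpl A) = S.al A := by
    simp only [al, chi_cpl, Pi.add_apply, Pi.one_apply, e]
  have h2 : S.be (cpl A) = S.be A := by
    simp only [be, chi_cpl, Pi.add_apply, Pi.one_apply, e]
  rw [t0, t0, h1, h2]

lemma F_cpl (A B : V k) : S.F (cpl A) B = S.F A B + (k : ZMod 2) := by
  have h1 : S.d (cpl A) = S.d A := by
    unfold d
    by_cases h : S.D A
    · rw [if_pos h, if_pos ((S.D_cpl_iff A).2 h)]
    · rw [if_neg h, if_neg (fun h' => h ((S.D_cpl_iff A).1 h'))]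
  have h2 : S.t (cpl A) = S.t A := by
    unfold t
    by_cases h : S.D A
    · rw [if_pos h, if_pos ((S.D_cpl_iff A).2 h)]
    · rw [if_neg h, if_neg (fun h' => h ((S.D_cpl_iff A).1 h')), t0_cpl]
  rw [F, F, h1, h2, b_cpl]
  ring

lemma F_out (A : V k) {v : V k} (hv : ¬ S.D v) : S.F A v = b A v + S.d A * S.t0 v := by
  simp [F, d, t, hv]

lemma F_out' {A v : V k} (hA : ¬ S.D A) (hv : ¬ S.D v) : S.F A v = b A v := by
  simp [F, d, hA, hv]

lemma not_anti' (hcount : ∀ (s : Fin (2 * k) → ZMod 2) (Ex : Finset (V k)), Ex.card ≤ 14 →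
      ∃ v, v ∉ Ex ∧ s ⬝ᵥ chi v.1 + S.t0 v = 1) {v a : V k} (hv : ¬ S.D v) (h1 : v ≠ a)
    (h2 : v ≠ cpl a) : ¬ Anti (gr S.F S.F_comm) (k : ZMod 2) v a := by
  classical
  intro h
  have hEx : (S.DS ∪ {v, a, cpl v, cpl a}).card ≤ 14 := by
    refine (card_union_le _ _).trans ?_
    have h3 := S.DS_card
    have h4 : ({v, a, cpl v, cpl a} : Finset (V k)).card ≤ 4 := card_le_four
    omega
  have hout : ∀ u, u ∉ S.DS ∪ {v, a, cpl v, cpl a} →
      b v u + (b a u + S.d a * S.t0 u) = (k : ZMod 2) := by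
    intro u hu
    simp only [mem_union, mem_insert, mem_singleton, not_or, mem_DS] at hu
    obtain ⟨u0, u1, u2, u3, u4⟩ := hu
    have h3 := h u u1 u2
    rw [ind_gr u1 u3, ind_gr u2 u4, S.F_out' hv u0, S.F_out a u0] at h3
    rw [← h3]
    have e : ∀ x y : ZMod 2, x + y = 1 + x + (1 + y) := by decide
    exact e _ _
  by_cases ha : S.D a
  · obtain ⟨u, hu, hs⟩ := hcount (chi v.1 + chi a.1 + 1) _ hEx
    have h3 := hout u hu
    have h4 : S.d a = 1 := by simp [d, ha]
    rw [h4, one_mul] at h3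
    rw [form_sum] at hs
    revert h3 hs
    generalize b v u = x
    generalize b a u = y
    generalize S.t0 u = w
    generalize (k : ZMod 2) = z
    revert x y z w
    decide
  · obtain ⟨u, hu, hs⟩ := count0 S.hk _ (sum_ne_zero h2) (sum_ne_one h1) _ hEx
    have h3 := hout u hu
    have h4 : S.d a = 0 := by simp [d, ha]
    rw [h4, zero_mul, add_zero] at h3
    rw [form_sum] at hs
    revert h3 hs
    generalize b v u = x
    generalize b a u = y
    generalize (k : ZMod 2) = z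
    revert x y z
    decide

lemma card_six {α : Type*} [DecidableEq α] (a b c d e f : α) :
    ({a, b, c, d, e, f} : Finset α).card ≤ 6 := by
  refine (card_insert_le _ _).trans ?_
  have : ({b, c, d, e, f} : Finset α).card ≤ 5 := card_le_five
  omega

/-- the last step -/
lemma final {y z w : V k} (hy : ∀ i, i ∈ y.1 → (∀ a, i ≠ S.P a) ∧ (∀ a, i ≠ S.R a))
    (hz : S.D z) (hzx : z ≠ S.c true (true, true)) (hzc : z ≠ cpl (S.c true (true, true)))
    (hs : chi (S.c true (true, true)).1 + chi y.1 + (chi z.1 + chi w.1) = 0 ∨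
      chi (S.c true (true, true)).1 + chi y.1 + (chi z.1 + chi w.1) = 1) : False := by
  set x : V k := S.c true (true, true) with hx
  -- replace `z` by a vertex of the first half
  obtain ⟨u, z', hz', hzz⟩ : ∃ (u : Bool × Bool) (z' : V k), z' = S.c true u ∧
      (z' = z ∨ z' = cpl z) := by
    obtain ⟨r, u, rfl⟩ := hz
    cases r
    · exact ⟨(!u.1, !u.2), S.c true (!u.1, !u.2), rfl, Or.inr (by rw [cpl_c]; rfl)⟩
    · exact ⟨u, S.c true u, rfl, Or.inl rfl⟩
  have hzx' : z' ≠ x := by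
    rintro rfl
    rcases hzz with h | h
    · exact hzx h.symm
    · exact hzc (by rw [h, cpl_cpl])
  -- replace `w` as well
  obtain ⟨w', hw'⟩ : ∃ w' : V k, chi w'.1 = chi x.1 + chi y.1 + chi z'.1 := by
    have e0 : ∀ p q r s : ZMod 2, p + q + (r + s) = 0 → s = p + q + r := by decide
    have e1 : ∀ p q r s : ZMod 2, p + q + (r + s) = 1 → s + 1 = p + q + r := by decide
    have e2 : ∀ p q r s : ZMod 2, p + q + (r + s) = 0 → s + 1 = p + q + (r + 1) := by decide
    have e3 : ∀ p q r s : ZMod 2, p + q + (r + s) = 1 → s = p + q + (r + 1) := by decide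
    rcases hzz with h | h <;> rcases hs with hs | hs
    · refine ⟨w, ?_⟩
      rw [h]
      funext i
      exact e0 _ _ _ _ (congrFun hs i)
    · refine ⟨cpl w, ?_⟩
      rw [h, chi_cpl]
      funext i
      exact e1 _ _ _ _ (congrFun hs i)
    · refine ⟨cpl w, ?_⟩
      rw [h, chi_cpl, chi_cpl]
      funext i
      exact e2 _ _ _ _ (congrFun hs i)
    · refine ⟨w, ?_⟩
      rw [h, chi_cpl]
      funext i
      exact e3 _ _ _ _ (congrFun hs i)
  have hsub : y.1 ⊆ w'.1 := by
    intro i hi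
    obtain ⟨hP, hR⟩ := hy i hi
    have h1 : i ∈ x.1 ↔ i ∈ z'.1 := by
      rw [hx, hz', mem_c, mem_c]
      simp only [hP, hR, false_or]
    have h2 : chi x.1 i = chi z'.1 i := by simp only [chi, h1]
    have h3 := congrFun hw' i
    simp only [Pi.add_apply] at h3
    rw [h2] at h3
    have h4 : chi y.1 i = 1 := by simp [chi, hi]
    rw [h4] at h3
    by_contra hcon
    have h5 : chi w'.1 i = 0 := by simp [chi, hcon]
    rw [h5] at h3
    revert h3
    generalize chi z'.1 i = p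
    revert p
    decide
  have hyw : y = w' := Subtype.ext (eq_of_subset_of_card_le hsub (by rw [y.2, w'.2]))
  apply chi_ne hzx'
  funext i
  have h3 := congrFun hw' i
  rw [← hyw] at h3
  simp only [Pi.add_apply] at h3
  revert h3
  generalize chi y.1 i = p
  generalize chi x.1 i = q
  generalize chi z'.1 i = r
  revert p q r
  decide

theorem not_quad (hcount : ∀ (s : Fin (2 * k) → ZMod 2) (Ex : Finset (V k)), Ex.card ≤ 14 →
      ∃ v, v ∉ Ex ∧ s ⬝ᵥ chi v.1 + S.t0 v = 1) : ¬ Quad (gr S.F S.F_comm) (k : ZMod 2) := by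
  classical
  intro hQ
  obtain ⟨Y, hY, hYc⟩ : ∃ Y ⊆ S.X true ∪ S.X false, Y.card = k := by
    apply exists_subset_card_eq
    rw [card_union_of_disjoint, S.hX, S.hX]
    · have := S.hk
      omega
    · rw [disjoint_left]
      intro i hi hi'
      exact absurd (S.X_inj hi hi') (by decide)
  set y : V k := ⟨Y, hYc⟩ with hy
  set x : V k := S.c true (true, true) with hx
  have hyPR : ∀ i, i ∈ y.1 → (∀ a, i ≠ S.P a) ∧ (∀ a, i ≠ S.R a) := by
    intro i hi
    have h1 := hY hi
    rw [mem_union] at h1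
    constructor
    · rintro a rfl
      rcases h1 with h1 | h1
      · exact S.hPX _ _ h1
      · exact S.hPX _ _ h1
    · rintro a rfl
      rcases h1 with h1 | h1
      · exact S.hRX _ _ h1
      · exact S.hRX _ _ h1
  have hyD : ¬ S.D y := by
    rintro ⟨r, u, h⟩
    have h1 : S.P u.1 ∈ y.1 := by rw [h, mem_c]; exact Or.inl rfl
    exact (hyPR _ h1).1 _ rfl
  have hxy : x ≠ y := by
    intro h
    exact hyD (by rw [← h]; exact S.D_c _ _)
  obtain ⟨z, w, hzw, hzx, hzy, hwx, hwy, hzx', hzy', hwx', hwy', hall⟩ := hQ x y hxy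
  have hzcx : z ≠ cpl x := fun h => hzx' (by rw [h]; exact anti_cpl' S.F_cpl x)
  have hwcx : w ≠ cpl x := fun h => hwx' (by rw [h]; exact anti_cpl' S.F_cpl x)
  have hEx : (S.DS ∪ {y, z, w, cpl y, cpl z, cpl w}).card ≤ 14 := by
    refine (card_union_le _ _).trans ?_
    have h3 := S.DS_card
    have h4 := card_six y z w (cpl y) (cpl z) (cpl w)
    omega
  have hD : S.D x := S.D_c _ _
  have hout : ∀ v, v ∉ S.DS ∪ {y, z, w, cpl y, cpl z, cpl w} →
      (chi x.1 + chi y.1 + (chi z.1 + chi w.1)) ⬝ᵥ chi v.1 +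
        (1 + S.d z + S.d w) * S.t0 v = 0 := by
    intro v hv
    simp only [mem_union, mem_insert, mem_singleton, not_or, mem_DS] at hv
    obtain ⟨v0, v1, v2, v3, v4, v5, v6⟩ := hv
    have v7 : v ≠ x := fun h => v0 (by rw [h]; exact hD)
    have v8 : v ≠ cpl x := fun h => v0 (by rw [h]; exact S.D_cpl hD)
    have h1 := hall v v7 v1 v2 v3 (S.not_anti' hcount v0 v7 v8) (S.not_anti' hcount v0 v1 v4)
      (S.not_anti' hcount v0 v2 v5) (S.not_anti' hcount v0 v3 v6)
    rw [ind_gr v7 v8, ind_gr v1 v4, ind_gr v2 v5, ind_gr v3 v6, S.F_out x v0, S.F_out y v0,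
      S.F_out z v0, S.F_out w v0] at h1
    have d1 : S.d x = 1 := by simp [d, hD]
    have d2 : S.d y = 0 := by simp [d, hyD]
    rw [d1, d2] at h1
    rw [add_dotProduct, add_dotProduct, add_dotProduct, ← h1]
    change b x v + b y v + (b z v + b w v) + _ = _
    generalize b x v = p1
    generalize b y v = p2
    generalize b z v = p3
    generalize b w v = p4
    generalize S.t0 v = p5
    generalize S.d z = p6
    generalize S.d w = p7
    revert p1 p2 p3 p4 p5 p6 p7
    decide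
  have hs : (1 + S.d z + S.d w) = 0 →
      (chi x.1 + chi y.1 + (chi z.1 + chi w.1) = 0 ∨
        chi x.1 + chi y.1 + (chi z.1 + chi w.1) = 1) := by
    intro h0
    by_contra hcon
    rw [not_or] at hcon
    obtain ⟨v, hv, hs⟩ := count0 S.hk _ hcon.1 hcon.2 _ hEx
    have h1 := hout v hv
    rw [hs, h0, zero_mul, add_zero] at h1
    exact one_ne_zero h1
  by_cases dz : S.D z
  · by_cases dw : S.D w
    · have h1 : (1 + S.d z + S.d w) = 1 := by
        simp only [d, dz, dw, if_true]; decide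
      obtain ⟨v, hv, hs⟩ := hcount _ _ hEx
      have h2 := hout v hv
      rw [h1, one_mul, hs] at h2
      exact one_ne_zero h2
    · have h1 : (1 + S.d z + S.d w) = 0 := by
        simp only [d, dz, dw, if_true, if_false]; decide
      exact S.final hyPR dz hzx hzcx (hs h1)
  · by_cases dw : S.D w
    · have h1 : (1 + S.d z + S.d w) = 0 := by
        simp only [d, dz, dw, if_true, if_false]; decide
      have h2 := hs h1
      rw [add_comm (chi z.1)] at h2
      exact S.final hyPR dw hwx hwcx h2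
    · have h1 : (1 + S.d z + S.d w) = 1 := by
        simp only [d, dz, dw, if_false]; decide
      obtain ⟨v, hv, hs⟩ := hcount _ _ hEx
      have h2 := hout v hv
      rw [h1, one_mul, hs] at h2
      exact one_ne_zero h2

end Setup

end Pool.Agent.R1.EvenJohnson
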