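import Mathlib

/-!
# Godsil–McKay switching with respect to two cells of size four
-/

set_option autoImplicit false

open Finset Matrix

namespace Pool.Agent.R1.GMTwo

variable {V : Type*} [Fintype V] [DecidableEq V]

/-- the block `J / 2 - I` -/
noncomputable def q (u v : Bool × Bool) : ℝ := 1 / 2 - if u = v then 1 else 0

lemma q_symm (u v : Bool × Bool) : q u v = q v u := by
  simp only [q, eq_comm]

/-- a vertex lies in one of the two cells -/
def InD (f : Bool → Bool × Bool → V) (A : V) : Prop := ∃ r u, A = f r u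

open Classical in
/-- the switching matrix -/
noncomputable def Q (f : Bool → Bool × Bool → V) : Matrix V V ℝ := fun A A' =>
  (if InD f A then 0 else if A = A' then 1 else 0) +
    ∑ r, ∑ u, ∑ u1, q u u1 * ((if A = f r u then 1 else 0) * (if A' = f r u1 then 1 else 0))

variable {f : Bool → Bool × Bool → V}

lemma sum_Q (A : V) (g : V → ℝ) : ∑ A', Q f A A' * g A' =
    (open Classical in if InD f A then 0 else g A) +
    ∑ r, ∑ u, ∑ u1, q u u1 * ((if A = f r u then 1 else 0) * g (f r u1)) := by
  classical
  simp only [Q, add_mul, Finset.sum_add_distrib]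
  congr 1
  · by_cases h : InD f A
    · simp [h]
    · simp [h]
  · simp only [Finset.sum_mul]
    rw [Finset.sum_comm]
    refine Finset.sum_congr rfl fun r _ => ?_
    rw [Finset.sum_comm]
    refine Finset.sum_congr rfl fun u _ => ?_
    rw [Finset.sum_comm]
    refine Finset.sum_congr rfl fun u1 _ => ?_
    rw [Finset.sum_eq_single (f r u1)]
    · simp [mul_assoc]
    · intro b _ hb
      simp [hb]
    · intro h; exact absurd (Finset.mem_univ _) h

lemma sum_Q_out {A : V} (hA : ¬ InD f A) (g : V → ℝ) : ∑ A', Q f A A' * g A' = g A := by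
  rw [sum_Q, if_neg hA]
  have h : ∀ r u, (if A = f r u then (1 : ℝ) else 0) = 0 := fun r u =>
    if_neg fun h => hA ⟨r, u, h⟩
  simp [h]

lemma sum_Q_in (hf : Function.Injective fun p : Bool × (Bool × Bool) => f p.1 p.2)
    (r : Bool) (u : Bool × Bool) (g : V → ℝ) :
    ∑ A', Q f (f r u) A' * g A' = ∑ u1, q u u1 * g (f r u1) := by
  rw [sum_Q, if_pos ⟨r, u, rfl⟩, zero_add]
  have h : ∀ r' u', (if f r u = f r' u' then (1 : ℝ) else 0) =
      (if r' = r then 1 else 0) * (if u' = u then 1 else 0) := by
    intro r' u'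
    by_cases h1 : r' = r
    · subst h1
      by_cases h2 : u' = u
      · subst h2; simp
      · rw [if_neg, if_neg h2, mul_zero]
        intro h3
        have := hf (a₁ := (r', u)) (a₂ := (r', u')) h3
        exact h2 (Prod.mk.inj this).2.symm
    · rw [if_neg, if_neg h1, zero_mul]
      intro h3
      have := hf (a₁ := (r, u)) (a₂ := (r', u')) h3
      exact h1 (Prod.mk.inj this).1.symm
  simp only [h]
  rw [Finset.sum_eq_single r]
  · rw [Finset.sum_eq_single u]
    · simp
    · intro b _ hb; simp [hb]
    · intro h; exact absurd (Finset.mem_univ _) h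
  · intro b _ hb; simp [hb]
  · intro h; exact absurd (Finset.mem_univ _) h

lemma Q_symm (A B : V) : Q f A B = Q f B A := by
  classical
  unfold Q
  congr 1
  · by_cases h : A = B
    · subst h; rfl
    · simp [h, Ne.symm h]
  · refine Finset.sum_congr rfl fun r _ => ?_
    rw [Finset.sum_comm]
    refine Finset.sum_congr rfl fun u _ => Finset.sum_congr rfl fun u1 _ => ?_
    rw [q_symm u1 u]
    ring

lemma sum_Q_out' {B : V} (hB : ¬ InD f B) (g : V → ℝ) : ∑ A', g A' * Q f A' B = g B := by
  rw [← sum_Q_out hB g]
  exact Finset.sum_congr rfl fun A' _ => by rw [Q_symm, mul_comm]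

lemma sum_Q_in' (hf : Function.Injective fun p : Bool × (Bool × Bool) => f p.1 p.2)
    (r : Bool) (u : Bool × Bool) (g : V → ℝ) :
    ∑ A', g A' * Q f A' (f r u) = ∑ u1, q u u1 * g (f r u1) := by
  rw [← sum_Q_in hf r u g]
  exact Finset.sum_congr rfl fun A' _ => by rw [Q_symm, mul_comm]

lemma Q_sq (hf : Function.Injective fun p : Bool × (Bool × Bool) => f p.1 p.2) :
    Q f * Q f = 1 := by
  ext A B
  rw [mul_apply, one_apply]
  by_cases hA : InD f A
  · obtain ⟨r, u, rfl⟩ := hA
    rw [sum_Q_in hf r u (fun A' => Q f A' B)]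
    by_cases hB : InD f B
    · obtain ⟨r', u', rfl⟩ := hB
      have h1 : ∀ u1, Q f (f r u1) (f r' u') = if r = r' then q u1 u' else 0 := by
        intro u1
        have h2 := sum_Q_in hf r u1 (fun A' => if A' = f r' u' then 1 else 0)
        simp only [mul_ite, mul_one, mul_zero, Finset.sum_ite_eq', Finset.mem_univ, if_true] at h2
        rw [h2]
        by_cases hr : r = r'
        · subst hr
          rw [if_pos rfl, Finset.sum_eq_single u']
          · simp
          · intro b _ hb
            rw [if_neg]
            intro h3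
            have := hf (a₁ := (r, b)) (a₂ := (r, u')) h3
            exact hb (Prod.mk.inj this).2
          · intro h; exact absurd (Finset.mem_univ _) h
        · rw [if_neg hr]
          apply Finset.sum_eq_zero
          intro b _
          rw [if_neg]
          intro h3
          have := hf (a₁ := (r, b)) (a₂ := (r', u')) h3
          exact hr (Prod.mk.inj this).1
      simp only [h1]
      by_cases hr : r = r'
      · subst hr
        have h3 : (f r u = f r u') ↔ u = u' :=
          ⟨fun h => (Prod.mk.inj (hf (a₁ := (r, u)) (a₂ := (r, u')) h)).2, fun h => by rw [h]⟩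
        simp only [if_true, h3]
        obtain ⟨a, b⟩ := u
        obtain ⟨c, d⟩ := u'
        cases a <;> cases b <;> cases c <;> cases d <;>
          simp [q, Fintype.sum_prod_type, Fintype.sum_bool] <;> norm_num
      · have h3 : f r u ≠ f r' u' := fun h =>
          hr (Prod.mk.inj (hf (a₁ := (r, u)) (a₂ := (r', u')) h)).1
        simp [hr, h3]
    · have h1 : ∀ u1, Q f (f r u1) B = 0 := by
        intro u1
        have h2 := sum_Q_out' hB (fun A' => if A' = f r u1 then 1 else 0)
        simp only [ite_mul, one_mul, zero_mul, Finset.sum_ite_eq', Finset.mem_univ, if_true] at h2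
        rw [h2, if_neg]
        intro h; exact hB ⟨r, u1, h⟩
      simp only [h1, mul_zero, Finset.sum_const_zero]
      rw [if_neg]
      intro h; exact hB ⟨r, u, h.symm⟩
  · rw [sum_Q_out hA (fun A' => Q f A' B)]
    have h2 := sum_Q_out hA (fun A' => if A' = B then 1 else 0)
    simpa using h2

/-- **Godsil–McKay switching** with respect to two cells of size four. -/
theorem charpoly_eq (hf : Function.Injective fun p : Bool × (Bool × Bool) => f p.1 p.2)
    (M M' : Matrix V V ℝ) (hM : ∀ A B, M A B = M B A) (hM' : ∀ A B, M' A B = M' B A)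
    (h1 : ∀ A B, ¬ InD f A → ¬ InD f B → M' A B = M A B)
    (h2 : ∀ r u B, ¬ InD f B → ∑ u1, q u u1 * M (f r u1) B = M' (f r u) B)
    (h3 : ∀ r u r' u', ∑ u1, ∑ u2, q u u1 * (q u' u2 * M (f r u1) (f r' u2)) =
      M' (f r u) (f r' u')) :
    M'.charpoly = M.charpoly := by
  have key : M' = Q f * M * Q f := by
    ext A B
    rw [mul_apply]
    have h4 : ∀ B', (Q f * M) A B' = ∑ A', Q f A A' * M A' B' := fun B' => mul_apply
    simp only [h4]
    by_cases hB : InD f B
    · obtain ⟨r', u', rfl⟩ := hB
      rw [sum_Q_in' hf r' u' (fun B' => ∑ A', Q f A A' * M A' B')]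
      by_cases hA : InD f A
      · obtain ⟨r, u, rfl⟩ := hA
        have h5 : ∀ u2, ∑ A', Q f (f r u) A' * M A' (f r' u2) =
            ∑ u1, q u u1 * M (f r u1) (f r' u2) := fun u2 =>
          sum_Q_in hf r u (fun A' => M A' (f r' u2))
        simp only [h5]
        rw [← h3]
        simp only [Finset.mul_sum]
        rw [Finset.sum_comm]
        refine Finset.sum_congr rfl fun u1 _ => Finset.sum_congr rfl fun u2 _ => ?_
        ring
      · have h5 : ∀ u2, ∑ A', Q f A A' * M A' (f r' u2) = M A (f r' u2) := fun u2 =>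
          sum_Q_out hA (fun A' => M A' (f r' u2))
        simp only [h5]
        rw [hM', ← h2 _ _ _ hA]
        exact Finset.sum_congr rfl fun u1 _ => by rw [hM]
    · rw [sum_Q_out' hB (fun B' => ∑ A', Q f A A' * M A' B')]
      by_cases hA : InD f A
      · obtain ⟨r, u, rfl⟩ := hA
        rw [sum_Q_in hf r u (fun A' => M A' B), h2 _ _ _ hB]
      · rw [sum_Q_out hA (fun A' => M A' B), h1 _ _ hA hB]
  rw [key, Matrix.charpoly_mul_comm, ← Matrix.mul_assoc, Q_sq hf, Matrix.one_mul]

end Pool.Agent.R1.GMTwo
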