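import Mathlib

/-!
# Strong majority edge-colourings from words along an Euler tour

Helper file for `MP_dcf3dc_co`.
-/

set_option autoImplicit false
set_option linter.unusedSectionVars false

namespace Pool.Agent.R1.Maj

open Finset

/-- the number of edges of `G` of colour `i` that share exactly one end with the edge `uv` -/
def adjCount {V : Type} [Fintype V] [DecidableEq V] (G : SimpleGraph V) [DecidableRel G.Adj]
    {k : ℕ} (c : Sym2 V → Fin k) (u v : V) (i : Fin k) : ℕ :=
  (G.edgeFinset.filter
    (fun f => ((u ∈ f ∧ v ∉ f) ∨ (u ∉ f ∧ v ∈ f)) ∧ c f = i)).card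

/-- `c` is a strong majority edge-colouring of `G`: for every edge `uv` and every colour `i`, at
most `(d(u) + d(v)) / 2 - 1` of the edges adjacent to `uv` have the colour `i` -/
def IsStrongMajority {V : Type} [Fintype V] [DecidableEq V] (G : SimpleGraph V)
    [DecidableRel G.Adj] {k : ℕ} (c : Sym2 V → Fin k) : Prop :=
  ∀ u v : V, G.Adj u v → ∀ i : Fin k,
    (adjCount G c u v i : ℚ) ≤ ((G.degree u : ℚ) + (G.degree v : ℚ)) / 2 - 1

/-- an Euler tour of `G` with `m` edges, as a periodic sequence of vertices -/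
structure Tour {V : Type} (G : SimpleGraph V) (m : ℕ) (v : ℕ → V) : Prop where
  pos : 0 < m
  per : ∀ j, v (j + m) = v j
  adj : ∀ j, G.Adj (v j) (v (j + 1))
  inj : ∀ i < m, ∀ j < m, s(v i, v (i + 1)) = s(v j, v (j + 1)) → i = j
  surj : ∀ e ∈ G.edgeSet, ∃ j < m, s(v j, v (j + 1)) = e

theorem sum_shift {m : ℕ} (g : ℕ → ℤ) (h : g m = g 0) :
    ∑ j ∈ range m, g (j + 1) = ∑ j ∈ range m, g j := by
  have h1 := Finset.sum_range_succ g m
  have h2 := Finset.sum_range_succ' g m
  rw [h] at h1
  linarith

section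
variable {V : Type} [Fintype V] [DecidableEq V] {G : SimpleGraph V} [DecidableRel G.Adj]
  {m : ℕ} {v : ℕ → V}

theorem Tour.edges (T : Tour G m v) :
    G.edgeFinset = (range m).image (fun j => s(v j, v (j + 1))) := by
  ext e
  rw [SimpleGraph.mem_edgeFinset, Finset.mem_image]
  constructor
  · intro he
    obtain ⟨j, hj, rfl⟩ := T.surj e he
    exact ⟨j, Finset.mem_range.2 hj, rfl⟩
  · rintro ⟨j, _, rfl⟩
    exact T.adj j

theorem Tour.card (T : Tour G m v) (P : Sym2 V → Prop) [DecidablePred P] :
    ((G.edgeFinset.filter P).card : ℤ) =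
      ∑ j ∈ range m, if P s(v j, v (j + 1)) then (1 : ℤ) else 0 := by
  rw [T.edges, Finset.filter_image, Finset.card_image_of_injOn, Finset.card_filter]
  · push_cast
    rfl
  · intro i hi j hj h
    rw [Finset.mem_coe, Finset.mem_filter, Finset.mem_range] at hi hj
    exact T.inj i hi.1 j hj.1 h

theorem Tour.mem_iff (T : Tour G m v) (x : V) (j : ℕ) :
    (if x ∈ s(v j, v (j + 1)) then (1 : ℤ) else 0) =
      (if v j = x then 1 else 0) + (if v (j + 1) = x then 1 else 0) := by
  have h := (T.adj j).ne
  by_cases h1 : v j = x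
  · have h2 : v (j + 1) ≠ x := fun h' => h (h1.trans h'.symm)
    simp [h1, h2]
  · by_cases h2 : v (j + 1) = x
    · simp [h1, h2]
    · have : x ∉ s(v j, v (j + 1)) := by
        rw [Sym2.mem_iff]
        rintro (h3 | h3)
        · exact h1 h3.symm
        · exact h2 h3.symm
      simp [h1, h2, this]

theorem Tour.wsum (T : Tour G m v) (x : V) (a : ℕ → ℤ) (ha : a m = a 0) :
    ∑ j ∈ range m, (if x ∈ s(v j, v (j + 1)) then (1 : ℤ) else 0) * a j =
      ∑ q ∈ range m, (if v (q + 1) = x then (1 : ℤ) else 0) * (a q + a (q + 1)) := by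
  have h1 : ∑ j ∈ range m, (if v j = x then (1 : ℤ) else 0) * a j =
      ∑ j ∈ range m, (if v (j + 1) = x then (1 : ℤ) else 0) * a (j + 1) := by
    rw [sum_shift (fun j => (if v j = x then (1 : ℤ) else 0) * a j)]
    have := T.per 0
    rw [Nat.zero_add] at this
    simp only [this, ha]
  have h2 : ∀ j ∈ range m, (if x ∈ s(v j, v (j + 1)) then (1 : ℤ) else 0) * a j =
      (if v j = x then (1 : ℤ) else 0) * a j + (if v (j + 1) = x then (1 : ℤ) else 0) * a j := by
    intro j _
    rw [T.mem_iff x j]
    ring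
  rw [Finset.sum_congr rfl h2, Finset.sum_add_distrib, h1, ← Finset.sum_add_distrib]
  apply Finset.sum_congr rfl
  intro j _
  ring

theorem Tour.degree (T : Tour G m v) (x : V) :
    (G.degree x : ℤ) = 2 * ∑ q ∈ range m, (if v (q + 1) = x then (1 : ℤ) else 0) := by
  rw [← SimpleGraph.card_incidenceFinset_eq_degree, SimpleGraph.incidenceFinset_eq_filter, T.card]
  have h := T.wsum x (fun _ => 1) rfl
  simp only [mul_one] at h
  rw [h, Finset.mul_sum]
  apply Finset.sum_congr rfl
  intro j _
  ring

/-- the colouring given by a word -/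
noncomputable def colr (m : ℕ) (v : ℕ → V) (c : ℕ → Fin 3) (e : Sym2 V) : Fin 3 :=
  open Classical in
  if h : ∃ j < m, s(v j, v (j + 1)) = e then c h.choose else 0

theorem Tour.colr_eq (T : Tour G m v) (c : ℕ → Fin 3) (j : ℕ) (hj : j < m) :
    colr m v c s(v j, v (j + 1)) = c j := by
  unfold colr
  have h : ∃ i < m, s(v i, v (i + 1)) = s(v j, v (j + 1)) := ⟨j, hj, rfl⟩
  rw [dif_pos h]
  rw [T.inj _ h.choose_spec.1 j hj h.choose_spec.2]

/-- the colouring lemma -/
theorem Tour.colouring (T : Tour G m v) (c : ℕ → Fin 3) (hper : ∀ j, c (j + m) = c j)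
    (hjun : ∀ q < m, c q = c (q + 1) → ∀ p < m, v (p + 1) = v (q + 1) → p = q)
    (hslack : ∀ J < m, c (J + m - 1) = c (J + 1) → ∃ q < m, q ≠ J ∧ (q + 1) % m ≠ J ∧
      (v (q + 1) = v J ∨ v (q + 1) = v (J + 1)) ∧ c q ≠ c (J + 1) ∧ c (q + 1) ≠ c (J + 1)) :
    ∃ col : Sym2 V → Fin 3, IsStrongMajority G col := by
  have hm := T.pos
  have hperm : ∀ j, c (j % m) = c j := by
    intro j
    have h : ∀ t : ℕ, ∀ r, c (r + m * t) = c r := by
      intro t
      induction t with
      | zero => intro r; simp
      | succ t ih =>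
        intro r
        rw [Nat.mul_succ, ← Nat.add_assoc, hper, ih]
    conv_rhs => rw [← Nat.mod_add_div j m]
    rw [h]
  have vperm : ∀ j, v (j % m) = v j := by
    intro j
    have h : ∀ t : ℕ, ∀ r, v (r + m * t) = v r := by
      intro t
      induction t with
      | zero => intro r; simp
      | succ t ih =>
        intro r
        rw [Nat.mul_succ, ← Nat.add_assoc, T.per, ih]
    conv_rhs => rw [← Nat.mod_add_div j m]
    rw [h]
  refine ⟨colr m v c, ?_⟩
  -- the inequality for the edge number `J`
  have key : ∀ J < m, ∀ i : Fin 3,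
      (adjCount G (colr m v c) (v J) (v (J + 1)) i : ℤ) + 1 ≤
        ∑ q ∈ range m, (if v (q + 1) = v J then (1 : ℤ) else 0) +
          ∑ q ∈ range m, (if v (q + 1) = v (J + 1) then (1 : ℤ) else 0) := by
    intro J hJ i
    set u := v J with hu
    set w := v (J + 1) with hw
    have huw : u ≠ w := (T.adj J).ne
    set a : ℕ → ℤ := fun q => if c q = i then 1 else 0 with ha
    have ham : a m = a 0 := by
      have := hper 0
      rw [Nat.zero_add] at this
      simp only [ha, this]
    -- the count
    have hcount : (adjCount G (colr m v c) u w i : ℤ) + 2 * a J =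
        ∑ j ∈ range m, (if u ∈ s(v j, v (j + 1)) then (1 : ℤ) else 0) * a j +
        ∑ j ∈ range m, (if w ∈ s(v j, v (j + 1)) then (1 : ℤ) else 0) * a j := by
      unfold adjCount
      rw [T.card, ← Finset.sum_add_distrib]
      have h1 : (2 * a J : ℤ) = ∑ j ∈ range m, if j = J then 2 * a J else 0 := by
        rw [Finset.sum_ite_eq' (range m) J]
        rw [if_pos (Finset.mem_range.2 hJ)]
      rw [h1, ← Finset.sum_add_distrib]
      apply Finset.sum_congr rfl
      intro j hj
      rw [Finset.mem_range] at hj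
      rw [T.colr_eq c j hj]
      by_cases hjJ : j = J
      · subst hjJ
        have m1 : u ∈ s(v j, v (j + 1)) := by rw [hu]; simp
        have m2 : w ∈ s(v j, v (j + 1)) := by rw [hw]; simp
        simp only [m1, m2, not_true_eq_false, and_false, false_and, or_false, if_false, if_true]
        ring
      · have hnb : ¬ (u ∈ s(v j, v (j + 1)) ∧ w ∈ s(v j, v (j + 1))) := by
          rintro ⟨m1, m2⟩
          apply hjJ
          apply T.inj j hj J hJ
          rw [← hu, ← hw]
          exact ((Sym2.mem_and_mem_iff huw).1 ⟨m1, m2⟩)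
        by_cases m1 : u ∈ s(v j, v (j + 1)) <;> by_cases m2 : w ∈ s(v j, v (j + 1))
        · exact absurd ⟨m1, m2⟩ hnb
        · simp [m1, m2, hjJ, ha]
        · simp [m1, m2, hjJ, ha]
        · simp [m1, m2, hjJ, ha]
    rw [T.wsum u a ham, T.wsum w a ham] at hcount
    -- passes at `u` or `w`
    set f : ℕ → ℤ := fun q => a q + a (q + 1) - 1 with hf
    set S := (range m).filter (fun q => v (q + 1) = u ∨ v (q + 1) = w) with hS
    have hsum : ∑ q ∈ range m, (if v (q + 1) = u then (1 : ℤ) else 0) * (a q + a (q + 1)) +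
        ∑ q ∈ range m, (if v (q + 1) = w then (1 : ℤ) else 0) * (a q + a (q + 1)) =
        ∑ q ∈ range m, (if v (q + 1) = u then (1 : ℤ) else 0) +
        ∑ q ∈ range m, (if v (q + 1) = w then (1 : ℤ) else 0) + ∑ q ∈ S, f q := by
      rw [hS, Finset.sum_filter, ← Finset.sum_add_distrib, ← Finset.sum_add_distrib,
        ← Finset.sum_add_distrib]
      apply Finset.sum_congr rfl
      intro q _
      simp only [hf]
      by_cases h1 : v (q + 1) = u
      · have h2 : v (q + 1) ≠ w := fun h' => huw (h1.symm.trans h')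
        simp only [h1, huw, if_true, if_false, true_or]
        ring
      · by_cases h2 : v (q + 1) = w
        · simp only [h2, huw.symm, if_true, if_false, or_true]
          ring
        · simp only [h1, h2, if_false, or_self]
          ring
    -- the pass before the edge
    set pm := (J + m - 1) % m with hpm
    have hpmlt : pm < m := Nat.mod_lt _ hm
    have hpm1 : v (pm + 1) = u := by
      rw [← vperm (pm + 1), hpm, Nat.mod_add_mod]
      have : J + m - 1 + 1 = J + m := by omega
      rw [this, vperm, T.per]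
    have hcpm : c pm = c (J + m - 1) := by rw [hpm, hperm]
    have hcpm1 : c (pm + 1) = c J := by
      rw [← hperm (pm + 1), hpm, Nat.mod_add_mod]
      have : J + m - 1 + 1 = J + m := by omega
      rw [this, hperm, hper]
    have hpmJ : pm ≠ J := by
      intro h
      rw [h] at hpm1
      exact huw (hpm1.symm.trans hw.symm)
    have hpmS : pm ∈ S := by
      rw [hS, Finset.mem_filter, Finset.mem_range]
      exact ⟨hpmlt, Or.inl hpm1⟩
    have hJS : J ∈ S.erase pm := by
      rw [Finset.mem_erase, hS, Finset.mem_filter, Finset.mem_range]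
      exact ⟨hpmJ.symm, hJ, Or.inr hw.symm⟩
    have hsplit : ∑ q ∈ S, f q = f pm + (f J + ∑ q ∈ (S.erase pm).erase J, f q) := by
      rw [← Finset.add_sum_erase S f hpmS, ← Finset.add_sum_erase (S.erase pm) f hJS]
    have ha01 : ∀ q, a q = 0 ∨ a q = 1 := by
      intro q
      simp only [ha]
      by_cases h : c q = i
      · right; rw [if_pos h]
      · left; rw [if_neg h]
    have hothers : ∀ q ∈ (S.erase pm).erase J, f q ≤ 0 := by
      intro q hq
      rw [Finset.mem_erase, Finset.mem_erase, hS, Finset.mem_filter, Finset.mem_range] at hq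
      obtain ⟨hqJ, hqpm, hqm, hquw⟩ := hq
      by_contra hcon
      push Not at hcon
      have h1 : c q = i ∧ c (q + 1) = i := by
        simp only [hf, ha] at hcon
        by_cases h1 : c q = i <;> by_cases h2 : c (q + 1) = i
        · exact ⟨h1, h2⟩
        · simp [h1, h2] at hcon
        · simp [h1, h2] at hcon
        · simp [h1, h2] at hcon
      have h2 := hjun q hqm (h1.1.trans h1.2.symm)
      rcases hquw with h3 | h3
      · exact hqpm (h2 pm hpmlt (hpm1.trans h3.symm)).symm
      · exact hqJ (h2 J hJ (hw.symm.trans h3.symm)).symm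
    have hfin : a pm + a (J + 1) - 1 + ∑ q ∈ (S.erase pm).erase J, f q ≤ 0 := by
      have h0 : ∑ q ∈ (S.erase pm).erase J, f q ≤ 0 := Finset.sum_nonpos hothers
      by_cases hc : c pm = i ∧ c (J + 1) = i
      · obtain ⟨hc1, hc2⟩ := hc
        obtain ⟨q, hqm, hqJ, hqJ', hqv, hq1, hq2⟩ := hslack J hJ (by rw [← hcpm, hc1, hc2])
        have hqpm : q ≠ pm := by
          intro h
          apply hqJ'
          rw [h, hpm, Nat.mod_add_mod]
          have : J + m - 1 + 1 = J + m := by omega
          rw [this, Nat.add_mod_right, Nat.mod_eq_of_lt hJ]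
        have hqS : q ∈ (S.erase pm).erase J := by
          rw [Finset.mem_erase, Finset.mem_erase, hS, Finset.mem_filter, Finset.mem_range]
          exact ⟨hqJ, hqpm, hqm, hqv⟩
        have hfq : f q = -1 := by
          simp only [hf, ha]
          rw [hc2] at hq1 hq2
          simp [hq1, hq2]
        have h1 : ∑ q ∈ (S.erase pm).erase J, f q ≤ f q := by
          rw [← Finset.add_sum_erase _ f hqS]
          have : ∑ x ∈ ((S.erase pm).erase J).erase q, f x ≤ 0 :=
            Finset.sum_nonpos (fun x hx => hothers x (Finset.mem_of_mem_erase hx))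
          linarith
        have h2 : a pm = 1 := by simp only [ha]; rw [if_pos hc1]
        have h3 : a (J + 1) = 1 := by simp only [ha]; rw [if_pos hc2]
        rw [h2, h3]
        linarith
      · have : a pm + a (J + 1) ≤ 1 := by
          simp only [ha]
          by_cases h1 : c pm = i <;> by_cases h2 : c (J + 1) = i
          · exact absurd ⟨h1, h2⟩ hc
          · simp [h1, h2]
          · simp [h1, h2]
          · simp [h1, h2]
        linarith
    have hfpm : f pm = a pm + a J - 1 := by
      simp only [hf, ha, hcpm1]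
    have hfJ : f J = a J + a (J + 1) - 1 := rfl
    rw [hsplit, hfpm, hfJ] at hsum
    linarith
  have key2 : ∀ J < m, ∀ i : Fin 3,
      (adjCount G (colr m v c) (v J) (v (J + 1)) i : ℚ) ≤
        ((G.degree (v J) : ℚ) + (G.degree (v (J + 1)) : ℚ)) / 2 - 1 := by
    intro J hJ i
    have h := key J hJ i
    have h1 := T.degree (v J)
    have h2 := T.degree (v (J + 1))
    have h3 : (2 * ((adjCount G (colr m v c) (v J) (v (J + 1)) i : ℤ) + 1)) ≤
        (G.degree (v J) : ℤ) + (G.degree (v (J + 1)) : ℤ) := by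
      rw [h1, h2]; linarith
    have h4 : (2 * ((adjCount G (colr m v c) (v J) (v (J + 1)) i : ℚ) + 1)) ≤
        (G.degree (v J) : ℚ) + (G.degree (v (J + 1)) : ℚ) := by
      exact_mod_cast h3
    linarith
  intro x y hxy i
  obtain ⟨J, hJ, hJe⟩ := T.surj s(x, y) hxy
  rw [Sym2.eq_iff] at hJe
  rcases hJe with ⟨h1, h2⟩ | ⟨h1, h2⟩
  · rw [← h1, ← h2]
    exact key2 J hJ i
  · have h3 := key2 J hJ i
    rw [h1, h2] at h3
    have h4 : adjCount G (colr m v c) x y i = adjCount G (colr m v c) y x i := by
      unfold adjCount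
      congr 1
      apply Finset.filter_congr
      intro f _
      constructor
      · rintro ⟨h5 | h5, h6⟩
        · exact ⟨Or.inr ⟨h5.2, h5.1⟩, h6⟩
        · exact ⟨Or.inl ⟨h5.2, h5.1⟩, h6⟩
      · rintro ⟨h5 | h5, h6⟩
        · exact ⟨Or.inr ⟨h5.2, h5.1⟩, h6⟩
        · exact ⟨Or.inl ⟨h5.2, h5.1⟩, h6⟩
    rw [h4]
    linarith

end

end Pool.Agent.R1.Maj
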