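import Pool.Agent.R1.MajA

/-!
# The words used for strong majority edge-colourings

Helper file for `MP_dcf3dc_co`.
-/

set_option autoImplicit false
set_option linter.unusedSectionVars false

namespace Pool.Agent.R1.Maj

open Finset

/-- the colour `n mod 3` -/
def F3 (n : ℕ) : Fin 3 := ⟨n % 3, Nat.mod_lt _ (by norm_num)⟩

theorem F3_eq (a b : ℕ) : F3 a = F3 b ↔ a % 3 = b % 3 := by
  unfold F3
  rw [Fin.mk.injEq]

/-- next index -/
def nx (m q : ℕ) : ℕ := if q + 1 = m then 0 else q + 1

/-- previous index -/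
def pv (m q : ℕ) : ℕ := if q = 0 then m - 1 else q - 1

section
variable {V : Type} [Fintype V] [DecidableEq V] {G : SimpleGraph V} [DecidableRel G.Adj]
  {m : ℕ} {v : ℕ → V}

theorem Tour.two_le (T : Tour G m v) : 2 ≤ m := by
  have h1 := T.pos
  by_contra hcon
  have h2 : m = 1 := by omega
  subst h2
  have h3 := T.per 0
  exact (T.adj 0).ne h3.symm

theorem Tour.word (T : Tour G m v) (w : ℕ → ℕ)
    (hjun : ∀ q < m, w q % 3 = w (nx m q) % 3 → ∀ p < m, v (p + 1) = v (q + 1) → p = q)
    (hslack : ∀ J < m, w (pv m J) % 3 = w (nx m J) % 3 → ∃ q < m, q ≠ J ∧ nx m q ≠ J ∧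
      (v (q + 1) = v J ∨ v (q + 1) = v (J + 1)) ∧ w q % 3 ≠ w (nx m J) % 3 ∧
      w (nx m q) % 3 ≠ w (nx m J) % 3) :
    ∃ col : Sym2 V → Fin 3, IsStrongMajority G col := by
  have hm := T.two_le
  have hnx : ∀ q < m, (q + 1) % m = nx m q := by
    intro q hq
    unfold nx
    split_ifs with h
    · rw [h, Nat.mod_self]
    · exact Nat.mod_eq_of_lt (by omega)
  have hpv : ∀ q < m, (q + m - 1) % m = pv m q := by
    intro q hq
    unfold pv
    split_ifs with h
    · have : q + m - 1 = m - 1 := by omega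
      rw [this]
      exact Nat.mod_eq_of_lt (by omega)
    · have : q + m - 1 = (q - 1) + m := by omega
      rw [this, Nat.add_mod_right]
      exact Nat.mod_eq_of_lt (by omega)
  apply T.colouring (fun j => F3 (w (j % m)))
  · intro j
    simp only [Nat.add_mod_right]
  · intro q hq hc
    rw [F3_eq, Nat.mod_eq_of_lt hq, hnx q hq] at hc
    exact hjun q hq hc
  · intro J hJ hc
    simp only [F3_eq] at hc
    rw [hpv J hJ, hnx J hJ] at hc
    obtain ⟨q, h1, h2, h3, h4, h5, h6⟩ := hslack J hJ hc
    refine ⟨q, h1, h2, ?_, h4, ?_, ?_⟩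
    · rw [hnx q h1]; exact h3
    · simp only [ne_eq, F3_eq]
      rw [Nat.mod_eq_of_lt h1, hnx J hJ]
      exact h5
    · simp only [ne_eq, F3_eq]
      rw [hnx q h1, hnx J hJ]
      exact h6

/-- the number of edges is divisible by three -/
theorem Tour.zero (T : Tour G m v) (h3 : m % 3 = 0) :
    ∃ col : Sym2 V → Fin 3, IsStrongMajority G col := by
  have hm := T.two_le
  apply T.word (fun j => j)
  · intro q hq hc
    exfalso
    unfold nx at hc
    split_ifs at hc <;> omega
  · intro J hJ hc
    exfalso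
    unfold nx pv at hc
    split_ifs at hc <;> omega

/-- one junction -/
theorem Tour.one (T : Tour G m v) (h3 : m % 3 = 1)
    (h0 : ∀ p < m, v (p + 1) = v 0 → p = m - 1) :
    ∃ col : Sym2 V → Fin 3, IsStrongMajority G col := by
  have hm := T.two_le
  have hvm : v m = v 0 := by have := T.per 0; rwa [Nat.zero_add] at this
  apply T.word (fun j => j)
  · intro q hq hc p hp hv
    unfold nx at hc
    split_ifs at hc with h
    · rw [h, hvm] at hv
      have := h0 p hp hv
      omega
    · omega
  · intro J hJ hc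
    exfalso
    unfold nx pv at hc
    split_ifs at hc <;> omega

/-- two junctions -/
theorem Tour.two (T : Tour G m v) (h3 : m % 3 = 2) (r : ℕ) (hr : 2 ≤ r) (hrm : r + 2 ≤ m)
    (h0 : ∀ p < m, v (p + 1) = v 0 → p = m - 1)
    (h1 : ∀ p < m, v (p + 1) = v r → p = r - 1) :
    ∃ col : Sym2 V → Fin 3, IsStrongMajority G col := by
  have hm := T.two_le
  have hvm : v m = v 0 := by have := T.per 0; rwa [Nat.zero_add] at this
  apply T.word (fun j => if j < r then j else j - 1)
  · intro q hq hc p hp hv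
    unfold nx at hc
    by_cases hqm : q + 1 = m
    · rw [hqm, hvm] at hv
      have := h0 p hp hv
      omega
    · by_cases hqr : q + 1 = r
      · rw [hqr] at hv
        have := h1 p hp hv
        omega
      · exfalso
        split_ifs at hc <;> omega
  · intro J hJ hc
    exfalso
    unfold nx pv at hc
    split_ifs at hc <;> omega

/-- positions for the two sign changes -/
structure Good (m : ℕ) (v : ℕ → V) (M : ℕ) : Prop where
  one_le : 1 ≤ M
  lt : M < m
  cong : (2 * M) % 3 = m % 3
  slack0 : ∃ p, 2 ≤ p ∧ p < m ∧ (v p = v 0 ∨ v p = v 1) ∧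
    ((p ≤ M ∧ p % 3 = 0) ∨ (M < p ∧ (m - p) % 3 = 2))
  slackM : ∃ p, 1 ≤ p ∧ p < m ∧ p ≠ M ∧ p ≠ M + 1 ∧ (v p = v M ∨ v p = v (M + 1)) ∧
    ((p ≤ M ∧ p % 3 = (M + 1) % 3) ∨ (M < p ∧ p % 3 = M % 3))

/-- the tent word -/
theorem Tour.tent (T : Tour G m v) (M : ℕ) (hG : Good m v M) :
    ∃ col : Sym2 V → Fin 3, IsStrongMajority G col := by
  have hm := T.two_le
  obtain ⟨hM1, hMm, hcong, ⟨p0, a1, a2, a3, a4⟩, ⟨p1, b1, b2, b3, b4, b5, b6⟩⟩ := hG
  apply T.word (fun j => if j ≤ M then j else m - j)
  · intro q hq hc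
    exfalso
    unfold nx at hc
    split_ifs at hc <;> omega
  · intro J hJ hc
    by_cases hJ0 : J = 0
    · subst hJ0
      refine ⟨p0 - 1, by omega, by omega, ?_, ?_, ?_, ?_⟩
      · unfold nx; split_ifs <;> omega
      · have : p0 - 1 + 1 = p0 := by omega
        rw [this]; exact a3
      · unfold nx; split_ifs <;> omega
      · unfold nx; split_ifs <;> omega
    · by_cases hJM : J = M
      · subst hJM
        refine ⟨p1 - 1, by omega, by omega, ?_, ?_, ?_, ?_⟩
        · unfold nx; split_ifs <;> omega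
        · have : p1 - 1 + 1 = p1 := by omega
          rw [this]; exact b5
        · unfold nx; split_ifs <;> omega
        · unfold nx; split_ifs <;> omega
      · exfalso
        unfold nx pv at hc
        split_ifs at hc <;> omega

end

end Pool.Agent.R1.Maj
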