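import Pool.Agent.R1.MajB
import Pool.Agent.R553.SP.Euler

/-!
# Re-arranging an Euler tour at marked vertices

Helper file for `MP_dcf3dc_co`. The dart functions `tl`, `hd` and the existence of Euler tours are
from `Pool.Agent.R553.SP.Euler` (helper553).
-/

set_option autoImplicit false
set_option linter.unusedSectionVars false

namespace Pool.Agent.R1.Maj

open Pool.Agent.R553.SP (tl hd)

section seg
variable {E Q : Type} (a b : E → Q)

/-- `l` is a trail of darts from `x` to `y` -/
def Seg : Q → List (E × Bool) → Q → Prop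
  | x, [], y => x = y
  | x, d :: l, y => tl a b d = x ∧ Seg (hd a b d) l y

theorem seg_append (x z : Q) (l l' : List (E × Bool)) :
    Seg a b x (l ++ l') z ↔ ∃ y, Seg a b x l y ∧ Seg a b y l' z := by
  induction l generalizing x with
  | nil => simp [Seg]
  | cons d l ih =>
    simp only [List.cons_append, Seg, ih]
    constructor
    · rintro ⟨h1, y, h2, h3⟩
      exact ⟨y, ⟨h1, h2⟩, h3⟩
    · rintro ⟨y, ⟨h1, h2⟩, h3⟩
      exact ⟨h1, y, h2, h3⟩

/-- reversal -/
def rev (l : List (E × Bool)) : List (E × Bool) := (l.map (fun d => (d.1, !d.2))).reverse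

theorem tl_flip (d : E × Bool) : tl a b (d.1, !d.2) = hd a b d := by
  obtain ⟨e, s⟩ := d
  cases s <;> simp [tl, hd]

theorem hd_flip (d : E × Bool) : hd a b (d.1, !d.2) = tl a b d := by
  obtain ⟨e, s⟩ := d
  cases s <;> simp [tl, hd]

theorem seg_rev (x y : Q) (l : List (E × Bool)) (h : Seg a b x l y) : Seg a b y (rev l) x := by
  induction l generalizing x with
  | nil => simp only [Seg] at h; simp [rev, Seg, h]
  | cons d l ih =>
    obtain ⟨h1, h2⟩ := h
    have h3 := ih _ h2
    unfold rev at h3 ⊢
    rw [List.map_cons, List.reverse_cons, seg_append]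
    refine ⟨_, h3, ?_⟩
    exact ⟨tl_flip a b d, (hd_flip a b d).trans h1⟩

theorem rev_fst (l : List (E × Bool)) : ((rev l).map Prod.fst).Perm (l.map Prod.fst) := by
  unfold rev
  rw [List.map_reverse, List.map_map]
  exact List.reverse_perm _

theorem rev_length (l : List (E × Bool)) : (rev l).length = l.length := by
  simp [rev]

theorem seg_step (x y : Q) (A B : List (E × Bool)) (d d' : E × Bool)
    (h : Seg a b x (A ++ d :: d' :: B) y) : hd a b d = tl a b d' := by
  rw [seg_append] at h
  obtain ⟨z, _, _, h3, _⟩ := h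
  exact h3.symm

theorem seg_last (x y : Q) (A : List (E × Bool)) (d : E × Bool)
    (h : Seg a b x (A ++ [d]) y) : hd a b d = y := by
  rw [seg_append] at h
  obtain ⟨z, _, _, h3⟩ := h
  exact h3

end seg

/-- a chunk: labels of the ends, a number with the same residue as the length, and the darts -/
structure Ch (E : Type) where
  s : ℕ
  e : ℕ
  r : ℕ
  K : List (E × Bool)

/-- the vertex sequence of a list of darts -/
def vt {E Q : Type} (a b : E → Q) (d0 : E × Bool) (L : List (E × Bool)) (j : ℕ) : Q :=
  tl a b (L.getD (j % L.length) d0)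

theorem vt_pos {E Q : Type} (a b : E → Q) (d0 : E × Bool) (A B : List (E × Bool))
    (d : E × Bool) : vt a b d0 (A ++ d :: B) A.length = tl a b d := by
  unfold vt
  rw [Nat.mod_eq_of_lt (by simp)]
  simp

section tour
variable {V : Type} [Fintype V] [DecidableEq V] {G : SimpleGraph V} [DecidableRel G.Adj]
  {a b : G.edgeSet → V}

theorem vt_tour (hab : ∀ e : G.edgeSet, s(a e, b e) = (e : Sym2 V))
    (L : List (G.edgeSet × Bool)) (d0 : G.edgeSet × Bool) (x : V)
    (hne : L ≠ []) (hseg : Seg a b x L x) (hnd : (L.map Prod.fst).Nodup)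
    (hall : ∀ e, e ∈ L.map Prod.fst) : Tour G L.length (vt a b d0 L) := by
  have hpos : 0 < L.length := List.length_pos_iff.2 hne
  have hdt : ∀ d : G.edgeSet × Bool, s(tl a b d, hd a b d) = (d.1 : Sym2 V) := by
    rintro ⟨e, s⟩
    cases s
    · simp only [tl, hd]
      rw [← hab e]
      simp [Sym2.eq_swap]
    · simp only [tl, hd]
      rw [← hab e]
      simp
  have hx : vt a b d0 L 0 = x := by
    obtain ⟨d, L', rfl⟩ := List.exists_cons_of_ne_nil hne
    unfold vt
    simp only [Nat.zero_mod, List.getD_cons_zero]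
    exact hseg.1
  have hper : ∀ j, vt a b d0 L (j + L.length) = vt a b d0 L j := by
    intro j
    unfold vt
    rw [Nat.add_mod_right]
  -- the head of the dart number `j`
  have hhead : ∀ j (hj : j < L.length), hd a b L[j] = vt a b d0 L (j + 1) := by
    intro j hj
    by_cases hj1 : j + 1 < L.length
    · have h1 : L = L.take j ++ L[j] :: L[j + 1] :: L.drop (j + 2) := by
        rw [← List.drop_eq_getElem_cons hj1, ← List.drop_eq_getElem_cons hj, List.take_append_drop]
      have h2 := hseg
      rw [h1] at h2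
      rw [seg_step a b x x _ _ _ _ h2]
      unfold vt
      rw [Nat.mod_eq_of_lt hj1]
      rw [List.getD_eq_getElem _ _ hj1]
    · have h0 : j + 1 = L.length := by omega
      have h1 : L = L.take j ++ [L[j]] := by
        have h3 : L.drop (j + 1) = [] := List.drop_eq_nil_of_le (by omega)
        conv_lhs => rw [← List.take_append_drop j L, List.drop_eq_getElem_cons hj, h3]
      have h2 := hseg
      rw [h1] at h2
      rw [seg_last a b x x _ _ h2, h0]
      have := hper 0
      rw [Nat.zero_add] at this
      rw [this, hx]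
  have hedge : ∀ j (hj : j < L.length), s(vt a b d0 L j, vt a b d0 L (j + 1)) =
      ((L[j]).1 : Sym2 V) := by
    intro j hj
    rw [← hhead j hj, ← hdt]
    congr 1
    have : vt a b d0 L j = tl a b L[j] := by
      unfold vt
      rw [Nat.mod_eq_of_lt hj, List.getD_eq_getElem _ _ hj]
    rw [this]
  have hperm : ∀ j, vt a b d0 L (j % L.length) = vt a b d0 L j := by
    intro j
    unfold vt
    rw [Nat.mod_mod]
  refine ⟨hpos, hper, ?_, ?_, ?_⟩
  · intro j
    have hj := Nat.mod_lt j hpos
    have h1 := hedge _ hj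
    have h2 : vt a b d0 L (j % L.length + 1) = vt a b d0 L (j + 1) := by
      rw [← hperm (j % L.length + 1), Nat.mod_add_mod, hperm]
    rw [hperm, h2] at h1
    have h3 : s(vt a b d0 L j, vt a b d0 L (j + 1)) ∈ G.edgeSet := by
      rw [h1]; exact (L[j % L.length]).1.2
    exact h3
  · intro i hi j hj h
    rw [hedge i hi, hedge j hj] at h
    have h1 : (L[i]).1 = (L[j]).1 := Subtype.ext h
    have h2 : (L.map Prod.fst)[i]'(by simpa using hi) = (L.map Prod.fst)[j]'(by simpa using hj) := by
      rw [List.getElem_map, List.getElem_map]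
      exact h1
    exact (hnd.getElem_inj_iff).1 h2
  · intro e he
    obtain ⟨d, hd1, hd2⟩ := List.mem_map.1 (hall ⟨e, he⟩)
    obtain ⟨j, hj, hj2⟩ := List.mem_iff_getElem.1 hd1
    refine ⟨j, hj, ?_⟩
    rw [hedge j hj, hj2, hd2]

end tour

end Pool.Agent.R1.Maj
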