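import Pool.Agent.R1.MajC

/-!
# Soundness of the check on marked Euler tours

Helper file for `MP_dcf3dc_co`.
-/

set_option autoImplicit false
set_option linter.unusedSectionVars false

namespace Pool.Agent.R1.Maj

open Pool.Agent.R553.SP (tl hd)

/-- label of the start of the chunk number `k` -/
def sA (A : List (ℕ × ℕ × ℕ)) (k : ℕ) : ℕ := (A.getD k (0, 0, 0)).1

/-- label of the end of the chunk number `k` -/
def eA (A : List (ℕ × ℕ × ℕ)) (k : ℕ) : ℕ := (A.getD k (0, 0, 0)).2.1

/-- position of the chunk number `k`, modulo three -/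
def pA (A : List (ℕ × ℕ × ℕ)) (k : ℕ) : ℕ := ((A.take k).map (fun t => t.2.2)).sum

/-- the check -/
def chk (A : List (ℕ × ℕ × ℕ)) (ty : Bool) (kM k0 kp : ℕ) : Bool :=
  (decide (2 * (if ty then pA A (kM + 1) + 2 else pA A kM) % 3 = pA A A.length % 3) &&
  ((if k0 ≤ kM then decide (pA A k0 % 3 = 0) else
    decide ((pA A A.length + 2 * pA A k0) % 3 = 2)) &&
  ((if kp ≤ kM then
    decide (pA A kp % 3 = ((if ty then pA A (kM + 1) + 2 else pA A kM) + 1) % 3) else
    decide (pA A kp % 3 = (if ty then pA A (kM + 1) + 2 else pA A kM) % 3)) &&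
  (decide (pA A A.length % 3 ≠ 0) && (decide (kM < A.length) && ((ty || decide (1 ≤ kM)) &&
  (decide (1 ≤ k0) && (decide (k0 < A.length) && (decide (sA A k0 = sA A 0) &&
  (decide (1 ≤ kp) && (decide (kp < A.length) &&
  ((if ty then decide (kp ≠ kM + 1) && decide (sA A kp = eA A kM) else
    decide (kp ≠ kM) && decide (sA A kp = sA A kM)) &&
  (List.range A.length).all (fun k => eA A k == sA A ((k + 1) % A.length))))))))))))))

section chunk
variable {E Q : Type}

/-- the darts of a list of chunks -/
def flat (C : List (Ch E)) : List (E × Bool) := C.flatMap Ch.K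

/-- the abstract data of a chunk -/
def Ch.abs (c : Ch E) : ℕ × ℕ × ℕ := (c.s, c.e, c.r)

/-- a chunk joins its labels -/
def Valid (a b : E → Q) (lab : ℕ → Q) (c : Ch E) : Prop :=
  Seg a b (lab c.s) c.K (lab c.e) ∧ c.K ≠ [] ∧ c.K.length % 3 = c.r % 3

/-- position of the chunk number `k` -/
def pos (C : List (Ch E)) (k : ℕ) : ℕ := (flat (C.take k)).length

theorem flat_append (C D : List (Ch E)) : flat (C ++ D) = flat C ++ flat D := by
  simp [flat]

theorem flat_length_mod (C : List (Ch E)) (h : ∀ c ∈ C, c.K.length % 3 = c.r % 3) :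
    (flat C).length % 3 = ((C.map Ch.abs).map (fun t => t.2.2)).sum % 3 := by
  induction C with
  | nil => simp [flat]
  | cons c C ih =>
    have h1 := ih (fun c hc => h c (List.mem_cons_of_mem _ hc))
    have h2 := h c List.mem_cons_self
    have h3 : (flat (c :: C)).length = c.K.length + (flat C).length := by
      simp [flat]
    rw [h3, List.map_cons, List.map_cons, List.sum_cons]
    have h4 : (c.abs.2.2) = c.r := rfl
    rw [h4]
    omega

theorem pos_mod (C : List (Ch E)) (h : ∀ c ∈ C, c.K.length % 3 = c.r % 3) (k : ℕ) :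
    pos C k % 3 = pA (C.map Ch.abs) k % 3 := by
  unfold pos pA
  rw [flat_length_mod _ (fun c hc => h c (List.mem_of_mem_take hc)), List.map_take]

theorem pos_succ (C : List (Ch E)) (k : ℕ) (hk : k < C.length) :
    pos C (k + 1) = pos C k + (C[k]).K.length := by
  unfold pos
  rw [List.take_succ_eq_append_getElem hk, flat_append, List.length_append]
  simp [flat]

theorem pos_mono (C : List (Ch E)) (hne : ∀ c ∈ C, c.K ≠ []) (k j : ℕ) (hkj : k < j)
    (hj : j ≤ C.length) : pos C k < pos C j := by
  induction j, hkj using Nat.le_induction with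
  | base =>
    rw [pos_succ C k (by omega)]
    have := List.length_pos_iff.2 (hne _ (List.getElem_mem (show k < C.length by omega)))
    omega
  | succ j hkj ih =>
    have h1 := ih (by omega)
    rw [pos_succ C j (by omega)]
    omega

theorem pos_length (C : List (Ch E)) : pos C C.length = (flat C).length := by
  unfold pos
  rw [List.take_length]

theorem sA_abs (C : List (Ch E)) (k : ℕ) (hk : k < C.length) :
    sA (C.map Ch.abs) k = (C[k]).s := by
  unfold sA
  rw [List.getD_eq_getElem _ _ (by simpa using hk), List.getElem_map]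
  rfl

theorem eA_abs (C : List (Ch E)) (k : ℕ) (hk : k < C.length) :
    eA (C.map Ch.abs) k = (C[k]).e := by
  unfold eA
  rw [List.getD_eq_getElem _ _ (by simpa using hk), List.getElem_map]
  rfl

theorem vt_chunk (a b : E → Q) (lab : ℕ → Q) (C : List (Ch E)) (hv : ∀ c ∈ C, Valid a b lab c)
    (d0 : E × Bool) (k : ℕ) (hk : k < C.length) :
    vt a b d0 (flat C) (pos C k) = lab (sA (C.map Ch.abs) k) := by
  rw [sA_abs C k hk]
  obtain ⟨h1, h2, h3⟩ := hv _ (List.getElem_mem hk)
  obtain ⟨d, K', hK⟩ := List.exists_cons_of_ne_nil h2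
  rw [hK] at h1
  have h4 : flat C = flat (C.take k) ++ d :: (K' ++ flat (C.drop (k + 1))) := by
    have h5 : C = C.take k ++ ([C[k]] ++ C.drop (k + 1)) := by
      rw [List.singleton_append, ← List.drop_eq_getElem_cons hk, List.take_append_drop]
    have h6 : flat [C[k]] = d :: K' := by
      unfold flat
      rw [List.flatMap_singleton, hK]
    calc flat C = flat (C.take k ++ ([C[k]] ++ C.drop (k + 1))) := congrArg flat h5
      _ = _ := by rw [flat_append, flat_append, h6, List.cons_append]
  have h5 := vt_pos a b d0 (flat (C.take k)) (K' ++ flat (C.drop (k + 1))) d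
  rw [← h4] at h5
  unfold pos
  rw [h5]
  exact h1.1

theorem seg_flat (a b : E → Q) (lab : ℕ → Q) (C : List (Ch E)) (hv : ∀ c ∈ C, Valid a b lab c)
    (hn : 0 < C.length)
    (hch : ∀ k < C.length, eA (C.map Ch.abs) k = sA (C.map Ch.abs) ((k + 1) % C.length)) :
    Seg a b (lab (sA (C.map Ch.abs) 0)) (flat C) (lab (sA (C.map Ch.abs) 0)) := by
  have key : ∀ k < C.length, Seg a b (lab (sA (C.map Ch.abs) 0)) (flat (C.take (k + 1)))
      (lab (eA (C.map Ch.abs) k)) := by
    intro k
    induction k with
    | zero =>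
      intro hk
      rw [List.take_succ_eq_append_getElem hk, List.take_zero, List.nil_append]
      have h1 := (hv _ (List.getElem_mem hk)).1
      rw [sA_abs C 0 hk, eA_abs C 0 hk]
      simpa [flat] using h1
    | succ k ih =>
      intro hk
      have h1 := ih (by omega)
      rw [List.take_succ_eq_append_getElem hk, flat_append, seg_append]
      refine ⟨_, h1, ?_⟩
      have h2 := (hv _ (List.getElem_mem hk)).1
      rw [hch k (by omega), Nat.mod_eq_of_lt hk, sA_abs C (k + 1) hk, eA_abs C (k + 1) hk]
      simpa [flat] using h2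
  have h1 := key (C.length - 1) (by omega)
  have h2 : C.length - 1 + 1 = C.length := by omega
  rw [h2, List.take_length, hch _ (by omega), h2, Nat.mod_self] at h1
  exact h1

end chunk

section tour
variable {V : Type} [Fintype V] [DecidableEq V] {G : SimpleGraph V} [DecidableRel G.Adj]
  {a b : G.edgeSet → V}

theorem sound (hab : ∀ e : G.edgeSet, s(a e, b e) = (e : Sym2 V)) (lab : ℕ → V)
    (C : List (Ch G.edgeSet)) (hv : ∀ c ∈ C, Valid a b lab c)
    (hnd : ((flat C).map Prod.fst).Nodup) (hall : ∀ e, e ∈ (flat C).map Prod.fst)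
    (ty : Bool) (kM k0 kp : ℕ) (hc : chk (C.map Ch.abs) ty kM k0 kp = true) :
    ∃ col : Sym2 V → Fin 3, IsStrongMajority G col := by
  unfold chk at hc
  simp only [List.length_map, Bool.and_eq_true, decide_eq_true_eq, List.all_eq_true,
    List.mem_range, beq_iff_eq, ne_eq] at hc
  obtain ⟨hcong, hp0, hpM, hm3, hkM, hty, hk0, hk0n, hs0, hkp, hkpn, hsM, hchain⟩ := hc
  have hn : 0 < C.length := by omega
  have hmod := fun k => pos_mod C (fun c hc => (hv c hc).2.2) k
  have hmono := pos_mono C (fun c hc => (hv c hc).2.1)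
  have hlen := pos_length C
  have hne : flat C ≠ [] := by
    intro h
    have h1 := hmono 0 C.length hn le_rfl
    rw [hlen, h] at h1
    simp at h1
  obtain ⟨d0, L', hL'⟩ := List.exists_cons_of_ne_nil hne
  have hT := vt_tour hab (flat C) d0 _ hne (seg_flat a b lab C hv hn hchain) hnd hall
  have hvt := fun k hk => vt_chunk a b lab C hv d0 k hk
  set v := vt a b d0 (flat C) with hvdef
  set m := (flat C).length with hmdef
  have hp00 : pos C 0 = 0 := by simp [pos, flat]
  have hv0 : v 0 = lab (sA (C.map Ch.abs) 0) := by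
    have := hvt 0 hn
    rwa [hp00] at this
  have hvm : v m = v 0 := by have := hT.per 0; rwa [Nat.zero_add] at this
  have hmm := hmod C.length
  rw [hlen] at hmm
  have hmmod := hmod kM
  have hmmod1 := hmod (kM + 1)
  have hmod0 := hmod k0
  have hmodp := hmod kp
  have hpk0 := hmono 0 k0 (by omega) hk0n.le
  have hpk0' := hmono k0 C.length hk0n le_rfl
  have hpkp := hmono 0 kp (by omega) hkpn.le
  have hpkp' := hmono kp C.length hkpn le_rfl
  have hpkM := hmono kM C.length hkM le_rfl
  have hpkM1 := hmono kM (kM + 1) (by omega) (by omega)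
  have hle : ∀ i j, i ≤ j → j ≤ C.length → pos C i ≤ pos C j := by
    intro i j hij hj
    rcases Nat.lt_or_ge i j with h | h
    · exact (hmono i j h hj).le
    · have : i = j := by omega
      rw [this]
  have hv0p : v (pos C k0) = v 0 := by rw [hvt k0 hk0n, hs0, hv0]
  have h01 : pos C k0 ≠ 1 := by
    intro h
    rw [h] at hv0p
    exact (hT.adj 0).ne hv0p.symm
  have hkM1len := hle (kM + 1) C.length (by omega) le_rfl
  rw [hlen] at hpk0' hpkp' hpkM hkM1len
  cases ty with
  | false =>
    simp only [Bool.false_or, Bool.false_eq_true, if_false, Bool.and_eq_true,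
      decide_eq_true_eq] at hty hcong hsM hpM
    have h1M := hmono 0 kM (by omega) hkM.le
    apply hT.tent (pos C kM)
    refine ⟨by omega, hpkM, by omega, ⟨pos C k0, by omega, hpk0', Or.inl hv0p, ?_⟩,
      ⟨pos C kp, by omega, hpkp', ?_, ?_, ?_, ?_⟩⟩
    · by_cases h : k0 ≤ kM
      · rw [if_pos h, decide_eq_true_eq] at hp0
        left
        exact ⟨hle _ _ h hkM.le, by omega⟩
      · rw [if_neg h, decide_eq_true_eq] at hp0
        right
        refine ⟨hmono _ _ (by omega) hk0n.le, by omega⟩
    · intro h
      rcases Nat.lt_or_ge kp kM with h1 | h1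
      · have := hmono kp kM h1 hkM.le
        omega
      · have := hmono kM kp (by omega) hkpn.le
        omega
    · intro h
      have h1 : v (pos C kp) = v (pos C kM) := by rw [hvt kp hkpn, hvt kM hkM, hsM.2]
      rw [h] at h1
      exact (hT.adj _).ne h1.symm
    · left
      rw [hvt kp hkpn, hvt kM hkM, hsM.2]
    · by_cases h : kp ≤ kM
      · rw [if_pos h, decide_eq_true_eq] at hpM
        left
        exact ⟨hle _ _ h hkM.le, by omega⟩
      · rw [if_neg h, decide_eq_true_eq] at hpM
        right
        exact ⟨hmono _ _ (by omega) hkpn.le, by omega⟩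
  | true =>
    simp only [if_true, Bool.and_eq_true, decide_eq_true_eq] at hcong hsM hpM
    set M := pos C (kM + 1) - 1 with hMdef
    have hM1 : M + 1 = pos C (kM + 1) := by omega
    have hvM1 : v (M + 1) = lab (eA (C.map Ch.abs) kM) := by
      rw [hM1, hchain kM hkM]
      by_cases h : kM + 1 < C.length
      · rw [hvt (kM + 1) h, Nat.mod_eq_of_lt h]
      · have h1 : kM + 1 = C.length := by omega
        rw [h1, Nat.mod_self, hlen, hvm, hv0]
    have hvp : v (pos C kp) = v (M + 1) := by rw [hvt kp hkpn, hvM1, hsM.2]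
    apply hT.tent M
    refine ⟨by omega, by omega, by omega, ⟨pos C k0, by omega, hpk0', Or.inl hv0p, ?_⟩,
      ⟨pos C kp, by omega, hpkp', ?_, ?_, ?_, ?_⟩⟩
    · by_cases h : k0 ≤ kM
      · rw [if_pos h, decide_eq_true_eq] at hp0
        left
        have := hle _ _ h hkM.le
        exact ⟨by omega, by omega⟩
      · rw [if_neg h, decide_eq_true_eq] at hp0
        right
        have := hle (kM + 1) k0 (by omega) hk0n.le
        refine ⟨by omega, by omega⟩
    · intro h
      rw [h] at hvp
      exact (hT.adj _).ne hvp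
    · intro h
      rw [hM1] at h
      rcases Nat.lt_or_ge kp (kM + 1) with h1 | h1
      · have := hmono kp (kM + 1) h1 (by omega)
        omega
      · have := hmono (kM + 1) kp (by omega) hkpn.le
        omega
    · right
      exact hvp
    · by_cases h : kp ≤ kM
      · rw [if_pos h, decide_eq_true_eq] at hpM
        left
        have := hle _ _ h hkM.le
        exact ⟨by omega, by omega⟩
      · rw [if_neg h, decide_eq_true_eq] at hpM
        right
        have := hle (kM + 1) kp (by omega) hkpn.le
        exact ⟨by omega, by omega⟩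

end tour

end Pool.Agent.R1.Maj
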