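import Pool.Agent.R1.MajD

/-!
# Rearranging the chunks of a marked Euler tour

Helper file for `MP_dcf3dc_co`.
-/

set_option autoImplicit false
set_option linter.unusedSectionVars false

namespace Pool.Agent.R1.Maj

open Pool.Agent.R553.SP (tl hd)

/-- reverse the abstract data of a chunk unless `o` -/
def oriA (t : ℕ × ℕ × ℕ) (o : Bool) : ℕ × ℕ × ℕ := if o then t else (t.2.1, t.1, t.2.2)

/-- the arrangement `w` of the abstract chunks -/
def arrA (A : List (ℕ × ℕ × ℕ)) (w : List (ℕ × Bool)) : List (ℕ × ℕ × ℕ) :=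
  w.map (fun p => oriA (A.getD p.1 (0, 0, 0)) p.2)

/-- decode an arrangement -/
def dec (l : List ℕ) : List (ℕ × Bool) := l.map (fun c => (c / 2, c % 2 == 1))

/-- test with a list of witnesses -/
def tst (A : List (ℕ × ℕ × ℕ)) (W : List (List ℕ × ℕ × ℕ × ℕ × ℕ)) : Bool :=
  W.any (fun x => chk (arrA A (dec x.1)) (x.2.1 == 1) x.2.2.1 x.2.2.2.1 x.2.2.2.2)

/-- every witness uses every chunk once -/
def okW (n : ℕ) (W : List (List ℕ × ℕ × ℕ × ℕ × ℕ)) : Bool :=
  W.all (fun x => decide (((dec x.1).map Prod.fst).Perm (List.range n)))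

section
variable {E Q : Type}

/-- a default chunk -/
def dC (E : Type) : Ch E := ⟨0, 0, 0, []⟩

/-- reverse a chunk unless `o` -/
def ori (c : Ch E) (o : Bool) : Ch E := if o then c else ⟨c.e, c.s, c.r, rev c.K⟩

theorem abs_ori (c : Ch E) (o : Bool) : (ori c o).abs = oriA c.abs o := by
  cases o <;> rfl

/-- the arrangement `w` of the chunks -/
def arr (C : List (Ch E)) (w : List (ℕ × Bool)) : List (Ch E) :=
  w.map (fun p => ori (C.getD p.1 (dC E)) p.2)

theorem arr_abs (C : List (Ch E)) (w : List (ℕ × Bool)) :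
    (arr C w).map Ch.abs = arrA (C.map Ch.abs) w := by
  unfold arr arrA
  rw [List.map_map]
  apply List.map_congr_left
  intro p _
  simp only [Function.comp_apply, abs_ori]
  congr 1
  have h : (0, 0, 0) = (dC E).abs := rfl
  rw [h]
  rcases Nat.lt_or_ge p.1 C.length with h1 | h1
  · rw [List.getD_eq_getElem _ _ h1, List.getD_eq_getElem _ _ (by simpa using h1),
      List.getElem_map]
  · rw [List.getD_eq_default _ _ h1, List.getD_eq_default _ _ (by simpa using h1)]

theorem ori_valid (a b : E → Q) (lab : ℕ → Q) (c : Ch E) (o : Bool) (h : Valid a b lab c) :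
    Valid a b lab (ori c o) := by
  cases o with
  | true => exact h
  | false =>
    obtain ⟨h1, h2, h3⟩ := h
    refine ⟨seg_rev a b _ _ _ h1, ?_, ?_⟩
    · intro h4
      apply h2
      have h5 := rev_length c.K
      have h6 : rev c.K = [] := h4
      rw [h6] at h5
      exact List.length_eq_zero_iff.1 h5.symm
    · have h5 := rev_length c.K
      show (rev c.K).length % 3 = c.r % 3
      rw [h5]
      exact h3

theorem ori_perm (c : Ch E) (o : Bool) : ((ori c o).K.map Prod.fst).Perm (c.K.map Prod.fst) := by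
  cases o with
  | true => exact List.Perm.refl _
  | false => exact rev_fst c.K

theorem arr_perm (C : List (Ch E)) (w : List (ℕ × Bool))
    (hw : (w.map Prod.fst).Perm (List.range C.length)) :
    ((flat (arr C w)).map Prod.fst).Perm ((flat C).map Prod.fst) := by
  unfold flat arr
  rw [List.map_flatMap, List.map_flatMap, List.flatMap_map]
  set g : ℕ → List E := fun i => (C.getD i (dC E)).K.map Prod.fst with hg
  have h1 : (w.flatMap (fun p => ((ori (C.getD p.1 (dC E)) p.2).K.map Prod.fst))).Perm
      (w.flatMap (fun p => g p.1)) := by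
    apply List.Perm.flatMap_left
    intro p _
    exact ori_perm _ _
  have h2 : w.flatMap (fun p => g p.1) = (w.map Prod.fst).flatMap g := by
    rw [List.flatMap_map]
  have h3 : ((w.map Prod.fst).flatMap g).Perm ((List.range C.length).flatMap g) :=
    hw.flatMap_right g
  have h4 : (List.range C.length).flatMap g = C.flatMap (fun c => c.K.map Prod.fst) := by
    have h5 : (List.range C.length).map (fun i => C.getD i (dC E)) = C := by
      apply List.ext_getElem (by simp)
      intro i h6 h7
      simp only [List.getElem_map, List.getElem_range]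
      exact List.getD_eq_getElem _ _ h7
    conv_rhs => rw [← h5]
    rw [List.flatMap_map]
  rw [← h4]
  refine h1.trans ?_
  rw [h2]
  exact h3

end

section tour
variable {V : Type} [Fintype V] [DecidableEq V] {G : SimpleGraph V} [DecidableRel G.Adj]
  {a b : G.edgeSet → V}

theorem sound3 (hab : ∀ e : G.edgeSet, s(a e, b e) = (e : Sym2 V)) (lab : ℕ → V)
    (C : List (Ch G.edgeSet)) (hv : ∀ c ∈ C, Valid a b lab c)
    (hnd : ((flat C).map Prod.fst).Nodup) (hall : ∀ e, e ∈ (flat C).map Prod.fst)
    (W : List (List ℕ × ℕ × ℕ × ℕ × ℕ)) (hW : okW C.length W = true)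
    (hc : tst (C.map Ch.abs) W = true) :
    ∃ col : Sym2 V → Fin 3, IsStrongMajority G col := by
  unfold tst at hc
  rw [List.any_eq_true] at hc
  obtain ⟨x, hx, hc⟩ := hc
  unfold okW at hW
  rw [List.all_eq_true] at hW
  have hw := hW x hx
  rw [decide_eq_true_eq] at hw
  rw [← arr_abs] at hc
  have hp := arr_perm C (dec x.1) hw
  apply sound hab lab (arr C (dec x.1)) _ (hp.nodup_iff.2 hnd)
    (fun e => hp.mem_iff.2 (hall e)) _ _ _ _ hc
  intro c hcm
  unfold arr at hcm
  rw [List.mem_map] at hcm
  obtain ⟨p, hp1, rfl⟩ := hcm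
  apply ori_valid
  apply hv
  have h1 : p.1 ∈ List.range C.length := hw.mem_iff.1 (List.mem_map.2 ⟨p, hp1, rfl⟩)
  rw [List.mem_range] at h1
  rw [List.getD_eq_getElem _ _ h1]
  exact List.getElem_mem h1

end tour

end Pool.Agent.R1.Maj
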