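import Pool.Agent.R1.MajT

/-!
# Arcs of an Euler tour

Helper file for `MP_dcf3dc_co`.
-/

set_option autoImplicit false
set_option linter.unusedSectionVars false

namespace Pool.Agent.R1.Maj

open Pool.Agent.R553.SP (tl hd)

section tour
variable {V : Type} [Fintype V] [DecidableEq V] {G : SimpleGraph V} [DecidableRel G.Adj]
  {a b : G.edgeSet → V}

/-- there is a strong majority colouring with three colours -/
def Col {V : Type} [Fintype V] [DecidableEq V] (G : SimpleGraph V) [DecidableRel G.Adj] : Prop :=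
  ∃ col : Sym2 V → Fin 3, IsStrongMajority G col

/-- `L` is an Euler tour -/
structure CT (a b : G.edgeSet → V) (L : List (G.edgeSet × Bool)) : Prop where
  hab : ∀ e : G.edgeSet, s(a e, b e) = (e : Sym2 V)
  ne : L ≠ []
  seg : ∃ x, Seg a b x L x
  nd : (L.map Prod.fst).Nodup
  all : ∀ e, e ∈ L.map Prod.fst

theorem CT.rot {A B : List (G.edgeSet × Bool)} (h : CT a b (A ++ B)) : CT a b (B ++ A) := by
  obtain ⟨hab, ne, ⟨x, seg⟩, nd, all⟩ := h
  have hp : (B ++ A).Perm (A ++ B) := List.perm_append_comm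
  refine ⟨hab, ?_, ?_, ?_, ?_⟩
  · intro h
    apply ne
    rw [List.append_eq_nil_iff] at h ⊢
    exact ⟨h.2, h.1⟩
  · rw [seg_append] at seg
    obtain ⟨y, h1, h2⟩ := seg
    exact ⟨y, (seg_append a b _ _ _ _).2 ⟨x, h2, h1⟩⟩
  · exact ((hp.map Prod.fst).nodup_iff).2 nd
  · intro e
    exact ((hp.map Prod.fst).mem_iff).2 (all e)

theorem CT.tour {L : List (G.edgeSet × Bool)} (h : CT a b L) (d0 : G.edgeSet × Bool) :
    Tour G L.length (vt a b d0 L) := by
  obtain ⟨x, hx⟩ := h.seg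
  exact vt_tour h.hab L d0 x h.ne hx h.nd h.all

theorem seg_split (x y : V) (l l' : List (G.edgeSet × Bool)) (d : G.edgeSet × Bool)
    (h : Seg a b x (l ++ d :: l') y) :
    Seg a b x l (tl a b d) ∧ Seg a b (tl a b d) (d :: l') y := by
  rw [seg_append] at h
  obtain ⟨z, h1, h2⟩ := h
  have h3 : tl a b d = z := h2.1
  rw [h3]
  exact ⟨h1, h2⟩

theorem arc_len {x y : G.edgeSet × Bool} {D R : List (G.edgeSet × Bool)}
    (h : CT a b (x :: D ++ y :: R)) (hxy : tl a b y = tl a b x) : 2 ≤ D.length := by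
  have T := h.tour x
  by_contra hcon
  have h2 : D.length = 0 ∨ D.length = 1 := by omega
  have e0 : vt a b x (x :: D ++ y :: R) 0 = tl a b x := by
    have := vt_pos a b x [] (D ++ y :: R) x
    simpa using this
  have e1 : vt a b x (x :: D ++ y :: R) (D.length + 1) = tl a b y := by
    have := vt_pos a b x (x :: D) R y
    simpa using this
  rcases h2 with h2 | h2
  · rw [h2] at e1
    exact (T.adj 0).ne (by rw [e0, e1, hxy])
  · rw [h2] at e1
    have h3 := T.inj 0 (by simp) 1 (by simp [h2]) (by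
      rw [e0, e1, hxy]
      exact Sym2.eq_swap)
    omega

theorem X_core {W : List (List ℕ × ℕ × ℕ × ℕ × ℕ)} {σ1 σ2 σ3 : ℕ}
    (hW1 : okW 8 W = true) (hW2 : allX σ1 σ2 σ3 W = true) (lab : ℕ → V)
    {x z1 z2 z3 y e1 e2 e3 : G.edgeSet × Bool} {D A1 A2 A3 A4 : List (G.edgeSet × Bool)}
    (h : CT a b (x :: z1 :: z2 :: z3 :: (D ++ y :: (A1 ++ e1 :: (A2 ++ e2 :: (A3 ++ e3 :: A4))))))
    (hm : (x :: z1 :: z2 :: z3 :: (D ++ y :: (A1 ++ e1 :: (A2 ++ e2 :: (A3 ++
      e3 :: A4))))).length % 3 ≠ 0)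
    (hx : tl a b x = lab 0) (h1 : tl a b z1 = lab 1) (h2 : tl a b z2 = lab 2)
    (h3 : tl a b z3 = lab 3) (hy : tl a b y = lab 0) (he1 : tl a b e1 = lab σ1)
    (he2 : tl a b e2 = lab σ2) (he3 : tl a b e3 = lab σ3) : Col G := by
  obtain ⟨hab, _, ⟨w, seg⟩, nd, all⟩ := h
  have hw : w = lab 0 := by rw [← hx]; exact seg.1.symm
  subst hw
  obtain ⟨s0, seg⟩ := seg_split (a := a) (b := b) _ _ [x] _ _ seg
  obtain ⟨s1, seg⟩ := seg_split (a := a) (b := b) _ _ (z1 :: []) _ _ seg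
  obtain ⟨s2, seg⟩ := seg_split (a := a) (b := b) _ _ (z2 :: []) _ _ seg
  obtain ⟨s3, seg⟩ := seg_split (a := a) (b := b) _ _ (z3 :: D) _ _ seg
  obtain ⟨s4, seg⟩ := seg_split (a := a) (b := b) _ _ (y :: A1) _ _ seg
  obtain ⟨s5, seg⟩ := seg_split (a := a) (b := b) _ _ (e1 :: A2) _ _ seg
  obtain ⟨s6, s7⟩ := seg_split (a := a) (b := b) _ _ (e2 :: A3) _ _ seg
  rw [h1] at s0 s1
  rw [h2] at s1 s2
  rw [h3] at s2 s3
  rw [hy] at s3 s4
  rw [he1] at s4 s5
  rw [he2] at s5 s6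
  rw [he3] at s6 s7
  set C : List (Ch G.edgeSet) := [⟨0, 1, 1, [x]⟩, ⟨1, 2, 1, [z1]⟩, ⟨2, 3, 1, [z2]⟩,
    ⟨3, 0, (z3 :: D).length % 3, z3 :: D⟩, ⟨0, σ1, (y :: A1).length % 3, y :: A1⟩,
    ⟨σ1, σ2, (e1 :: A2).length % 3, e1 :: A2⟩, ⟨σ2, σ3, (e2 :: A3).length % 3, e2 :: A3⟩,
    ⟨σ3, 0, (e3 :: A4).length % 3, e3 :: A4⟩] with hC
  have hflat : flat C = x :: z1 :: z2 :: z3 :: (D ++ y :: (A1 ++ e1 :: (A2 ++ e2 :: (A3 ++
      e3 :: A4)))) := by
    rw [hC]
    simp [flat]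
  have habs : C.map Ch.abs = baseX σ1 σ2 σ3 ((z3 :: D).length % 3) ((y :: A1).length % 3)
      ((e1 :: A2).length % 3) ((e2 :: A3).length % 3) ((e3 :: A4).length % 3) := rfl
  apply sound3 hab lab C _ (by rw [hflat]; exact nd) (by rw [hflat]; exact all) W hW1
  · rw [habs]
    unfold allX at hW2
    simp only [List.all_eq_true, List.mem_range, Bool.or_eq_true, decide_eq_true_eq] at hW2
    have h9 := hW2 _ (Nat.mod_lt (z3 :: D).length (by norm_num))
      _ (Nat.mod_lt (y :: A1).length (by norm_num)) _ (Nat.mod_lt (e1 :: A2).length (by norm_num))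
      _ (Nat.mod_lt (e2 :: A3).length (by norm_num)) _ (Nat.mod_lt (e3 :: A4).length (by norm_num))
    rcases h9 with h9 | h9
    · exfalso
      apply hm
      simp only [List.length_append, List.length_cons] at h9 ⊢
      omega
    · exact h9
  · intro c hc
    rw [hC] at hc
    simp only [List.mem_cons, List.not_mem_nil, or_false] at hc
    rcases hc with rfl | rfl | rfl | rfl | rfl | rfl | rfl | rfl
    · exact ⟨s0, by simp, by simp⟩
    · exact ⟨s1, by simp, by simp⟩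
    · exact ⟨s2, by simp, by simp⟩
    · exact ⟨s3, by simp, by simp⟩
    · exact ⟨s4, by simp, by simp⟩
    · exact ⟨s5, by simp, by simp⟩
    · exact ⟨s6, by simp, by simp⟩
    · exact ⟨s7, by simp, by simp⟩

theorem Y_core {x z1 z2 y e1 : G.edgeSet × Bool} {A B : List (G.edgeSet × Bool)}
    (h : CT a b (x :: z1 :: z2 :: y :: (A ++ e1 :: B)))
    (hm : (x :: z1 :: z2 :: y :: (A ++ e1 :: B)).length % 3 = 2)
    (hy : tl a b y = tl a b x) (he1 : tl a b e1 = tl a b z1) : Col G := by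
  obtain ⟨hab, _, ⟨w, seg⟩, nd, all⟩ := h
  set lab : ℕ → V := fun n => if n = 0 then tl a b x else tl a b z1 with hlab
  have hw : w = lab 0 := seg.1.symm
  subst hw
  have l0 : tl a b x = lab 0 := rfl
  have l1 : tl a b z1 = lab 1 := rfl
  obtain ⟨s0, seg⟩ := seg_split (a := a) (b := b) _ _ [x] _ _ seg
  obtain ⟨s1, seg⟩ := seg_split (a := a) (b := b) _ _ (z1 :: [z2]) _ _ seg
  obtain ⟨s2, s3⟩ := seg_split (a := a) (b := b) _ _ (y :: A) _ _ seg
  rw [l1] at s0 s1 he1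
  rw [hy, l0] at s1 s2
  rw [he1] at s2 s3
  set C : List (Ch G.edgeSet) := [⟨0, 1, 1, [x]⟩, ⟨1, 0, 2, [z1, z2]⟩,
    ⟨0, 1, (y :: A).length % 3, y :: A⟩, ⟨1, 0, (e1 :: B).length % 3, e1 :: B⟩] with hC
  have hflat : flat C = x :: z1 :: z2 :: y :: (A ++ e1 :: B) := by
    rw [hC]
    simp [flat]
  have habs : C.map Ch.abs = baseY ((y :: A).length % 3) ((e1 :: B).length % 3) := rfl
  apply sound3 hab lab C _ (by rw [hflat]; exact nd) (by rw [hflat]; exact all) WY okY
  · rw [habs]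
    have hW2 := allY_eq
    unfold allY at hW2
    simp only [List.all_eq_true, List.mem_range, Bool.or_eq_true, decide_eq_true_eq] at hW2
    have h9 := hW2 _ (Nat.mod_lt (y :: A).length (by norm_num))
      _ (Nat.mod_lt (e1 :: B).length (by norm_num))
    rcases h9 with h9 | h9
    · exfalso
      apply h9
      simp only [List.length_append, List.length_cons] at hm ⊢
      omega
    · exact h9
  · intro c hc
    rw [hC] at hc
    simp only [List.mem_cons, List.not_mem_nil, or_false] at hc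
    rcases hc with rfl | rfl | rfl | rfl
    · exact ⟨s0, by simp, by simp⟩
    · exact ⟨s1, by simp, by simp⟩
    · exact ⟨s2, by simp, by simp⟩
    · exact ⟨s3, by simp, by simp⟩

end tour

end Pool.Agent.R1.Maj
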