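import Pool.Agent.R1.MajF

/-!
# Every Euler tour yields a strong majority edge-colouring with three colours

Helper file for `MP_dcf3dc_co`.
-/

set_option autoImplicit false
set_option linter.unusedSectionVars false
set_option linter.unusedSimpArgs false

namespace Pool.Agent.R1.Maj

open Pool.Agent.R553.SP (tl hd)

section tour
variable {V : Type} [Fintype V] [DecidableEq V] {G : SimpleGraph V} [DecidableRel G.Adj]
  {a b : G.edgeSet → V}

theorem arc_X {x y : G.edgeSet × Bool} {D R : List (G.edgeSet × Bool)}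
    (h : CT a b (x :: D ++ y :: R)) (hxy : tl a b y = tl a b x)
    (hnd : ((x :: D).map (tl a b)).Nodup) (hD : ∀ z ∈ D, tl a b z ∈ R.map (tl a b))
    (hlen : 3 ≤ D.length) (hm : (x :: D ++ y :: R).length % 3 ≠ 0) : Col G := by
  obtain ⟨z1, D, rfl⟩ := List.exists_cons_of_length_pos (show 0 < D.length by omega)
  obtain ⟨z2, D, rfl⟩ := List.exists_cons_of_length_pos
    (show 0 < D.length by simp at hlen; omega)
  obtain ⟨z3, D, rfl⟩ := List.exists_cons_of_length_pos
    (show 0 < D.length by simp at hlen; omega)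
  simp only [List.map_cons, List.nodup_cons, List.mem_cons, not_or] at hnd
  obtain ⟨⟨n01, n02, n03, _⟩, ⟨n12, n13, _⟩, ⟨n23, _⟩, _⟩ := hnd
  have m1 := hD z1 (by simp)
  have m2 := hD z2 (by simp)
  have m3 := hD z3 (by simp)
  obtain ⟨e1, q1, h1⟩ := List.mem_map.1 m1
  obtain ⟨e2, q2, h2⟩ := List.mem_map.1 m2
  obtain ⟨e3, q3, h3⟩ := List.mem_map.1 m3
  clear m1 m2 m3 hD
  have d21 : e2 ≠ e1 := by
    rintro rfl
    exact n12 (h1.symm.trans h2)
  have d31 : e3 ≠ e1 := by
    rintro rfl
    exact n13 (h1.symm.trans h3)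
  have d32 : e3 ≠ e2 := by
    rintro rfl
    exact n23 (h2.symm.trans h3)
  obtain ⟨A, B, rfl⟩ := List.append_of_mem q1
  set lab : ℕ → V := fun n => if n = 0 then tl a b x else if n = 1 then tl a b z1 else
    if n = 2 then tl a b z2 else tl a b z3 with hlab
  have l0 : tl a b x = lab 0 := rfl
  have l1 : tl a b z1 = lab 1 := rfl
  have l2 : tl a b z2 = lab 2 := rfl
  have l3 : tl a b z3 = lab 3 := rfl
  have hy := hxy.trans l0
  rw [l1] at h1
  rw [l2] at h2
  rw [l3] at h3
  have c2 : e2 ∈ A ∨ e2 ∈ B := by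
    rw [List.mem_append, List.mem_cons] at q2
    rcases q2 with q2 | q2 | q2
    · exact Or.inl q2
    · exact absurd q2 d21
    · exact Or.inr q2
  have c3 : e3 ∈ A ∨ e3 ∈ B := by
    rw [List.mem_append, List.mem_cons] at q3
    rcases q3 with q3 | q3 | q3
    · exact Or.inl q3
    · exact absurd q3 d31
    · exact Or.inr q3
  clear q1 q2 q3
  rcases c2 with c2 | c2
  · obtain ⟨A', A'', rfl⟩ := List.append_of_mem c2
    rcases c3 with c3 | c3
    · rw [List.mem_append, List.mem_cons] at c3
      rcases c3 with c3 | c3 | c3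
      · obtain ⟨P, Q, rfl⟩ := List.append_of_mem c3
        refine X_core okW321 allW321 lab (D := D) (A1 := P) (A2 := Q) (A3 := A'') (A4 := B)
          ?_ ?_ l0 l1 l2 l3 hy h3 h2 h1
        · simpa [List.append_assoc] using h
        · simpa [List.append_assoc, Nat.add_assoc] using hm
      · exact absurd c3 d32
      · obtain ⟨P, Q, rfl⟩ := List.append_of_mem c3
        refine X_core okW231 allW231 lab (D := D) (A1 := A') (A2 := P) (A3 := Q) (A4 := B)
          ?_ ?_ l0 l1 l2 l3 hy h2 h3 h1
        · simpa [List.append_assoc] using h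
        · simpa [List.append_assoc, Nat.add_assoc] using hm
    · obtain ⟨P, Q, rfl⟩ := List.append_of_mem c3
      refine X_core okW213 allW213 lab (D := D) (A1 := A') (A2 := A'') (A3 := P) (A4 := Q)
        ?_ ?_ l0 l1 l2 l3 hy h2 h1 h3
      · simpa [List.append_assoc] using h
      · simpa [List.append_assoc, Nat.add_assoc] using hm
  · obtain ⟨B', B'', rfl⟩ := List.append_of_mem c2
    rcases c3 with c3 | c3
    · obtain ⟨P, Q, rfl⟩ := List.append_of_mem c3
      refine X_core okW312 allW312 lab (D := D) (A1 := P) (A2 := Q) (A3 := B') (A4 := B'')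
        ?_ ?_ l0 l1 l2 l3 hy h3 h1 h2
      · simpa [List.append_assoc] using h
      · simpa [List.append_assoc, Nat.add_assoc] using hm
    · rw [List.mem_append, List.mem_cons] at c3
      rcases c3 with c3 | c3 | c3
      · obtain ⟨P, Q, rfl⟩ := List.append_of_mem c3
        refine X_core okW132 allW132 lab (D := D) (A1 := A) (A2 := P) (A3 := Q) (A4 := B'')
          ?_ ?_ l0 l1 l2 l3 hy h1 h3 h2
        · simpa [List.append_assoc] using h
        · simpa [List.append_assoc, Nat.add_assoc] using hm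
      · exact absurd c3 d32
      · obtain ⟨P, Q, rfl⟩ := List.append_of_mem c3
        refine X_core okW123 allW123 lab (D := D) (A1 := A) (A2 := B') (A3 := P) (A4 := Q)
          ?_ ?_ l0 l1 l2 l3 hy h1 h2 h3
        · simpa [List.append_assoc] using h
        · simpa [List.append_assoc, Nat.add_assoc] using hm

theorem arc_Y {x z1 z2 y : G.edgeSet × Bool} {R : List (G.edgeSet × Bool)}
    (h : CT a b (x :: z1 :: z2 :: y :: R)) (hxy : tl a b y = tl a b x)
    (h1 : tl a b z1 ∈ R.map (tl a b))
    (hm : (x :: z1 :: z2 :: y :: R).length % 3 = 2) : Col G := by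
  obtain ⟨e1, q1, h2⟩ := List.mem_map.1 h1
  obtain ⟨A, B, rfl⟩ := List.append_of_mem q1
  exact Y_core h hm hxy h2

theorem Tour.shift1 {m : ℕ} {v : ℕ → V} (T : Tour G m v) : Tour G m (fun j => v (j + 1)) := by
  have vperm : ∀ j, v (j % m) = v j := by
    intro j
    have h : ∀ t : ℕ, ∀ r, v (r + m * t) = v r := by
      intro t
      induction t with
      | zero => intro r; simp
      | succ t ih =>
        intro r
        rw [Nat.mul_succ, ← Nat.add_assoc, T.per, ih]
    conv_rhs => rw [← Nat.mod_add_div j m]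
    rw [h]
  have hm := T.pos
  have hstep : ∀ j, s(v (j + 1), v (j + 1 + 1)) = s(v ((j + 1) % m), v ((j + 1) % m + 1)) := by
    intro j
    have h1 : v ((j + 1) % m + 1) = v (j + 1 + 1) := by
      rw [← vperm ((j + 1) % m + 1), Nat.mod_add_mod, vperm]
    rw [vperm (j + 1), h1]
  refine ⟨hm, ?_, fun j => T.adj (j + 1), ?_, ?_⟩
  · intro j
    show v (j + m + 1) = v (j + 1)
    rw [show j + m + 1 = j + 1 + m by omega, T.per]
  · intro i hi j hj h
    have h : s(v (i + 1), v (i + 1 + 1)) = s(v (j + 1), v (j + 1 + 1)) := h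
    rw [hstep i, hstep j] at h
    have h1 := T.inj _ (Nat.mod_lt _ hm) _ (Nat.mod_lt _ hm) h
    by_cases hi1 : i + 1 = m <;> by_cases hj1 : j + 1 = m
    · omega
    · rw [hi1, Nat.mod_self, Nat.mod_eq_of_lt (by omega)] at h1
      omega
    · rw [hj1, Nat.mod_self, Nat.mod_eq_of_lt (by omega)] at h1
      omega
    · rw [Nat.mod_eq_of_lt (by omega), Nat.mod_eq_of_lt (by omega)] at h1
      omega
  · intro e he
    obtain ⟨j, hj, rfl⟩ := T.surj e he
    by_cases h0 : j = 0
    · subst h0
      refine ⟨m - 1, by omega, ?_⟩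
      have h1 : m - 1 + 1 = m := by omega
      show s(v (m - 1 + 1), v (m - 1 + 1 + 1)) = s(v 0, v (0 + 1))
      have h2 := T.per 0
      have h3 := T.per 1
      rw [Nat.zero_add] at h2
      rw [h1, h2, Nat.add_comm m 1, h3]
    · refine ⟨j - 1, by omega, ?_⟩
      show s(v (j - 1 + 1), v (j - 1 + 1 + 1)) = s(v j, v (j + 1))
      rw [show j - 1 + 1 = j by omega]

/-- two disjoint arcs of length three -/
theorem Tour.disj {m : ℕ} {v : ℕ → V} (T : Tour G m v) (hm : m % 3 = 1) (p : ℕ) (hp : 3 ≤ p)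
    (hpm : p + 3 < m) (h0 : v 3 = v 0) (h1 : v (p + 3) = v p) : Col G := by
  have h3 : p % 3 = 0 ∨ p % 3 = 1 ∨ p % 3 = 2 := by omega
  rcases h3 with h3 | h3 | h3
  · apply T.tent (p + 2)
    refine ⟨by omega, by omega, by omega, ⟨3, by omega, by omega, Or.inl h0, Or.inl ?_⟩,
      ⟨p, by omega, by omega, by omega, by omega, Or.inr ?_, Or.inl ?_⟩⟩
    · omega
    · exact h1.symm
    · omega
  · have T2 := T.shift1.shift1
    apply T2.tent (p - 2)
    refine ⟨by omega, by omega, by omega, ⟨m - 2, by omega, by omega, Or.inr ?_, Or.inr ?_⟩,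
      ⟨p + 1, by omega, by omega, by omega, by omega, Or.inl ?_, Or.inr ?_⟩⟩
    · show v (m - 2 + 1 + 1) = v 3
      rw [show m - 2 + 1 + 1 = 0 + m by omega, T.per, h0]
    · omega
    · show v (p + 3) = v (p - 2 + 1 + 1)
      rw [show p - 2 + 1 + 1 = p by omega, h1]
    · omega
  · apply T.tent p
    refine ⟨by omega, by omega, by omega, ⟨3, by omega, by omega, Or.inl h0, Or.inl ?_⟩,
      ⟨p + 3, by omega, by omega, by omega, by omega, Or.inl h1, Or.inr ?_⟩⟩
    · omega
    · omega

/-- an innermost arc -/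
theorem innermost {α β : Type} (f : α → β) (L : List α) (h : ¬ (L.map f).Nodup) :
    ∃ P x D y Q, L = P ++ (x :: D ++ y :: Q) ∧ f y = f x ∧ ((x :: D).map f).Nodup := by
  induction L with
  | nil => simp at h
  | cons z L ih =>
    by_cases h1 : (L.map f).Nodup
    · rw [List.map_cons, List.nodup_cons, not_and_or, not_not] at h
      rcases h with h | h
      · obtain ⟨y, hy, hyz⟩ := List.mem_map.1 h
        obtain ⟨D, Q, rfl⟩ := List.append_of_mem hy
        refine ⟨[], z, D, y, Q, rfl, hyz, ?_⟩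
        rw [List.map_append, List.map_cons, List.nodup_append] at h1
        rw [List.map_cons, List.nodup_cons]
        refine ⟨?_, h1.1⟩
        intro hz
        exact h1.2.2 _ hz _ (List.mem_cons_self) hyz.symm
      · exact absurd h1 h
    · obtain ⟨P, x, D, y, Q, rfl, h2, h3⟩ := ih h1
      exact ⟨z :: P, x, D, y, Q, rfl, h2, h3⟩

end tour

end Pool.Agent.R1.Maj
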