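import Pool.Agent.R1.MajG

/-!
# Strong majority edge-colourings of Eulerian graphs: the main argument

Helper file for `MP_dcf3dc_co`.
-/

set_option autoImplicit false
set_option linter.unusedSectionVars false
set_option linter.unusedSimpArgs false

namespace Pool.Agent.R1.Maj

open Pool.Agent.R553.SP (tl hd)

section tour
variable {V : Type} [Fintype V] [DecidableEq V] {G : SimpleGraph V} [DecidableRel G.Adj]
  {a b : G.edgeSet → V}

theorem vt_get {L : List (G.edgeSet × Bool)} (d0 : G.edgeSet × Bool) (q : ℕ)
    (hq : q < L.length) : vt a b d0 L q = tl a b L[q] := by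
  unfold vt
  rw [Nat.mod_eq_of_lt hq, List.getD_eq_getElem _ _ hq]

theorem uniq {A B : List (G.edgeSet × Bool)} {z : G.edgeSet × Bool} (d0 : G.edgeSet × Bool)
    (h1 : ((A ++ z :: B).map (tl a b)).count (tl a b z) < 2) (q : ℕ)
    (hq : q < (A ++ z :: B).length) (hv : vt a b d0 (A ++ z :: B) q = tl a b z) :
    q = A.length := by
  rw [vt_get d0 q hq] at hv
  rw [List.map_append, List.map_cons, List.count_append, List.count_cons_self] at h1
  have hA : tl a b z ∉ A.map (tl a b) := by
    intro h
    have := List.count_pos_iff.2 h
    omega
  have hB : tl a b z ∉ B.map (tl a b) := by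
    intro h
    have := List.count_pos_iff.2 h
    omega
  by_contra hne
  rcases Nat.lt_or_gt_of_ne hne with h | h
  · rw [List.getElem_append_left h] at hv
    apply hA
    rw [← hv]
    exact List.mem_map.2 ⟨_, List.getElem_mem h, rfl⟩
  · rw [List.getElem_append_right (by omega)] at hv
    apply hB
    rw [← hv]
    obtain ⟨r, hr⟩ : ∃ r, q - A.length = r + 1 := ⟨q - A.length - 1, by omega⟩
    simp only [hr, List.getElem_cons_succ]
    exact List.mem_map.2 ⟨_, List.getElem_mem _, rfl⟩

theorem one_once {z : G.edgeSet × Bool} {B : List (G.edgeSet × Bool)} (h : CT a b (z :: B))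
    (hm : (z :: B).length % 3 = 1) (h1 : ((z :: B).map (tl a b)).count (tl a b z) < 2) :
    Col G := by
  have T := h.tour z
  have v0 : vt a b z (z :: B) 0 = tl a b z := vt_pos a b z [] B z
  apply T.one hm
  intro p hp hv
  rw [v0] at hv
  by_contra hcon
  have h2 : p + 1 < (z :: B).length := by omega
  have := uniq (A := []) z h1 (p + 1) h2 hv
  simp at this

theorem two_once {z z' : G.edgeSet × Bool} {A B : List (G.edgeSet × Bool)}
    (h : CT a b (z :: A ++ z' :: B)) (hA : A ≠ []) (hB : B ≠ [])
    (hm : (z :: A ++ z' :: B).length % 3 = 2)
    (h1 : ((z :: A ++ z' :: B).map (tl a b)).count (tl a b z) < 2)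
    (h2 : ((z :: A ++ z' :: B).map (tl a b)).count (tl a b z') < 2) : Col G := by
  have T := h.tour z
  have v0 : vt a b z (z :: A ++ z' :: B) 0 = tl a b z := vt_pos a b z [] (A ++ z' :: B) z
  have vr : vt a b z (z :: A ++ z' :: B) (A.length + 1) = tl a b z' :=
    vt_pos a b z (z :: A) B z'
  have lA := List.length_pos_iff.2 hA
  have lB := List.length_pos_iff.2 hB
  have hlen : (z :: A ++ z' :: B).length = A.length + B.length + 2 := by
    simp; omega
  apply T.two hm (A.length + 1) (by omega) (by omega)
  · intro p hp hv
    rw [v0] at hv
    by_contra hcon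
    have h3 : p + 1 < (z :: A ++ z' :: B).length := by omega
    have := uniq (A := []) (B := A ++ z' :: B) z h1 (p + 1) h3 hv
    simp at this
  · intro p hp hv
    rw [vr] at hv
    by_cases h3 : p + 1 < (z :: A ++ z' :: B).length
    · have := uniq (A := z :: A) (B := B) z h2 (p + 1) h3 hv
      simp only [List.length_cons] at this
      omega
    · exfalso
      have h4 : p + 1 = 0 + (z :: A ++ z' :: B).length := by omega
      rw [h4, T.per, v0] at hv
      have h5 := uniq (A := []) (B := A ++ z' :: B) z h1 (A.length + 1) (by
        show A.length + 1 < (z :: A ++ z' :: B).length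
        omega) (by rw [hv]; exact vr)
      simp at h5

theorem arc_rot {P D Q O : List (G.edgeSet × Bool)} {x y : G.edgeSet × Bool}
    (h : CT a b ((P ++ (x :: D ++ y :: Q)) ++ O)) (hxy : tl a b y = tl a b x)
    (hnd : ((x :: D).map (tl a b)).Nodup)
    (hc : ∀ z ∈ D, 2 ≤ (((P ++ (x :: D ++ y :: Q)) ++ O).map (tl a b)).count (tl a b z)) :
    CT a b (x :: D ++ y :: (Q ++ O ++ P)) ∧ ∀ z ∈ D, tl a b z ∈ (Q ++ O ++ P).map (tl a b) := by
  constructor
  · rw [List.append_assoc] at h
    have h1 := h.rot
    simpa [List.append_assoc] using h1
  · intro z hz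
    have h1 := hc z hz
    rw [← List.count_pos_iff]
    have h2 : ((x :: D).map (tl a b)).count (tl a b z) = 1 :=
      List.count_eq_one_of_mem hnd (List.mem_map.2 ⟨z, List.mem_cons_of_mem _ hz, rfl⟩)
    have h3 : tl a b x ≠ tl a b z := by
      intro h3
      rw [List.map_cons, List.nodup_cons] at hnd
      exact hnd.1 (List.mem_map.2 ⟨z, hz, h3.symm⟩)
    have h4 : tl a b y ≠ tl a b z := by rw [hxy]; exact h3
    simp only [List.map_append, List.count_append] at h1 ⊢
    rw [List.map_cons (f := tl a b) (a := y), List.count_cons_of_ne h4] at h1
    omega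

/-- an arc all of whose inner vertices are visited again, `m ≡ 2` -/
theorem fin2 {x y : G.edgeSet × Bool} {D R : List (G.edgeSet × Bool)}
    (h : CT a b (x :: D ++ y :: R)) (hxy : tl a b y = tl a b x)
    (hnd : ((x :: D).map (tl a b)).Nodup) (hD : ∀ z ∈ D, tl a b z ∈ R.map (tl a b))
    (hm : (x :: D ++ y :: R).length % 3 = 2) : Col G := by
  have h2 := arc_len h hxy
  rcases Nat.lt_or_ge D.length 3 with h3 | h3
  · obtain ⟨z1, D, rfl⟩ := List.exists_cons_of_length_pos (show 0 < D.length by omega)
    obtain ⟨z2, D, rfl⟩ := List.exists_cons_of_length_pos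
      (show 0 < D.length by simp at h2; omega)
    have h4 : D = [] := by
      rw [← List.length_eq_zero_iff]
      simp only [List.length_cons] at h3
      omega
    subst h4
    exact arc_Y h hxy (hD z1 (by simp)) hm
  · exact arc_X h hxy hnd hD h3 (by omega)

theorem fin2' {L O : List (G.edgeSet × Bool)} (h : CT a b (L ++ O)) (hne : L ≠ [])
    (hc : ∀ z ∈ L, 2 ≤ ((L ++ O).map (tl a b)).count (tl a b z))
    (hO : ∀ z ∈ L, tl a b z ∉ O.map (tl a b))
    (hm : (L ++ O).length % 3 = 2) : Col G := by
  have h1 : ¬ (L.map (tl a b)).Nodup := by
    intro h1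
    obtain ⟨z, hz⟩ := List.exists_mem_of_ne_nil L hne
    have h2 := hc z hz
    rw [List.map_append, List.count_append, List.count_eq_zero_of_not_mem (hO z hz)] at h2
    have h3 := List.nodup_iff_count_le_one.1 h1 (tl a b z)
    omega
  obtain ⟨P, x, D, y, Q, rfl, h2, h3⟩ := innermost (tl a b) L h1
  obtain ⟨h4, h5⟩ := arc_rot h h2 h3 (fun z hz => hc z (by simp [hz]))
  apply fin2 h4 h2 h3 h5
  simp only [List.length_append, List.length_cons] at hm ⊢
  omega

theorem pair {z z' : G.edgeSet × Bool} {B : List (G.edgeSet × Bool)}
    (h : CT a b (z :: z' :: B)) (hm : (z :: z' :: B).length % 3 = 2)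
    (h1 : ((z :: z' :: B).map (tl a b)).count (tl a b z) < 2)
    (h2 : ((z :: z' :: B).map (tl a b)).count (tl a b z') < 2) : Col G := by
  by_cases hB : B = []
  · exfalso
    subst hB
    have T := h.tour z
    have h3 := T.per 0
    have h4 := T.inj 0 (by simp) 1 (by simp) (by
      have h5 : vt a b z [z, z'] (1 + 1) = vt a b z [z, z'] 0 := h3
      rw [h5]
      exact Sym2.eq_swap)
    omega
  · by_cases hall : ∀ w ∈ B, 2 ≤ ((z :: z' :: B).map (tl a b)).count (tl a b w)
    · have h3 : CT a b (B ++ [z, z']) := CT.rot (A := [z, z']) (B := B) h
      have hp : (B ++ [z, z']).Perm (z :: z' :: B) :=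
        List.perm_append_comm (l₁ := B) (l₂ := [z, z'])
      apply fin2' h3 hB
      · intro w hw
        rw [(hp.map (tl a b)).count_eq]
        exact hall w hw
      · intro w hw hcon
        have h4 := hall w hw
        simp only [List.map_cons, List.map_nil, List.mem_cons, List.not_mem_nil, or_false] at hcon
        rcases hcon with hcon | hcon
        · rw [hcon] at h4; omega
        · rw [hcon] at h4; omega
      · rw [hp.length_eq]; exact hm
    · push Not at hall
      obtain ⟨z2, hz2, hz2c⟩ := hall
      obtain ⟨B1, B2, rfl⟩ := List.append_of_mem hz2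
      by_cases hB2 : B2 = []
      · subst hB2
        by_cases hB1 : B1 = []
        · subst hB1
          simp at hm
        · have h3 : CT a b (z' :: B1 ++ z2 :: [z]) := by
            have := CT.rot (A := [z]) (B := z' :: (B1 ++ [z2])) h
            simpa [List.append_assoc] using this
          have hp : (z' :: B1 ++ z2 :: [z]).Perm (z :: z' :: (B1 ++ [z2])) := by
            have : (z' :: B1 ++ z2 :: [z]) = (z' :: (B1 ++ [z2])) ++ [z] := by simp
            rw [this]
            exact List.perm_append_comm (l₂ := [z])
          apply two_once h3 hB1 (by simp)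
          · rw [hp.length_eq]; exact hm
          · rw [(hp.map (tl a b)).count_eq]; exact h2
          · rw [(hp.map (tl a b)).count_eq]; exact hz2c
      · exact two_once (A := z' :: B1) h (by simp) hB2 hm h1 hz2c

theorem CT.col {L : List (G.edgeSet × Bool)} (h : CT a b L) : Col G := by
  have hcase : L.length % 3 = 0 ∨ L.length % 3 = 1 ∨ L.length % 3 = 2 := by omega
  obtain ⟨d0, L0, hL0⟩ := List.exists_cons_of_ne_nil h.ne
  rcases hcase with hm | hm | hm
  · exact (h.tour d0).zero hm
  · by_cases hall : ∀ z ∈ L, 2 ≤ (L.map (tl a b)).count (tl a b z)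
    · have hnn : ¬ (L.map (tl a b)).Nodup := by
        intro h1
        have h2 := hall d0 (by rw [hL0]; simp)
        have h3 := List.nodup_iff_count_le_one.1 h1 (tl a b d0)
        omega
      clear hL0
      obtain ⟨P, x, D, y, Q, rfl, h2, h3⟩ := innermost (tl a b) L hnn
      have h0 : CT a b ((P ++ (x :: D ++ y :: Q)) ++ []) := by
        rw [List.append_nil]; exact h
      obtain ⟨h4, h5⟩ := arc_rot h0 h2 h3 (fun z hz => by
        rw [List.append_nil]; exact hall z (by simp [hz]))
      rw [List.append_nil] at h4 h5
      set R := Q ++ P with hR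
      have hperm : (x :: D ++ y :: R).Perm (P ++ (x :: D ++ y :: Q)) := by
        have : x :: D ++ y :: R = (x :: D ++ y :: Q) ++ P := by rw [hR]; simp
        rw [this]
        exact List.perm_append_comm
      have hm1 : (x :: D ++ y :: R).length % 3 = 1 := by rw [hperm.length_eq]; exact hm
      have hc1 : ∀ z ∈ (x :: D ++ y :: R),
          2 ≤ ((x :: D ++ y :: R).map (tl a b)).count (tl a b z) := by
        intro z hz
        rw [(hperm.map (tl a b)).count_eq]
        exact hall z (hperm.mem_iff.1 hz)
      have h6 := arc_len h4 h2
      rcases Nat.lt_or_ge D.length 3 with h7 | h7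
      · obtain ⟨z1, D, rfl⟩ := List.exists_cons_of_length_pos (show 0 < D.length by omega)
        obtain ⟨z2, D, rfl⟩ := List.exists_cons_of_length_pos
          (show 0 < D.length by simp at h6; omega)
        have h8 : D = [] := by
          rw [← List.length_eq_zero_iff]
          simp only [List.length_cons] at h7
          omega
        subst h8
        clear_value R
        clear hperm hm hall hnn h h0 hR P Q
        have h9 : CT a b ((y :: R) ++ [x, z1, z2]) := CT.rot (A := [x, z1, z2]) (B := y :: R) h4
        by_cases hn : ((y :: R).map (tl a b)).Nodup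
        · have h10 : CT a b (y :: R ++ x :: [z1, z2]) := h9
          have h11 := arc_len h10 h2.symm
          have hp2 : (y :: R ++ x :: [z1, z2]).Perm (x :: [z1, z2] ++ y :: R) :=
            List.perm_append_comm (l₁ := y :: R) (l₂ := [x, z1, z2])
          have hl2 : (y :: R ++ x :: [z1, z2]).length % 3 = 1 := by
            rw [hp2.length_eq]; exact hm1
          apply arc_X h10 h2.symm hn
          · intro z hz
            have h12 := hc1 z (by simp [hz])
            have h13 : ((y :: R).map (tl a b)).count (tl a b z) = 1 :=
              List.count_eq_one_of_mem hn (List.mem_map.2 ⟨z, List.mem_cons_of_mem _ hz, rfl⟩)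
            have h14 : tl a b x ≠ tl a b z := by
              rw [← h2]
              intro h14
              rw [List.map_cons, List.nodup_cons] at hn
              exact hn.1 (List.mem_map.2 ⟨z, hz, h14.symm⟩)
            rw [← List.count_pos_iff]
            rw [List.map_append, List.count_append, h13] at h12
            rw [List.map_cons, List.count_cons_of_ne h14] at h12
            omega
          · simp only [List.length_append, List.length_cons, List.length_nil] at hl2
            omega
          · omega
        · obtain ⟨P, x', D', y', Q, hd, h12, h13⟩ := innermost (tl a b) (y :: R) hn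
          rw [hd] at h9
          obtain ⟨h14, h15⟩ := arc_rot h9 h12 h13 (fun z hz => by
            rw [← hd]
            have hp3 : ((y :: R) ++ [x, z1, z2]).Perm (x :: [z1, z2] ++ y :: R) :=
              List.perm_append_comm (l₁ := y :: R) (l₂ := [x, z1, z2])
            rw [(hp3.map (tl a b)).count_eq]
            apply hc1
            have : z ∈ y :: R := by rw [hd]; simp [hz]
            exact List.mem_append.2 (Or.inr this))
          have h16 := arc_len h14 h12
          have hl3 : (x' :: D' ++ y' :: (Q ++ [x, z1, z2] ++ P)).length % 3 = 1 := by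
            have e1 : (y :: R).length = (P ++ (x' :: D' ++ y' :: Q)).length := by rw [hd]
            simp only [List.length_append, List.length_cons, List.length_nil] at e1 hm1 ⊢
            omega
          rcases Nat.lt_or_ge D'.length 3 with h17 | h17
          · obtain ⟨w1, D', rfl⟩ := List.exists_cons_of_length_pos
              (show 0 < D'.length by omega)
            obtain ⟨w2, D', rfl⟩ := List.exists_cons_of_length_pos
              (show 0 < D'.length by simp at h16; omega)
            have h18 : D' = [] := by
              rw [← List.length_eq_zero_iff]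
              simp only [List.length_cons] at h17
              omega
            subst h18
            have T := h4.tour x
            set L1 := x :: [z1, z2] ++ y :: R with hL1
            have v0 : vt a b x L1 0 = tl a b x := vt_pos a b x [] ([z1, z2] ++ y :: R) x
            have v3 : vt a b x L1 3 = tl a b y := vt_pos a b x [x, z1, z2] R y
            have hL1' : L1 = (x :: z1 :: z2 :: P) ++ x' :: ([w1, w2] ++ y' :: Q) := by
              rw [hL1, hd]; simp
            have hL1'' : L1 = (x :: z1 :: z2 :: (P ++ [x', w1, w2])) ++ y' :: Q := by
              rw [hL1, hd]; simp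
            have vp : vt a b x L1 (P.length + 3) = tl a b x' := by
              have := vt_pos a b x (x :: z1 :: z2 :: P) ([w1, w2] ++ y' :: Q) x'
              rw [← hL1'] at this
              exact this
            have vq : vt a b x L1 (P.length + 3 + 3) = tl a b y' := by
              have := vt_pos a b x (x :: z1 :: z2 :: (P ++ [x', w1, w2])) Q y'
              rw [← hL1''] at this
              have e2 : (x :: z1 :: z2 :: (P ++ [x', w1, w2])).length = P.length + 3 + 3 := by
                simp
              rw [e2] at this
              exact this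
            apply T.disj hm1 (P.length + 3) (by omega)
            · have e3 : L1.length = P.length + Q.length + 7 := by
                rw [hL1'']; simp; omega
              omega
            · rw [v3, v0, h2]
            · rw [vp, vq, h12]
          · exact arc_X h14 h12 h13 h15 h17 (by omega)
      · exact arc_X h4 h2 h3 h5 h7 (by omega)
    · push Not at hall
      obtain ⟨z, hz, hzc⟩ := hall
      obtain ⟨A, B, rfl⟩ := List.append_of_mem hz
      have h1 : CT a b (z :: B ++ A) := h.rot
      have hp : (z :: B ++ A).Perm (A ++ z :: B) := List.perm_append_comm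
      apply one_once (B := B ++ A) h1
      · show (z :: B ++ A).length % 3 = 1
        rw [hp.length_eq]; exact hm
      · show ((z :: B ++ A).map (tl a b)).count (tl a b z) < 2
        rw [(hp.map (tl a b)).count_eq]; exact hzc
  · by_cases hall : ∀ z ∈ L, 2 ≤ (L.map (tl a b)).count (tl a b z)
    · apply fin2' (L := L) (O := []) (by rw [List.append_nil]; exact h) h.ne
      · intro z hz
        rw [List.append_nil]
        exact hall z hz
      · intro z _
        simp
      · rw [List.append_nil]; exact hm
    · push Not at hall
      obtain ⟨z, hz, hzc⟩ := hall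
      clear hL0
      obtain ⟨A, B, rfl⟩ := List.append_of_mem hz
      have h1 : CT a b (z :: B ++ A) := h.rot
      have hp : (z :: B ++ A).Perm (A ++ z :: B) := List.perm_append_comm
      have hm1 : (z :: B ++ A).length % 3 = 2 := by rw [hp.length_eq]; exact hm
      have hc1 : ((z :: B ++ A).map (tl a b)).count (tl a b z) < 2 := by
        rw [(hp.map (tl a b)).count_eq]; exact hzc
      rw [List.cons_append] at h1 hm1 hc1
      generalize B ++ A = L' at h1 hm1 hc1
      clear h hm hz hzc hp A B
      by_cases hne : L' = []
      · subst hne
        simp at hm1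
      by_cases hall : ∀ w ∈ L', 2 ≤ ((z :: L').map (tl a b)).count (tl a b w)
      · have h3 : CT a b (L' ++ [z]) := CT.rot (A := [z]) (B := L') h1
        have hp : (L' ++ [z]).Perm (z :: L') := List.perm_append_comm (l₁ := L') (l₂ := [z])
        apply fin2' h3 hne
        · intro w hw
          rw [(hp.map (tl a b)).count_eq]
          exact hall w hw
        · intro w hw hcon
          have h4 := hall w hw
          simp only [List.map_cons, List.map_nil, List.mem_cons, List.not_mem_nil,
            or_false] at hcon
          rw [hcon] at h4
          omega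
        · rw [hp.length_eq]; exact hm1
      · push Not at hall
        obtain ⟨z', hz', hzc'⟩ := hall
        obtain ⟨A, B, rfl⟩ := List.append_of_mem hz'
        by_cases hA : A = []
        · subst hA
          exact pair h1 hm1 hc1 hzc'
        · by_cases hB : B = []
          · subst hB
            have h3 : CT a b (z' :: z :: A) := by
              have := CT.rot (A := z :: A) (B := [z']) h1
              simpa using this
            have hp : (z' :: z :: A).Perm (z :: (A ++ [z'])) := by
              have := List.perm_append_comm (l₁ := [z']) (l₂ := z :: A)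
              simpa using this
            apply pair h3
            · rw [hp.length_eq]; exact hm1
            · rw [(hp.map (tl a b)).count_eq]; exact hzc'
            · rw [(hp.map (tl a b)).count_eq]; exact hc1
          · exact two_once h1 hA hB hm1 hc1 hzc'

end tour

end Pool.Agent.R1.Maj
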