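import Pool.Agent.R1.MajH

/-!
# Strong majority edge-colourings of Eulerian graphs

Helper file for `MP_dcf3dc_co`. The existence of Euler tours is
`Pool.Agent.R553.SP.euler` (helper553).
-/

set_option autoImplicit false
set_option linter.unusedSectionVars false

namespace Pool.Agent.R1.Maj

open Finset
open Pool.Agent.R553.SP (tl hd CC Share)

theorem seg_of_chain {E Q : Type} (a b : E → Q) (d : E × Bool) (l : List (E × Bool))
    (h : (d :: l).IsChain (fun x y => hd a b x = tl a b y)) :
    Seg a b (tl a b d) (d :: l) (hd a b ((d :: l).getLast (by simp))) := by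
  induction l generalizing d with
  | nil => exact ⟨rfl, rfl⟩
  | cons e l ih =>
    rw [List.isChain_cons_cons] at h
    refine ⟨rfl, ?_⟩
    rw [h.1]
    have h1 := ih e h.2
    rw [List.getLast_cons (by simp : e :: l ≠ [])]
    exact h1

theorem main {V : Type} [Fintype V] [DecidableEq V] (G : SimpleGraph V) [DecidableRel G.Adj]
    (hconn : G.Connected) (hne : G.edgeSet.Nonempty) (hev : ∀ v, Even (G.degree v)) :
    ∃ col : Sym2 V → Fin 3, IsStrongMajority G col := by
  classical
  set a : G.edgeSet → V := fun e => (Quot.out (e : Sym2 V)).1 with ha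
  set b : G.edgeSet → V := fun e => (Quot.out (e : Sym2 V)).2 with hb
  have hab : ∀ e : G.edgeSet, s(a e, b e) = (e : Sym2 V) := by
    intro e
    exact Quot.out_eq (e : Sym2 V)
  have hadj : ∀ e : G.edgeSet, G.Adj (a e) (b e) := by
    intro e
    have h := e.2
    rw [← hab e] at h
    exact h
  have : Nonempty G.edgeSet := hne.to_subtype
  have hdeg : ∀ q, (univ.filter fun e => a e = q).card + (univ.filter fun e => b e = q).card =
      G.degree q := by
    intro q
    rw [← Finset.card_union_of_disjoint]
    · rw [← SimpleGraph.card_incidenceFinset_eq_degree]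
      have h1 : G.incidenceFinset q =
          ((univ.filter fun e => a e = q) ∪ (univ.filter fun e => b e = q)).map
            (Function.Embedding.subtype _) := by
        ext e
        rw [SimpleGraph.mem_incidenceFinset, Finset.mem_map]
        constructor
        · rintro ⟨h1, h2⟩
          refine ⟨⟨e, h1⟩, ?_, rfl⟩
          rw [Finset.mem_union, Finset.mem_filter, Finset.mem_filter]
          have h3 := hab ⟨e, h1⟩
          rw [← show ((⟨e, h1⟩ : G.edgeSet) : Sym2 V) = e from rfl, ← h3, Sym2.mem_iff] at h2
          rcases h2 with h2 | h2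
          · left; exact ⟨Finset.mem_univ _, h2.symm⟩
          · right; exact ⟨Finset.mem_univ _, h2.symm⟩
        · rintro ⟨⟨e', he'⟩, h1, rfl⟩
          refine ⟨he', ?_⟩
          rw [Finset.mem_union, Finset.mem_filter, Finset.mem_filter] at h1
          have h3 := hab ⟨e', he'⟩
          show q ∈ e'
          rw [← show ((⟨e', he'⟩ : G.edgeSet) : Sym2 V) = e' from rfl, ← h3, Sym2.mem_iff]
          rcases h1 with ⟨_, h1⟩ | ⟨_, h1⟩
          · left; exact h1.symm
          · right; exact h1.symm
      rw [h1, Finset.card_map]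
    · rw [Finset.disjoint_filter]
      intro e _ h1 h2
      exact (hadj e).ne (h1.trans h2.symm)
  have hev' : ∀ q, Even ((univ.filter fun e => a e = q).card +
      (univ.filter fun e => b e = q).card) := by
    intro q
    rw [hdeg q]
    exact hev q
  have hconn' : ∀ S : Set G.edgeSet, S.Nonempty → Sᶜ.Nonempty →
      ∃ e ∈ S, ∃ f ∉ S, Share a b e f := by
    rintro S ⟨e0, he0⟩ ⟨f0, hf0⟩
    by_contra hcon
    push Not at hcon
    -- vertices touched by S
    have hclosed : ∀ x y : V, G.Adj x y → (∃ e ∈ S, a e = x ∨ b e = x) →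
        (∃ e ∈ S, a e = y ∨ b e = y) := by
      rintro x y hxy ⟨e, he, hex⟩
      set f : G.edgeSet := ⟨s(x, y), hxy⟩ with hf
      have hfxy : (a f = x ∧ b f = y) ∨ (a f = y ∧ b f = x) := by
        have := hab f
        rw [hf] at this
        rw [← Sym2.eq_iff]
        exact this
      have hfS : f ∈ S := by
        by_contra hfS
        apply hcon e he f hfS
        unfold Share
        rcases hex with hex | hex <;> rcases hfxy with ⟨h1, h2⟩ | ⟨h1, h2⟩
        · left; rw [hex, h1]
        · right; left; rw [hex, h2]
        · right; right; left; rw [hex, h1]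
        · right; right; right; rw [hex, h2]
      refine ⟨f, hfS, ?_⟩
      rcases hfxy with ⟨h1, h2⟩ | ⟨h1, h2⟩
      · right; exact h2
      · left; exact h1
    have hreach : ∀ x y : V, G.Reachable x y → (∃ e ∈ S, a e = x ∨ b e = x) →
        (∃ e ∈ S, a e = y ∨ b e = y) := by
      rintro x y ⟨w⟩
      induction w with
      | nil => exact id
      | cons h _ ih => exact fun hx => ih (hclosed _ _ h hx)
    obtain ⟨e, he, hex⟩ := hreach (a e0) (a f0) (hconn.preconnected _ _) ⟨e0, he0, Or.inl rfl⟩
    apply hcon e he f0 hf0
    unfold Share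
    rcases hex with hex | hex
    · left; exact hex
    · right; right; left; exact hex
  obtain ⟨l, hlne, hnd, hall, hcc⟩ := Pool.Agent.R553.SP.euler a b hev' hconn'
  obtain ⟨d, l', rfl⟩ := List.exists_cons_of_ne_nil hlne
  have hseg := seg_of_chain a b d l' hcc.1
  have hlast : hd a b ((d :: l').getLast (by simp)) = tl a b d := by
    apply hcc.2
    · rw [List.getLast?_eq_getLast_of_ne_nil (by simp)]
      exact rfl
    · rfl
  rw [hlast] at hseg
  have hCT : CT a b (d :: l') := ⟨hab, hlne, ⟨_, hseg⟩, hnd, hall⟩
  exact hCT.col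

end Pool.Agent.R1.Maj
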