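import Pool.Agent.R1.MajE

/-!
# The table of rearrangements

Helper file for `MP_dcf3dc_co`. The tables were found by a computer search; the kernel checks them.
-/

set_option autoImplicit false

namespace Pool.Agent.R1.Maj

/-- the marked tour `0 1 2 3 ... 0 ... x ... y ... z ...` -/
def baseX (x y z r3 r4 r5 r6 r7 : ℕ) : List (ℕ × ℕ × ℕ) :=
  [(0, 1, 1), (1, 2, 1), (2, 3, 1), (3, 0, r3), (0, x, r4), (x, y, r5), (y, z, r6), (z, 0, r7)]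

/-- all residues -/
def allX (x y z : ℕ) (W : List (List ℕ × ℕ × ℕ × ℕ × ℕ)) : Bool :=
  (List.range 3).all fun r3 => (List.range 3).all fun r4 => (List.range 3).all fun r5 =>
    (List.range 3).all fun r6 => (List.range 3).all fun r7 =>
      decide ((r3 + r4 + r5 + r6 + r7) % 3 = 0) || tst (baseX x y z r3 r4 r5 r6 r7) W

/-- the marked tour `0 1 ... 0 ... 1 ...` -/
def baseY (r2 r3 : ℕ) : List (ℕ × ℕ × ℕ) := [(0, 1, 1), (1, 0, 2), (0, 1, r2), (1, 0, r3)]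

/-- all residues -/
def allY (W : List (List ℕ × ℕ × ℕ × ℕ × ℕ)) : Bool :=
  (List.range 3).all fun r2 => (List.range 3).all fun r3 =>
    decide ((r2 + r3) % 3 ≠ 2) || tst (baseY r2 r3) W

/-- witnesses -/
def WY : List (List ℕ × ℕ × ℕ × ℕ × ℕ) :=
  [([1, 3, 5, 7], 0, 1, 2, 3), ([2, 0, 5, 7], 1, 2, 2, 1), ([2, 0, 6, 4], 1, 2, 2, 1)]

theorem okY : okW 4 WY = true := by decide +kernel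

theorem allY_eq : allY WY = true := by decide +kernel

/-- witnesses -/
def W123 : List (List ℕ × ℕ × ℕ × ℕ × ℕ) :=
  [([1, 3, 5, 7, 9, 11, 13, 15], 0, 1, 4, 5),
   ([1, 3, 5, 7, 9, 11, 13, 15], 0, 2, 4, 6),
   ([1, 3, 5, 7, 9, 11, 13, 15], 0, 7, 4, 3),
   ([1, 3, 5, 7, 9, 11, 13, 15], 1, 6, 4, 3),
   ([1, 3, 5, 7, 14, 12, 10, 8], 0, 2, 4, 6),
   ([1, 3, 5, 7, 14, 12, 10, 8], 1, 4, 4, 3),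
   ([1, 3, 5, 12, 10, 8, 6, 15], 0, 1, 6, 5),
   ([1, 3, 5, 12, 10, 8, 14, 7], 1, 6, 6, 3),
   ([1, 11, 13, 15, 6, 4, 2, 8], 0, 1, 4, 7),
   ([6, 4, 2, 0, 14, 12, 10, 8], 1, 6, 4, 3),
   ([6, 15, 9, 3, 5, 12, 10, 0], 0, 7, 2, 3),
   ([1, 3, 10, 8, 6, 4, 13, 15], 1, 5, 4, 2),
   ([1, 3, 13, 15, 6, 4, 10, 8], 1, 5, 4, 2),
   ([1, 3, 10, 8, 14, 12, 5, 7], 0, 2, 4, 6),
   ([6, 12, 10, 8, 14, 4, 2, 0], 1, 4, 4, 1),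
   ([2, 0, 6, 12, 10, 8, 14, 4], 1, 6, 4, 3),
   ([1, 3, 5, 15, 9, 11, 13, 7], 1, 5, 4, 2),
   ([0, 14, 12, 2, 8, 6, 4, 10], 1, 5, 4, 2),
   ([1, 3, 5, 7, 14, 12, 10, 8], 1, 2, 4, 5),
   ([1, 11, 2, 8, 6, 12, 5, 15], 0, 6, 4, 2),
   ([0, 14, 4, 13, 7, 9, 3, 10], 0, 4, 6, 2),
   ([1, 3, 5, 7, 9, 11, 13, 15], 1, 2, 4, 7),
   ([1, 3, 5, 15, 6, 12, 10, 8], 0, 2, 4, 6),
   ([1, 3, 13, 7, 9, 11, 5, 15], 1, 5, 4, 2),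
   ([6, 12, 2, 8, 14, 4, 10, 0], 1, 6, 4, 3),
   ([0, 6, 12, 5, 15, 9, 11, 2], 1, 6, 6, 3),
   ([0, 14, 4, 10, 8, 6, 12, 2], 1, 5, 4, 2),
   ([1, 3, 5, 12, 10, 8, 6, 15], 0, 4, 6, 2),
   ([1, 3, 5, 15, 6, 12, 10, 8], 1, 5, 4, 2)]

theorem okW123 : okW 8 W123 = true := by decide +kernel

theorem allW123 : allX 1 2 3 W123 = true := by decide +kernel

/-- witnesses -/
def W132 : List (List ℕ × ℕ × ℕ × ℕ × ℕ) :=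
  [([1, 3, 5, 7, 9, 11, 13, 15], 0, 1, 4, 5),
   ([1, 3, 5, 7, 9, 11, 13, 15], 0, 2, 4, 7),
   ([1, 3, 5, 7, 9, 11, 13, 15], 0, 6, 4, 3),
   ([1, 3, 5, 7, 9, 11, 13, 15], 1, 5, 4, 3),
   ([1, 3, 5, 7, 14, 12, 10, 8], 0, 2, 4, 5),
   ([1, 3, 5, 7, 14, 12, 10, 8], 1, 5, 4, 3),
   ([1, 3, 5, 10, 8, 6, 13, 15], 0, 1, 5, 4),
   ([1, 3, 5, 10, 8, 14, 12, 7], 1, 6, 5, 3),
   ([1, 11, 13, 15, 6, 4, 2, 8], 0, 1, 4, 7),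
   ([6, 4, 2, 0, 14, 12, 10, 8], 1, 6, 4, 3),
   ([6, 13, 15, 9, 3, 5, 10, 0], 0, 7, 3, 4),
   ([1, 3, 12, 10, 8, 6, 4, 15], 1, 6, 5, 2),
   ([1, 3, 15, 6, 4, 12, 10, 8], 1, 4, 3, 2),
   ([1, 3, 12, 10, 8, 14, 5, 7], 0, 2, 5, 6),
   ([6, 10, 8, 14, 12, 4, 2, 0], 1, 4, 3, 1),
   ([2, 0, 6, 10, 8, 14, 12, 4], 1, 6, 6, 3),
   ([1, 3, 5, 13, 15, 6, 10, 8], 0, 4, 5, 2),
   ([8, 6, 4, 15, 1, 11, 13, 2], 1, 5, 5, 2),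
   ([1, 3, 5, 7, 9, 11, 13, 15], 1, 2, 4, 6),
   ([1, 3, 5, 7, 14, 12, 10, 8], 1, 2, 4, 6),
   ([1, 3, 5, 10, 8, 6, 13, 15], 0, 2, 5, 7),
   ([0, 14, 2, 11, 13, 5, 7, 9], 1, 4, 3, 2),
   ([1, 3, 12, 7, 9, 11, 4, 15], 1, 5, 4, 3),
   ([6, 13, 2, 8, 14, 5, 10, 0], 1, 6, 4, 3),
   ([0, 6, 13, 5, 10, 8, 14, 2], 1, 6, 5, 3),
   ([3, 15, 9, 11, 4, 12, 7, 1], 0, 6, 3, 4),
   ([1, 3, 5, 10, 8, 6, 13, 15], 1, 6, 5, 2),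
   ([1, 3, 5, 10, 8, 14, 12, 7], 1, 5, 5, 2),
   ([6, 4, 12, 10, 8, 1, 3, 15], 0, 3, 5, 1)]

theorem okW132 : okW 8 W132 = true := by decide +kernel

theorem allW132 : allX 1 3 2 W132 = true := by decide +kernel

/-- witnesses -/
def W213 : List (List ℕ × ℕ × ℕ × ℕ × ℕ) :=
  [([1, 3, 5, 7, 9, 11, 13, 15], 0, 1, 4, 6),
   ([1, 3, 5, 7, 9, 11, 13, 15], 0, 2, 4, 5),
   ([1, 3, 5, 7, 9, 11, 13, 15], 0, 7, 4, 3),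
   ([1, 3, 5, 7, 9, 11, 13, 15], 1, 6, 4, 3),
   ([1, 3, 5, 7, 14, 12, 10, 8], 0, 2, 4, 7),
   ([1, 3, 5, 7, 14, 12, 10, 8], 1, 4, 4, 3),
   ([1, 3, 5, 12, 10, 8, 6, 15], 0, 1, 6, 4),
   ([1, 3, 5, 12, 10, 8, 14, 7], 1, 6, 6, 3),
   ([1, 13, 15, 6, 4, 2, 10, 8], 0, 1, 3, 6),
   ([6, 4, 2, 0, 14, 12, 10, 8], 1, 5, 4, 3),
   ([6, 15, 9, 11, 3, 5, 12, 0], 0, 7, 2, 4),
   ([1, 3, 8, 6, 4, 11, 13, 15], 1, 4, 3, 2),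
   ([1, 3, 11, 13, 15, 6, 4, 8], 1, 6, 5, 2),
   ([1, 3, 8, 14, 12, 10, 5, 7], 0, 2, 3, 6),
   ([6, 12, 10, 8, 14, 4, 2, 0], 1, 4, 4, 1),
   ([2, 0, 6, 12, 10, 8, 14, 4], 1, 6, 5, 3),
   ([1, 3, 5, 15, 9, 11, 13, 7], 1, 4, 4, 2),
   ([0, 14, 4, 11, 13, 7, 9, 2], 1, 4, 4, 2),
   ([2, 13, 7, 9, 11, 0, 14, 4], 1, 6, 4, 2),
   ([1, 3, 11, 13, 7, 9, 5, 15], 0, 1, 5, 3),
   ([1, 3, 5, 7, 14, 12, 10, 8], 1, 2, 4, 5),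
   ([1, 3, 5, 12, 10, 8, 6, 15], 0, 5, 6, 2),
   ([1, 3, 8, 14, 4, 11, 13, 7], 1, 4, 3, 2),
   ([6, 4, 2, 10, 8, 14, 12, 0], 1, 6, 5, 3),
   ([6, 15, 9, 2, 10, 5, 12, 0], 0, 5, 2, 3),
   ([0, 6, 12, 10, 5, 15, 9, 2], 1, 6, 3, 4),
   ([1, 3, 5, 7, 9, 11, 13, 15], 1, 2, 4, 7),
   ([1, 3, 5, 15, 6, 12, 10, 8], 1, 6, 4, 2),
   ([1, 10, 2, 13, 15, 6, 4, 8], 1, 6, 5, 2),
   ([0, 6, 4, 8, 14, 12, 3, 11], 0, 2, 6, 5)]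

theorem okW213 : okW 8 W213 = true := by decide +kernel

theorem allW213 : allX 2 1 3 W213 = true := by decide +kernel

/-- witnesses -/
def W231 : List (List ℕ × ℕ × ℕ × ℕ × ℕ) :=
  [([1, 3, 5, 7, 9, 11, 13, 15], 0, 1, 4, 7),
   ([1, 3, 5, 7, 9, 11, 13, 15], 0, 2, 4, 5),
   ([1, 3, 5, 7, 9, 11, 13, 15], 0, 6, 4, 3),
   ([1, 3, 5, 7, 9, 11, 13, 15], 1, 5, 4, 3),
   ([1, 3, 5, 7, 14, 12, 10, 8], 0, 2, 4, 7),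
   ([1, 3, 5, 7, 14, 12, 10, 8], 1, 5, 4, 3),
   ([1, 3, 5, 10, 8, 14, 12, 7], 1, 6, 5, 3),
   ([1, 3, 5, 13, 15, 6, 10, 8], 0, 1, 5, 4),
   ([1, 12, 10, 8, 6, 4, 2, 15], 0, 1, 4, 7),
   ([6, 4, 2, 0, 9, 11, 13, 15], 1, 6, 4, 3),
   ([6, 10, 8, 14, 3, 5, 13, 0], 0, 7, 3, 4),
   ([1, 3, 8, 6, 4, 11, 13, 15], 1, 4, 3, 2),
   ([1, 3, 11, 13, 15, 6, 4, 8], 1, 6, 5, 2),
   ([1, 3, 8, 14, 12, 10, 5, 7], 0, 2, 3, 6),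
   ([6, 13, 15, 9, 11, 4, 2, 0], 1, 4, 3, 1),
   ([2, 0, 6, 10, 8, 14, 12, 4], 1, 6, 4, 3),
   ([1, 3, 5, 10, 8, 6, 13, 15], 0, 4, 5, 2),
   ([12, 4, 8, 1, 15, 6, 10, 2], 1, 5, 4, 1),
   ([1, 3, 5, 7, 9, 11, 13, 15], 1, 2, 4, 6),
   ([1, 3, 5, 7, 14, 12, 10, 8], 1, 2, 4, 6),
   ([1, 3, 5, 13, 15, 6, 10, 8], 0, 2, 5, 7),
   ([0, 9, 2, 12, 10, 5, 7, 14], 1, 4, 3, 2),
   ([1, 3, 11, 7, 9, 5, 13, 15], 1, 4, 4, 2),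
   ([6, 10, 2, 12, 4, 8, 14, 0], 1, 6, 6, 3),
   ([0, 6, 10, 5, 13, 15, 9, 2], 1, 6, 5, 3),
   ([3, 8, 14, 12, 4, 11, 7, 1], 0, 6, 3, 4),
   ([1, 3, 5, 13, 15, 6, 10, 8], 1, 6, 5, 2),
   ([1, 3, 5, 13, 15, 9, 11, 7], 1, 5, 5, 2),
   ([6, 4, 8, 14, 3, 11, 13, 0], 1, 5, 3, 1)]

theorem okW231 : okW 8 W231 = true := by decide +kernel

theorem allW231 : allX 2 3 1 W231 = true := by decide +kernel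

/-- witnesses -/
def W312 : List (List ℕ × ℕ × ℕ × ℕ × ℕ) :=
  [([1, 3, 5, 7, 9, 11, 13, 15], 0, 1, 4, 6),
   ([1, 3, 5, 7, 9, 11, 13, 15], 0, 2, 4, 7),
   ([1, 3, 5, 7, 9, 11, 13, 15], 0, 5, 4, 3),
   ([1, 3, 5, 7, 9, 11, 13, 15], 1, 4, 4, 3),
   ([1, 3, 5, 7, 14, 12, 10, 8], 0, 2, 4, 5),
   ([1, 3, 5, 7, 14, 12, 10, 8], 1, 6, 4, 3),
   ([1, 3, 5, 8, 14, 12, 10, 7], 1, 6, 4, 3),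
   ([1, 3, 5, 11, 13, 15, 6, 8], 0, 1, 6, 4),
   ([1, 10, 8, 6, 4, 2, 13, 15], 0, 1, 3, 6),
   ([6, 4, 2, 0, 9, 11, 13, 15], 1, 5, 4, 3),
   ([6, 8, 14, 12, 3, 5, 11, 0], 0, 7, 2, 4),
   ([1, 3, 12, 10, 8, 6, 4, 15], 1, 6, 5, 2),
   ([1, 3, 15, 6, 4, 12, 10, 8], 1, 4, 3, 2),
   ([1, 3, 12, 10, 8, 14, 5, 7], 0, 2, 5, 6),
   ([6, 11, 13, 15, 9, 4, 2, 0], 1, 4, 4, 1),
   ([2, 0, 6, 8, 14, 12, 10, 4], 1, 6, 5, 3),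
   ([1, 3, 5, 8, 14, 12, 10, 7], 1, 4, 4, 2),
   ([0, 9, 4, 12, 10, 7, 14, 2], 1, 4, 4, 2),
   ([2, 10, 7, 14, 12, 0, 9, 4], 1, 6, 4, 2),
   ([1, 3, 12, 10, 7, 9, 4, 15], 0, 1, 5, 3),
   ([1, 3, 5, 7, 9, 11, 13, 15], 1, 2, 4, 5),
   ([1, 3, 5, 11, 13, 15, 6, 8], 0, 5, 6, 2),
   ([1, 3, 15, 9, 4, 12, 10, 7], 1, 4, 3, 2),
   ([6, 4, 2, 10, 8, 14, 12, 0], 1, 6, 5, 3),
   ([6, 8, 14, 2, 13, 5, 11, 0], 0, 5, 2, 3),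
   ([0, 6, 11, 13, 5, 8, 14, 2], 1, 6, 3, 4),
   ([1, 3, 5, 7, 14, 12, 10, 8], 1, 2, 4, 7),
   ([1, 3, 5, 8, 6, 11, 13, 15], 1, 6, 4, 2),
   ([1, 10, 8, 6, 4, 2, 13, 15], 1, 6, 3, 5),
   ([0, 6, 4, 15, 9, 11, 3, 12], 0, 2, 6, 5)]

theorem okW312 : okW 8 W312 = true := by decide +kernel

theorem allW312 : allX 3 1 2 W312 = true := by decide +kernel

/-- witnesses -/
def W321 : List (List ℕ × ℕ × ℕ × ℕ × ℕ) :=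
  [([1, 3, 5, 7, 9, 11, 13, 15], 0, 1, 4, 7),
   ([1, 3, 5, 7, 9, 11, 13, 15], 0, 2, 4, 6),
   ([1, 3, 5, 7, 9, 11, 13, 15], 0, 5, 4, 3),
   ([1, 3, 5, 7, 9, 11, 13, 15], 1, 4, 4, 3),
   ([1, 3, 5, 7, 14, 12, 10, 8], 0, 2, 4, 6),
   ([1, 3, 5, 7, 14, 12, 10, 8], 1, 6, 4, 3),
   ([1, 3, 5, 8, 14, 12, 10, 7], 1, 6, 4, 3),
   ([1, 3, 5, 11, 13, 15, 6, 8], 0, 1, 6, 5),
   ([1, 12, 10, 8, 6, 4, 2, 15], 0, 1, 4, 7),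
   ([6, 4, 2, 0, 9, 11, 13, 15], 1, 6, 4, 3),
   ([6, 8, 14, 3, 5, 11, 13, 0], 0, 7, 2, 3),
   ([1, 3, 10, 8, 6, 4, 13, 15], 1, 5, 4, 2),
   ([1, 3, 13, 15, 6, 4, 10, 8], 1, 5, 4, 2),
   ([1, 3, 10, 8, 14, 12, 5, 7], 0, 2, 4, 6),
   ([6, 11, 13, 15, 9, 4, 2, 0], 1, 4, 4, 1),
   ([2, 0, 6, 8, 14, 12, 10, 4], 1, 6, 6, 3),
   ([1, 3, 5, 8, 14, 12, 10, 7], 1, 5, 4, 2),
   ([0, 9, 11, 2, 15, 6, 4, 13], 1, 5, 4, 2),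
   ([1, 3, 5, 7, 9, 11, 13, 15], 1, 2, 4, 5),
   ([1, 12, 2, 15, 6, 11, 5, 8], 0, 6, 4, 2),
   ([0, 9, 4, 10, 7, 14, 3, 13], 0, 4, 6, 2),
   ([1, 3, 5, 7, 14, 12, 10, 8], 1, 2, 4, 7),
   ([1, 3, 5, 8, 6, 11, 13, 15], 0, 2, 4, 6),
   ([1, 3, 10, 7, 9, 4, 13, 15], 1, 4, 4, 3),
   ([6, 11, 2, 12, 5, 8, 14, 0], 1, 6, 6, 3),
   ([0, 6, 11, 5, 8, 14, 12, 2], 1, 6, 6, 3),
   ([0, 9, 4, 13, 15, 6, 11, 2], 1, 5, 4, 2),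
   ([1, 3, 5, 8, 6, 11, 13, 15], 1, 5, 4, 2),
   ([1, 3, 5, 11, 13, 15, 6, 8], 0, 4, 6, 2)]

theorem okW321 : okW 8 W321 = true := by decide +kernel

theorem allW321 : allX 3 2 1 W321 = true := by decide +kernel

end Pool.Agent.R1.Maj
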