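import Mathlib

/-!
Three-edge paths in three-edge-coloured graphs: cliques on five vertices.
-/

set_option autoImplicit false

namespace Pool.Agent.R1.MonoPath

/-- no triple of `T` has all its three entries of `l` equal to `c` -/
def good (T : List (ℕ × ℕ × ℕ)) (l : List ℕ) (c : ℕ) : Bool :=
  T.all fun t => !(l[t.1]? == some c && l[t.2.1]? == some c && l[t.2.2]? == some c)

/-- backtracking: every extension of `l` violates one of the constraints -/
def search : List (List (ℕ × ℕ × ℕ)) → List ℕ → Bool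
  | [], _ => false
  | T :: C, l => [0, 1, 2].all fun c => !(good T (l ++ [c]) c) || search C (l ++ [c])

theorem search_sound (f : ℕ → ℕ) (hf : ∀ i, f i < 3) :
    ∀ (C : List (List (ℕ × ℕ × ℕ))) (l : List ℕ), (∀ i v, l[i]? = some v → f i = v) →
      search C l = true → ∃ t ∈ C.flatten, f t.1 = f t.2.1 ∧ f t.2.1 = f t.2.2 := by
  intro C
  induction C with
  | nil => intro l _ h; simp [search] at h
  | cons T C ih =>
    intro l hl h
    rw [search, List.all_eq_true] at h
    have hmem : f l.length ∈ [0, 1, 2] := by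
      have := hf l.length
      simp only [List.mem_cons, List.not_mem_nil, or_false]
      omega
    have h1 := h _ hmem
    set c := f l.length with hc
    have hl' : ∀ i v, (l ++ [c])[i]? = some v → f i = v := by
      intro i v hi
      rcases Nat.lt_trichotomy i l.length with hlt | heq | hgt
      · rw [List.getElem?_append_left hlt] at hi
        exact hl i v hi
      · subst heq
        rw [List.getElem?_append_right le_rfl] at hi
        simp only [Nat.sub_self, List.getElem?_cons_zero, Option.some.injEq] at hi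
        rw [← hi, hc]
      · rw [List.getElem?_append_right hgt.le] at hi
        have h0 : i - l.length ≠ 0 := by omega
        obtain ⟨n, hn⟩ := Nat.exists_eq_succ_of_ne_zero h0
        rw [hn] at hi
        simp at hi
    rw [Bool.or_eq_true] at h1
    rcases h1 with h1 | h1
    · rw [Bool.not_eq_true', good, List.all_eq_false] at h1
      obtain ⟨t, ht, h2⟩ := h1
      simp only [Bool.not_eq_true, Bool.not_eq_false', Bool.and_eq_true, beq_iff_eq] at h2
      refine ⟨t, ?_, ?_, ?_⟩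
      · rw [List.flatten_cons, List.mem_append]; exact Or.inl ht
      · rw [hl' _ _ h2.1.1, hl' _ _ h2.1.2]
      · rw [hl' _ _ h2.1.2, hl' _ _ h2.2]
    · obtain ⟨t, ht, h2⟩ := ih (l ++ [c]) hl' h1
      refine ⟨t, ?_, h2⟩
      rw [List.flatten_cons, List.mem_append]; exact Or.inr ht

/-- the constraints: entries `0`–`9` are the edges of the clique, entries `10`–`14` the edges which
leave it -/
def cons : List (List (ℕ × ℕ × ℕ)) :=
[
  [],
  [],
  [],
  [],
  [(4, 1, 2), (4, 1, 3), (4, 0, 2), (4, 0, 3)],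
  [(1, 4, 5), (2, 5, 4), (5, 2, 1), (5, 2, 3), (1, 0, 5), (5, 0, 3)],
  [(1, 4, 6), (2, 5, 6), (3, 6, 4), (3, 6, 5), (6, 3, 1), (6, 3, 2), (1, 0, 6), (2, 0, 6)],
    [(0, 4, 7), (0, 5, 7), (1, 7, 5), (2, 7, 4), (0, 1, 7), (0, 2, 7), (7, 2, 3), (7, 5, 6), (7,
   1, 3), (7, 4, 6)],
    [(0, 4, 8), (0, 6, 8), (1, 8, 6), (2, 7, 8), (3, 8, 4), (3, 8, 7), (0, 1, 8), (0, 3, 8), (5,
   7, 8), (6, 8, 7), (8, 3, 2), (8, 6, 5), (2, 1, 8), (5, 4, 8)],
    [(0, 5, 9), (0, 6, 9), (1, 7, 9), (1, 8, 9), (2, 9, 6), (2, 9, 8), (3, 9, 5), (3, 9, 7), (0,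
   2, 9), (0, 3, 9), (4, 7, 9), (4, 8, 9), (5, 9, 8), (6, 9, 7), (1, 2, 9), (1, 3, 9), (4, 5,
   9), (4, 6, 9)],
    [(10, 0, 4), (10, 0, 5), (10, 0, 6), (10, 1, 4), (10, 1, 7), (10, 1, 8), (10, 2, 5), (10, 2,
   7), (10, 2, 9), (10, 3, 6), (10, 3, 8), (10, 3, 9)],
    [(11, 0, 1), (11, 0, 2), (11, 0, 3), (11, 4, 1), (11, 4, 7), (11, 4, 8), (11, 5, 2), (11, 5,
   7), (11, 5, 9), (11, 6, 3), (11, 6, 8), (11, 6, 9)],
    [(12, 1, 0), (12, 1, 2), (12, 1, 3), (12, 4, 0), (12, 4, 5), (12, 4, 6), (12, 7, 2), (12, 7,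
   5), (12, 7, 9), (12, 8, 3), (12, 8, 6), (12, 8, 9)],
    [(13, 2, 0), (13, 2, 1), (13, 2, 3), (13, 5, 0), (13, 5, 4), (13, 5, 6), (13, 7, 1), (13, 7,
   4), (13, 7, 8), (13, 9, 3), (13, 9, 6), (13, 9, 8)],
    [(14, 3, 0), (14, 3, 1), (14, 3, 2), (14, 6, 0), (14, 6, 4), (14, 6, 5), (14, 8, 1), (14, 8,
   4), (14, 8, 7), (14, 9, 2), (14, 9, 5), (14, 9, 7)]]

theorem search_cons : search cons [] = true := by decide +kernel

/-- the number of the edge `ab` of the clique -/
def idx (a b : Fin 5) : ℕ :=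
  ([[15, 0, 1, 2, 3], [0, 15, 4, 5, 6], [1, 4, 15, 7, 8], [2, 5, 7, 15, 9], [3, 6, 8, 9, 15]].getD
    a.val []).getD b.val 15

/-- the ends of an edge of the clique -/
def ea (i : ℕ) : Fin 5 := [0, 0, 0, 0, 1, 1, 1, 2, 2, 3].getD i 0
/-- the ends of an edge of the clique -/
def eb (i : ℕ) : Fin 5 := [1, 2, 3, 4, 2, 3, 4, 3, 4, 4].getD i 0
/-- the vertex of the clique at which the edge with the number `10 + v` starts -/
def vx (i : ℕ) : Fin 5 := [0, 1, 2, 3, 4].getD (i - 10) 0

theorem idx_spec : ∀ a b : Fin 5, a ≠ b → idx a b < 10 ∧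
    ((ea (idx a b) = a ∧ eb (idx a b) = b) ∨ (ea (idx a b) = b ∧ eb (idx a b) = a)) := by
  decide +kernel

theorem vx_spec : ∀ v : Fin 5, vx (10 + v.val) = v := by decide +kernel

/-- the paths which give the constraints: `(true, a, b, c, d)` is the path `abcd` of the clique, and
`(false, v, a, b, _)` is the path which enters the clique at `v` and goes on to `a` and `b` -/
def wit : List (List (Bool × Fin 5 × Fin 5 × Fin 5 × Fin 5)) :=
[
  [],
  [],
  [],
  [],
  [(true, 1, 2, 0, 3), (true, 1, 2, 0, 4), (true, 2, 1, 0, 3), (true, 2, 1, 0, 4)],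
    [(true, 0, 2, 1, 3), (true, 0, 3, 1, 2), (true, 1, 3, 0, 2), (true, 1, 3, 0, 4), (true, 2,
   0, 1, 3), (true, 3, 1, 0, 4)],
    [(true, 0, 2, 1, 4), (true, 0, 3, 1, 4), (true, 0, 4, 1, 2), (true, 0, 4, 1, 3), (true, 1,
   4, 0, 2), (true, 1, 4, 0, 3), (true, 2, 0, 1, 4), (true, 3, 0, 1, 4)],
    [(true, 0, 1, 2, 3), (true, 0, 1, 3, 2), (true, 0, 2, 3, 1), (true, 0, 3, 2, 1), (true, 1,
   0, 2, 3), (true, 1, 0, 3, 2), (true, 2, 3, 0, 4), (true, 2, 3, 1, 4), (true, 3, 2, 0, 4),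
   (true, 3, 2, 1, 4)],
    [(true, 0, 1, 2, 4), (true, 0, 1, 4, 2), (true, 0, 2, 4, 1), (true, 0, 3, 2, 4), (true, 0,
   4, 2, 1), (true, 0, 4, 2, 3), (true, 1, 0, 2, 4), (true, 1, 0, 4, 2), (true, 1, 3, 2, 4),
   (true, 1, 4, 2, 3), (true, 2, 4, 0, 3), (true, 2, 4, 1, 3), (true, 3, 0, 2, 4), (true, 3, 1,
   2, 4)],
    [(true, 0, 1, 3, 4), (true, 0, 1, 4, 3), (true, 0, 2, 3, 4), (true, 0, 2, 4, 3), (true, 0,
   3, 4, 1), (true, 0, 3, 4, 2), (true, 0, 4, 3, 1), (true, 0, 4, 3, 2), (true, 1, 0, 3, 4),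
   (true, 1, 0, 4, 3), (true, 1, 2, 3, 4), (true, 1, 2, 4, 3), (true, 1, 3, 4, 2), (true, 1, 4,
   3, 2), (true, 2, 0, 3, 4), (true, 2, 0, 4, 3), (true, 2, 1, 3, 4), (true, 2, 1, 4, 3)],
    [(false, 0, 1, 2, 0), (false, 0, 1, 3, 0), (false, 0, 1, 4, 0), (false, 0, 2, 1, 0), (false,
   0, 2, 3, 0), (false, 0, 2, 4, 0), (false, 0, 3, 1, 0), (false, 0, 3, 2, 0), (false, 0, 3, 4,
   0), (false, 0, 4, 1, 0), (false, 0, 4, 2, 0), (false, 0, 4, 3, 0)],
    [(false, 1, 0, 2, 1), (false, 1, 0, 3, 1), (false, 1, 0, 4, 1), (false, 1, 2, 0, 1), (false,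
   1, 2, 3, 1), (false, 1, 2, 4, 1), (false, 1, 3, 0, 1), (false, 1, 3, 2, 1), (false, 1, 3, 4,
   1), (false, 1, 4, 0, 1), (false, 1, 4, 2, 1), (false, 1, 4, 3, 1)],
    [(false, 2, 0, 1, 2), (false, 2, 0, 3, 2), (false, 2, 0, 4, 2), (false, 2, 1, 0, 2), (false,
   2, 1, 3, 2), (false, 2, 1, 4, 2), (false, 2, 3, 0, 2), (false, 2, 3, 1, 2), (false, 2, 3, 4,
   2), (false, 2, 4, 0, 2), (false, 2, 4, 1, 2), (false, 2, 4, 3, 2)],
    [(false, 3, 0, 1, 3), (false, 3, 0, 2, 3), (false, 3, 0, 4, 3), (false, 3, 1, 0, 3), (false,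
   3, 1, 2, 3), (false, 3, 1, 4, 3), (false, 3, 2, 0, 3), (false, 3, 2, 1, 3), (false, 3, 2, 4,
   3), (false, 3, 4, 0, 3), (false, 3, 4, 1, 3), (false, 3, 4, 2, 3)],
    [(false, 4, 0, 1, 4), (false, 4, 0, 2, 4), (false, 4, 0, 3, 4), (false, 4, 1, 0, 4), (false,
   4, 1, 2, 4), (false, 4, 1, 3, 4), (false, 4, 2, 0, 4), (false, 4, 2, 1, 4), (false, 4, 2, 3,
   4), (false, 4, 3, 0, 4), (false, 4, 3, 1, 4), (false, 4, 3, 2, 4)]]

/-- the constraint given by a path -/
def toT (w : Bool × Fin 5 × Fin 5 × Fin 5 × Fin 5) : ℕ × ℕ × ℕ :=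
  if w.1 then (idx w.2.1 w.2.2.1, idx w.2.2.1 w.2.2.2.1, idx w.2.2.2.1 w.2.2.2.2)
  else (10 + w.2.1.val, idx w.2.1 w.2.2.1, idx w.2.2.1 w.2.2.2.1)

theorem cons_eq : cons.flatten = wit.flatten.map toT := by decide +kernel

theorem wit_spec : ∀ w ∈ wit.flatten,
    w.2.1 ≠ w.2.2.1 ∧ w.2.2.1 ≠ w.2.2.2.1 ∧ w.2.1 ≠ w.2.2.2.1 ∧
      (w.1 = true → w.2.2.2.1 ≠ w.2.2.2.2 ∧ w.2.2.1 ≠ w.2.2.2.2 ∧ w.2.1 ≠ w.2.2.2.2) := by
  decide +kernel

theorem cons_spec : ∀ t ∈ cons.flatten,
    (∃ a b c d : Fin 5, a ≠ b ∧ b ≠ c ∧ c ≠ d ∧ a ≠ c ∧ b ≠ d ∧ a ≠ d ∧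
      t = (idx a b, idx b c, idx c d)) ∨
    (∃ v a b : Fin 5, v ≠ a ∧ a ≠ b ∧ v ≠ b ∧ t = (10 + v.val, idx v a, idx a b)) := by
  intro t ht
  rw [cons_eq, List.mem_map] at ht
  obtain ⟨⟨u, a, b, c, d⟩, hw, rfl⟩ := ht
  obtain ⟨h1, h2, h3, h4⟩ := wit_spec _ hw
  simp only at h1 h2 h3 h4
  cases u with
  | true =>
    obtain ⟨h5, h6, h7⟩ := h4 rfl
    exact Or.inl ⟨a, b, c, d, h1, h2, h5, h3, h6, h7, by simp [toT]⟩
  | false => exact Or.inr ⟨a, b, c, h1, h2, h3, by simp [toT]⟩

/-- four distinct vertices forming a path with three edges of one colour -/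
def HasPath {V : Type} (G : SimpleGraph V) (col : Sym2 V → Fin 3) : Prop :=
  ∃ a b c d : V, G.Adj a b ∧ G.Adj b c ∧ G.Adj c d ∧ a ≠ c ∧ b ≠ d ∧ a ≠ d ∧
    col s(a, b) = col s(b, c) ∧ col s(b, c) = col s(c, d)

/-- a clique on five vertices each of which has a neighbour outside of it -/
theorem key {V : Type} (G : SimpleGraph V) (col : Sym2 V → Fin 3) (q e : Fin 5 → V)
    (hq : ∀ a b, a ≠ b → G.Adj (q a) (q b)) (he : ∀ v, G.Adj (q v) (e v))
    (hout : ∀ v a, e v ≠ q a) : HasPath G col := by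
  let f : ℕ → ℕ := fun i =>
    if i < 10 then (col s(q (ea i), q (eb i))).val else (col s(q (vx i), e (vx i))).val
  have hf : ∀ i, f i < 3 := by
    intro i
    simp only [f]
    split_ifs
    · exact (col _).isLt
    · exact (col _).isLt
  have hE : ∀ a b : Fin 5, a ≠ b → f (idx a b) = (col s(q a, q b)).val := by
    intro a b hab
    obtain ⟨h1, h2⟩ := idx_spec a b hab
    simp only [f, if_pos h1]
    rcases h2 with ⟨h3, h4⟩ | ⟨h3, h4⟩
    · rw [h3, h4]
    · rw [h3, h4, Sym2.eq_swap]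
  have hX : ∀ v : Fin 5, f (10 + v.val) = (col s(q v, e v)).val := by
    intro v
    have h1 : ¬ (10 + v.val < 10) := by omega
    simp only [f, if_neg h1, vx_spec]
  obtain ⟨t, ht, h1, h2⟩ := search_sound f hf cons [] (by simp) search_cons
  have hne : ∀ a b, a ≠ b → q a ≠ q b := fun a b h => (hq a b h).ne
  rcases cons_spec t ht with ⟨a, b, c, d, hab, hbc, hcd, hac, hbd, had, rfl⟩ |
    ⟨v, a, b, hva, hab, hvb, rfl⟩
  · simp only at h1 h2
    rw [hE a b hab, hE b c hbc] at h1
    rw [hE b c hbc, hE c d hcd] at h2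
    exact ⟨q a, q b, q c, q d, hq _ _ hab, hq _ _ hbc, hq _ _ hcd, hne _ _ hac, hne _ _ hbd,
      hne _ _ had, Fin.ext h1, Fin.ext h2⟩
  · simp only at h1 h2
    rw [hX v, hE v a hva] at h1
    rw [hE v a hva, hE a b hab] at h2
    refine ⟨e v, q v, q a, q b, (he v).symm, hq _ _ hva, hq _ _ hab, hout v a, hne _ _ hvb,
      hout v b, ?_, Fin.ext h2⟩
    rw [Sym2.eq_swap]
    exact Fin.ext h1

/-- a graph in which every subgraph without a clique on five vertices and with all degrees at least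
five is five-colourable: either there is a monochromatic path or the graph is five-colourable -/
theorem main {V : Type} [Fintype V] (G : SimpleGraph V) (col : Sym2 V → Fin 3)
    (hno : ¬ HasPath G col)
    (hK : ∀ W : Set V, (G.induce W).CliqueFree 5 →
      (∀ w ∈ W, 5 ≤ (G.neighborSet w ∩ W).ncard) → (G.induce W).Colorable 5) :
    ∀ W : Finset V, ∃ f : V → Fin 5, ∀ a ∈ W, ∀ b ∈ W, G.Adj a b → f a ≠ f b := by
  classical
  intro W
  induction W using Finset.strongInduction with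
  | H W ih =>
    by_cases hdeg : ∀ w ∈ W, 5 ≤ (G.neighborSet w ∩ (W : Set V)).ncard
    · by_cases hfree : (G.induce (W : Set V)).CliqueFree 5
      · obtain ⟨C⟩ := hK (W : Set V) hfree (fun w hw => hdeg w (by simpa using hw))
        refine ⟨fun v => if h : v ∈ (W : Set V) then C ⟨v, h⟩ else 0, ?_⟩
        intro a ha b hb hab
        have ha' : a ∈ (W : Set V) := by simpa using ha
        have hb' : b ∈ (W : Set V) := by simpa using hb
        simp only [dif_pos ha', dif_pos hb']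
        exact C.valid (by simpa using hab)
      · exfalso
        apply hno
        rw [SimpleGraph.CliqueFree] at hfree
        push Not at hfree
        obtain ⟨s, hs⟩ := hfree
        have hcard : s.card = 5 := hs.card_eq
        let ε : Fin 5 ≃ s := (Fintype.equivFinOfCardEq (by simp [hcard])).symm
        let q : Fin 5 → V := fun i => ((ε i : s) : (W : Set V))
        have hq : ∀ a b, a ≠ b → G.Adj (q a) (q b) := by
          intro a b hab
          have h1 : ((ε a : s) : (W : Set V)) ≠ ((ε b : s) : (W : Set V)) := by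
            intro h
            exact hab (ε.injective (Subtype.ext h))
          have h2 := hs.isClique (ε a).2 (ε b).2 h1
          simpa using h2
        have hqW : ∀ v, q v ∈ (W : Set V) := fun v => ((ε v : s) : (W : Set V)).2
        have hex : ∀ v, ∃ e : V, G.Adj (q v) e ∧ ∀ a, e ≠ q a := by
          intro v
          by_contra hcon
          push Not at hcon
          have hsub : G.neighborSet (q v) ∩ (W : Set V) ⊆
              ((Finset.univ.erase v).image q : Finset V) := by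
            intro e he
            obtain ⟨a, ha⟩ := hcon e he.1
            rw [Finset.coe_image]
            refine ⟨a, ?_, ha.symm⟩
            simp only [Finset.coe_erase, Finset.coe_univ, Set.mem_sdiff, Set.mem_univ, true_and,
              Set.mem_singleton_iff]
            rintro rfl
            have := he.1
            rw [ha, SimpleGraph.mem_neighborSet] at this
            exact G.loopless.irrefl _ this
          have h1 := Set.ncard_le_ncard hsub (Finset.finite_toSet _)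
          rw [Set.ncard_coe_finset] at h1
          have h2 : ((Finset.univ.erase v).image q).card ≤ 4 :=
            Finset.card_image_le.trans (by simp)
          have h3 := hdeg (q v) (by simpa using hqW v)
          omega
        choose e he hout using hex
        exact key G col q e hq he hout
    · push Not at hdeg
      obtain ⟨w, hw, hlt⟩ := hdeg
      obtain ⟨f, hf⟩ := ih (W.erase w) (Finset.erase_ssubset hw)
      have hfin : (G.neighborSet w ∩ (W : Set V)).Finite := Set.toFinite _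
      have hex : ∃ c : Fin 5, c ∉ f '' (G.neighborSet w ∩ (W : Set V)) := by
        by_contra hcon
        push Not at hcon
        have h1 : (Set.univ : Set (Fin 5)) ⊆ f '' (G.neighborSet w ∩ (W : Set V)) :=
          fun c _ => hcon c
        have h2 := Set.ncard_le_ncard h1 (hfin.image f)
        have h3 := Set.ncard_image_le (f := f) hfin
        rw [Set.ncard_univ, Nat.card_eq_fintype_card, Fintype.card_fin] at h2
        omega
      obtain ⟨c, hc⟩ := hex
      refine ⟨Function.update f w c, ?_⟩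
      intro a ha b hb hab
      by_cases haw : a = w
      · subst haw
        have hba : b ≠ a := hab.ne'
        rw [Function.update_self, Function.update_of_ne hba]
        intro h
        exact hc ⟨b, ⟨hab, by simpa using hb⟩, h.symm⟩
      · by_cases hbw : b = w
        · subst hbw
          rw [Function.update_self, Function.update_of_ne haw]
          intro h
          exact hc ⟨a, ⟨hab.symm, by simpa using ha⟩, h⟩
        · rw [Function.update_of_ne haw, Function.update_of_ne hbw]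
          exact hf a (Finset.mem_erase.2 ⟨haw, ha⟩) b (Finset.mem_erase.2 ⟨hbw, hb⟩) hab

end Pool.Agent.R1.MonoPath
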