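import Mathlib
import Pool.Agent.R1.Herm

/-!
# The Ricci matrix of a graph, and trees with levels
-/

set_option autoImplicit false

open Matrix Finset

namespace Pool.Agent.R1.Ricci

open Classical in
/-- The Ricci matrix of a graph, indexed by its edges: the diagonal entry of `e = {x, y}` is
`-(1 / d_x + 1 / d_y)`, and the entry at two distinct edges sharing the vertex `x` is `1 / d_x`. -/
noncomputable def ricci {V : Type*} [Fintype V] (G : SimpleGraph V) :
    Matrix G.edgeSet G.edgeSet ℝ :=
  fun e e' => ∑ x : V, if x ∈ (e : Sym2 V) ∧ x ∈ (e' : Sym2 V) then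
    (if e = e' then -(1 / (G.degree x : ℝ)) else 1 / (G.degree x : ℝ)) else 0

open Classical in
/-- The largest eigenvalue of the Ricci matrix. -/
noncomputable def lamMax {V : Type*} [Fintype V] (G : SimpleGraph V) : ℝ :=
  sSup {μ : ℝ | ∃ f : G.edgeSet → ℝ, f ≠ 0 ∧ ricci G *ᵥ f = μ • f}

/-- Attaching a leaf (the new vertex `none`) at the vertex `v`. -/
def attachLeaf {V : Type*} (G : SimpleGraph V) (v : V) : SimpleGraph (Option V) where
  Adj x y := match x, y with
    | none, none => False
    | none, some b => b = v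
    | some a, none => a = v
    | some a, some b => G.Adj a b
  symm := ⟨by
    rintro (_ | a) (_ | b) h
    · exact h
    · exact h
    · exact h
    · exact G.adj_symm h⟩
  loopless := ⟨by
    rintro (_ | a) h
    · exact h
    · exact h.ne rfl⟩

variable {V : Type*} [Fintype V]

lemma ricci_symm (G : SimpleGraph V) : (ricci G).IsHermitian := by
  classical
  ext e e'
  rw [Matrix.conjTranspose_apply, star_trivial]
  unfold ricci
  refine Finset.sum_congr rfl fun x _ => ?_
  by_cases h : e = e'
  · subst h; rfl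
  · have h' : ¬ e' = e := fun h2 => h h2.symm
    simp only [h, h', and_comm]

lemma ricci_nonneg (G : SimpleGraph V) (e e' : G.edgeSet) (h : e ≠ e') : 0 ≤ ricci G e e' := by
  classical
  unfold ricci
  refine Finset.sum_nonneg fun x _ => ?_
  rw [if_neg h]
  split_ifs
  · positivity
  · exact le_rfl

lemma mulVec_inst {n : Type*} (i1 i2 : Fintype n) (A : Matrix n n ℝ) (f : n → ℝ) :
    (letI := i1; A *ᵥ f) = (letI := i2; A *ᵥ f) := by
  have h : i1 = i2 := Subsingleton.elim _ _
  subst h
  rfl

lemma lamMax_eq (G : SimpleGraph V) [DecidableEq G.edgeSet] [Fintype G.edgeSet] :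
    lamMax G = Pool.Agent.R1.Herm.lamMax (ricci G) := by
  unfold lamMax Pool.Agent.R1.Herm.lamMax
  congr 1
  ext μ
  constructor
  · rintro ⟨f, hf, h⟩
    have h' : ricci G *ᵥ f = μ • f := (mulVec_inst _ _ _ _).trans h
    apply Module.End.hasEigenvalue_of_hasEigenvector (x := f)
    rw [Module.End.hasEigenvector_iff, Module.End.mem_eigenspace_iff, Matrix.toLin'_apply]
    exact ⟨h', hf⟩
  · intro h
    obtain ⟨f, hf⟩ := h.exists_hasEigenvector
    rw [Module.End.hasEigenvector_iff, Module.End.mem_eigenspace_iff, Matrix.toLin'_apply] at hf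
    refine ⟨f, hf.2, ?_⟩
    exact (mulVec_inst _ _ _ _).trans hf.1

/-- a nonnegative subsolution bounds the largest eigenvalue from below -/
theorem le_lamMax (G : SimpleGraph V) [DecidableEq G.edgeSet] [Fintype G.edgeSet] (μ : ℝ)
    (g : G.edgeSet → ℝ) (hg : ∀ e, 0 < g e) (hne : Nonempty G.edgeSet)
    (h : ∀ e, μ * g e ≤ (ricci G *ᵥ g) e) : μ ≤ lamMax G := by
  rw [lamMax_eq]
  have h1 := Pool.Agent.R1.Herm.le_lamMax (ricci G) (ricci_symm G) g
  have h2 : μ * ∑ e, ‖g e‖ ^ 2 ≤ RCLike.re (star g ⬝ᵥ ricci G *ᵥ g) := by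
    simp only [dotProduct, Pi.star_apply, star_trivial, RCLike.re_to_real, Finset.mul_sum]
    refine Finset.sum_le_sum fun e _ => ?_
    have := mul_le_mul_of_nonneg_left (h e) (hg e).le
    rw [Real.norm_eq_abs, sq_abs]
    nlinarith
  have hpos : 0 < ∑ e, ‖g e‖ ^ 2 := by
    obtain ⟨e⟩ := hne
    refine Finset.sum_pos (fun e _ => ?_) ⟨e, Finset.mem_univ _⟩
    have := (hg e).ne'
    positivity
  exact le_of_mul_le_mul_right (h2.trans h1) hpos

/-- a positive supersolution bounds the largest eigenvalue from above -/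
theorem lamMax_le (G : SimpleGraph V) [DecidableEq G.edgeSet] [Fintype G.edgeSet] (μ : ℝ)
    (g : G.edgeSet → ℝ) (hg : ∀ e, 0 < g e) (hne : Nonempty G.edgeSet)
    (h : ∀ e, (ricci G *ᵥ g) e ≤ μ * g e) : lamMax G ≤ μ := by
  rw [lamMax_eq]
  refine Pool.Agent.R1.Herm.lamMax_le (ricci G) (ricci_symm G) μ fun f => ?_
  simp only [dotProduct, mulVec, Pi.star_apply, star_trivial, RCLike.re_to_real, Finset.mul_sum,
    Real.norm_eq_abs, sq_abs]
  -- compare f_i f_j with (f_i² g_j / g_i + f_j² g_i / g_j) / 2
  have h1 : ∀ i j, f i * (ricci G i j * f j) ≤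
      (ricci G i j * g j * (f i ^ 2 / g i) + ricci G j i * g i * (f j ^ 2 / g j)) / 2 := by
    intro i j
    by_cases hij : i = j
    · subst hij
      have := (hg i).ne'
      apply le_of_eq
      field_simp
      ring
    · have h2 := ricci_nonneg G i j hij
      have h3 : ricci G j i = ricci G i j := by
        have := congrFun (congrFun (ricci_symm G) i) j
        rw [Matrix.conjTranspose_apply, star_trivial] at this
        exact this
      rw [h3]
      have h4 : f i * f j ≤ (g j * (f i ^ 2 / g i) + g i * (f j ^ 2 / g j)) / 2 := by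
        have hi := hg i
        have hj := hg j
        have h5 : 0 ≤ (f i * g j - f j * g i) ^ 2 / (g i * g j) := by positivity
        have h6 : (f i * g j - f j * g i) ^ 2 / (g i * g j) =
            g j * (f i ^ 2 / g i) + g i * (f j ^ 2 / g j) - 2 * (f i * f j) := by
          field_simp
          ring
        linarith
      nlinarith [mul_le_mul_of_nonneg_left h4 h2]
  refine (Finset.sum_le_sum fun i _ => Finset.sum_le_sum fun j _ => h1 i j).trans ?_
  have h2 : ∑ i, ∑ j, (ricci G i j * g j * (f i ^ 2 / g i) + ricci G j i * g i * (f j ^ 2 / g j)) / 2 =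
      ∑ i, (∑ j, ricci G i j * g j) * (f i ^ 2 / g i) := by
    have h3 : ∑ i, ∑ j, ricci G j i * g i * (f j ^ 2 / g j) =
        ∑ i, ∑ j, ricci G i j * g j * (f i ^ 2 / g i) := Finset.sum_comm
    simp only [add_div, Finset.sum_add_distrib, ← Finset.sum_div, Finset.sum_mul]
    rw [h3]
    ring
  rw [h2]
  refine Finset.sum_le_sum fun i _ => ?_
  have h4 := h i
  simp only [mulVec, dotProduct] at h4
  have h5 : 0 ≤ f i ^ 2 / g i := div_nonneg (sq_nonneg _) (hg i).le
  refine (mul_le_mul_of_nonneg_right h4 h5).trans (le_of_eq ?_)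
  have := (hg i).ne'
  field_simp

open Classical in
/-- the Ricci matrix applied to a function of the edges -/
theorem ricci_apply (G : SimpleGraph V) [Fintype G.edgeSet] (γ : Sym2 V → ℝ) (x y : V)
    (h : G.Adj x y) :
    (ricci G *ᵥ fun e => γ e) ⟨s(x, y), h⟩ =
      ((∑ z, if G.Adj x z then γ s(x, z) else 0) - 2 * γ s(x, y)) / G.degree x +
      ((∑ z, if G.Adj y z then γ s(y, z) else 0) - 2 * γ s(x, y)) / G.degree y := by
  have key : ∀ v : V, v ∈ s(x, y) → ∑ e' : G.edgeSet,
      (if v ∈ s(x, y) ∧ v ∈ (e' : Sym2 V) then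
        (if (⟨s(x, y), h⟩ : G.edgeSet) = e' then -(1 / (G.degree v : ℝ)) else 1 / (G.degree v : ℝ))
        else 0) * γ e' =
      ((∑ z, if G.Adj v z then γ s(v, z) else 0) - 2 * γ s(x, y)) / G.degree v := by
    intro v hv
    have h1 : ∀ e' : G.edgeSet, (if v ∈ s(x, y) ∧ v ∈ (e' : Sym2 V) then
        (if (⟨s(x, y), h⟩ : G.edgeSet) = e' then -(1 / (G.degree v : ℝ)) else 1 / (G.degree v : ℝ))
        else 0) * γ e' = (if v ∈ (e' : Sym2 V) then γ e' / G.degree v else 0) -
        (if (⟨s(x, y), h⟩ : G.edgeSet) = e' then 2 * γ s(x, y) / G.degree v else 0) := by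
      intro e'
      by_cases h2 : (⟨s(x, y), h⟩ : G.edgeSet) = e'
      · subst h2
        simp [hv]
        ring
      · by_cases h3 : v ∈ (e' : Sym2 V)
        · simp [hv, h2, h3]
          ring
        · simp [h2, h3]
    rw [Finset.sum_congr rfl fun e' _ => h1 e', Finset.sum_sub_distrib, Finset.sum_ite_eq,
      if_pos (Finset.mem_univ _), sub_div]
    congr 1
    rw [Finset.sum_div]
    have h4 : ∑ e' : G.edgeSet, (if v ∈ (e' : Sym2 V) then γ e' / G.degree v else 0) =
        ∑ e ∈ G.incidenceFinset v, γ e / G.degree v := by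
      rw [SimpleGraph.incidenceFinset_eq_filter, Finset.sum_filter]
      exact (Finset.sum_subtype G.edgeFinset (p := fun e => e ∈ G.edgeSet)
        (fun e => SimpleGraph.mem_edgeFinset)
        (fun e => if v ∈ e then γ e / G.degree v else 0)).symm
    rw [h4]
    have h5 : G.incidenceFinset v = (G.neighborFinset v).image (fun z => s(v, z)) := by
      ext e
      rw [SimpleGraph.mem_incidenceFinset, Finset.mem_image]
      constructor
      · rintro ⟨he1, he2⟩
        obtain ⟨z, rfl⟩ := Sym2.mem_iff_exists.1 he2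
        exact ⟨z, by rw [SimpleGraph.mem_neighborFinset]; exact he1, rfl⟩
      · rintro ⟨z, hz, rfl⟩
        rw [SimpleGraph.mem_neighborFinset] at hz
        exact ⟨hz, Sym2.mem_mk_left _ _⟩
    rw [h5, Finset.sum_image (by
      intro a _ b _ hab
      exact Sym2.congr_right.1 hab), SimpleGraph.neighborFinset_eq_filter, Finset.sum_filter]
    refine Finset.sum_congr rfl fun z _ => ?_
    split_ifs <;> simp
  have h0 : (ricci G *ᵥ fun e => γ e) ⟨s(x, y), h⟩ = ∑ v, ∑ e' : G.edgeSet,
      (if v ∈ s(x, y) ∧ v ∈ (e' : Sym2 V) then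
        (if (⟨s(x, y), h⟩ : G.edgeSet) = e' then -(1 / (G.degree v : ℝ)) else 1 / (G.degree v : ℝ))
        else 0) * γ e' := by
    rw [Finset.sum_comm]
    simp only [mulVec, dotProduct, ricci, Finset.sum_mul]
  have hxy : x ≠ y := h.ne
  have hrest : ∑ v ∈ (Finset.univ.erase x).erase y, ∑ e' : G.edgeSet,
      (if v ∈ s(x, y) ∧ v ∈ (e' : Sym2 V) then
        (if (⟨s(x, y), h⟩ : G.edgeSet) = e' then -(1 / (G.degree v : ℝ)) else 1 / (G.degree v : ℝ))
        else 0) * γ e' = 0 := by
    refine Finset.sum_eq_zero fun v hv => Finset.sum_eq_zero fun e' _ => ?_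
    rw [Finset.mem_erase, Finset.mem_erase] at hv
    rw [if_neg, zero_mul]
    rintro ⟨h1, -⟩
    rw [Sym2.mem_iff] at h1
    rcases h1 with h1 | h1
    · exact hv.2.1 h1
    · exact hv.1 h1
  rw [h0, ← Finset.add_sum_erase _ _ (Finset.mem_univ x),
    ← Finset.add_sum_erase _ _ (Finset.mem_erase.2 ⟨hxy.symm, Finset.mem_univ y⟩),
    key x (Sym2.mem_mk_left _ _), key y (Sym2.mem_mk_right _ _), hrest, add_zero]

/-! ### Grafting copies of a rooted graph below a new root -/

/-- `n` disjoint copies of `(H, w₀)` whose roots are joined to a new root `none`. -/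
def graft {W : Type*} (n : ℕ) (H : SimpleGraph W) (w₀ : W) : SimpleGraph (Option (Fin n × W)) where
  Adj x y := match x, y with
    | none, none => False
    | none, some b => b.2 = w₀
    | some a, none => a.2 = w₀
    | some a, some b => a.1 = b.1 ∧ H.Adj a.2 b.2
  symm := ⟨by
    rintro (_ | a) (_ | b) h
    · exact h
    · exact h
    · exact h
    · exact ⟨h.1.symm, H.adj_symm h.2⟩⟩
  loopless := ⟨by
    rintro (_ | a) h
    · exact h
    · exact h.2.ne rfl⟩

/-- the level of a vertex of the graft -/
def glev {W : Type*} {n : ℕ} (lev : W → ℕ) : Option (Fin n × W) → ℕ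
  | none => 0
  | some a => lev a.2 + 1

open Classical in
/-- `G` is a tree with root `r`, levels `lev` and `c k` children at each vertex of level `k` -/
structure Lev {V : Type*} [Fintype V] (G : SimpleGraph V) (r : V) (lev : V → ℕ) (c : ℕ → ℕ) :
    Prop where
  root : ∀ x, lev x = 0 ↔ x = r
  adj : ∀ x y, G.Adj x y → lev y = lev x + 1 ∨ lev x = lev y + 1
  nbr : ∀ (φ : ℕ → ℝ) (x : V), (∑ y, if G.Adj x y then φ (lev y) else 0) =
    (if lev x = 0 then 0 else φ (lev x - 1)) + c (lev x) * φ (lev x + 1)
  conn : ∀ x, G.Reachable r x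
  count : (∑ x, ∑ y, if G.Adj x y then (1 : ℝ) else 0) + 2 = 2 * Fintype.card V

lemma lev_point : Lev (⊥ : SimpleGraph Unit) () (fun _ => 0) (fun _ => 0) where
  root := fun x => by simp
  adj := fun x y h => absurd h (by simp)
  nbr := fun φ x => by simp
  conn := fun x => SimpleGraph.Reachable.refl _
  count := by simp

lemma lev_graft {W : Type*} [Fintype W] {H : SimpleGraph W} {w₀ : W} {lev : W → ℕ} {c : ℕ → ℕ}
    (h : Lev H w₀ lev c) (n : ℕ) :
    Lev (graft n H w₀) none (glev lev) (fun k => if k = 0 then n else c (k - 1)) where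
  root := by
    rintro (_ | a)
    · simp [glev]
    · simp [glev]
  adj := by
    rintro (_ | a) (_ | b) hab
    · exact absurd hab (by simp [graft])
    · left
      have h1 : b.2 = w₀ := hab
      have h2 := (h.root b.2).2 h1
      simp [glev, h2]
    · right
      have h1 : a.2 = w₀ := hab
      have h2 := (h.root a.2).2 h1
      simp [glev, h2]
    · have h1 : a.1 = b.1 ∧ H.Adj a.2 b.2 := hab
      have h2 := h.adj _ _ h1.2
      simp only [glev]
      omega
  nbr := by
    classical
    intro φ x
    rw [Fintype.sum_option, Fintype.sum_prod_type]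
    rcases x with _ | a
    · have h1 : ∀ (i : Fin n) (y : W), (if (graft n H w₀).Adj none (some (i, y)) then
          φ (glev lev (some (i, y))) else 0) = if y = w₀ then φ (lev y + 1) else 0 := by
        intro i y
        rfl
      simp only [h1]
      rw [if_neg (by simp)]
      have h2 : lev w₀ = 0 := (h.root w₀).2 rfl
      simp [glev, h2]
    · have h1 : ∀ (i : Fin n) (y : W), (if (graft n H w₀).Adj (some a) (some (i, y)) then
          φ (glev lev (some (i, y))) else 0) =
          if a.1 = i then (if H.Adj a.2 y then φ (lev y + 1) else 0) else 0 := by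
        intro i y
        by_cases h3 : a.1 = i
        · by_cases h4 : H.Adj a.2 y
          · rw [if_pos ⟨h3, h4⟩, if_pos h3, if_pos h4]; rfl
          · rw [if_neg (fun h => h4 h.2), if_pos h3, if_neg h4]
        · rw [if_neg (fun h => h3 h.1), if_neg h3]
      simp only [h1]
      have h2 : ∀ i : Fin n, (∑ y, if a.1 = i then (if H.Adj a.2 y then φ (lev y + 1) else 0)
          else 0) = if a.1 = i then (∑ y, if H.Adj a.2 y then φ (lev y + 1) else 0) else 0 := by
        intro i
        split_ifs
        · rfl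
        · simp
      simp only [h2]
      rw [Finset.sum_ite_eq, if_pos (Finset.mem_univ _), h.nbr (fun t => φ (t + 1)) a.2]
      have h5 : (if (graft n H w₀).Adj (some a) none then φ (glev lev (none : Option (Fin n × W)))
          else 0) = if lev a.2 = 0 then φ 0 else 0 := by
        by_cases h6 : a.2 = w₀
        · rw [if_pos ((h.root a.2).2 h6)]
          exact if_pos h6
        · rw [if_neg (fun h7 => h6 ((h.root a.2).1 h7))]
          exact if_neg h6
      have e1 : glev lev (some a) ≠ 0 := Nat.succ_ne_zero _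
      rw [h5, if_neg e1, if_neg e1]
      change _ = φ (lev a.2 + 1 - 1) + (c (lev a.2 + 1 - 1) : ℝ) * φ (lev a.2 + 1 + 1)
      rw [Nat.add_sub_cancel]
      by_cases h7 : lev a.2 = 0
      · simp [h7]
      · rw [if_neg h7, if_neg h7, Nat.sub_add_cancel (by omega)]
        ring
  conn := by
    rintro (_ | ⟨i, y⟩)
    · exact SimpleGraph.Reachable.refl _
    · have h1 : (graft n H w₀).Adj none (some (i, w₀)) := rfl
      refine h1.reachable.trans ?_
      let f : H →g graft n H w₀ := ⟨fun y => some (i, y), fun {a b} hab => ⟨rfl, hab⟩⟩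
      exact (h.conn y).map f
  count := by
    classical
    have h0 : ∀ x y, (if (graft n H w₀).Adj x y then (1 : ℝ) else 0) =
        if (graft n H w₀).Adj x y then (1 : ℝ) else 0 := fun _ _ => rfl
    have hc := h.count
    have h1 : ∑ y : Option (Fin n × W), (if (graft n H w₀).Adj none y then (1 : ℝ) else 0) = n := by
      rw [Fintype.sum_option, Fintype.sum_prod_type, if_neg (by simp)]
      have h2 : ∀ (i : Fin n) (y : W), (if (graft n H w₀).Adj none (some (i, y)) then
          (1 : ℝ) else 0) = if y = w₀ then 1 else 0 := fun _ _ => rfl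
      simp [h2]
    have h3 : ∀ (i : Fin n) (x : W), ∑ y : Option (Fin n × W),
        (if (graft n H w₀).Adj (some (i, x)) y then (1 : ℝ) else 0) =
        (if x = w₀ then 1 else 0) + ∑ y, (if H.Adj x y then (1 : ℝ) else 0) := by
      intro i x
      rw [Fintype.sum_option, Fintype.sum_prod_type]
      congr 1
      have h4 : ∀ (j : Fin n) (y : W), (if (graft n H w₀).Adj (some (i, x)) (some (j, y)) then
          (1 : ℝ) else 0) = if i = j then (if H.Adj x y then 1 else 0) else 0 := by
        intro j y
        by_cases h5 : i = j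
        · by_cases h6 : H.Adj x y
          · rw [if_pos ⟨h5, h6⟩, if_pos h5, if_pos h6]
          · rw [if_neg (fun h => h6 h.2), if_pos h5, if_neg h6]
        · rw [if_neg (fun h => h5 h.1), if_neg h5]
      simp only [h4]
      rw [Finset.sum_comm]
      refine Finset.sum_congr rfl fun y _ => ?_
      rw [Finset.sum_ite_eq, if_pos (Finset.mem_univ _)]
    rw [Fintype.sum_option, Fintype.sum_prod_type, h1]
    simp only [h3, Finset.sum_add_distrib]
    rw [Fintype.card_option, Fintype.card_prod, Fintype.card_fin]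
    simp only [Finset.sum_ite_eq', Finset.mem_univ, if_true, Finset.sum_const, Finset.card_univ,
      Fintype.card_fin, nsmul_eq_mul, mul_one]
    push_cast
    have : (n : ℝ) * ((∑ x, ∑ y, if H.Adj x y then (1 : ℝ) else 0) + 2) =
        n * (2 * Fintype.card W) := by rw [hc]
    linarith

lemma Lev.isTree {G : SimpleGraph V} {r : V} {lev : V → ℕ} {c : ℕ → ℕ} (h : Lev G r lev c) :
    G.IsTree := by
  classical
  rw [SimpleGraph.isTree_iff_connected_and_card]
  have hne : Nonempty V := ⟨r⟩
  refine ⟨⟨fun x y => (h.conn x).symm.trans (h.conn y)⟩, ?_⟩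
  have h1 := h.count
  have h2 : ∀ x, (∑ y, if G.Adj x y then (1 : ℝ) else 0) = G.degree x := by
    intro x
    rw [Finset.sum_boole, ← SimpleGraph.card_neighborFinset_eq_degree,
      SimpleGraph.neighborFinset_eq_filter]
  simp only [h2] at h1
  have h3 := G.sum_degrees_eq_twice_card_edges
  have h4 : (∑ x, (G.degree x : ℝ)) = 2 * (G.edgeFinset.card : ℝ) := by exact_mod_cast h3
  rw [h4] at h1
  rw [Nat.card_eq_fintype_card, Nat.card_eq_fintype_card, ← SimpleGraph.edgeFinset_card]
  have : (G.edgeFinset.card : ℝ) + 1 = Fintype.card V := by linarith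
  exact_mod_cast this

open Classical in
lemma Lev.degree {G : SimpleGraph V} {r : V} {lev : V → ℕ} {c : ℕ → ℕ} (h : Lev G r lev c)
    (x : V) : (G.degree x : ℝ) = (if lev x = 0 then 0 else 1) + c (lev x) := by
  have h1 := h.nbr (fun _ => 1) x
  rw [Finset.sum_boole, mul_one] at h1
  rw [← h1, ← SimpleGraph.card_neighborFinset_eq_degree, SimpleGraph.neighborFinset_eq_filter]

end Pool.Agent.R1.Ricci
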