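import Mathlib
import Pool.Agent.R1.Cert
import Pool.Agent.R1.Gap

/-!
# Verified computations for small graphs: products of matrices, distances, girth
-/

set_option autoImplicit false

open Matrix Finset

namespace Pool.Agent.R1.SmallGraph

open Pool.Agent.R1.Cert

/-- scalar product of lists -/
def dot : List ℤ → List ℤ → ℤ
  | a :: l, b :: m => a * b + dot l m
  | _, _ => 0

lemma dot_eq (n : ℕ) (l m : List ℤ) (hl : l.length ≤ n) :
    dot l m = ∑ k : Fin n, l.getD k 0 * m.getD k 0 := by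
  induction l generalizing n m with
  | nil => cases m <;> simp [dot]
  | cons a l ih =>
    cases n with
    | zero => simp at hl
    | succ n =>
      cases m with
      | nil => simp [dot]
      | cons b m =>
        rw [Fin.sum_univ_succ, dot, ih n m (by simpa using hl)]
        simp

/-- `X Yᵀ = Z` -/
def mulCheck (n : ℕ) (X Y Z : List (List ℤ)) : Bool :=
  allLt n fun i => decide ((X.getD i []).length ≤ n) &&
    allLt n fun j => decide (dot (X.getD i []) (Y.getD j []) = ent Z i j)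

lemma mulCheck_sound (n : ℕ) (X Y Z : List (List ℤ)) (h : mulCheck n X Y Z = true)
    (hY : ∀ i j : Fin n, ent Y i j = ent Y j i) (f : Fin n → ℝ) (i : Fin n) :
    ∑ j : Fin n, (ent Z i j : ℝ) * f j =
      ∑ k : Fin n, (ent X i k : ℝ) * ∑ j : Fin n, (ent Y k j : ℝ) * f j := by
  rw [mulCheck, allLt_iff] at h
  have h1 := h i i.2
  rw [Bool.and_eq_true, allLt_iff] at h1
  have hlen := of_decide_eq_true h1.1
  have h2 : ∀ j : Fin n, (ent Z i j : ℝ) = ∑ k : Fin n, (ent X i k : ℝ) * (ent Y k j : ℝ) := by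
    intro j
    have h3 := of_decide_eq_true (h1.2 j j.2)
    rw [dot_eq n _ _ hlen] at h3
    rw [← h3]
    push_cast
    refine Finset.sum_congr rfl fun k _ => ?_
    rw [hY k j]
    rfl
  simp only [h2, Finset.sum_mul, Finset.mul_sum]
  rw [Finset.sum_comm]
  exact Finset.sum_congr rfl fun k _ => Finset.sum_congr rfl fun j _ => by ring

/-! ### Positive semidefiniteness, with scalar products of rows -/

/-- the entry `(i, j)` of `c² M - C Cᵀ`, with scalar products of rows -/
def remD (M C : List (List ℤ)) (c2 : ℤ) (i j : ℕ) : ℤ :=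
  c2 * ent M i j - dot (C.getD i []) (C.getD j [])

/-- faster form of `check` -/
def check2 (n : ℕ) (M C : List (List ℤ)) (c2 : ℤ) : Bool :=
  allLt n (fun i => decide ((C.getD i []).length ≤ n) &&
    decide (sm n (fun j => |remD M C c2 i j|) ≤ 2 * remD M C c2 i i) &&
    allLt n (fun j => decide (ent M i j = ent M j i)))

lemma check2_check (n : ℕ) (M C : List (List ℤ)) (c2 : ℤ) (h : check2 n M C c2 = true) :
    check n M C c2 = true := by
  rw [check2, allLt_iff] at h
  rw [check, allLt_iff]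
  intro i hi
  have h1 := h i hi
  rw [Bool.and_eq_true, Bool.and_eq_true] at h1
  rw [Bool.and_eq_true]
  refine ⟨?_, h1.2⟩
  have hlen := of_decide_eq_true h1.1.1
  have h2 := of_decide_eq_true h1.1.2
  have h3 : ∀ j, remD M C c2 i j = rem n M C c2 i j := by
    intro j
    unfold remD rem
    rw [dot_eq n _ _ hlen, sm_eq]
    rfl
  apply decide_eq_true
  simp only [h3] at h2
  exact h2

/-- soundness -/
theorem check2_sound (n : ℕ) (M C : List (List ℤ)) (c2 : ℤ) (hc : 0 < c2)
    (h : check2 n M C c2 = true) (x : Fin n → ℝ) :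
    0 ≤ ∑ i : Fin n, ∑ j : Fin n, x i * (ent M i j : ℝ) * x j :=
  check_sound n M C c2 hc (check2_check n M C c2 h) x

/-! ### Distances -/

/-- bit mask of the ball of radius `k` about `x` (or a part of it) -/
def bm (nb : ℕ → List ℕ) : ℕ → ℕ → ℕ
  | 0, x => 2 ^ x
  | k + 1, x => (nb x).foldr (fun z acc => bm nb k z ||| acc) (2 ^ x)

lemma foldr_testBit (g : ℕ → ℕ) (l : List ℕ) (a y : ℕ)
    (h : (l.foldr (fun z acc => g z ||| acc) a).testBit y = true) :
    a.testBit y = true ∨ ∃ z ∈ l, (g z).testBit y = true := by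
  induction l with
  | nil => exact Or.inl h
  | cons z l ih =>
    rw [List.foldr_cons, Nat.testBit_or, Bool.or_eq_true] at h
    rcases h with h | h
    · exact Or.inr ⟨z, List.mem_cons_self, h⟩
    · rcases ih h with h | ⟨w, hw, h⟩
      · exact Or.inl h
      · exact Or.inr ⟨w, List.mem_cons_of_mem _ hw, h⟩

lemma bm_sound {n : ℕ} (G : SimpleGraph (Fin n)) (nb : ℕ → List ℕ)
    (hnb : ∀ x : Fin n, ∀ z ∈ nb x, ∃ h : z < n, G.Adj x ⟨z, h⟩) (k : ℕ) :
    ∀ x y : Fin n, (bm nb k x).testBit y = true → ∃ w : G.Walk x y, w.length ≤ k := by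
  induction k with
  | zero =>
    intro x y h
    rw [bm, Nat.testBit_two_pow] at h
    have : x = y := Fin.ext (of_decide_eq_true h)
    subst this
    exact ⟨SimpleGraph.Walk.nil, le_rfl⟩
  | succ k ih =>
    intro x y h
    rw [bm] at h
    rcases foldr_testBit _ _ _ _ h with h | ⟨z, hz, h⟩
    · rw [Nat.testBit_two_pow] at h
      have : x = y := Fin.ext (of_decide_eq_true h)
      subst this
      exact ⟨SimpleGraph.Walk.nil, Nat.zero_le _⟩
    · obtain ⟨hzn, hadj⟩ := hnb x z hz
      obtain ⟨w, hw⟩ := ih ⟨z, hzn⟩ y h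
      exact ⟨SimpleGraph.Walk.cons hadj w, by rw [SimpleGraph.Walk.length_cons]; omega⟩

lemma level_le {V : Type*} (G : SimpleGraph V) (lev : V → ℕ)
    (h : ∀ x y, G.Adj x y → lev y ≤ lev x + 1) {x y : V} (w : G.Walk x y) :
    lev y ≤ lev x + w.length := by
  induction w with
  | nil => simp
  | cons hadj w ih =>
    rw [SimpleGraph.Walk.length_cons]
    have := h _ _ hadj
    omega

/-- connectedness and the diameter -/
theorem diam_eq {n : ℕ} (G : SimpleGraph (Fin n)) (D : ℕ) (nb : ℕ → List ℕ)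
    (hnb : ∀ x : Fin n, ∀ z ∈ nb x, ∃ h : z < n, G.Adj x ⟨z, h⟩)
    (hball : ∀ x : Fin n, bm nb D x = 2 ^ n - 1)
    (lev : Fin n → ℕ) (hlev : ∀ x y, G.Adj x y → lev y ≤ lev x + 1) (a b : Fin n)
    (ha : lev a = 0) (hb : lev b = D) : G.Connected ∧ G.diam = D := by
  have hw : ∀ x y : Fin n, ∃ w : G.Walk x y, w.length ≤ D := by
    intro x y
    refine bm_sound G nb hnb D x y ?_
    rw [hball x, Nat.testBit_two_pow_sub_one]
    simp
  have hne : Nonempty (Fin n) := ⟨a⟩
  have hconn : G.Connected := ⟨fun x y => (hw x y).choose.reachable⟩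
  refine ⟨hconn, le_antisymm ?_ ?_⟩
  · obtain ⟨u, v, huv⟩ := G.exists_dist_eq_diam
    rw [← huv]
    obtain ⟨w, hwl⟩ := hw u v
    exact (SimpleGraph.dist_le w).trans hwl
  · have h1 : D ≤ G.dist a b := by
      obtain ⟨w, hwl⟩ := hconn.exists_walk_length_eq_dist a b
      have := level_le G lev hlev w
      omega
    exact h1.trans (SimpleGraph.dist_le_diam ((SimpleGraph.connected_iff_ediam_ne_top).1 hconn))

/-! ### The spectral gap of a regular graph -/

open Pool.Agent.R1.Gap

lemma lapl_eq {n : ℕ} (G : SimpleGraph (Fin n)) (d : ℝ) (A : Fin n → Fin n → ℝ)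
    (hA : ∀ x y, A x y = 1 ∧ G.Adj x y ∨ A x y = 0 ∧ ¬ G.Adj x y) (hd : ∀ x, ∑ y, A x y = d)
    (f : Fin n → ℝ) (x : Fin n) : lapl G f x = d * f x - ∑ y, A x y * f y := by
  rw [lapl, ← hd x, Finset.sum_mul, ← Finset.sum_sub_distrib]
  refine Finset.sum_congr rfl fun y _ => ?_
  rcases hA x y with ⟨h1, h2⟩ | ⟨h1, h2⟩
  · rw [if_pos h2, h1]; ring
  · rw [if_neg h2, h1]; ring

/-- the spectral gap of a `d`-regular graph is `d - λ` if `λ` is the largest eigenvalue of the
adjacency matrix with an eigenfunction orthogonal to the constants -/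
theorem lam2_eq {n : ℕ} (G : SimpleGraph (Fin n)) (d : ℝ) (A : Fin n → Fin n → ℝ)
    (hA : ∀ x y, A x y = 1 ∧ G.Adj x y ∨ A x y = 0 ∧ ¬ G.Adj x y) (hd : ∀ x, ∑ y, A x y = d)
    (lam : ℝ) (f0 : Fin n → ℝ) (hf0 : f0 ≠ 0) (hs : ∑ x, f0 x = 0)
    (he : ∀ x, ∑ y, A x y * f0 y = lam * f0 x)
    (hub : ∀ (l : ℝ) (f : Fin n → ℝ), f ≠ 0 → ∑ x, f x = 0 →
      (∀ x, ∑ y, A x y * f y = l * f x) → l ≤ lam) : lam2 G = d - lam := by
  apply le_antisymm
  · refine csInf_le (bddBelow G) ⟨f0, hf0, hs, fun x => ?_⟩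
    rw [lapl_eq G d A hA hd, he]
    ring
  · refine le_csInf ⟨d - lam, f0, hf0, hs, fun x => ?_⟩ ?_
    · rw [lapl_eq G d A hA hd, he]
      ring
    · rintro μ ⟨f, hf, hsf, h⟩
      have := hub (d - μ) f hf hsf (fun x => by
        have h1 := h x
        rw [lapl_eq G d A hA hd] at h1
        linarith)
      linarith

lemma ncard_eq_degree {n : ℕ} (G : SimpleGraph (Fin n)) [DecidableRel G.Adj] (v : Fin n) :
    (G.neighborSet v).ncard = G.degree v := by
  have h := Set.ncard_coe_finset (G.neighborFinset v)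
  rw [G.coe_neighborFinset v] at h
  rw [h, SimpleGraph.card_neighborFinset_eq_degree]

lemma parity {V : Type*} (G : SimpleGraph V) (c : V → ℕ)
    (h : ∀ x y, G.Adj x y → (c x + c y) % 2 = 1) {x y : V} (w : G.Walk x y) :
    (c x + c y) % 2 = w.length % 2 := by
  induction w with
  | nil => simp; omega
  | cons hadj w ih =>
    rw [SimpleGraph.Walk.length_cons]
    have := h _ _ hadj
    omega

end Pool.Agent.R1.SmallGraph
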