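import Mathlib
import Pool.Agent.R1.Gap

/-!
# Upper bounds of the spectral gap by test functions
-/

set_option autoImplicit false
set_option linter.unusedSectionVars false

open Matrix Finset

namespace Pool.Agent.R1.Gap

variable {V : Type*} [Fintype V] (G : SimpleGraph V)

open Classical in
/-- upper bound by the minimum degree -/
theorem lam2_le_deg (v : V) (h4 : 4 ≤ Fintype.card V) : lam2 G ≤ 4 / 3 * G.degree v := by
  have : Nonempty V := ⟨v⟩
  have hn : (4 : ℝ) ≤ Fintype.card V := by exact_mod_cast h4
  have hE : E G (fun x => if x = v then 1 else 0) = G.degree v := by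
    have h1 : ∀ x y, (if G.Adj x y then ((if x = v then (1 : ℝ) else 0) - (if y = v then 1 else 0)) ^ 2
        else 0) = (if x = v then (if G.Adj v y then (1 : ℝ) else 0) else 0) +
        (if y = v then (if G.Adj v x then (1 : ℝ) else 0) else 0) := by
      intro x y
      by_cases hx : x = v
      · subst hx
        by_cases hy : y = x
        · subst hy
          simp
        · simp [hy]
      · by_cases hy : y = v
        · subst hy
          simp [hx, SimpleGraph.adj_comm]
        · simp [hx, hy]
    unfold E
    simp only [h1, Finset.sum_add_distrib]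
    have h2 : ∑ y, (if G.Adj v y then (1 : ℝ) else 0) = G.degree v := by
      rw [Finset.sum_boole, ← SimpleGraph.card_neighborFinset_eq_degree,
        SimpleGraph.neighborFinset_eq_filter]
    have h3 : ∑ x, ∑ y, (if x = v then (if G.Adj v y then (1 : ℝ) else 0) else 0) = G.degree v := by
      rw [Finset.sum_comm]
      simp only [Finset.sum_ite_eq', Finset.mem_univ, if_true]
      exact h2
    have h4 : ∑ x, ∑ y, (if y = v then (if G.Adj v x then (1 : ℝ) else 0) else 0) = G.degree v := by
      simp only [Finset.sum_ite_eq', Finset.mem_univ, if_true]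
      exact h2
    rw [h3, h4]
    ring
  have hs1 : ∑ x : V, (if x = v then (1 : ℝ) else 0) ^ 2 = 1 := by
    have : ∀ x : V, (if x = v then (1 : ℝ) else 0) ^ 2 = if x = v then 1 else 0 := by
      intro x; split_ifs <;> norm_num
    simp [this]
  have hs2 : ∑ x : V, (if x = v then (1 : ℝ) else 0) = 1 := by simp
  have hinv : (1 : ℝ) ^ 2 / Fintype.card V ≤ 1 / 4 := by
    rw [one_pow]
    exact one_div_le_one_div_of_le (by norm_num) hn
  refine lam2_le_of G _ (fun x => if x = v then 1 else 0) ?_ ?_
  · rw [hs1, hs2]; linarith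
  · rw [hs1, hs2, hE]
    have : (0 : ℝ) ≤ G.degree v := by positivity
    nlinarith

/-! ### Distances -/

lemma dist_succ {G : SimpleGraph V} (hG : G.Connected) (p v : V) (k : ℕ) (h : G.dist p v = k + 1) :
    ∃ u, G.Adj u v ∧ G.dist p u = k := by
  obtain ⟨w, hw⟩ := hG.exists_walk_length_eq_dist v p
  rw [SimpleGraph.dist_comm, h] at hw
  cases w with
  | nil => simp at hw
  | cons huv w =>
    rename_i u
    rw [SimpleGraph.Walk.length_cons] at hw
    refine ⟨u, huv.symm, ?_⟩
    have h1 : G.dist u p ≤ k := (SimpleGraph.dist_le w).trans (by omega)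
    have h2 := hG.dist_triangle (u := p) (v := u) (w := v)
    have h3 : G.dist u v = 1 := SimpleGraph.dist_eq_one_iff_adj.2 huv.symm
    rw [SimpleGraph.dist_comm] at h1
    omega

lemma exists_dist {G : SimpleGraph V} (hG : G.Connected) (p v : V) :
    ∀ j ≤ G.dist p v, ∃ u, G.dist p u = j := by
  intro j hj
  obtain ⟨t, ht⟩ := Nat.exists_eq_add_of_le hj
  induction t generalizing v with
  | zero => exact ⟨v, by omega⟩
  | succ t ih =>
    obtain ⟨u, -, hu⟩ := dist_succ hG p v (j + t) (by omega)
    exact ih u (by omega) hu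

open Classical in
/-- the sphere of radius `j` about `p` -/
noncomputable def Sp (p : V) (j : ℕ) : Finset V := Finset.univ.filter (fun x => G.dist p x = j)

open Classical in
/-- the ball of radius `j` about `p` -/
noncomputable def Bl (p : V) (j : ℕ) : Finset V := Finset.univ.filter (fun x => G.dist p x ≤ j)

open Classical in
lemma sphere_card {G : SimpleGraph V} (hG : G.Connected) (p : V) (m : ℕ)
    (hdeg : ∀ x, G.dist p x ≤ m → G.degree x ≤ 2) : ∀ j ≤ m + 1, (Sp G p j).card ≤ 2 := by
  intro j
  induction j with
  | zero =>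
    intro _
    have : Sp G p 0 ⊆ {p} := by
      intro x hx
      rw [Sp, Finset.mem_filter] at hx
      rw [Finset.mem_singleton]
      exact ((hG.dist_eq_zero_iff).1 hx.2).symm
    exact (Finset.card_le_card this).trans (by simp)
  | succ j ih =>
    intro hj
    rcases j with _ | j
    · have : Sp G p 1 ⊆ G.neighborFinset p := by
        intro x hx
        rw [Sp, Finset.mem_filter] at hx
        rw [SimpleGraph.mem_neighborFinset]
        exact SimpleGraph.dist_eq_one_iff_adj.1 hx.2
      refine (Finset.card_le_card this).trans ?_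
      rw [SimpleGraph.card_neighborFinset_eq_degree]
      exact hdeg p (by rw [SimpleGraph.dist_self]; omega)
    · refine le_trans ?_ (ih (by omega))
      have hsub : Sp G p (j + 1 + 1) ⊆ (Sp G p (j + 1)).biUnion
          (fun x => (G.neighborFinset x).filter (fun y => G.dist p y = j + 1 + 1)) := by
        intro x hx
        rw [Sp, Finset.mem_filter] at hx
        obtain ⟨u, hu1, hu2⟩ := dist_succ hG p x (j + 1) hx.2
        rw [Finset.mem_biUnion]
        refine ⟨u, ?_, ?_⟩
        · rw [Sp, Finset.mem_filter]
          exact ⟨Finset.mem_univ _, hu2⟩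
        · rw [Finset.mem_filter, SimpleGraph.mem_neighborFinset]
          exact ⟨hu1, hx.2⟩
      refine (Finset.card_le_card hsub).trans (Finset.card_biUnion_le.trans ?_)
      calc ∑ x ∈ Sp G p (j + 1), ((G.neighborFinset x).filter
            (fun y => G.dist p y = j + 1 + 1)).card ≤ ∑ x ∈ Sp G p (j + 1), 1 := by
            refine Finset.sum_le_sum fun x hx => ?_
            rw [Sp, Finset.mem_filter] at hx
            obtain ⟨u, hu1, hu2⟩ := dist_succ hG p x j hx.2
            have h1 : (G.neighborFinset x).filter (fun y => G.dist p y = j + 1 + 1) ⊆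
                (G.neighborFinset x).erase u := by
              intro y hy
              rw [Finset.mem_filter] at hy
              rw [Finset.mem_erase]
              refine ⟨?_, hy.1⟩
              rintro rfl
              omega
            refine (Finset.card_le_card h1).trans ?_
            rw [Finset.card_erase_of_mem (by rw [SimpleGraph.mem_neighborFinset]; exact hu1.symm),
              SimpleGraph.card_neighborFinset_eq_degree]
            have := hdeg x (by omega)
            omega
        _ = (Sp G p (j + 1)).card := by simp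

lemma ball_card {G : SimpleGraph V} (hG : G.Connected) (p : V) (m : ℕ)
    (hS : ∀ j ≤ m, (Sp G p j).card ≤ 2) : ∀ j ≤ m, (Bl G p j).card ≤ 2 * j + 1 := by
  classical
  intro j
  induction j with
  | zero =>
    intro _
    have : Bl G p 0 ⊆ {p} := by
      intro x hx
      rw [Bl, Finset.mem_filter] at hx
      rw [Finset.mem_singleton]
      exact ((hG.dist_eq_zero_iff).1 (Nat.le_zero.1 hx.2)).symm
    exact (Finset.card_le_card this).trans (by simp)
  | succ j ih =>
    intro hj
    have hsub : Bl G p (j + 1) ⊆ Bl G p j ∪ Sp G p (j + 1) := by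
      intro x hx
      rw [Bl, Finset.mem_filter] at hx
      rw [Finset.mem_union, Bl, Sp, Finset.mem_filter, Finset.mem_filter]
      rcases Nat.lt_or_ge (G.dist p x) (j + 1) with h | h
      · exact Or.inl ⟨Finset.mem_univ _, by omega⟩
      · exact Or.inr ⟨Finset.mem_univ _, by omega⟩
    refine (Finset.card_le_card hsub).trans ((Finset.card_union_le _ _).trans ?_)
    have h1 := ih (by omega)
    have h2 := hS (j + 1) hj
    omega

open Classical in
/-- The tent function: if all vertices within distance `m` of `p` have degree at most two and the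
graph has at least `4 m + 2` vertices, then `λ_2 ≤ 24 / (m + 1)²`. -/
theorem tent {G : SimpleGraph V} (hG : G.Connected) (p : V) (m : ℕ)
    (hdeg : ∀ x, G.dist p x ≤ m → G.degree x ≤ 2) (hn : 4 * m + 2 ≤ Fintype.card V) :
    lam2 G ≤ 24 / ((m : ℝ) + 1) ^ 2 := by
  have : Nonempty V := ⟨p⟩
  have hS := sphere_card hG p m hdeg
  have hB := ball_card hG p m (fun j hj => hS j (by omega))
  have hBm := hB m le_rfl
  -- a vertex outside the ball
  obtain ⟨q, hq⟩ : ∃ q, m < G.dist p q := by
    by_contra hcon
    push Not at hcon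
    have : Bl G p m = Finset.univ := by
      ext x; simp [Bl, hcon x]
    rw [this, Finset.card_univ] at hBm
    omega
  let h : V → ℝ := fun x => ((m + 1 - G.dist p x : ℕ) : ℝ)
  have hout : ∀ x, x ∉ Bl G p m → h x = 0 := by
    intro x hx
    rw [Bl, Finset.mem_filter] at hx
    push Not at hx
    have := hx (Finset.mem_univ _)
    simp only [h]
    rw [Nat.sub_eq_zero_of_le (by omega), Nat.cast_zero]
  have hlip : ∀ x y, G.Adj x y → (h x - h y) ^ 2 ≤ 1 := by
    intro x y hxy
    have h1 : G.dist x y = 1 := SimpleGraph.dist_eq_one_iff_adj.2 hxy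
    have h2 := hG.dist_triangle (u := p) (v := x) (w := y)
    have h3 := hG.dist_triangle (u := p) (v := y) (w := x)
    rw [SimpleGraph.dist_comm (u := y) (v := x)] at h3
    have h4 : h x ≤ h y + 1 := by
      simp only [h]
      norm_cast
      omega
    have h5 : h y ≤ h x + 1 := by
      simp only [h]
      norm_cast
      omega
    nlinarith
  -- energy
  have hE : E G h ≤ 4 * (m + 1) := by
    have h1 : ∀ x y, (if G.Adj x y then (h x - h y) ^ 2 else 0) ≤
        (if x ∈ Bl G p m then (if G.Adj x y then (1 : ℝ) else 0) else 0) +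
        (if y ∈ Bl G p m then (if G.Adj y x then (1 : ℝ) else 0) else 0) := by
      intro x y
      by_cases ha : G.Adj x y
      · rw [if_pos ha, if_pos ha, if_pos ha.symm]
        by_cases hx : x ∈ Bl G p m
        · rw [if_pos hx]
          have := hlip x y ha
          have h0 : (0 : ℝ) ≤ (if y ∈ Bl G p m then (1 : ℝ) else 0) := by split_ifs <;> norm_num
          linarith
        · by_cases hy : y ∈ Bl G p m
          · rw [if_neg hx, if_pos hy]
            have := hlip x y ha
            linarith
          · rw [if_neg hx, if_neg hy, hout x hx, hout y hy]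
            norm_num
      · have ha' : ¬ G.Adj y x := fun h => ha h.symm
        simp [ha, ha']
    have h2 : ∑ x, ∑ y, (if x ∈ Bl G p m then (if G.Adj x y then (1 : ℝ) else 0) else 0) ≤
        2 * (2 * m + 1) := by
      have h3 : ∀ x, ∑ y, (if x ∈ Bl G p m then (if G.Adj x y then (1 : ℝ) else 0) else 0) =
          if x ∈ Bl G p m then (G.degree x : ℝ) else 0 := by
        intro x
        by_cases hx : x ∈ Bl G p m
        · simp only [if_pos hx]
          rw [Finset.sum_boole, ← SimpleGraph.card_neighborFinset_eq_degree,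
            SimpleGraph.neighborFinset_eq_filter]
        · simp only [if_neg hx, Finset.sum_const_zero]
      rw [Finset.sum_congr rfl fun x _ => h3 x, ← Finset.sum_filter]
      have h4 : ∑ x ∈ Finset.univ.filter (fun x => x ∈ Bl G p m), (G.degree x : ℝ) ≤
          ∑ x ∈ Finset.univ.filter (fun x => x ∈ Bl G p m), (2 : ℝ) := by
        refine Finset.sum_le_sum fun x hx => ?_
        rw [Finset.mem_filter, Bl, Finset.mem_filter] at hx
        have := hdeg x hx.2.2
        exact_mod_cast this
      refine h4.trans ?_
      rw [Finset.sum_const, nsmul_eq_mul, Finset.filter_mem_eq_inter, Finset.univ_inter]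
      have : ((Bl G p m).card : ℝ) ≤ 2 * m + 1 := by exact_mod_cast hBm
      linarith
    have h5 : ∑ x, ∑ y, (if y ∈ Bl G p m then (if G.Adj y x then (1 : ℝ) else 0) else 0) =
        ∑ x, ∑ y, (if x ∈ Bl G p m then (if G.Adj x y then (1 : ℝ) else 0) else 0) :=
      Finset.sum_comm
    have h6 : ∑ x, ∑ y, (if G.Adj x y then (h x - h y) ^ 2 else 0) ≤ 2 * (2 * (2 * m + 1)) := by
      refine (Finset.sum_le_sum fun x _ => Finset.sum_le_sum fun y _ => h1 x y).trans ?_
      simp only [Finset.sum_add_distrib]
      linarith
    unfold E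
    linarith
  -- norm
  have hN : ((m : ℝ) + 1) ^ 3 / 3 ≤ ∑ x, h x ^ 2 := by
    have h1 : ∀ k ≤ m + 1, ((k : ℝ)) ^ 3 / 3 ≤
        ∑ x ∈ Finset.univ.filter (fun x => m + 1 ≤ G.dist p x + k), h x ^ 2 := by
      intro k
      induction k with
      | zero => intro _; simp; positivity
      | succ k ih =>
        intro hk
        have ih' := ih (by omega)
        obtain ⟨u, hu⟩ := exists_dist hG p q (m - k) (by omega)
        have hsub : insert u (Finset.univ.filter (fun x => m + 1 ≤ G.dist p x + k)) ⊆
            Finset.univ.filter (fun x => m + 1 ≤ G.dist p x + (k + 1)) := by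
          intro x hx
          rw [Finset.mem_insert, Finset.mem_filter] at hx
          rw [Finset.mem_filter]
          rcases hx with rfl | hx
          · exact ⟨Finset.mem_univ _, by omega⟩
          · exact ⟨Finset.mem_univ _, by omega⟩
        have h2 := Finset.sum_le_sum_of_subset_of_nonneg hsub
          (f := fun x => h x ^ 2) (fun x _ _ => by positivity)
        rw [Finset.sum_insert (by rw [Finset.mem_filter]; omega)] at h2
        have h3 : h u = k + 1 := by
          simp only [h]
          rw [hu]
          have : m + 1 - (m - k) = k + 1 := by omega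
          rw [this]
          push_cast
          ring
        rw [h3] at h2
        push_cast
        have : (0 : ℝ) ≤ k := by positivity
        nlinarith
    have h2 := h1 (m + 1) le_rfl
    push_cast at h2
    refine h2.trans ?_
    exact Finset.sum_le_sum_of_subset_of_nonneg (Finset.filter_subset _ _)
      (fun x _ _ => by positivity)
  -- variance
  have hV : (∑ x, h x) ^ 2 / Fintype.card V ≤ (∑ x, h x ^ 2) / 2 := by
    have h1 : ∑ x, h x = ∑ x ∈ Bl G p m, h x := by
      symm
      exact Finset.sum_subset (Finset.subset_univ _) (fun x _ hx => hout x hx)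
    have h2 : (∑ x ∈ Bl G p m, h x) ^ 2 ≤ (Bl G p m).card * ∑ x ∈ Bl G p m, h x ^ 2 :=
      sq_sum_le_card_mul_sum_sq
    have h3 : ∑ x ∈ Bl G p m, h x ^ 2 ≤ ∑ x, h x ^ 2 :=
      Finset.sum_le_sum_of_subset_of_nonneg (Finset.subset_univ _) (fun x _ _ => by positivity)
    have h4 : ((Bl G p m).card : ℝ) ≤ 2 * m + 1 := by exact_mod_cast hBm
    have h5 : (4 * m + 2 : ℝ) ≤ Fintype.card V := by exact_mod_cast hn
    have h6 : 0 ≤ ∑ x ∈ Bl G p m, h x ^ 2 := Finset.sum_nonneg fun x _ => by positivity
    have h7 : (0 : ℝ) < Fintype.card V := by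
      have : (0 : ℝ) ≤ m := by positivity
      linarith
    rw [div_le_div_iff₀ h7 (by norm_num), h1]
    calc (∑ x ∈ Bl G p m, h x) ^ 2 * 2 ≤ ((Bl G p m).card * ∑ x ∈ Bl G p m, h x ^ 2) * 2 := by
          linarith
      _ ≤ ((2 * m + 1) * ∑ x ∈ Bl G p m, h x ^ 2) * 2 := by
          have := mul_le_mul_of_nonneg_right h4 h6
          linarith
      _ = (4 * m + 2) * ∑ x ∈ Bl G p m, h x ^ 2 := by ring
      _ ≤ Fintype.card V * ∑ x, h x ^ 2 := by
          have hm0 : (0 : ℝ) ≤ m := by positivity
          exact mul_le_mul h5 h3 h6 h7.le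
      _ = (∑ x, h x ^ 2) * Fintype.card V := by ring
  have hm0 : (0 : ℝ) ≤ m := by positivity
  have hNp : 0 < ((m : ℝ) + 1) ^ 3 / 3 := by positivity
  refine lam2_le_of G _ h (by linarith) ?_
  have h1 : ((m : ℝ) + 1) ^ 3 / 6 ≤ ∑ x, h x ^ 2 - (∑ x, h x) ^ 2 / Fintype.card V := by
    linarith
  refine hE.trans ?_
  calc (4 : ℝ) * (m + 1) = 24 / ((m : ℝ) + 1) ^ 2 * (((m : ℝ) + 1) ^ 3 / 6) := by
        field_simp
        ring
    _ ≤ _ := mul_le_mul_of_nonneg_left h1 (by positivity)

end Pool.Agent.R1.Gap
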