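import Mathlib
import Pool.Agent.R1.Height
import Pool.Agent.R1.DegBound
import Pool.Agent.R1.Tent

/-!
# The magneto-spectral height of graphs of minimum degree two
-/

set_option autoImplicit false
set_option linter.unusedSectionVars false

open Matrix Finset

namespace Pool.Agent.R1.Thread

open Pool.Agent.R1.Match Pool.Agent.R1.Mag Pool.Agent.R1.Height

variable {V : Type*} [Fintype V] (G : SimpleGraph V)

open Classical in
/-- general bound: minimum degree two gives `ν ≥ 1 / (2 n + 1)²` -/
theorem nu_general [Nonempty V] (hdeg : ∀ v, 2 ≤ G.degree v) :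
    1 / (2 * (Fintype.card V : ℝ) + 1) ^ 2 < nu G := by
  apply lt_nu
  intro r hr
  obtain ⟨n, hn⟩ : ∃ n, n = Fintype.card V := ⟨_, rfl⟩
  rw [← hn] at hr
  have hmain := P_pos G (fun v => (G.degree v : ℝ) - r)
    (fun k _ _ => 1 + 1 / (2 * (k : ℝ) + 1)) (Fintype.card V)
    (fun _ _ _ _ => by positivity) ?_ ?_ (Fintype.card V) le_rfl Finset.univ Finset.card_univ
  · exact hmain.1
  all_goals
    intro k u
  · intro v hk huv
    rw [← hn] at hk
    have hD : (2 : ℝ) ≤ G.degree u := by exact_mod_cast hdeg u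
    rw [Finset.sum_const, Finset.card_erase_of_mem (by rw [SimpleGraph.mem_neighborFinset]; exact huv),
      SimpleGraph.card_neighborFinset_eq_degree, nsmul_eq_mul]
    have h1 : 1 ≤ G.degree u := le_trans (by omega) (hdeg u)
    rw [Nat.cast_sub h1, Nat.cast_one]
    have hk0 : (0 : ℝ) ≤ k := by positivity
    have e1 : (1 + 1 / (2 * (k : ℝ) + 1))⁻¹ = 1 - 1 / (2 * k + 2) := by
      field_simp
      ring
    rw [e1]
    have hkn : 2 * (k : ℝ) + 3 ≤ 2 * n + 1 := by
      have : 2 * k + 3 ≤ 2 * n + 1 := by omega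
      exact_mod_cast this
    have e2 : 1 / (2 * (k : ℝ) + 2) - 1 / (2 * k + 3) = 1 / ((2 * k + 2) * (2 * k + 3)) := by
      field_simp
      ring
    have e3 : 1 / (2 * (n : ℝ) + 1) ^ 2 ≤ 1 / ((2 * (k : ℝ) + 2) * (2 * k + 3)) := by
      apply one_div_le_one_div_of_le (by positivity)
      nlinarith
    have e4 : (0 : ℝ) < 1 / (2 * (k : ℝ) + 2) := by positivity
    have e5 : ((k + 1 : ℕ) : ℝ) = k + 1 := by push_cast; ring
    rw [e5]
    have e6 : 1 / (2 * ((k : ℝ) + 1) + 1) = 1 / (2 * k + 3) := by
      congr 1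
      ring
    rw [e6]
    nlinarith
  · intro hk
    rw [← hn] at hk
    have hD : (2 : ℝ) ≤ G.degree u := by exact_mod_cast hdeg u
    rw [Finset.sum_const, SimpleGraph.card_neighborFinset_eq_degree, nsmul_eq_mul]
    have hk0 : (0 : ℝ) ≤ k := by positivity
    have e1 : (1 + 1 / (2 * (k : ℝ) + 1))⁻¹ = 1 - 1 / (2 * k + 2) := by
      field_simp
      ring
    rw [e1]
    have hkn : 2 * (k : ℝ) + 3 ≤ 2 * n + 1 := by
      have : 2 * k + 3 ≤ 2 * n + 1 := by omega
      exact_mod_cast this
    have e3 : 1 / (2 * (n : ℝ) + 1) ^ 2 ≤ 1 / ((2 * (k : ℝ) + 2) * (2 * k + 3)) := by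
      apply one_div_le_one_div_of_le (by positivity)
      nlinarith
    have e7 : 1 / ((2 * (k : ℝ) + 2) * (2 * k + 3)) < 1 / (2 * (k : ℝ) + 2) := by
      apply one_div_lt_one_div_of_lt (by positivity)
      nlinarith
    have e4 : (0 : ℝ) < 1 / (2 * (k : ℝ) + 2) := by positivity
    nlinarith

open Classical in
/-- bound from a step count to a branching vertex -/
theorem nu_thread [Nonempty V] (hdeg : ∀ v, 2 ≤ G.degree v) (J : V → V → ℕ) (l : ℕ)
    (hJl : ∀ u v, G.Adj u v → J u v ≤ l)
    (hJ0 : ∀ u v, G.Adj u v → 3 ≤ G.degree u → J u v = 0)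
    (hJ : ∀ u v, G.Adj u v → G.degree u = 2 → ∀ w, G.Adj u w → w ≠ v → J w u + 1 ≤ J u v) :
    1 / (4 * (l : ℝ) + 3) ^ 2 < nu G := by
  apply lt_nu
  intro r hr
  have hl0 : (0 : ℝ) ≤ l := by positivity
  -- bound of all inverse ratios
  have hinv : ∀ w u, G.Adj w u →
      (1 + 1 / (2 * (l : ℝ) + 3 + 2 * J w u))⁻¹ ≤ 1 - 1 / (4 * (l : ℝ) + 4) := by
    intro w u hwu
    have h1 : (J w u : ℝ) ≤ l := by exact_mod_cast hJl w u hwu
    have h0 : (0 : ℝ) ≤ J w u := by positivity
    have e1 : (1 + 1 / (2 * (l : ℝ) + 3 + 2 * J w u))⁻¹ =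
        1 - 1 / (2 * l + 4 + 2 * J w u) := by
      field_simp
      ring
    rw [e1]
    have := one_div_le_one_div_of_le (a := 2 * (l : ℝ) + 4 + 2 * J w u) (b := 4 * (l : ℝ) + 4)
      (by positivity) (by linarith)
    linarith
  have hr2 : r ≤ 1 / ((2 * (l : ℝ) + 2) * (2 * l + 3)) := by
    refine hr.trans (one_div_le_one_div_of_le (by positivity) ?_)
    nlinarith
  have hmain := P_pos G (fun v => (G.degree v : ℝ) - r)
    (fun _ u v => 1 + 1 / (2 * (l : ℝ) + 3 + 2 * J u v)) (Fintype.card V)
    (fun _ _ _ _ => by positivity) ?_ ?_ (Fintype.card V) le_rfl Finset.univ Finset.card_univ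
  · exact hmain.1
  · intro k u v _ huv
    by_cases hd3 : 3 ≤ G.degree u
    · rw [hJ0 u v huv hd3, Nat.cast_zero, mul_zero, add_zero]
      have hD : (3 : ℝ) ≤ G.degree u := by exact_mod_cast hd3
      have h1 : ∑ w ∈ (G.neighborFinset u).erase v,
          (1 + 1 / (2 * (l : ℝ) + 3 + 2 * J w u))⁻¹ ≤
          ∑ w ∈ (G.neighborFinset u).erase v, (1 - 1 / (4 * (l : ℝ) + 4)) := by
        refine Finset.sum_le_sum fun w hw => ?_
        rw [Finset.mem_erase, SimpleGraph.mem_neighborFinset] at hw
        exact hinv w u hw.2.symm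
      rw [Finset.sum_const, Finset.card_erase_of_mem (by rw [SimpleGraph.mem_neighborFinset]; exact huv),
        SimpleGraph.card_neighborFinset_eq_degree, nsmul_eq_mul, Nat.cast_sub (by omega),
        Nat.cast_one] at h1
      have e2 : 1 / (2 * (l : ℝ) + 2) - 1 / (2 * l + 3) = 1 / ((2 * l + 2) * (2 * l + 3)) := by
        field_simp
        ring
      have e3 : 1 / (2 * (l : ℝ) + 2) = 2 * (1 / (4 * l + 4)) := by
        field_simp
        ring
      have e4 : (0 : ℝ) < 1 / (4 * l + 4) := by positivity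
      nlinarith
    · have hd2 : G.degree u = 2 := by
        have := hdeg u
        omega
      have hcard : ((G.neighborFinset u).erase v).card = 1 := by
        rw [Finset.card_erase_of_mem (by rw [SimpleGraph.mem_neighborFinset]; exact huv),
          SimpleGraph.card_neighborFinset_eq_degree, hd2]
      obtain ⟨w, hw⟩ := Finset.card_eq_one.1 hcard
      have hw2 : w ∈ (G.neighborFinset u).erase v := by rw [hw]; exact Finset.mem_singleton_self w
      rw [Finset.mem_erase, SimpleGraph.mem_neighborFinset] at hw2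
      rw [hw, Finset.sum_singleton, hd2]
      have h1 := hJ u v huv hd2 w hw2.2 hw2.1
      have h2 := hJl u v huv
      obtain ⟨t, ht⟩ : ∃ t : ℝ, t = 2 * (l : ℝ) + 3 + 2 * J u v := ⟨_, rfl⟩
      rw [← ht]
      have ht1 : (0 : ℝ) ≤ J w u := by positivity
      have ht2 : (J w u : ℝ) + 1 ≤ J u v := by exact_mod_cast h1
      have ht3 : (J u v : ℝ) ≤ l := by exact_mod_cast h2
      have ht4 : t ≤ 4 * l + 3 := by linarith
      have ht5 : 5 ≤ t := by linarith
      have e1 : (1 + 1 / (2 * (l : ℝ) + 3 + 2 * J w u))⁻¹ =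
          1 - 1 / (2 * l + 4 + 2 * J w u) := by
        field_simp
        ring
      have e2 : 1 / (t - 1) ≤ 1 / (2 * (l : ℝ) + 4 + 2 * J w u) :=
        one_div_le_one_div_of_le (by positivity) (by linarith)
      have e3 : 1 / (t - 1) - 1 / t = 1 / (t * (t - 1)) := by
        have : t - 1 ≠ 0 := by linarith
        have : t ≠ 0 := by linarith
        field_simp
        ring
      have e4 : 1 / (4 * (l : ℝ) + 3) ^ 2 ≤ 1 / (t * (t - 1)) := by
        apply one_div_le_one_div_of_le
        · exact mul_pos (by linarith) (by linarith)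
        · nlinarith
      rw [e1]
      push_cast
      linarith
  · intro k u _
    have hD : (2 : ℝ) ≤ G.degree u := by exact_mod_cast hdeg u
    have h1 : ∑ w ∈ G.neighborFinset u, (1 + 1 / (2 * (l : ℝ) + 3 + 2 * J w u))⁻¹ ≤
        ∑ w ∈ G.neighborFinset u, (1 - 1 / (4 * (l : ℝ) + 4)) := by
      refine Finset.sum_le_sum fun w hw => ?_
      rw [SimpleGraph.mem_neighborFinset] at hw
      exact hinv w u hw.symm
    rw [Finset.sum_const, SimpleGraph.card_neighborFinset_eq_degree, nsmul_eq_mul] at h1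
    have e3 : 1 / (2 * (l : ℝ) + 2) = 2 * (1 / (4 * l + 4)) := by
      field_simp
      ring
    have e4 : (0 : ℝ) < 1 / (4 * l + 4) := by positivity
    have e5 : 1 / ((2 * (l : ℝ) + 2) * (2 * l + 3)) < 1 / (2 * (l : ℝ) + 2) := by
      apply one_div_lt_one_div_of_lt (by positivity)
      nlinarith
    nlinarith

open Classical in
/-- the next vertex of a walk without backtracking -/
noncomputable def nxt (v u : V) : V :=
  if h : ∃ w, G.Adj u w ∧ w ≠ v then h.choose else v

/-- the walk without backtracking, as a sequence of ordered pairs -/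
noncomputable def stp (e : V × V) : V × V := (e.2, nxt G e.1 e.2)

lemma stp_iter_fst (e : V × V) (j : ℕ) : ((stp G)^[j + 1] e).1 = ((stp G)^[j] e).2 := by
  rw [Function.iterate_succ_apply']
  rfl

open Classical in
lemma nxt_spec (hdeg : ∀ v, 2 ≤ G.degree v) (v u : V) : G.Adj u (nxt G v u) ∧ nxt G v u ≠ v := by
  have h : ∃ w, G.Adj u w ∧ w ≠ v := by
    by_contra hcon
    push Not at hcon
    have : G.neighborFinset u ⊆ {v} := by
      intro w hw
      rw [SimpleGraph.mem_neighborFinset] at hw
      rw [Finset.mem_singleton]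
      exact hcon w hw
    have h1 := Finset.card_le_card this
    rw [SimpleGraph.card_neighborFinset_eq_degree, Finset.card_singleton] at h1
    have := hdeg u
    omega
  rw [nxt, dif_pos h]
  exact h.choose_spec

open Classical in
/-- the set of times at which the walk is at a branching vertex -/
def tm (u v : V) : Set ℕ := {j | 3 ≤ G.degree ((stp G)^[j] (v, u)).2}

open Classical in
/-- If every ball of radius `h + 1` contains a branching vertex, then
`ν(G) > 1 / (8 h + 11)²`. -/
theorem nu_ball [Nonempty V] (hG : G.Connected) (hdeg : ∀ v, 2 ≤ G.degree v) (h : ℕ)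
    (hb : ∀ p, ∃ x, G.dist p x ≤ h + 1 ∧ 3 ≤ G.degree x) :
    1 / (8 * (h : ℝ) + 11) ^ 2 < nu G := by
  have key : ∀ u v, G.Adj u v → ∃ j ≤ 2 * h + 2, j ∈ tm G u v := by
    intro u v huv
    by_contra hcon
    push Not at hcon
    -- the sequence of vertices
    obtain ⟨x, hx⟩ : ∃ x : ℕ → V, ∀ i, x i = ((stp G)^[i] (v, u)).1 := ⟨_, fun _ => rfl⟩
    have hx2 : ∀ i, ((stp G)^[i] (v, u)).2 = x (i + 1) := by
      intro i
      rw [hx, stp_iter_fst]
    have hx3 : ∀ i, x (i + 2) = nxt G (x i) (x (i + 1)) := by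
      intro i
      rw [← hx2 (i + 1), Function.iterate_succ_apply']
      change nxt G ((stp G)^[i] (v, u)).1 ((stp G)^[i] (v, u)).2 = _
      rw [hx2, ← hx]
    have hadj : ∀ i, G.Adj (x (i + 1)) (x (i + 2)) := by
      intro i
      rw [hx3]
      exact (nxt_spec G hdeg _ _).1
    have hne : ∀ i, x (i + 2) ≠ x i := by
      intro i
      rw [hx3]
      exact (nxt_spec G hdeg _ _).2
    have hadj0 : G.Adj (x 0) (x 1) := by
      rw [hx, hx]
      exact huv.symm
    have hadj' : ∀ i, G.Adj (x i) (x (i + 1)) := by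
      intro i
      rcases i with _ | i
      · exact hadj0
      · exact hadj i
    have hdeg2 : ∀ i, i ≤ 2 * h + 2 → G.degree (x (i + 1)) = 2 := by
      intro i hi
      have h1 := hcon i hi
      rw [tm, Set.mem_ofPred_eq, hx2] at h1
      have := hdeg (x (i + 1))
      omega
    have hnb : ∀ i, i ≤ 2 * h + 2 → ∀ y, G.Adj (x (i + 1)) y → y = x i ∨ y = x (i + 2) := by
      intro i hi y hy
      by_contra hcon2
      push Not at hcon2
      have hsub : ({x i, x (i + 2), y} : Finset V) ⊆ G.neighborFinset (x (i + 1)) := by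
        intro w hw
        rw [SimpleGraph.mem_neighborFinset]
        simp only [Finset.mem_insert, Finset.mem_singleton] at hw
        rcases hw with rfl | rfl | rfl
        · exact (hadj' i).symm
        · exact hadj' (i + 1)
        · exact hy
      have h1 := Finset.card_le_card hsub
      rw [SimpleGraph.card_neighborFinset_eq_degree, hdeg2 i hi,
        Finset.card_insert_of_notMem, Finset.card_insert_of_notMem, Finset.card_singleton] at h1
      · omega
      · simp only [Finset.mem_singleton]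
        exact hcon2.2.symm
      · simp only [Finset.mem_insert, Finset.mem_singleton, not_or]
        exact ⟨(hne i).symm, hcon2.1.symm⟩
    have hball : ∀ k ≤ h + 1, ∀ y, G.dist (x (h + 2)) y ≤ k →
        ∃ i, h + 2 ≤ i + k ∧ i ≤ h + 2 + k ∧ y = x i := by
      intro k
      induction k with
      | zero =>
        intro _ y hy
        refine ⟨h + 2, by omega, by omega, ?_⟩
        exact ((hG.dist_eq_zero_iff).1 (Nat.le_zero.1 hy)).symm
      | succ k ih =>
        intro hk y hy
        rcases Nat.lt_or_ge (G.dist (x (h + 2)) y) (k + 1) with hlt | hge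
        · obtain ⟨i, hi1, hi2, hi3⟩ := ih (by omega) y (by omega)
          exact ⟨i, by omega, by omega, hi3⟩
        · obtain ⟨z, hz1, hz2⟩ := Pool.Agent.R1.Gap.dist_succ hG (x (h + 2)) y k (by omega)
          obtain ⟨i, hi1, hi2, rfl⟩ := ih (by omega) z (by omega)
          obtain ⟨i', rfl⟩ : ∃ i', i = i' + 1 := ⟨i - 1, by omega⟩
          rcases hnb i' (by omega) y hz1 with rfl | rfl
          · exact ⟨i', by omega, by omega, rfl⟩
          · exact ⟨i' + 2, by omega, by omega, rfl⟩
    obtain ⟨y, hy1, hy2⟩ := hb (x (h + 2))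
    obtain ⟨i, hi1, hi2, rfl⟩ := hball (h + 1) le_rfl y hy1
    obtain ⟨i', rfl⟩ : ∃ i', i = i' + 1 := ⟨i - 1, by omega⟩
    rw [hdeg2 i' (by omega)] at hy2
    omega
  have hsInf : ∀ u v, G.Adj u v → sInf (tm G u v) ∈ tm G u v ∧ sInf (tm G u v) ≤ 2 * h + 2 := by
    intro u v huv
    obtain ⟨j, hj1, hj2⟩ := key u v huv
    exact ⟨Nat.sInf_mem ⟨j, hj2⟩, (Nat.sInf_le hj2).trans hj1⟩
  have hfin := nu_thread G hdeg (fun u v => sInf (tm G u v)) (2 * h + 2)
    (fun u v huv => (hsInf u v huv).2) ?_ ?_
  · refine lt_of_eq_of_lt ?_ hfin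
    congr 2
    push_cast
    ring
  · intro u v huv hd
    have : 0 ∈ tm G u v := hd
    exact Nat.le_zero.1 (Nat.sInf_le this)
  · intro u v huv hd w hw hwv
    have hmem := (hsInf u v huv).1
    have hnxt : nxt G v u = w := by
      by_contra hne
      have h1 := nxt_spec G hdeg v u
      have hsub : ({v, w, nxt G v u} : Finset V) ⊆ G.neighborFinset u := by
        intro y hy
        rw [SimpleGraph.mem_neighborFinset]
        simp only [Finset.mem_insert, Finset.mem_singleton] at hy
        rcases hy with rfl | rfl | rfl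
        · exact huv
        · exact hw
        · exact h1.1
      have h2 := Finset.card_le_card hsub
      rw [SimpleGraph.card_neighborFinset_eq_degree, hd,
        Finset.card_insert_of_notMem, Finset.card_insert_of_notMem, Finset.card_singleton] at h2
      · omega
      · simp only [Finset.mem_singleton]
        exact fun h => hne h.symm
      · simp only [Finset.mem_insert, Finset.mem_singleton, not_or]
        exact ⟨hwv.symm, h1.2.symm⟩
    obtain ⟨s, hs⟩ : ∃ s, s = sInf (tm G u v) := ⟨_, rfl⟩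
    rw [← hs] at hmem ⊢
    rcases s with _ | s
    · exfalso
      have hmem' : 3 ≤ G.degree u := hmem
      rw [hd] at hmem'
      omega
    · have h3 : s ∈ tm G w u := by
        rw [tm, Set.mem_ofPred_eq] at hmem ⊢
        rw [Function.iterate_succ_apply] at hmem
        have : stp G (v, u) = (u, w) := by
          rw [stp, ← hnxt]
        rwa [this] at hmem
      have := Nat.sInf_le h3
      omega

end Pool.Agent.R1.Thread
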