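import Mathlib

/-!
# The level of rational orthogonal matrices and the walk matrix
-/

set_option autoImplicit false

open Matrix Polynomial Finset

namespace Pool.Agent.R1.WalkLevel

/-- a rational vector is integral -/
def IsInt {ι : Type*} (v : ι → ℚ) : Prop := ∀ i, ∃ z : ℤ, v i = z

lemma isInt_cast {ι : Type*} (v : ι → ℤ) : IsInt (fun i => (v i : ℚ)) := fun i => ⟨v i, rfl⟩

lemma IsInt.add {ι : Type*} {v w : ι → ℚ} (hv : IsInt v) (hw : IsInt w) : IsInt (v + w) := by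
  intro i
  obtain ⟨a, ha⟩ := hv i
  obtain ⟨b, hb⟩ := hw i
  exact ⟨a + b, by rw [Pi.add_apply, ha, hb]; push_cast; rfl⟩

lemma IsInt.sum {ι κ : Type*} (s : Finset κ) {v : κ → ι → ℚ} (hv : ∀ k ∈ s, IsInt (v k)) :
    IsInt (∑ k ∈ s, v k) := by
  classical
  induction s using Finset.induction_on with
  | empty => intro i; exact ⟨0, by simp⟩
  | insert k s hk ih =>
    rw [Finset.sum_insert hk]
    exact (hv k (Finset.mem_insert_self _ _)).add
      (ih fun l hl => hv l (Finset.mem_insert_of_mem hl))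

lemma IsInt.smul {ι : Type*} {v : ι → ℚ} (hv : IsInt v) (k : ℤ) : IsInt ((k : ℚ) • v) := by
  intro i
  obtain ⟨a, ha⟩ := hv i
  exact ⟨k * a, by rw [Pi.smul_apply, smul_eq_mul, ha]; push_cast; rfl⟩

lemma IsInt.exists {ι : Type*} {v : ι → ℚ} (hv : IsInt v) : ∃ z : ι → ℤ, v = fun i => (z i : ℚ) :=
  ⟨fun i => (hv i).choose, funext fun i => (hv i).choose_spec⟩

lemma isInt_dot {ι : Type*} [Fintype ι] {v w : ι → ℚ} (hv : IsInt v) (hw : IsInt w) :
    ∃ z : ℤ, v ⬝ᵥ w = z := by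
  obtain ⟨a, rfl⟩ := hv.exists
  obtain ⟨b, rfl⟩ := hw.exists
  exact ⟨a ⬝ᵥ b, by simp [dotProduct]⟩

/-- a full rank submodule `N` of `ℤ^n` seen through its dual -/
lemma smul_mem_of_dual {n : ℕ} (N : Submodule ℤ (Fin n → ℤ)) (hN : Module.finrank ℤ N = n) (m : ℤ)
    (h : ∀ y : Fin n → ℚ, (∀ x ∈ N, ∃ z : ℤ, (fun i => (x i : ℚ)) ⬝ᵥ y = z) →
      IsInt ((m : ℚ) • y)) (z : Fin n → ℤ) : m • z ∈ N := by
  obtain ⟨b, a, c, hc⟩ := Submodule.exists_smith_normal_form_of_rank_eq (N := N)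
    (Pi.basisFun ℤ (Fin n)) (by rw [hN]; simp)
  have ha : ∀ i, a i ≠ 0 := by
    intro i h0
    have h1 := hc i
    rw [h0, zero_smul] at h1
    exact c.ne_zero i (Subtype.ext h1)
  have hcoord : ∀ i (x : Fin n → ℤ), b.coord i x = ∑ k, x k * b.coord i (Pi.single k 1) := by
    intro i x
    have hx : x = ∑ k, x k • (Pi.single k 1 : Fin n → ℤ) := by
      funext j
      rw [Finset.sum_apply]
      simp [Pi.single_apply]
    conv_lhs => rw [hx]
    rw [map_sum]
    refine Finset.sum_congr rfl fun k _ => ?_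
    rw [map_smul, smul_eq_mul]
  have hdvd : ∀ i, a i ∣ m := by
    intro i
    have ha' : (a i : ℚ) ≠ 0 := by exact_mod_cast ha i
    have h1 := h (fun k => (b.coord i (Pi.single k 1) : ℚ) / a i) ?_
    · obtain ⟨w, hw⟩ := h1.exists
      have h2 : b.coord i (b i) = 1 := by simp
      rw [hcoord] at h2
      have h3 : (m : ℚ) = a i * ∑ k, (b i k : ℚ) * w k := by
        have h4 : ∀ k, (w k : ℚ) = m * ((b.coord i (Pi.single k 1) : ℚ) / a i) := by
          intro k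
          have := congrFun hw k
          simpa using this.symm
        simp only [h4]
        have h5 : ∀ k, (b i k : ℚ) * (m * ((b.coord i (Pi.single k 1) : ℚ) / a i)) =
            m / a i * ((b i k : ℚ) * (b.coord i (Pi.single k 1) : ℚ)) := by
          intro k
          ring
        rw [Finset.sum_congr rfl fun k _ => h5 k, ← Finset.mul_sum]
        have h6 : ∑ k, (b i k : ℚ) * (b.coord i (Pi.single k 1) : ℚ) = 1 := by exact_mod_cast h2
        rw [h6]
        field_simp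
      refine ⟨∑ k, b i k * w k, ?_⟩
      exact_mod_cast h3
    · intro x hx
      obtain ⟨t, ht⟩ : ∃ t : Fin n → ℤ, x = ∑ j, t j • (a j • b j) := by
        refine ⟨fun j => c.repr ⟨x, hx⟩ j, ?_⟩
        have h1 : x = ((∑ j, c.repr ⟨x, hx⟩ j • c j : N) : Fin n → ℤ) :=
          (congrArg Subtype.val (c.sum_repr ⟨x, hx⟩)).symm
        refine h1.trans ?_
        rw [Submodule.coe_sum]
        refine Finset.sum_congr rfl fun j _ => ?_
        rw [Submodule.coe_smul, hc]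
      refine ⟨t i, ?_⟩
      have h2 : b.coord i x = t i * a i := by
        rw [ht, map_sum, Finset.sum_eq_single i]
        · rw [map_smul, map_smul, Module.Basis.coord_apply, Module.Basis.repr_self,
            Finsupp.single_eq_same, smul_eq_mul, smul_eq_mul, mul_one]
        · intro j _ hj
          rw [map_smul, map_smul, Module.Basis.coord_apply, Module.Basis.repr_self,
            Finsupp.single_eq_of_ne hj.symm, smul_zero, smul_zero]
        · intro h; exact absurd (Finset.mem_univ _) h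
      rw [hcoord] at h2
      have h3 : ∑ k, (x k : ℚ) * (b.coord i (Pi.single k 1) : ℚ) = t i * a i := by
        exact_mod_cast h2
      have h4 : (fun i => (x i : ℚ)) ⬝ᵥ (fun k => (b.coord i (Pi.single k 1) : ℚ) / a i) =
          (∑ k, (x k : ℚ) * (b.coord i (Pi.single k 1) : ℚ)) / a i := by
        rw [dotProduct, Finset.sum_div]
        refine Finset.sum_congr rfl fun k _ => ?_
        ring
      rw [h4, h3]
      field_simp
  rw [← b.sum_repr z, Finset.smul_sum]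
  refine Submodule.sum_mem _ fun i _ => ?_
  obtain ⟨q, hq⟩ := hdvd i
  have h1 : m • b.repr z i • b i = (q * b.repr z i) • ((c i : N) : Fin n → ℤ) := by
    rw [hc, smul_smul, smul_smul, hq]
    congr 1
    ring
  rw [h1]
  exact N.smul_mem _ (c i).2

/-! ### Integer matrices acting on rational vectors -/

/-- the rational matrix of an integer matrix -/
abbrev q {n : ℕ} (M : Matrix (Fin n) (Fin n) ℤ) : Matrix (Fin n) (Fin n) ℚ :=
  M.map (Int.castRingHom ℚ)

lemma q_mulVec {n : ℕ} (M : Matrix (Fin n) (Fin n) ℤ) (v : Fin n → ℤ) :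
    q M *ᵥ (fun i => (v i : ℚ)) = fun i => ((M *ᵥ v) i : ℚ) := by
  funext i
  simp [mulVec, dotProduct]

lemma isInt_mulVec {n : ℕ} (M : Matrix (Fin n) (Fin n) ℤ) {v : Fin n → ℚ} (hv : IsInt v) :
    IsInt (q M *ᵥ v) := by
  obtain ⟨z, rfl⟩ := hv.exists
  rw [q_mulVec]
  exact isInt_cast _

lemma q_aeval {n : ℕ} (M : Matrix (Fin n) (Fin n) ℤ) (h : ℤ[X]) :
    aeval (q M) h = q (aeval M h) := by
  have f : ∃ f : Matrix (Fin n) (Fin n) ℤ →ₐ[ℤ] Matrix (Fin n) (Fin n) ℚ, ∀ N, f N = q N :=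
    ⟨((Int.castRingHom ℚ).mapMatrix : Matrix (Fin n) (Fin n) ℤ →+*
      Matrix (Fin n) (Fin n) ℚ).toIntAlgHom, fun N => rfl⟩
  obtain ⟨f, hf⟩ := f
  rw [← hf, ← hf]
  exact Polynomial.aeval_algHom_apply f M h

lemma transpose_aeval {n : ℕ} (M : Matrix (Fin n) (Fin n) ℚ) (hM : Mᵀ = M) (h : ℤ[X]) :
    (aeval M h)ᵀ = aeval M h := by
  induction h using Polynomial.induction_on' with
  | add a b ha hb => rw [map_add, transpose_add, ha, hb]
  | monomial k a =>
    rw [aeval_monomial]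
    rw [transpose_mul, transpose_pow, hM]
    have h1 : ((algebraMap ℤ (Matrix (Fin n) (Fin n) ℚ)) a)ᵀ =
        (algebraMap ℤ (Matrix (Fin n) (Fin n) ℚ)) a := by
      rw [Matrix.algebraMap_eq_diagonal, diagonal_transpose]
    rw [h1]
    exact (Algebra.commutes a (M ^ k)).symm

lemma dot_mulVec_symm {n : ℕ} (M : Matrix (Fin n) (Fin n) ℚ) (hM : Mᵀ = M) (v w : Fin n → ℚ) :
    v ⬝ᵥ (M *ᵥ w) = (M *ᵥ v) ⬝ᵥ w := by
  rw [dotProduct_mulVec, ← mulVec_transpose, hM]

section Walk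

variable {n : ℕ} (A : Matrix (Fin n) (Fin n) ℤ) (e : Fin n → ℤ)

/-- the matrix with columns `A^j e` -/
def walk : Matrix (Fin n) (Fin n) ℤ := Matrix.of fun i j => ((A ^ (j : ℕ)) *ᵥ e) i

/-- the columns of the walk matrix over `ℚ` -/
def col (k : ℕ) : Fin n → ℚ := (q A) ^ k *ᵥ (fun i => (e i : ℚ))

lemma q_pow (k : ℕ) : q (A ^ k) = (q A) ^ k :=
  map_pow (Int.castRingHom ℚ).mapMatrix A k

lemma col_eq (k : ℕ) : col A e k = fun i => (((A ^ k) *ᵥ e) i : ℚ) := by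
  rw [col, ← q_pow, q_mulVec]

lemma walk_col (j : Fin n) : (fun i => q (walk A e) i j) = col A e j := by
  rw [col_eq]
  funext i
  rfl

lemma mul_col (k : ℕ) : q A *ᵥ col A e k = col A e (k + 1) := by
  rw [col, col, mulVec_mulVec, pow_succ']

lemma col_n : col A e n = ∑ j : Fin n, ((-A.charpoly.coeff j : ℤ) : ℚ) • col A e j := by
  have h1 : A ^ n = ∑ j : Fin n, (-A.charpoly.coeff j) • A ^ (j : ℕ) := by
    have h2 := Matrix.aeval_self_charpoly A
    rw [Polynomial.aeval_eq_sum_range, Matrix.charpoly_natDegree_eq_dim, Fintype.card_fin,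
      Finset.sum_range_succ] at h2
    have h3 : A.charpoly.coeff n = 1 := by
      have := Matrix.charpoly_monic A
      rw [Polynomial.Monic, Polynomial.leadingCoeff, Matrix.charpoly_natDegree_eq_dim,
        Fintype.card_fin] at this
      exact this
    rw [h3, one_smul, Finset.sum_range] at h2
    rw [← sub_eq_zero, ← h2, sub_eq_add_neg, add_comm, ← Finset.sum_neg_distrib]
    congr 1
    refine Finset.sum_congr rfl fun j _ => ?_
    rw [neg_smul, neg_neg]
  rw [col_eq, h1]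
  funext i
  rw [Finset.sum_apply]
  have h4 : ((∑ j : Fin n, (-A.charpoly.coeff j) • A ^ (j : ℕ)) *ᵥ e) i =
      ∑ j : Fin n, (-A.charpoly.coeff j) * (((A ^ (j : ℕ)) *ᵥ e) i) := by
    rw [Matrix.sum_mulVec, Finset.sum_apply]
    refine Finset.sum_congr rfl fun j _ => ?_
    rw [smul_mulVec, Pi.smul_apply, smul_eq_mul]
  rw [h4]
  push_cast
  refine Finset.sum_congr rfl fun j _ => ?_
  rw [Pi.smul_apply, col_eq, smul_eq_mul]

variable {A e}

section Dual

variable (hA : Aᵀ = A) (hW : (walk A e).det ≠ 0)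

/-- the rows of the inverse of the walk matrix -/
noncomputable def om (A : Matrix (Fin n) (Fin n) ℤ) (e : Fin n → ℤ) (i : Fin n) : Fin n → ℚ :=
  fun k => (q (walk A e))⁻¹ i k

include hW

lemma isUnit_det : IsUnit (q (walk A e)).det := by
  rw [q, ← RingHom.mapMatrix_apply, ← RingHom.map_det]
  exact isUnit_iff_ne_zero.2 (by simpa using hW)

lemma om_col (i j : Fin n) : om A e i ⬝ᵥ col A e j = if i = j then 1 else 0 := by
  have h := congrFun (congrFun (Matrix.nonsing_inv_mul _ (isUnit_det hW)) i) j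
  rw [Matrix.mul_apply, Matrix.one_apply] at h
  rw [← h, dotProduct]
  refine Finset.sum_congr rfl fun k _ => ?_
  rw [← walk_col]
  rfl

lemma expand (x : Fin n → ℚ) : x = ∑ j : Fin n, (col A e j ⬝ᵥ x) • om A e j := by
  funext k
  have h1 : x k = (x ᵥ* (q (walk A e) * (q (walk A e))⁻¹)) k := by
    rw [Matrix.mul_nonsing_inv _ (isUnit_det hW), vecMul_one]
  rw [h1, ← vecMul_vecMul, Finset.sum_apply, vecMul, dotProduct]
  refine Finset.sum_congr rfl fun j _ => ?_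
  rw [Pi.smul_apply, smul_eq_mul, om, vecMul, dotProduct_comm, ← walk_col]

lemma expand' (x : Fin n → ℚ) : x = ∑ j : Fin n, (om A e j ⬝ᵥ x) • col A e j := by
  funext k
  have h1 : x k = ((q (walk A e) * (q (walk A e))⁻¹) *ᵥ x) k := by
    rw [Matrix.mul_nonsing_inv _ (isUnit_det hW), one_mulVec]
  rw [h1, ← mulVec_mulVec, Finset.sum_apply, mulVec, dotProduct]
  refine Finset.sum_congr rfl fun j _ => ?_
  rw [Pi.smul_apply, smul_eq_mul, ← walk_col, mul_comm]
  rfl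

lemma expand_walk (x : Fin n → ℚ) (h : ∀ j : Fin n, ∃ z : ℤ, om A e j ⬝ᵥ x = z) :
    ∃ y : Fin n → ℤ, x = q (walk A e) *ᵥ (fun i => (y i : ℚ)) := by
  choose y hy using h
  refine ⟨y, ?_⟩
  rw [expand' hW x]
  funext k
  rw [Finset.sum_apply, mulVec, dotProduct]
  refine Finset.sum_congr rfl fun j _ => ?_
  rw [Pi.smul_apply, smul_eq_mul, ← walk_col, hy, mul_comm]

lemma eq_om (i : Fin n) (x : Fin n → ℚ)
    (h : ∀ j : Fin n, col A e j ⬝ᵥ x = if i = j then 1 else 0) : x = om A e i := by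
  rw [expand hW x, Finset.sum_eq_single i]
  · rw [h, if_pos rfl, one_smul]
  · intro j _ hj
    rw [h, if_neg hj.symm, zero_smul]
  · intro h; exact absurd (Finset.mem_univ _) h

include hA

/-- all rows of the inverse of the walk matrix are obtained from the last one -/
lemma om_eq (l : Fin n) (hl : (l : ℕ) + 1 = n) (k : ℕ) :
    ∀ i : Fin n, (i : ℕ) + 1 + k = n → ∃ h : ℤ[X], om A e i = aeval (q A) h *ᵥ om A e l := by
  have hq : (q A)ᵀ = q A := by rw [q, ← transpose_map, hA]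
  induction k with
  | zero =>
    intro i hi
    have : i = l := Fin.ext (by omega)
    subst this
    exact ⟨1, by rw [map_one, one_mulVec]⟩
  | succ k ih =>
    intro i hi
    obtain ⟨h, hh⟩ := ih ⟨i + 1, by omega⟩ (by simp only; omega)
    obtain ⟨i', hi'⟩ : ∃ i' : Fin n, i' = ⟨i + 1, by omega⟩ := ⟨_, rfl⟩
    rw [← hi'] at hh
    have hi'v : (i' : ℕ) = i + 1 := by rw [hi']
    refine ⟨X * h - C (-A.charpoly.coeff i'), ?_⟩
    rw [map_sub, map_mul, aeval_X, aeval_C, sub_mulVec, ← mulVec_mulVec, ← hh]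
    symm
    apply eq_om hW
    intro j
    rw [dotProduct_sub, dot_mulVec_symm _ hq, mul_col]
    have h1 : col A e j ⬝ᵥ ((algebraMap ℤ (Matrix (Fin n) (Fin n) ℚ))
        (-A.charpoly.coeff i') *ᵥ om A e l) =
        ((-A.charpoly.coeff i' : ℤ) : ℚ) * (if l = j then 1 else 0) := by
      rw [Matrix.algebraMap_eq_diagonal]
      have : diagonal ((algebraMap ℤ (Fin n → ℚ)) (-A.charpoly.coeff i')) *ᵥ om A e l =
          ((-A.charpoly.coeff i' : ℤ) : ℚ) • om A e l := by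
        funext r
        rw [mulVec_diagonal]
        simp
      rw [this, dotProduct_smul, smul_eq_mul, dotProduct_comm, om_col hW]
    rw [h1]
    by_cases hj : (j : ℕ) + 1 < n
    · have hlj : l ≠ j := by
        intro h; rw [h] at hl; omega
      rw [if_neg hlj, mul_zero, sub_zero]
      have h2 := om_col hW i' ⟨j + 1, hj⟩
      rw [dotProduct_comm] at h2
      simp only at h2
      rw [h2]
      by_cases hij : i = j
      · rw [if_pos hij, if_pos]
        exact Fin.ext (by simp only; rw [hi'v, hij])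
      · rw [if_neg hij, if_neg]
        intro h3
        apply hij
        have := congrArg Fin.val h3
        simp only at this
        exact Fin.ext (by omega)
    · have hjl : j = l := Fin.ext (by omega)
      have hne : i ≠ j := by
        intro h; rw [h] at hi; omega
      rw [if_neg hne, hjl, if_pos rfl, mul_one]
      rw [show (l : ℕ) + 1 = n from hl, col_n, sum_dotProduct, Finset.sum_eq_single i']
      · rw [smul_dotProduct, dotProduct_comm, om_col hW, if_pos rfl, smul_eq_mul, mul_one, sub_self]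
      · intro r _ hr
        rw [smul_dotProduct, dotProduct_comm, om_col hW, if_neg hr.symm, smul_zero]
      · intro h; exact absurd (Finset.mem_univ _) h

lemma om_all (l : Fin n) (hl : (l : ℕ) + 1 = n) (i : Fin n) :
    ∃ h : ℤ[X], om A e i = aeval (q A) h *ᵥ om A e l :=
  om_eq hA hW l hl (n - 1 - i) i (by omega)

lemma exists_poly (l : Fin n) (hl : (l : ℕ) + 1 = n) (x : Fin n → ℚ)
    (hx : ∀ j : Fin n, ∃ z : ℤ, col A e j ⬝ᵥ x = z) :
    ∃ h : ℤ[X], x = aeval (q A) h *ᵥ om A e l := by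
  choose z hz using hx
  choose g hg using om_all hA hW l hl
  refine ⟨∑ j, C (z j) * g j, ?_⟩
  rw [map_sum, Matrix.sum_mulVec, expand hW x]
  refine Finset.sum_congr rfl fun j _ => ?_
  rw [map_mul, aeval_C, ← mulVec_mulVec, ← hg, hz, Matrix.algebraMap_eq_diagonal]
  funext r
  rw [mulVec_diagonal]
  simp

/-- the product of two elements of a self-dual ideal vanishes -/
lemma square_zero (l : Fin n) (hl : (l : ℕ) + 1 = n) (h : ℤ[X]) (u : Fin n → ℚ) (hu : IsInt u)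
    (ha : IsInt (aeval (q A) h *ᵥ om A e l)) :
    ∃ y : Fin n → ℤ, aeval (q A) h *ᵥ u = q (walk A e) *ᵥ (fun i => (y i : ℚ)) := by
  have hq : (q A)ᵀ = q A := by rw [q, ← transpose_map, hA]
  apply expand_walk hW
  intro j
  obtain ⟨g, hg⟩ := om_all hA hW l hl j
  rw [hg, dot_mulVec_symm _ (transpose_aeval _ hq h), mulVec_mulVec, ← map_mul, mul_comm, map_mul,
    ← mulVec_mulVec, ← dot_mulVec_symm _ (transpose_aeval _ hq g), q_aeval A g]
  exact isInt_dot ha (isInt_mulVec _ hu)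

end Dual

end Walk

section Main

variable {n : ℕ} {A B : Matrix (Fin n) (Fin n) ℤ} {e e' : Fin n → ℤ} {Q : Matrix (Fin n) (Fin n) ℚ}

lemma conj_pow (hQ : Qᵀ * Q = 1) (hB : Qᵀ * q A * Q = q B) (k : ℕ) :
    Qᵀ * (q A) ^ k * Q = (q B) ^ k := by
  have hQ' : Q * Qᵀ = 1 := mul_eq_one_comm.1 hQ
  induction k with
  | zero => rw [pow_zero, pow_zero, mul_one, hQ]
  | succ k ih =>
    rw [pow_succ, pow_succ, ← ih, ← hB]
    calc Qᵀ * ((q A) ^ k * q A) * Q = Qᵀ * (q A) ^ k * 1 * q A * Q := by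
          simp only [Matrix.mul_assoc, Matrix.mul_one]
      _ = _ := by rw [← hQ']; simp only [Matrix.mul_assoc]

lemma conj_aeval (hQ : Qᵀ * Q = 1) (hB : Qᵀ * q A * Q = q B) (h : ℤ[X]) :
    Qᵀ * aeval (q A) h * Q = aeval (q B) h := by
  induction h using Polynomial.induction_on' with
  | add a b ha hb => rw [map_add, map_add, Matrix.mul_add, Matrix.add_mul, ha, hb]
  | monomial k a =>
    rw [aeval_monomial, aeval_monomial, ← conj_pow hQ hB k]
    have h1 : ∀ M : Matrix (Fin n) (Fin n) ℚ, (algebraMap ℤ (Matrix (Fin n) (Fin n) ℚ)) a * M =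
        (a : ℚ) • M := by
      intro M
      rw [Matrix.algebraMap_eq_diagonal]
      ext i j
      rw [diagonal_mul, Matrix.smul_apply]
      simp
    rw [h1, h1, Matrix.mul_smul, Matrix.smul_mul]

lemma conj_col (hQ : Qᵀ * Q = 1) (hB : Qᵀ * q A * Q = q B)
    (he : Qᵀ *ᵥ (fun i => (e i : ℚ)) = fun i => (e' i : ℚ)) (k : ℕ) :
    Qᵀ *ᵥ col A e k = col B e' k := by
  have hQ' : Q * Qᵀ = 1 := mul_eq_one_comm.1 hQ
  rw [col, col, ← conj_pow hQ hB, ← he]
  simp only [mulVec_mulVec]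
  rw [Matrix.mul_assoc _ Q Qᵀ, hQ', mul_one]

lemma conj_walk (hQ : Qᵀ * Q = 1) (hB : Qᵀ * q A * Q = q B)
    (he : Qᵀ *ᵥ (fun i => (e i : ℚ)) = fun i => (e' i : ℚ)) :
    Qᵀ * q (walk A e) = q (walk B e') := by
  ext i j
  have h := congrFun (conj_col hQ hB he j) i
  rw [← walk_col, ← walk_col] at h
  exact h

lemma main_a (hA : Aᵀ = A) (hW : (walk A e).det ≠ 0) (hn : 0 < n)
    (hQ : Qᵀ * Q = 1) (hB : Qᵀ * q A * Q = q B)
    (he : Qᵀ *ᵥ (fun i => (e i : ℚ)) = fun i => (e' i : ℚ)) (m : ℤ)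
    (hm : ∀ x : Fin n → ℚ, IsInt x → IsInt (Qᵀ *ᵥ x) →
      ∃ y : Fin n → ℤ, (m : ℚ) • x = q (walk A e) *ᵥ (fun i => (y i : ℚ))) :
    ∀ i j, ∃ z : ℤ, (m : ℚ) * Q i j = z := by
  have hQ' : Q * Qᵀ = 1 := mul_eq_one_comm.1 hQ
  have hq : (q A)ᵀ = q A := by rw [q, ← transpose_map, hA]
  obtain ⟨l, hl⟩ : ∃ l : Fin n, (l : ℕ) + 1 = n := ⟨⟨n - 1, by omega⟩, by simp only; omega⟩
  have hW2 := conj_walk hQ hB he
  -- the submodule
  let f : ((Fin n → ℤ) × (Fin n → ℤ)) →ₗ[ℤ] (Fin n → ℤ) :=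
    (Matrix.mulVecLin (walk A e)ᵀ).coprod (Matrix.mulVecLin (walk B e')ᵀ)
  have hf : ∀ u v, f (u, v) = (walk A e)ᵀ *ᵥ u + (walk B e')ᵀ *ᵥ v := fun u v => rfl
  have hrank : Module.finrank ℤ (LinearMap.range f) = n := by
    apply le_antisymm
    · have := Submodule.finrank_le (LinearMap.range f)
      rwa [Module.finrank_fintype_fun_eq_card, Fintype.card_fin] at this
    · have h1 : Function.Injective (Matrix.mulVecLin (walk A e)ᵀ) := by
        rw [← LinearMap.ker_eq_bot, LinearMap.ker_eq_bot']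
        intro v hv
        exact Matrix.eq_zero_of_mulVec_eq_zero (by rwa [det_transpose]) hv
      have h2 : LinearMap.range (Matrix.mulVecLin (walk A e)ᵀ) ≤ LinearMap.range f := by
        rintro _ ⟨u, rfl⟩
        exact ⟨(u, 0), by rw [hf, mulVec_zero, add_zero]; rfl⟩
      have h3 := LinearMap.finrank_range_of_inj h1
      rw [Module.finrank_fintype_fun_eq_card, Fintype.card_fin] at h3
      exact h3.symm.le.trans (Submodule.finrank_mono h2)
  have hdual : ∀ z : Fin n → ℤ, m • z ∈ LinearMap.range f := by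
    apply smul_mem_of_dual _ hrank
    intro y hy
    have hint : ∀ (M : Matrix (Fin n) (Fin n) ℤ), (∀ u : Fin n → ℤ, ∃ z : ℤ,
        (fun i => ((Mᵀ *ᵥ u) i : ℚ)) ⬝ᵥ y = z) → IsInt (q M *ᵥ y) := by
      intro M hM i
      obtain ⟨z, hz⟩ := hM (Pi.single i 1)
      refine ⟨z, ?_⟩
      rw [← hz, mulVec]
      congr 1
      funext k
      simp
    have h1 : IsInt (q (walk A e) *ᵥ y) := by
      apply hint
      intro u
      apply hy
      exact ⟨(u, 0), by rw [hf, mulVec_zero, add_zero]⟩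
    have h2 : IsInt (q (walk B e') *ᵥ y) := by
      apply hint
      intro u
      apply hy
      exact ⟨(0, u), by rw [hf, mulVec_zero, zero_add]⟩
    rw [← hW2, ← mulVec_mulVec] at h2
    obtain ⟨w, hw⟩ := hm _ h1 h2
    have h3 : (m : ℚ) • y = fun i => (w i : ℚ) := by
      rw [← mulVec_smul] at hw
      have h4 := congrArg (fun v => (q (walk A e))⁻¹ *ᵥ v) hw
      simp only [mulVec_mulVec, Matrix.nonsing_inv_mul _ (isUnit_det hW), one_mulVec] at h4
      exact h4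
    rw [h3]
    exact isInt_cast w
  obtain ⟨⟨u, v⟩, huv⟩ := hdual (Pi.single l 1)
  rw [hf] at huv
  have hε : (m : ℚ) • om A e l = (fun i => (u i : ℚ)) + Q *ᵥ (fun i => (v i : ℚ)) := by
    rw [expand hW ((fun i => (u i : ℚ)) + Q *ᵥ (fun i => (v i : ℚ)))]
    have h1 : ∀ j : Fin n, col A e j ⬝ᵥ ((fun i => (u i : ℚ)) + Q *ᵥ (fun i => (v i : ℚ))) =
        if l = j then (m : ℚ) else 0 := by
      intro j
      have h2 := congrFun huv j
      rw [dotProduct_add, dotProduct_mulVec, ← mulVec_transpose, conj_col hQ hB he, ← walk_col,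
        ← walk_col]
      rw [Pi.add_apply, Pi.smul_apply, smul_eq_mul, Pi.single_apply] at h2
      have h3 : ((m * (if j = l then 1 else 0) : ℤ) : ℚ) = if l = j then (m : ℚ) else 0 := by
        by_cases hjl : j = l
        · subst hjl; simp
        · rw [if_neg hjl, if_neg (Ne.symm hjl)]; simp
      rw [← h3, ← h2]
      simp [mulVec, dotProduct]
    simp only [h1]
    rw [Finset.sum_eq_single l]
    · rw [if_pos rfl]
    · intro j _ hj
      rw [if_neg hj.symm, zero_smul]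
    · intro h; exact absurd (Finset.mem_univ _) h
  intro i j
  have ha : IsInt (Pi.single i (1 : ℚ) : Fin n → ℚ) := by
    intro k
    by_cases hk : k = i
    · subst hk; exact ⟨1, by simp⟩
    · exact ⟨0, by rw [Pi.single_eq_of_ne hk]; simp⟩
  obtain ⟨h, hh⟩ := exists_poly hA hW l hl (Pi.single i (1 : ℚ)) fun j =>
    isInt_dot (by rw [col_eq]; exact isInt_cast _) ha
  obtain ⟨y, hy⟩ := square_zero hA hW l hl h (fun i => (u i : ℚ)) (isInt_cast u) (hh ▸ ha)
  have h1 : Qᵀ *ᵥ ((m : ℚ) • (Pi.single i (1 : ℚ) : Fin n → ℚ)) =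
      q (walk B e') *ᵥ (fun i => (y i : ℚ)) + q (aeval B h) *ᵥ (fun i => (v i : ℚ)) := by
    rw [hh, ← mulVec_smul, hε, mulVec_add, mulVec_add, hy, mulVec_mulVec, hW2, ← q_aeval,
      ← conj_aeval hQ hB]
    congr 1
    rw [mulVec_mulVec, mulVec_mulVec, Matrix.mul_assoc]
  have h2 : IsInt (Qᵀ *ᵥ ((m : ℚ) • (Pi.single i (1 : ℚ) : Fin n → ℚ))) := by
    rw [h1]
    exact (isInt_mulVec _ (isInt_cast y)).add (isInt_mulVec _ (isInt_cast v))
  obtain ⟨z, hz⟩ := h2 j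
  refine ⟨z, ?_⟩
  rw [← hz, mulVec_smul, Pi.smul_apply, smul_eq_mul]
  congr 1
  simp

end Main

/-! ### Arithmetic of the last two invariant factors -/

lemma gcd_prime_pow {p : ℕ} (hp : p.Prime) (a : ℤ) (t : ℕ) :
    ∃ v : ℕ, v ≤ t ∧ (p : ℤ) ^ v ∣ a ∧ ∃ x y : ℤ, (p : ℤ) ^ v = a * x + (p : ℤ) ^ t * y := by
  have h1 : Int.gcd a ((p : ℤ) ^ t) ∣ p ^ t := by
    have := Int.gcd_dvd_right (a := a) (b := (p : ℤ) ^ t)
    exact_mod_cast this
  obtain ⟨v, hv, hg⟩ := (Nat.dvd_prime_pow hp).1 h1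
  refine ⟨v, hv, ?_, Int.gcdA a ((p : ℤ) ^ t), Int.gcdB a ((p : ℤ) ^ t), ?_⟩
  · have := Int.gcd_dvd_left (a := a) (b := (p : ℤ) ^ t)
    rw [hg] at this
    exact_mod_cast this
  · rw [← Int.gcd_eq_gcd_ab, hg]
    push_cast
    rfl

lemma compare {p : ℕ} (hp : p.Prime) (a b : ℤ) (t : ℕ) :
    (∃ c : ℤ, (p : ℤ) ^ t ∣ a - c * b) ∨ (∃ c : ℤ, (p : ℤ) ^ t ∣ b - c * a) := by
  obtain ⟨v, -, hv, x, y, hxy⟩ := gcd_prime_pow hp a t
  obtain ⟨w, -, hw, x', y', hxy'⟩ := gcd_prime_pow hp b t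
  rcases le_total v w with h | h
  · right
    obtain ⟨r, hr⟩ := (pow_dvd_pow (p : ℤ) h).trans hw
    refine ⟨x * r, y * r, ?_⟩
    rw [hr, hxy]
    ring
  · left
    obtain ⟨r, hr⟩ := (pow_dvd_pow (p : ℤ) h).trans hv
    refine ⟨x' * r, y' * r, ?_⟩
    rw [hr, hxy']
    ring

lemma drop {M : Type*} [AddCommGroup M] (N : Submodule ℤ M) (x : M) {p : ℕ} (hp : p.Prime)
    (s s' : ℕ) (c α : ℤ) (hα : ¬ (p : ℤ) ^ s ∣ α) (h1 : α • x ∈ N)
    (h2 : ((p : ℤ) ^ s' * c) • x ∈ N) : ((p : ℤ) ^ (s - 1) * c) • x ∈ N := by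
  obtain ⟨v, -, hv, y, z, hyz⟩ := gcd_prime_pow hp α s'
  have hvs : v < s := by
    by_contra h
    exact hα ((pow_dvd_pow (p : ℤ) (not_lt.1 h)).trans hv)
  obtain ⟨k, hk⟩ := pow_dvd_pow (p : ℤ) (show v ≤ s - 1 by omega)
  have h3 : ((p : ℤ) ^ (s - 1) * c) • x = (k * c * y) • (α • x) + (k * z) • (((p : ℤ) ^ s' * c) • x) := by
    rw [smul_smul, smul_smul, ← add_smul, hk]
    congr 1
    calc (p : ℤ) ^ v * k * c = k * c * (p : ℤ) ^ v := by ring
      _ = _ := by rw [hyz]; ring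
  rw [h3]
  exact N.add_mem (N.smul_mem _ h1) (N.smul_mem _ h2)

lemma pow_dvd_of_dvd_mul {p : ℕ} (hp : p.Prime) {c : ℤ} (hc : ¬ (p : ℤ) ∣ c) {s : ℕ} {a : ℤ}
    (h : (p : ℤ) ^ s ∣ a * c) : (p : ℤ) ^ s ∣ a := by
  have hpp : Prime (p : ℤ) := Nat.prime_iff_prime_int.1 hp
  have h1 : IsCoprime ((p : ℤ) ^ s) c := by
    apply IsCoprime.pow_left
    exact (Prime.coprime_iff_not_dvd hpp).2 hc
  exact h1.dvd_of_dvd_mul_right h

lemma arith {n : ℕ} (W U V : Matrix (Fin n) (Fin n) ℤ) (d : Fin n → ℤ) (hU : IsUnit U.det)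
    (hd : U * W * V = diagonal d) (i j : Fin n) (hi : (i : ℕ) + 2 = n)
    (hj : (j : ℕ) + 1 = n) (hdi : ∀ k, k ≤ i → d k ∣ d i) (hdj : d i ∣ d j) {p : ℕ} (hp : p.Prime)
    (t1 t2 : ℕ) (c1 c2 : ℤ) (h1 : d j = (p : ℤ) ^ t1 * c1) (h2 : d i = (p : ℤ) ^ t2 * c2)
    (hc1 : ¬ (p : ℤ) ∣ c1) (hc2 : ¬ (p : ℤ) ∣ c2) (ht : t2 ≤ t1) (s : ℕ)
    (L : Submodule ℤ (Fin n → ℤ)) (hM : ∀ y, W *ᵥ y ∈ L) (g h : Fin n → ℤ)
    (hg : ∀ α : ℤ, α • g ∈ L → (p : ℤ) ^ s ∣ α) (hh : h ∈ L)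
    (hh' : ∀ β : ℤ, (∃ y, β • h = W *ᵥ y) → (p : ℤ) ^ s ∣ β) : 2 * s ≤ t1 + t2 := by
  have hpp : Prime (p : ℤ) := Nat.prime_iff_prime_int.1 hp
  have hUinj : ∀ x y : Fin n → ℤ, U *ᵥ x = U *ᵥ y → x = y := by
    intro x y hxy
    exact Matrix.mulVec_injective_of_isUnit ((Matrix.isUnit_iff_isUnit_det U).2 hU) hxy
  -- membership criterion
  have hmem : ∀ x : Fin n → ℤ, (∀ k, d k ∣ (U *ᵥ x) k) → ∃ y, x = W *ᵥ y := by
    intro x hx
    choose z hz using hx
    refine ⟨V *ᵥ z, hUinj _ _ ?_⟩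
    rw [mulVec_mulVec, mulVec_mulVec, hd]
    funext k
    rw [mulVec_diagonal, hz]
  have hc12 : c2 ∣ c1 := by
    have h3 : c2 ∣ (p : ℤ) ^ t1 * c1 := by
      rw [← h1]
      exact (Dvd.intro_left _ h2.symm).trans hdj
    have h4 : IsCoprime c2 ((p : ℤ) ^ t1) :=
      (IsCoprime.pow_left ((Prime.coprime_iff_not_dvd hpp).2 hc2)).symm
    exact h4.dvd_of_dvd_mul_left h3
  -- the main membership
  have key : ∀ (x : Fin n → ℤ) (k : ℕ), t2 ≤ k → (p : ℤ) ^ t1 ∣ (p : ℤ) ^ k * (U *ᵥ x) j →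
      ∃ y, ((p : ℤ) ^ k * c1) • x = W *ᵥ y := by
    intro x k hk hx
    apply hmem
    intro r
    rw [mulVec_smul, Pi.smul_apply, smul_eq_mul]
    by_cases hr : r = j
    · subst hr
      rw [h1, mul_comm ((p : ℤ) ^ k) c1, mul_assoc, mul_comm ((p : ℤ) ^ t1)]
      exact mul_dvd_mul_left _ hx
    · have hri : r ≤ i := by
        have h3 : (r : ℕ) ≠ j := fun h => hr (Fin.ext h)
        have h4 := r.2
        exact Fin.mk_le_of_le_val (by omega)
      refine (hdi r hri).trans ?_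
      rw [h2]
      exact Dvd.dvd.mul_right (mul_dvd_mul (pow_dvd_pow _ hk) hc12) _
  rcases compare hp ((U *ᵥ g) j) ((U *ᵥ h) j) t1 with ⟨c, hc⟩ | ⟨c, hc⟩
  · -- `g - c h`
    obtain ⟨y, hy⟩ := key (g - c • h) t2 le_rfl (by
      rw [mulVec_sub, mulVec_smul, Pi.sub_apply, Pi.smul_apply, smul_eq_mul]
      exact Dvd.dvd.mul_left hc _)
    have h3 : ((p : ℤ) ^ t2 * c1) • g ∈ L := by
      have h4 : ((p : ℤ) ^ t2 * c1) • g = W *ᵥ y + ((p : ℤ) ^ t2 * c1 * c) • h := by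
        rw [← hy, smul_sub, smul_smul]
        abel
      rw [h4]
      exact L.add_mem (hM y) (L.smul_mem _ hh)
    have h5 := pow_dvd_of_dvd_mul hp hc1 (hg _ h3)
    have h6 : s ≤ t2 := (pow_dvd_pow_iff hpp.ne_zero hpp.not_isUnit).1 h5
    omega
  · -- `h - c g`
    have hx : (p : ℤ) ^ t1 ∣ (U *ᵥ (h - c • g)) j := by
      rw [mulVec_sub, mulVec_smul, Pi.sub_apply, Pi.smul_apply, smul_eq_mul]
      exact hc
    obtain ⟨y, hy⟩ := key (h - c • g) t2 le_rfl (Dvd.dvd.mul_left hx _)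
    have h3 : ((p : ℤ) ^ t2 * c * c1) • g ∈ L := by
      have h4 : ((p : ℤ) ^ t2 * c * c1) • g = ((p : ℤ) ^ t2 * c1) • h - W *ᵥ y := by
        rw [← hy, smul_sub, smul_smul]
        rw [show (p : ℤ) ^ t2 * c * c1 = (p : ℤ) ^ t2 * c1 * c by ring]
        abel
      rw [h4]
      exact L.sub_mem (L.smul_mem _ hh) (hM y)
    have h5 := pow_dvd_of_dvd_mul hp hc1 (hg _ h3)
    by_cases hs : s ≤ t2
    · omega
    have h6 : (p : ℤ) ^ (s - t2) ∣ c := by
      have h7 : (p : ℤ) ^ t2 * (p : ℤ) ^ (s - t2) ∣ (p : ℤ) ^ t2 * c := by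
        rw [← pow_add, show t2 + (s - t2) = s by omega]
        exact h5
      exact (mul_dvd_mul_iff_left (pow_ne_zero _ hpp.ne_zero)).1 h7
    obtain ⟨k, hk⟩ : ∃ k, k = max t2 (t1 - (s - t2)) := ⟨_, rfl⟩
    have hk2 : t2 ≤ k := hk ▸ le_max_left _ _
    have hk1 : t1 - (s - t2) ≤ k := hk ▸ le_max_right _ _
    obtain ⟨y1, hy1⟩ := key (h - c • g) k hk2 (Dvd.dvd.mul_left hx _)
    obtain ⟨y2, hy2⟩ := key (c • g) k hk2 (by
      rw [mulVec_smul, Pi.smul_apply, smul_eq_mul, ← mul_assoc]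
      apply Dvd.dvd.mul_right
      refine (pow_dvd_pow (p : ℤ) (show t1 ≤ k + (s - t2) by omega)).trans ?_
      rw [pow_add]
      exact mul_dvd_mul_left _ h6)
    have h7 := hh' ((p : ℤ) ^ k * c1) ⟨y1 + y2, by
      rw [mulVec_add, ← hy1, ← hy2, ← smul_add, sub_add_cancel]⟩
    have h8 := pow_dvd_of_dvd_mul hp hc1 h7
    have h9 : s ≤ k := (pow_dvd_pow_iff hpp.ne_zero hpp.not_isUnit).1 h8
    rw [hk] at h9
    rcases le_max_iff.1 h9 with h10 | h10
    · omega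
    · omega

/-- the level of a rational matrix -/
noncomputable def level {n : ℕ} (Q : Matrix (Fin n) (Fin n) ℚ) : ℕ :=
  sInf {k : ℕ | 0 < k ∧ ∀ i j, ∃ z : ℤ, (k : ℚ) * Q i j = z}

section Level

variable {n : ℕ} {Q : Matrix (Fin n) (Fin n) ℚ}

lemma level_spec (Q : Matrix (Fin n) (Fin n) ℚ) :
    0 < level Q ∧ ∀ i j, ∃ z : ℤ, (level Q : ℚ) * Q i j = z := by
  apply Nat.sInf_mem (s := {k : ℕ | 0 < k ∧ ∀ i j, ∃ z : ℤ, (k : ℚ) * Q i j = z})
  refine ⟨∏ i, ∏ j, (Q i j).den, Finset.prod_pos fun i _ => Finset.prod_pos fun j _ =>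
    (Q i j).den_pos, fun i j => ?_⟩
  have h1 : (Q i j).den ∣ ∏ i, ∏ j, (Q i j).den :=
    (Finset.dvd_prod_of_mem (fun j => (Q i j).den) (Finset.mem_univ j)).trans
      (Finset.dvd_prod_of_mem (fun i => ∏ j, (Q i j).den) (Finset.mem_univ i))
  obtain ⟨c, hc⟩ := h1
  refine ⟨c * (Q i j).num, ?_⟩
  rw [hc]
  push_cast
  have h2 : ((Q i j).den : ℚ) * Q i j = (Q i j).num := Rat.den_mul_eq_num _
  rw [mul_comm ((Q i j).den : ℚ), mul_assoc, h2]

lemma level_dvd (m : ℤ) (hm : ∀ i j, ∃ z : ℤ, (m : ℚ) * Q i j = z) : (level Q : ℤ) ∣ m := by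
  obtain ⟨hpos, hint⟩ := level_spec Q
  have hpos' : (0 : ℤ) < level Q := by exact_mod_cast hpos
  by_contra hnd
  have h1 : 0 < m % level Q := by
    rcases (Int.emod_nonneg m hpos'.ne').lt_or_eq with h | h
    · exact h
    · exact absurd (Int.dvd_of_emod_eq_zero h.symm) hnd
  have h2 : m % level Q < level Q := Int.emod_lt_of_pos _ hpos'
  obtain ⟨k, hk⟩ : ∃ k : ℕ, (k : ℤ) = m % level Q := ⟨(m % level Q).toNat, Int.toNat_of_nonneg h1.le⟩
  have h3 : level Q ≤ k := by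
    apply Nat.sInf_le
    refine ⟨by omega, fun i j => ?_⟩
    obtain ⟨z, hz⟩ := hm i j
    obtain ⟨w, hw⟩ := hint i j
    refine ⟨z - w * (m / level Q), ?_⟩
    have h4 : (k : ℚ) = m - level Q * ((m / level Q : ℤ) : ℚ) := by
      have h5 : (k : ℤ) = m - level Q * (m / level Q) := by
        rw [hk, Int.emod_def]
      exact_mod_cast h5
    rw [h4]
    push_cast
    rw [← hz, ← hw]
    ring
  omega

lemma level_dvd_det {A B : Matrix (Fin n) (Fin n) ℤ} {e e' : Fin n → ℤ}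
    (hA : Aᵀ = A) (hW : (walk A e).det ≠ 0) (hn : 0 < n)
    (hQ : Qᵀ * Q = 1) (hB : Qᵀ * q A * Q = q B)
    (he : Qᵀ *ᵥ (fun i => (e i : ℚ)) = fun i => (e' i : ℚ)) :
    (level Q : ℤ) ∣ (walk A e).det := by
  apply level_dvd
  apply main_a hA hW hn hQ hB he
  intro x hx _
  obtain ⟨z, rfl⟩ := hx.exists
  refine ⟨(walk A e).adjugate *ᵥ z, ?_⟩
  rw [q_mulVec, mulVec_mulVec, mul_adjugate]
  funext i
  rw [smul_mulVec, one_mulVec]
  simp

/-- the submodule of integral vectors with integral image under `Qᵀ` -/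
def lat (Q : Matrix (Fin n) (Fin n) ℚ) : Submodule ℤ (Fin n → ℤ) where
  carrier := {x | IsInt (Qᵀ *ᵥ (fun i => (x i : ℚ)))}
  add_mem' := by
    intro a b ha hb
    have h : (fun i => ((a + b) i : ℚ)) = (fun i => (a i : ℚ)) + fun i => (b i : ℚ) := by
      funext i; simp
    change IsInt _
    rw [h, mulVec_add]
    exact IsInt.add ha hb
  zero_mem' := by
    intro i
    exact ⟨0, by simp [mulVec, dotProduct]⟩
  smul_mem' := by
    intro c a ha
    have h : (fun i => ((c • a) i : ℚ)) = (c : ℚ) • (fun i => (a i : ℚ)) := by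
      funext i; simp
    change IsInt _
    rw [h, mulVec_smul]
    exact IsInt.smul ha c

lemma mem_lat (x : Fin n → ℤ) : x ∈ lat Q ↔ IsInt (Qᵀ *ᵥ (fun i => (x i : ℚ))) := Iff.rfl

theorem level_bound {A B : Matrix (Fin n) (Fin n) ℤ} {e e' : Fin n → ℤ}
    (hA : Aᵀ = A) (hW : (walk A e).det ≠ 0)
    (hQ : Qᵀ * Q = 1) (hB : Qᵀ * q A * Q = q B)
    (he : Qᵀ *ᵥ (fun i => (e i : ℚ)) = fun i => (e' i : ℚ))
    (U V : Matrix (Fin n) (Fin n) ℤ) (d : Fin n → ℕ) (hU : IsUnit U.det)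
    (hd : U * walk A e * V = diagonal fun i => (d i : ℤ)) (i j : Fin n) (hi : (i : ℕ) + 2 = n)
    (hj : (j : ℕ) + 1 = n) (hdi : ∀ k, k ≤ i → d k ∣ d i) (hdj : d i ∣ d j) (hdj0 : d j ≠ 0)
    {p : ℕ} (hp : p.Prime) :
    2 * padicValNat p (level Q) ≤ padicValNat p (d i) + padicValNat p (d j) := by
  have := Fact.mk hp
  have hn : 0 < n := by omega
  have hpp : Prime (p : ℤ) := Nat.prime_iff_prime_int.1 hp
  have hW2 := conj_walk hQ hB he
  obtain ⟨hlpos, hlint⟩ := level_spec Q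
  -- decompositions
  have dec : ∀ m : ℕ, m ≠ 0 → ∃ c : ℕ, ¬ p ∣ c ∧ m = p ^ padicValNat p m * c := by
    intro m hm
    obtain ⟨r, c, hc, hmc⟩ := Nat.exists_eq_pow_mul_and_not_dvd hm p hp.ne_one
    have h1 : padicValNat p m = r := by
      have hc0 : c ≠ 0 := by
        rintro rfl
        exact hc (dvd_zero p)
      rw [hmc, padicValNat.mul (pow_ne_zero _ hp.ne_zero) hc0, padicValNat.prime_pow,
        padicValNat.eq_zero_of_not_dvd hc, add_zero]
    exact ⟨c, hc, by rw [h1]; exact hmc⟩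
  have hdi0 : d i ≠ 0 := by
    intro h
    rw [h, zero_dvd_iff] at hdj
    exact hdj0 hdj
  obtain ⟨c1, hc1, h1⟩ := dec (d j) hdj0
  obtain ⟨c2, hc2, h2⟩ := dec (d i) hdi0
  obtain ⟨cl, hcl, hl⟩ := dec (level Q) hlpos.ne'
  obtain ⟨cD, hcD, hD⟩ := dec (walk A e).det.natAbs (Int.natAbs_ne_zero.2 hW)
  obtain ⟨s, hs⟩ : ∃ s, s = padicValNat p (level Q) := ⟨_, rfl⟩
  obtain ⟨r, hr⟩ : ∃ r, r = padicValNat p (walk A e).det.natAbs := ⟨_, rfl⟩
  rw [← hs] at hl ⊢
  rw [← hr] at hD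
  rcases Nat.eq_zero_or_pos s with hs0 | hs0
  · rw [hs0]; omega
  have ht : padicValNat p (d i) ≤ padicValNat p (d j) := by
    obtain ⟨k, hk⟩ := hdj
    have hk0 : k ≠ 0 := by rintro rfl; exact hdj0 (by rw [hk, mul_zero])
    rw [hk, padicValNat.mul hdi0 hk0]
    omega
  -- an integral vector far from the lattice
  have hg : ∃ g : Fin n → ℤ, ∀ α : ℤ, α • g ∈ lat Q → (p : ℤ) ^ s ∣ α := by
    by_contra hcon
    push Not at hcon
    have h3 : ∀ i, ((p : ℤ) ^ (s - 1) * cl) • (Pi.single i 1 : Fin n → ℤ) ∈ lat Q := by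
      intro i
      obtain ⟨α, hα, hnα⟩ := hcon (Pi.single i 1)
      refine drop (lat Q) _ hp s s cl α hnα hα ?_
      have h4 : (p : ℤ) ^ s * cl = (level Q : ℤ) := by
        rw [hl]; push_cast; rfl
      rw [h4, mem_lat]
      intro j
      obtain ⟨z, hz⟩ := hlint i j
      refine ⟨z, ?_⟩
      rw [← hz]
      have h5 : (fun k => (((level Q : ℤ) • (Pi.single i 1 : Fin n → ℤ)) k : ℚ)) =
          (level Q : ℚ) • (Pi.single i (1 : ℚ) : Fin n → ℚ) := by
        funext k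
        by_cases hk : k = i
        · subst hk; simp
        · simp [Pi.single_eq_of_ne hk]
      rw [h5, mulVec_smul, Pi.smul_apply, smul_eq_mul]
      simp
    have h6 : (level Q : ℤ) ∣ (p : ℤ) ^ (s - 1) * cl := by
      apply level_dvd
      intro i j
      obtain ⟨z, hz⟩ := h3 i j
      refine ⟨z, ?_⟩
      rw [← hz]
      have h5 : (fun k => ((((p : ℤ) ^ (s - 1) * cl) • (Pi.single i 1 : Fin n → ℤ)) k : ℚ)) =
          (((p : ℤ) ^ (s - 1) * cl : ℤ) : ℚ) • (Pi.single i (1 : ℚ) : Fin n → ℚ) := by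
        funext k
        by_cases hk : k = i
        · subst hk; simp
        · simp [Pi.single_eq_of_ne hk]
      rw [h5, mulVec_smul, Pi.smul_apply, smul_eq_mul]
      simp
    have h7 : (p : ℤ) ^ s ∣ (p : ℤ) ^ (s - 1) * cl := by
      refine Dvd.dvd.trans ?_ h6
      rw [hl]
      push_cast
      exact Dvd.intro _ rfl
    have h8 := pow_dvd_of_dvd_mul hp (by exact_mod_cast hcl) h7
    have h9 := (pow_dvd_pow_iff hpp.ne_zero hpp.not_isUnit).1 h8
    omega
  -- a lattice vector far from the walk lattice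
  have hh : ∃ h : Fin n → ℤ, h ∈ lat Q ∧
      ∀ β : ℤ, (∃ y, β • h = walk A e *ᵥ y) → (p : ℤ) ^ s ∣ β := by
    by_contra hcon
    push Not at hcon
    have h3 : (level Q : ℤ) ∣ (p : ℤ) ^ (s - 1) * cD := by
      apply level_dvd
      apply main_a hA hW hn hQ hB he
      intro x hx hx'
      obtain ⟨x, rfl⟩ := hx.exists
      obtain ⟨β, ⟨y, hy⟩, hβ⟩ := hcon ((cD : ℤ) • x) ((lat Q).smul_mem _ ((mem_lat x).2 hx'))
      have h4 := drop (LinearMap.range (Matrix.mulVecLin (walk A e))) ((cD : ℤ) • x) hp s r 1 β hβ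
        ⟨y, hy.symm⟩ (by
          rw [mul_one, smul_smul]
          have h5 : (p : ℤ) ^ r * cD = ((walk A e).det.natAbs : ℤ) := by
            rw [hD]; push_cast; rfl
          rw [h5, Int.natCast_natAbs]
          have h6 : ∃ ε : ℤ, |(walk A e).det| = (walk A e).det * ε := by
            rcases abs_choice (walk A e).det with h | h
            · exact ⟨1, by rw [h, mul_one]⟩
            · exact ⟨-1, by rw [h]; ring⟩
          obtain ⟨ε, hε⟩ := h6
          refine ⟨(walk A e).adjugate *ᵥ (ε • x), ?_⟩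
          rw [mulVecLin_apply, mulVec_mulVec, mul_adjugate, smul_mulVec, one_mulVec, hε, smul_smul])
      obtain ⟨w, hw⟩ := h4
      rw [mulVecLin_apply, mul_one, smul_smul] at hw
      refine ⟨w, ?_⟩
      rw [q_mulVec, hw]
      funext k
      simp
    have h7 : (p : ℤ) ^ s ∣ (p : ℤ) ^ (s - 1) * cD := by
      refine Dvd.dvd.trans ?_ h3
      rw [hl]
      push_cast
      exact Dvd.intro _ rfl
    have h8 := pow_dvd_of_dvd_mul hp (by exact_mod_cast hcD) h7
    have h9 := (pow_dvd_pow_iff hpp.ne_zero hpp.not_isUnit).1 h8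
    omega
  obtain ⟨g, hg⟩ := hg
  obtain ⟨h, hh, hh'⟩ := hh
  have hM : ∀ y, walk A e *ᵥ y ∈ lat Q := by
    intro y
    rw [mem_lat, ← q_mulVec, mulVec_mulVec, hW2]
    exact isInt_mulVec _ (isInt_cast y)
  have := arith (walk A e) U V (fun i => (d i : ℤ)) hU hd i j hi hj
    (fun k hk => Int.natCast_dvd_natCast.2 (hdi k hk)) (Int.natCast_dvd_natCast.2 hdj) hp
    (padicValNat p (d j)) (padicValNat p (d i)) c1 c2
    (by exact_mod_cast h1) (by exact_mod_cast h2)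
    (by exact_mod_cast hc1) (by exact_mod_cast hc2) ht s (lat Q) hM g h hg hh hh'
  omega

end Level

end Pool.Agent.R1.WalkLevel
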